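import Mathlib

/-!
# Distinguishing extension number of the plane, part A

Finite sets `F ∪ S` cannot all be rotationally symmetric (third order moments).
-/

namespace Pool.Agent.R174.Ext

open ComplexConjugate

/-- The third order moment relation for a finite set invariant under a rotation. -/
lemma moment_eq (B : Finset ℂ) (u b h : ℂ) (hu : ‖u‖ = 1) (hu1 : u ≠ 1)
    (hinv : ∀ z, u * z + b ∈ B ↔ z ∈ B) :
    (B.card : ℂ) ^ 2 * (∑ z ∈ B, (z - h) ^ 2 * conj (z - h))
      - B.card * conj (∑ z ∈ B, (z - h)) * (∑ z ∈ B, (z - h) ^ 2)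
      - 2 * B.card * (∑ z ∈ B, (z - h)) * (∑ z ∈ B, (z - h) * conj (z - h))
      + 2 * (∑ z ∈ B, (z - h)) ^ 2 * conj (∑ z ∈ B, (z - h)) = 0 := by
  classical
  have hu0 : u ≠ 0 := by
    intro h0; simp [h0] at hu
  have huu : u * conj u = 1 := by
    rw [Complex.mul_conj, Complex.normSq_eq_norm_sq, hu]; simp
  have hsum : ∀ f : ℂ → ℂ, ∑ z ∈ B, f (u * z + b) = ∑ z ∈ B, f z := by
    intro f
    refine Finset.sum_nbij' (fun z => u * z + b) (fun z => (z - b) / u) ?_ ?_ ?_ ?_ ?_
    · intro z hz; exact (hinv z).2 hz
    · intro z hz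
      have : u * ((z - b) / u) + b = z := by field_simp; ring
      rw [← hinv, this]; exact hz
    · intro z _; field_simp; ring
    · intro z _; field_simp; ring
    · intro z _; rfl
  set m : ℂ := (B.card : ℂ) with hm
  set s : ℂ := ∑ z ∈ B, (z - h) with hs
  have hs1 : s = u * s + m * (b + u * h - h) := by
    have h1 := hsum (fun z => z - h)
    have h2 : ∑ z ∈ B, (u * z + b - h) = u * s + m * (b + u * h - h) := by
      rw [hs, Finset.mul_sum, hm, ← nsmul_eq_mul, ← Finset.sum_const, ← Finset.sum_add_distrib]
      refine Finset.sum_congr rfl fun z _ => ?_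
      ring
    rw [← h2, h1]
  have ht : ∀ z, m * ((u * z + b) - h) - s = u * (m * (z - h) - s) := by
    intro z
    linear_combination -hs1
  have hT : ∑ z ∈ B, (m * (z - h) - s) ^ 2 * conj (m * (z - h) - s) = 0 := by
    have h1 := hsum (fun z => (m * (z - h) - s) ^ 2 * conj (m * (z - h) - s))
    have h2 : ∑ z ∈ B, (m * ((u * z + b) - h) - s) ^ 2 * conj (m * ((u * z + b) - h) - s)
        = u * ∑ z ∈ B, (m * (z - h) - s) ^ 2 * conj (m * (z - h) - s) := by
      rw [Finset.mul_sum]
      refine Finset.sum_congr rfl fun z _ => ?_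
      rw [ht, map_mul]
      linear_combination (u * (m * (z - h) - s) ^ 2 * conj (m * (z - h) - s)) * huu
    have h3 : (u - 1) * ∑ z ∈ B, (m * (z - h) - s) ^ 2 * conj (m * (z - h) - s) = 0 := by
      linear_combination h1 - h2
    exact (mul_eq_zero.1 h3).resolve_left (sub_ne_zero.2 hu1)
  have hcm : conj m = m := by rw [hm]; simp
  have hexp : ∑ z ∈ B, (m * (z - h) - s) ^ 2 * conj (m * (z - h) - s)
      = m * (m ^ 2 * (∑ z ∈ B, (z - h) ^ 2 * conj (z - h))
      - m * conj s * (∑ z ∈ B, (z - h) ^ 2)
      - 2 * m * s * (∑ z ∈ B, (z - h) * conj (z - h))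
      + 2 * s ^ 2 * conj s) := by
    have e1 : ∀ z, (m * (z - h) - s) ^ 2 * conj (m * (z - h) - s)
        = m ^ 3 * ((z - h) ^ 2 * conj (z - h)) - m ^ 2 * conj s * (z - h) ^ 2
          - 2 * m ^ 2 * s * ((z - h) * conj (z - h)) + 2 * m * s * conj s * (z - h)
          + m * s ^ 2 * conj (z - h) - s ^ 2 * conj s := by
      intro z
      rw [map_sub, map_mul, hcm]
      ring
    have e2 : ∑ z ∈ B, conj (z - h) = conj s := by rw [hs, map_sum]
    rw [Finset.sum_congr rfl fun z _ => e1 z]
    rw [Finset.sum_sub_distrib, Finset.sum_add_distrib, Finset.sum_add_distrib,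
      Finset.sum_sub_distrib, Finset.sum_sub_distrib]
    simp only [← Finset.mul_sum]
    rw [e2, ← hs, Finset.sum_const, nsmul_eq_mul, ← hm]
    ring
  rw [hexp] at hT
  rcases mul_eq_zero.1 hT with h0 | h0
  · have hB : B = ∅ := by
      rw [hm] at h0
      exact Finset.card_eq_zero.1 (by exact_mod_cast h0)
    have : s = 0 := by rw [hs, hB]; simp
    rw [h0, this]; simp
  · exact h0

/-- The relation satisfied by two added points. -/
def Pr (N : ℝ) (x y : ℂ) : Prop :=
  ((N : ℂ) + 2) * (x ^ 2 * conj x + y ^ 2 * conj y)
    = N * (conj x * y ^ 2 + conj y * x ^ 2 + 2 * x * y * conj x + 2 * x * y * conj y)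

lemma type_of_ratio (N : ℝ) (hN : 2 ≤ N) (l : ℂ)
    (h : ((N : ℂ) + 2) * (1 + l ^ 2 * conj l)
      = N * (l ^ 2 + conj l + 2 * l + 2 * (l * conj l))) :
    l = -1 ∨ (l.im = 0 ∧ (N + 2) * l.re ^ 2 - (4 * N + 2) * l.re + (N + 2) = 0) ∨
      (l.im ≠ 0 ∧ N * l.re = 1 ∧ l.re ^ 2 + l.im ^ 2 = 1) := by
  have hre := congrArg Complex.re h
  have him := congrArg Complex.im h
  simp [pow_two] at hre him
  set a := l.re with ha
  set b := l.im with hb
  by_cases hb0 : b = 0
  · rw [hb0] at hre
    have h1 : (1 + a) * ((N + 2) * a ^ 2 - (4 * N + 2) * a + (N + 2)) = 0 := by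
      ring_nf at hre ⊢
      linarith
    rcases mul_eq_zero.1 h1 with h2 | h2
    · left
      apply Complex.ext
      · simp; linarith
      · simpa using hb0
    · right; left
      exact ⟨hb0, h2⟩
  · right; right
    have e1 : (N + 2) * (a ^ 2 + b ^ 2) = N * (2 * a + 1) := by
      have : b * ((N + 2) * (a ^ 2 + b ^ 2)) = b * (N * (2 * a + 1)) := by
        ring_nf at him ⊢
        linarith
      exact mul_left_cancel₀ hb0 this
    have e2 : (N + 2) * (1 + (a ^ 2 + b ^ 2) * a) = N * (3 * a ^ 2 + b ^ 2 + 3 * a) := by
      ring_nf at hre ⊢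
      linarith
    have e3 : N * (a ^ 2 + b ^ 2 + 2 * a) = N + 2 := by
      linear_combination -e2 + a * e1
    have e4 : (2 * N + 2) * (a ^ 2 + b ^ 2) = 2 * N + 2 := by
      linear_combination e1 + e3
    have e5 : a ^ 2 + b ^ 2 = 1 := by
      have h2 : (2 * N + 2) ≠ 0 := by linarith
      have : (2 * N + 2) * (a ^ 2 + b ^ 2) = (2 * N + 2) * 1 := by linarith
      exact mul_left_cancel₀ h2 this
    refine ⟨hb0, ?_, e5⟩
    rw [e5] at e3
    linarith

/-- No three distinct nonzero points satisfy the pair relation. -/
lemma no_three (N : ℝ) (hN : 2 ≤ N) (x y z : ℂ) (hx : x ≠ 0) (hy : y ≠ 0)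
    (hxy : x ≠ y) (hxz : x ≠ z) (hyz : y ≠ z) (h1 : Pr N x y) (h2 : Pr N x z) (h3 : Pr N y z) :
    False := by
  have key : ∀ p q : ℂ, p ≠ 0 → Pr N p q →
      ((N : ℂ) + 2) * (1 + (q / p) ^ 2 * conj (q / p))
      = N * ((q / p) ^ 2 + conj (q / p) + 2 * (q / p) + 2 * ((q / p) * conj (q / p))) := by
    intro p q hp h
    have hq : q = (q / p) * p := by field_simp
    set r := q / p with hr
    unfold Pr at h
    rw [hq, map_mul] at h
    have hpp : p ^ 2 * conj p ≠ 0 :=
      mul_ne_zero (pow_ne_zero _ hp) ((map_ne_zero _).2 hp)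
    apply mul_left_cancel₀ hpp
    linear_combination h
  have hN0 : (0 : ℝ) < N := by linarith
  have t1 := type_of_ratio N hN _ (key x y hx h1)
  have t2 := type_of_ratio N hN _ (key x z hx h2)
  have t3 := type_of_ratio N hN _ (key y z hy h3)
  have hprod : (y / x) * (z / y) = z / x := by field_simp
  have hl1 : y / x ≠ 1 := fun h => hxy ((div_eq_one_iff_eq hx).1 h).symm
  have hm1 : z / x ≠ 1 := fun h => hxz ((div_eq_one_iff_eq hx).1 h).symm
  have hlm : y / x ≠ z / x := by
    intro h
    exact hyz (by field_simp at h; exact h)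
  generalize y / x = l at *
  generalize z / x = m at *
  generalize z / y = k at *
  have pr := congrArg Complex.re hprod
  have pi := congrArg Complex.im hprod
  rw [Complex.mul_re] at pr
  rw [Complex.mul_im] at pi
  have ext1 : ∀ w : ℂ, w.re = 1 → w.im = 0 → w = 1 := fun w h h' => Complex.ext (by simpa using h) (by simpa using h')
  have posR : ∀ a : ℝ, (N + 2) * a ^ 2 - (4 * N + 2) * a + (N + 2) = 0 → 0 < a := by
    intro a ha
    by_contra hneg
    push Not at hneg
    nlinarith [sq_nonneg a]
  rcases t1 with rfl | ⟨lb, la⟩ | ⟨lb, la, lc⟩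
  · simp at pr pi
    rcases t2 with rfl | ⟨mb, ma⟩ | ⟨mb, ma, mc⟩
    · exact hlm rfl
    · have hc := posR _ ma
      rcases t3 with rfl | ⟨kb, ka⟩ | ⟨kb, ka, kc⟩
      · apply hm1; rw [← hprod]; norm_num
      · have := posR _ ka
        linarith
      · apply kb; linarith
    · rcases t3 with rfl | ⟨kb, ka⟩ | ⟨kb, ka, kc⟩
      · apply hm1; rw [← hprod]; norm_num
      · apply mb; linarith
      · rw [← pr] at ma
        linarith
  · have ha := posR _ la
    rw [lb] at pr pi
    rcases t2 with rfl | ⟨mb, ma⟩ | ⟨mb, ma, mc⟩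
    · simp at pr pi
      have hk0 : k.im = 0 := by
        rcases pi with h | h
        · linarith
        · exact h
      rcases t3 with rfl | ⟨kb, ka⟩ | ⟨kb, ka, kc⟩
      · apply hl1
        apply ext1 _ _ lb
        simp at pr; linarith
      · have := posR _ ka
        nlinarith
      · exact kb hk0
    · have hc := posR _ ma
      rw [mb] at pi
      have hk0 : k.im = 0 := by
        have : l.re * k.im = 0 := by linarith
        rcases mul_eq_zero.1 this with h | h
        · linarith
        · exact h
      rcases t3 with rfl | ⟨kb, ka⟩ | ⟨kb, ka, kc⟩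
      · simp at pr; linarith
      · have hac : l.re ≠ m.re := by
          intro h
          exact hlm (Complex.ext h (by rw [lb, mb]))
        have e1 : (N + 2) * (l.re + m.re) = 4 * N + 2 := by
          have : (l.re - m.re) * ((N + 2) * (l.re + m.re)) = (l.re - m.re) * (4 * N + 2) := by
            linear_combination la - ma
          exact mul_left_cancel₀ (sub_ne_zero.2 hac) this
        have e2 : l.re * m.re = 1 := by
          have : (N + 2) * (l.re * m.re) = (N + 2) * 1 := by
            linear_combination -la + l.re * e1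
          exact mul_left_cancel₀ (by linarith) this
        have e3 : k.re = m.re ^ 2 := by
          have : l.re * k.re = l.re * m.re ^ 2 := by
            have h5 : l.re * k.re = m.re := by linarith
            rw [h5]; linear_combination -m.re * e2
          exact mul_left_cancel₀ ha.ne' this
        rw [e3] at ka
        have e4 : (m.re - 1) * (m.re ^ 3 - 1) = 0 := by
          have : (N + 2) * ((m.re - 1) * (m.re ^ 3 - 1)) = (N + 2) * 0 := by
            linear_combination ka - m.re ^ 2 * e1 + (N + 2) * m.re * e2
          exact mul_left_cancel₀ (by linarith) this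
        have e5 : m.re = 1 := by
          rcases mul_eq_zero.1 e4 with h | h
          · linarith
          · have : (m.re - 1) * (m.re ^ 2 + m.re + 1) = 0 := by linear_combination h
            rcases mul_eq_zero.1 this with h | h
            · linarith
            · nlinarith
        exact hm1 (ext1 _ e5 mb)
      · exact kb hk0
    · have hf : k.im ≠ 0 := by
        intro h
        apply mb
        rw [h] at pi
        linarith
      rcases t3 with rfl | ⟨kb, ka⟩ | ⟨kb, ka, kc⟩
      · simp at hf
      · exact hf kb
      · have e1 : l.re ^ 2 = 1 := by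
          have h1 : l.re * k.re = m.re := by linarith
          have h2 : l.re * k.im = m.im := by linarith
          rw [← h1, ← h2] at mc
          linear_combination mc - l.re ^ 2 * kc
        have e2 : l.re = 1 := by nlinarith
        exact hl1 (ext1 _ e2 lb)
  · have ha : 0 < l.re := by
      by_contra h
      push Not at h
      nlinarith
    rcases t2 with rfl | ⟨mb, ma⟩ | ⟨mb, ma, mc⟩
    · simp at pr pi
      have hk1 : k.re = - l.re := by
        linear_combination l.re * pr + l.im * pi - k.re * lc
      have hk2 : k.im = l.im := by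
        linear_combination l.re * pi - l.im * pr - k.im * lc
      rcases t3 with rfl | ⟨kb, ka⟩ | ⟨kb, ka, kc⟩
      · simp at hk2
        exact lb hk2.symm
      · apply lb; linarith
      · rw [hk1] at ka
        linarith
    · have hc := posR _ ma
      rw [mb] at pi
      have hk1 : k.re = m.re * l.re := by
        linear_combination l.re * pr + l.im * pi - k.re * lc
      have hk2 : k.im = - m.re * l.im := by
        linear_combination l.re * pi - l.im * pr - k.im * lc
      have hf : k.im ≠ 0 := by
        rw [hk2]
        exact mul_ne_zero (by linarith) lb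
      rcases t3 with rfl | ⟨kb, ka⟩ | ⟨kb, ka, kc⟩
      · simp at hf
      · exact hf kb
      · have e1 : m.re ^ 2 = 1 := by
          rw [hk1, hk2] at kc
          linear_combination kc - m.re ^ 2 * lc
        have e2 : m.re = 1 := by nlinarith
        exact hm1 (ext1 _ e2 mb)
    · have hac : m.re = l.re := by
        have : N * m.re = N * l.re := by linarith
        exact mul_left_cancel₀ hN0.ne' this
      have hbd : (m.im - l.im) * (m.im + l.im) = 0 := by
        rw [hac] at mc
        linear_combination mc - lc
      have hd : m.im = - l.im := by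
        rcases mul_eq_zero.1 hbd with h | h
        · exact absurd (Complex.ext hac (by linarith)).symm hlm
        · linarith
      rw [hac] at pr
      rw [hd] at pi
      have hk1 : k.re = l.re ^ 2 - l.im ^ 2 := by
        linear_combination l.re * pr + l.im * pi - k.re * lc
      have hk2 : k.im = - 2 * l.re * l.im := by
        linear_combination l.re * pi - l.im * pr - k.im * lc
      have hf : k.im ≠ 0 := by
        rw [hk2]
        exact mul_ne_zero (by linarith) lb
      rcases t3 with rfl | ⟨kb, ka⟩ | ⟨kb, ka, kc⟩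
      · simp at hf
      · exact hf kb
      · have hek : k.re = l.re := by
          have : N * k.re = N * l.re := by linarith
          exact mul_left_cancel₀ hN0.ne' this
        have e1 : (2 * l.re + 1) * (l.re - 1) = 0 := by
          rw [hek] at hk1
          linear_combination -hk1 + lc
        have e2 : l.re = 1 := by
          rcases mul_eq_zero.1 e1 with h | h
          · linarith
          · linarith
        apply lb
        have : l.im ^ 2 = 0 := by rw [e2] at lc; linarith
        exact pow_eq_zero_iff (two_ne_zero) |>.1 this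

end Pool.Agent.R174.Ext
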