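import Pool.Agent.R174.ExtA

/-!
# Distinguishing extension number of the plane, part B

Set-level form of the third-moment argument.
-/

namespace Pool.Agent.R174.Ext

open ComplexConjugate

/-- `B` is invariant under some rotation different from the identity. -/
def RotInv (B : Finset ℂ) : Prop :=
  ∃ u b : ℂ, ‖u‖ = 1 ∧ u ≠ 1 ∧ ∀ z, u * z + b ∈ B ↔ z ∈ B

lemma pair_rel (F : Finset ℂ) (hF : F.Nonempty) (x y : ℂ) (hx : x ∉ F) (hy : y ∉ F) (hxy : x ≠ y)
    (h0 : RotInv F) (h1 : RotInv (insert x F)) (h2 : RotInv (insert y F))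
    (h3 : RotInv (insert x (insert y F))) :
    Pr ((F.card : ℝ) + 1) (x - (∑ z ∈ F, z) / F.card) (y - (∑ z ∈ F, z) / F.card) := by
  classical
  set n : ℂ := (F.card : ℂ) with hn
  have hn0 : n ≠ 0 := by
    rw [hn]; exact_mod_cast hF.card_pos.ne'
  set h : ℂ := (∑ z ∈ F, z) / n with hh
  have hs : ∑ z ∈ F, (z - h) = 0 := by
    rw [Finset.sum_sub_distrib, Finset.sum_const, nsmul_eq_mul, ← hn, hh]
    field_simp
    ring
  obtain ⟨u0, b0, hu0, hu0', hi0⟩ := h0
  obtain ⟨u1, b1, hu1, hu1', hi1⟩ := h1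
  obtain ⟨u2, b2, hu2, hu2', hi2⟩ := h2
  obtain ⟨u3, b3, hu3, hu3', hi3⟩ := h3
  have m0 := moment_eq F u0 b0 h hu0 hu0' hi0
  have m1 := moment_eq _ u1 b1 h hu1 hu1' hi1
  have m2 := moment_eq _ u2 b2 h hu2 hu2' hi2
  have m3 := moment_eq _ u3 b3 h hu3 hu3' hi3
  have hxy' : x ∉ insert y F := by
    simp only [Finset.mem_insert, not_or]; exact ⟨hxy, hx⟩
  rw [Finset.card_insert_of_notMem hx] at m1
  rw [Finset.card_insert_of_notMem hy] at m2
  rw [Finset.card_insert_of_notMem hxy', Finset.card_insert_of_notMem hy] at m3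
  simp only [Finset.sum_insert hx, Finset.sum_insert hy, Finset.sum_insert hxy', hs, map_add,
    map_zero, add_zero, mul_zero, Nat.cast_add, Nat.cast_one, ← hn] at m0 m1 m2 m3
  have hT : ∑ z ∈ F, (z - h) ^ 2 * conj (z - h) = 0 := by
    have : n ^ 2 * ∑ z ∈ F, (z - h) ^ 2 * conj (z - h) = 0 := by
      linear_combination m0
    exact (mul_eq_zero.1 this).resolve_left (pow_ne_zero _ hn0)
  rw [hT] at m1 m2 m3
  unfold Pr
  apply mul_left_cancel₀ hn0
  push_cast
  rw [← hn]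
  linear_combination (n + 1) * m3 - (n + 2) * (m1 + m2)

/-- Finite form of the third moment argument. -/
lemma no_sym (F : Finset ℂ) (hF : F.Nonempty) (x y z : ℂ) (hx : x ∉ F) (hy : y ∉ F) (hz : z ∉ F)
    (hxy : x ≠ y) (hxz : x ≠ z) (hyz : y ≠ z)
    (h : ∀ S ⊆ ({x, y, z} : Finset ℂ), RotInv (S ∪ F)) : False := by
  classical
  have h0 : RotInv F := by simpa using h ∅ (by simp)
  have hone : ∀ a ∈ ({x, y, z} : Finset ℂ), RotInv (insert a F) := by
    intro a ha
    have := h {a} (by simpa using ha)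
    have e : ({a} : Finset ℂ) ∪ F = insert a F := by ext c; simp
    rwa [e] at this
  have htwo : ∀ a ∈ ({x, y, z} : Finset ℂ), ∀ b ∈ ({x, y, z} : Finset ℂ),
      RotInv (insert a (insert b F)) := by
    intro a ha b hb
    have := h {a, b} (by
      intro c hc
      simp only [Finset.mem_insert, Finset.mem_singleton] at hc
      rcases hc with rfl | rfl
      · exact ha
      · exact hb)
    have e : ({a, b} : Finset ℂ) ∪ F = insert a (insert b F) := by
      ext c; simp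
    rwa [e] at this
  have mx : x ∈ ({x, y, z} : Finset ℂ) := by simp
  have my : y ∈ ({x, y, z} : Finset ℂ) := by simp
  have mz : z ∈ ({x, y, z} : Finset ℂ) := by simp
  have p1 := pair_rel F hF x y hx hy hxy h0 (hone x mx) (hone y my) (htwo x mx y my)
  have p2 := pair_rel F hF x z hx hz hxz h0 (hone x mx) (hone z mz) (htwo x mx z mz)
  have p3 := pair_rel F hF y z hy hz hyz h0 (hone y my) (hone z mz) (htwo y my z mz)
  set c : ℂ := (∑ z ∈ F, z) / F.card with hc
  have hn1 : (1 : ℝ) ≤ F.card := by exact_mod_cast hF.card_pos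
  have hN : (2 : ℝ) ≤ (F.card : ℝ) + 1 := by linarith
  have nz : ∀ a b : ℂ, a ≠ b → Pr ((F.card : ℝ) + 1) a b → a ≠ 0 := by
    intro a b hab hp ha
    subst ha
    unfold Pr at hp
    have h2 : (((F.card : ℝ) + 1 : ℝ) : ℂ) + 2 ≠ 0 := by
      have : (((F.card : ℝ) + 1 : ℝ) : ℂ) + 2 = (((F.card : ℝ) + 1 + 2 : ℝ) : ℂ) := by push_cast; ring
      rw [this]
      exact_mod_cast (by linarith : (F.card : ℝ) + 1 + 2 ≠ 0)
    have h3 : b ^ 2 * conj b = 0 := by
      apply mul_left_cancel₀ h2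
      rw [map_zero] at hp
      linear_combination hp
    rcases mul_eq_zero.1 h3 with h4 | h4
    · exact hab (pow_eq_zero_iff (two_ne_zero) |>.1 h4).symm
    · exact hab ((map_eq_zero _).1 h4).symm
  have hxy' : x - c ≠ y - c := fun h => hxy (sub_left_injective h)
  have hxz' : x - c ≠ z - c := fun h => hxz (sub_left_injective h)
  have hyz' : y - c ≠ z - c := fun h => hyz (sub_left_injective h)
  exact no_three _ hN _ _ _ (nz _ _ hxy' p1) (nz _ _ hyz' p3) hxy' hxz' hyz' p1 p2 p3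

/-- The form used below: `A ∪ S` compared with a reference set `R`. -/
lemma no_ref (A R : Set ℂ) (W : Finset ℂ) (hW : W.card = 4) (hA : ∀ w ∈ W, w ∉ A)
    (hfin : {z | ¬ (z ∈ A ↔ z ∈ R)}.Finite)
    (h : ∀ S ⊆ W, ∃ u b : ℂ, ‖u‖ = 1 ∧ u ≠ 1 ∧
      ∀ z, (¬ ((u * z + b ∈ A ∨ u * z + b ∈ S) ↔ u * z + b ∈ R)) ↔
        (¬ ((z ∈ A ∨ z ∈ S) ↔ z ∈ R))) : False := by
  classical
  set F : Finset ℂ := hfin.toFinset \ W with hF
  have hmF : ∀ z, z ∈ F ↔ (¬ (z ∈ A ↔ z ∈ R)) ∧ z ∉ W := by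
    intro z
    rw [hF, Finset.mem_sdiff, Set.Finite.mem_toFinset]
    rfl
  have key : ∀ S ⊆ W, RotInv (S ∪ F) := by
    intro S hS
    obtain ⟨u, b, hu, hu1, hi⟩ := h (W.filter fun w => ¬ (w ∈ S ↔ w ∈ R))
      (Finset.filter_subset _ _)
    refine ⟨u, b, hu, hu1, ?_⟩
    have e : ∀ z, z ∈ S ∪ F ↔
        (¬ ((z ∈ A ∨ z ∈ (W.filter fun w => ¬ (w ∈ S ↔ w ∈ R))) ↔ z ∈ R)) := by
      intro z
      rw [Finset.mem_union, hmF, Finset.mem_filter]
      have h1 := hA z
      have h2 := @hS z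
      by_cases a1 : z ∈ W <;> by_cases a2 : z ∈ S <;> by_cases a3 : z ∈ R <;>
        by_cases a4 : z ∈ A <;> simp_all
    intro z
    rw [e, e]
    exact hi z
  by_cases hne : F.Nonempty
  · obtain ⟨T, hTW, hT⟩ := Finset.exists_subset_card_eq (show 3 ≤ W.card by omega)
    obtain ⟨x, y, z, hxy, hxz, hyz, rfl⟩ := Finset.card_eq_three.1 hT
    have nm : ∀ a ∈ W, a ∉ F := fun a ha haF => ((hmF a).1 haF).2 ha
    exact no_sym F hne x y z (nm x (hTW (by simp))) (nm y (hTW (by simp)))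
      (nm z (hTW (by simp))) hxy hxz hyz fun S hS => key S (hS.trans hTW)
  · rw [Finset.not_nonempty_iff_eq_empty] at hne
    obtain ⟨w, T, hwT, rfl, hT⟩ := (Finset.card_eq_succ (n := 3)).1 hW
    obtain ⟨x, y, z, hxy, hxz, hyz, rfl⟩ := Finset.card_eq_three.1 hT
    have nm : ∀ a ∈ ({x, y, z} : Finset ℂ), a ∉ ({w} : Finset ℂ) := by
      intro a ha haw
      rw [Finset.mem_singleton] at haw
      subst haw
      exact hwT ha
    refine no_sym {w} (by simp) x y z (nm x (by simp)) (nm y (by simp))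
      (nm z (by simp)) hxy hxz hyz fun S hS => ?_
    have := key (insert w S) (Finset.insert_subset_insert _ hS)
    rw [hne, Finset.union_empty] at this
    have e : S ∪ {w} = insert w S := by ext c; simp
    rw [e]; exact this

end Pool.Agent.R174.Ext
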