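import Mathlib

/-!
# Distinguishing extension number of the plane, part C

The case in which every extension is preserved by a half-turn.
-/

namespace Pool.Agent.R174.Ext

open ComplexConjugate

/-- single-point relation after centering -/
lemma single_alg (N q x b h : ℂ) (h1 : b * (N + 1) = 2 * (h * N + (h + x)))
    (h2 : 2 * (3 * h * q + h ^ 3 * N + (h + x) ^ 3)
      = 3 * b * (q + h ^ 2 * N + (h + x) ^ 2) - b ^ 2 * (h * N + (h + x))) (hx : x ≠ 0) :
    N + 1 ≠ 0 ∧ N * (N - 1) * x ^ 2 = 3 * (N + 1) * q := by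
  have e1 : (b - 2 * h) * (N + 1) = 2 * x := by linear_combination h1
  have hb : b = 2 * h + (b - 2 * h) := by ring
  set b' := b - 2 * h with hb'
  rw [hb] at h2
  have e2 : 2 * x ^ 3 = 3 * b' * (q + x ^ 2) - b' ^ 2 * x := by
    linear_combination h2 - (h ^ 2 + b' * h) * e1
  constructor
  · intro h0
    rw [h0] at e1
    apply hx
    linear_combination -e1 / 2
  · have : x * (N * (N - 1) * x ^ 2) = x * (3 * (N + 1) * q) := by
      linear_combination ((N + 1) ^ 2 / 2) * e2 - (1 / 2) * (-3 * (N + 1) * (q + x ^ 2) + x * (b' * (N + 1) + 2 * x)) * e1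
    exact mul_left_cancel₀ hx this

/-- pair relation in the case `N = 1`, `q = 0` -/
lemma pair_alg (x y b h : ℂ) (h1 : b * (1 + 2) = 2 * (h * 1 + (h + x) + (h + y)))
    (h2 : 2 * (3 * h * 0 + h ^ 3 * 1 + (h + x) ^ 3 + (h + y) ^ 3)
      = 3 * b * (0 + h ^ 2 * 1 + (h + x) ^ 2 + (h + y) ^ 2)
        - b ^ 2 * (h * 1 + (h + x) + (h + y))) :
    y = -x ∨ y = 2 * x ∨ x = 2 * y := by
  have hb : b = 2 * h + 2 / 3 * (x + y) := by linear_combination (1 / 3) * h1
  rw [hb] at h2
  have e : (x + y) * ((2 * x - y) * (x - 2 * y)) = 0 := by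
    linear_combination (9 / 2) * h2
  rcases mul_eq_zero.1 e with e | e
  · left; linear_combination e
  · rcases mul_eq_zero.1 e with e | e
    · right; left; linear_combination -e
    · right; right; linear_combination e

lemma three_alg (x y z : ℂ) (hx : x ≠ 0) (hy : y ≠ 0) (hz : z ≠ 0) (hxy : x ≠ y) (hxz : x ≠ z)
    (hyz : y ≠ z) (h1 : y = -x ∨ y = 2 * x ∨ x = 2 * y) (h2 : z = -x ∨ z = 2 * x ∨ x = 2 * z)
    (h3 : z = -y ∨ z = 2 * y ∨ y = 2 * z) : False := by
  have conv : ∀ p q : ℂ, (q = -p ∨ q = 2 * p ∨ p = 2 * q) →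
      ∃ c : ℂ, q = c * p ∧ (c = -1 ∨ c = 2 ∨ c = 1 / 2) := by
    rintro p q (h | h | h)
    · exact ⟨-1, by rw [h]; ring, by simp⟩
    · exact ⟨2, h, by simp⟩
    · exact ⟨1 / 2, by rw [h]; ring, by simp⟩
  obtain ⟨a, ha, ca⟩ := conv _ _ h1
  obtain ⟨b, hb, cb⟩ := conv _ _ h2
  obtain ⟨c, hc, cc⟩ := conv _ _ h3
  have hab : a ≠ b := by
    rintro rfl
    exact hyz (ha.trans hb.symm)
  have hcab : c * a = b := by
    apply mul_right_cancel₀ hx
    rw [← hb, hc, ha]; ring
  rcases ca with rfl | rfl | rfl <;> rcases cb with rfl | rfl | rfl <;>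
    rcases cc with rfl | rfl | rfl <;> first | exact hab rfl | (revert hcab; norm_num)

/-- Algebraic core: the base numbers of a set whose one- and two-point enlargements are
all symmetric force `N = 0`. -/
lemma base_alg (N p1 p2 p3 a : ℂ) (ha1 : a * N = 2 * p1) (ha2 : 2 * p3 = 3 * a * p2 - a ^ 2 * p1)
    (w : Fin 3 → ℂ) (hw : Function.Injective w) (hwa : ∀ i, w i ≠ a / 2)
    (hs : ∀ i, ∃ b, b * (N + 1) = 2 * (p1 + w i) ∧
      2 * (p3 + w i ^ 3) = 3 * b * (p2 + w i ^ 2) - b ^ 2 * (p1 + w i))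
    (hp : ∀ i j, i ≠ j → ∃ b, b * (N + 2) = 2 * (p1 + w i + w j) ∧
      2 * (p3 + w i ^ 3 + w j ^ 3) = 3 * b * (p2 + w i ^ 2 + w j ^ 2)
        - b ^ 2 * (p1 + w i + w j)) : N = 0 := by
  obtain ⟨h, rfl⟩ : ∃ h, a = 2 * h := ⟨a / 2, by ring⟩
  have hp1 : p1 = h * N := by linear_combination -ha1 / 2
  obtain ⟨q, hq⟩ : ∃ q, p2 = q + h ^ 2 * N := ⟨p2 - h ^ 2 * N, by ring⟩
  have hp3 : p3 = 3 * h * q + h ^ 3 * N := by
    rw [hp1, hq] at ha2
    linear_combination ha2 / 2
  subst hp1 hq hp3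
  have hx0 : ∀ i, w i - h ≠ 0 := by
    intro i h0
    apply hwa i
    linear_combination h0
  have S : ∀ i, N + 1 ≠ 0 ∧ N * (N - 1) * (w i - h) ^ 2 = 3 * (N + 1) * q := by
    intro i
    obtain ⟨b, e1, e2⟩ := hs i
    refine single_alg N q (w i - h) b h ?_ ?_ (hx0 i)
    · linear_combination e1
    · linear_combination e2
  have hd : ∀ i j, i ≠ j → w i - h ≠ w j - h := fun i j hij e => hij (hw (sub_left_injective e))
  have hNN : N * (N - 1) = 0 := by
    by_contra hne
    have sq : ∀ i j, (w i - h) ^ 2 = (w j - h) ^ 2 := by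
      intro i j
      apply mul_left_cancel₀ hne
      rw [(S i).2, (S j).2]
    have s1 := sq_eq_sq_iff_eq_or_eq_neg.1 (sq 0 1)
    have s2 := sq_eq_sq_iff_eq_or_eq_neg.1 (sq 0 2)
    rcases s1 with s1 | s1
    · exact hd 0 1 (by decide) s1
    · rcases s2 with s2 | s2
      · exact hd 0 2 (by decide) s2
      · exact hd 1 2 (by decide) (by linear_combination s1 - s2)
  have hq0 : q = 0 := by
    have := (S 0).2
    rw [hNN] at this
    have h3 : 3 * (N + 1) ≠ 0 := mul_ne_zero (by norm_num) (S 0).1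
    apply mul_left_cancel₀ h3
    linear_combination -this
  rcases mul_eq_zero.1 hNN with h0 | h0
  · exact h0
  · exfalso
    have hN1 : N = 1 := by linear_combination h0
    subst hN1 hq0
    have P : ∀ i j, i ≠ j → (w j - h) = -(w i - h) ∨ (w j - h) = 2 * (w i - h) ∨
        (w i - h) = 2 * (w j - h) := by
      intro i j hij
      obtain ⟨b, e1, e2⟩ := hp i j hij
      refine pair_alg (w i - h) (w j - h) b h ?_ ?_
      · linear_combination e1
      · linear_combination e2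
    exact three_alg _ _ _ (hx0 0) (hx0 1) (hx0 2) (hd 0 1 (by decide)) (hd 0 2 (by decide))
      (hd 1 2 (by decide)) (P 0 1 (by decide)) (P 0 2 (by decide)) (P 1 2 (by decide))

end Pool.Agent.R174.Ext
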