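import Pool.Agent.R174.ExtC

/-!
# Distinguishing extension number of the plane, part D

Moments of the increments of a colouring which is almost invariant under a translation.
-/

namespace Pool.Agent.R174.Ext

/-- the `k`-th moment of a finitely supported function -/
noncomputable def mom (f : ℂ → ℂ) (k : ℕ) : ℂ := ∑ᶠ z, z ^ k * f z

lemma mom_eq (f : ℂ → ℂ) (K : Finset ℂ) (hK : f.support ⊆ K) (k : ℕ) :
    mom f k = ∑ z ∈ K, z ^ k * f z := by
  unfold mom
  apply finsum_eq_sum_of_support_subset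
  intro z hz
  apply hK
  intro h0
  apply hz
  simp [h0]

lemma anti_moments (f : ℂ → ℂ) (hf : f.support.Finite) (α : ℂ) (h : ∀ z, f (α - z) = - f z) :
    mom f 0 = 0 ∧ mom f 2 = α * mom f 1 ∧ mom f 4 = 2 * α * mom f 3 - α ^ 3 * mom f 1 := by
  classical
  set K := hf.toFinset with hK
  have hKs : f.support ⊆ (K : Set ℂ) := by rw [hK]; simp
  have key : ∀ P : ℂ → ℂ, ∑ z ∈ K, P z * f z = - ∑ z ∈ K, P (α - z) * f z := by
    intro P
    rw [← Finset.sum_neg_distrib]
    refine Finset.sum_nbij' (fun z => α - z) (fun z => α - z) ?_ ?_ ?_ ?_ ?_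
    · intro z hz
      rw [hK, Set.Finite.mem_toFinset, Function.mem_support] at *
      rw [h]; exact neg_ne_zero.2 hz
    · intro z hz
      rw [hK, Set.Finite.mem_toFinset, Function.mem_support] at *
      rw [h]; exact neg_ne_zero.2 hz
    · intro z _; ring
    · intro z _; ring
    · intro z _
      rw [h]
      have : α - (α - z) = z := by ring
      rw [this]; ring
  have m0 := mom_eq f K hKs 0
  have m1 := mom_eq f K hKs 1
  have m2 := mom_eq f K hKs 2
  have m3 := mom_eq f K hKs 3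
  have m4 := mom_eq f K hKs 4
  have k0 := key (fun z => z ^ 0)
  have k2 := key (fun z => z ^ 2)
  have k4 := key (fun z => z ^ 4)
  have e2 : ∑ z ∈ K, (α - z) ^ 2 * f z
      = α ^ 2 * (∑ z ∈ K, z ^ 0 * f z) - 2 * α * (∑ z ∈ K, z ^ 1 * f z)
        + ∑ z ∈ K, z ^ 2 * f z := by
    rw [Finset.mul_sum, Finset.mul_sum, ← Finset.sum_sub_distrib, ← Finset.sum_add_distrib]
    refine Finset.sum_congr rfl fun z _ => ?_
    ring
  have e4 : ∑ z ∈ K, (α - z) ^ 4 * f z
      = α ^ 4 * (∑ z ∈ K, z ^ 0 * f z) - 4 * α ^ 3 * (∑ z ∈ K, z ^ 1 * f z)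
        + 6 * α ^ 2 * (∑ z ∈ K, z ^ 2 * f z) - 4 * α * (∑ z ∈ K, z ^ 3 * f z)
        + ∑ z ∈ K, z ^ 4 * f z := by
    rw [Finset.mul_sum, Finset.mul_sum, Finset.mul_sum, Finset.mul_sum,
      ← Finset.sum_sub_distrib, ← Finset.sum_add_distrib, ← Finset.sum_sub_distrib,
      ← Finset.sum_add_distrib]
    refine Finset.sum_congr rfl fun z _ => ?_
    ring
  rw [e2, ← m0, ← m1, ← m2] at k2
  rw [e4, ← m0, ← m1, ← m2, ← m3, ← m4] at k4
  have hk0 : ∑ z ∈ K, (α - z) ^ 0 * f z = ∑ z ∈ K, z ^ 0 * f z := by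
    simp only [pow_zero]
  rw [hk0, ← m0] at k0
  have h0 : mom f 0 = 0 := by linear_combination k0 / 2
  have h2 : mom f 2 = α * mom f 1 := by
    rw [h0] at k2
    linear_combination k2 / 2
  refine ⟨h0, h2, ?_⟩
  rw [h0, h2] at k4
  linear_combination k4 / 2

lemma finsum_ind (S : Finset ℂ) [DecidableEq ℂ] (G : ℂ → ℂ) :
    ∑ᶠ z, G z * (if z ∈ S then (1 : ℂ) else 0) = ∑ z ∈ S, G z := by
  rw [finsum_eq_sum_of_support_subset (s := S)]
  · refine Finset.sum_congr rfl fun z hz => ?_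
    simp [hz]
  · intro z hz
    by_contra h
    apply hz
    have : z ∉ S := h
    simp [this]

lemma mom_toggle (g : ℂ → ℂ) (hg : g.support.Finite) (S : Finset ℂ) [DecidableEq ℂ] (v : ℂ)
    (k : ℕ) :
    mom (fun z => g z + ((if z + v ∈ S then (1 : ℂ) else 0) - (if z ∈ S then (1 : ℂ) else 0))) k
      = mom g k + ∑ w ∈ S, ((w - v) ^ k - w ^ k) := by
  have h1 : (Function.support fun z : ℂ => z ^ k * g z).Finite :=
    hg.subset fun z hz h0 => hz (by simp [h0])
  have h2 : (Function.support fun z : ℂ => z ^ k * (if z + v ∈ S then (1 : ℂ) else 0)).Finite := by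
    refine (S.finite_toSet.preimage (f := fun z => z + v)
      (fun a _ b _ h => add_left_injective v h)).subset ?_
    intro z hz
    by_contra h
    apply hz
    have : z + v ∉ S := h
    simp [this]
  have h3 : (Function.support fun z : ℂ => z ^ k * (if z ∈ S then (1 : ℂ) else 0)).Finite := by
    refine S.finite_toSet.subset ?_
    intro z hz
    by_contra h
    apply hz
    have : z ∉ S := h
    simp [this]
  have e : ∀ z : ℂ, z ^ k * (g z + ((if z + v ∈ S then (1 : ℂ) else 0)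
        - (if z ∈ S then (1 : ℂ) else 0)))
      = z ^ k * g z + (z ^ k * (if z + v ∈ S then (1 : ℂ) else 0)
        - z ^ k * (if z ∈ S then (1 : ℂ) else 0)) := fun z => by ring
  unfold mom
  simp only [e]
  rw [finsum_add_distrib h1 ((h2.union h3).subset (Function.support_sub _ _)),
    finsum_sub_distrib h2 h3, finsum_ind, Finset.sum_sub_distrib]
  congr 2
  have := finsum_comp_equiv (Equiv.addRight v)
    (f := fun y : ℂ => (y - v) ^ k * (if y ∈ S then (1 : ℂ) else 0))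
  simp only [Equiv.coe_addRight, add_sub_cancel_right] at this
  exact this.trans (finsum_ind S fun y => (y - v) ^ k)

lemma halfturn_rel (A : Set ℂ) (W : Finset ℂ) (hA : ∀ w ∈ W, w ∉ A) (v : ℂ) (hv : v ≠ 0)
    (hfin : {z | ¬ (z + v ∈ A ↔ z ∈ A)}.Finite) :
    ∃ N p1 p2 p3 : ℂ, ∀ S ⊆ W, ∀ a : ℂ,
      (∀ z, (a - z ∈ A ∨ a - z ∈ S) ↔ (z ∈ A ∨ z ∈ S)) →
      a * (N + S.card) = 2 * (p1 + ∑ w ∈ S, w) ∧
      2 * (p3 + ∑ w ∈ S, w ^ 3)
        = 3 * a * (p2 + ∑ w ∈ S, w ^ 2) - a ^ 2 * (p1 + ∑ w ∈ S, w) := by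
  classical
  set g : ℂ → ℂ := fun z => (if z + v ∈ A then (1 : ℂ) else 0) - (if z ∈ A then 1 else 0) with hg
  have hgs : g.support.Finite := by
    refine hfin.subset fun z hz => ?_
    intro h
    apply hz
    simp only [hg, h, sub_self]
  obtain ⟨N, hN⟩ : ∃ N, mom g 1 = -v * N := ⟨-mom g 1 / v, by field_simp⟩
  obtain ⟨p1, hp1⟩ : ∃ p1, mom g 2 = v ^ 2 * N - 2 * v * p1 :=
    ⟨(v ^ 2 * N - mom g 2) / (2 * v), by field_simp; ring⟩
  obtain ⟨p2, hp2⟩ : ∃ p2, mom g 3 = -3 * v * p2 + 3 * v ^ 2 * p1 - v ^ 3 * N :=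
    ⟨(3 * v ^ 2 * p1 - v ^ 3 * N - mom g 3) / (3 * v), by field_simp; ring⟩
  obtain ⟨p3, hp3⟩ : ∃ p3, mom g 4 = -4 * v * p3 + 6 * v ^ 2 * p2 - 4 * v ^ 3 * p1 + v ^ 4 * N :=
    ⟨(6 * v ^ 2 * p2 - 4 * v ^ 3 * p1 + v ^ 4 * N - mom g 4) / (4 * v), by field_simp; ring⟩
  refine ⟨N, p1, p2, p3, ?_⟩
  intro S hS a ha
  set f : ℂ → ℂ := fun z => g z + ((if z + v ∈ S then (1 : ℂ) else 0)
    - (if z ∈ S then (1 : ℂ) else 0)) with hf
  have hind : ∀ z, (if z ∈ A then (1 : ℂ) else 0) + (if z ∈ S then (1 : ℂ) else 0)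
      = if (z ∈ A ∨ z ∈ S) then 1 else 0 := by
    intro z
    by_cases h1 : z ∈ A <;> by_cases h2 : z ∈ S
    · exact absurd h1 (hA z (hS h2))
    · simp [h1, h2]
    · simp [h1, h2]
    · simp [h1, h2]
  have hf' : ∀ z, f z = (if (z + v ∈ A ∨ z + v ∈ S) then (1 : ℂ) else 0)
      - (if (z ∈ A ∨ z ∈ S) then 1 else 0) := by
    intro z
    rw [← hind, ← hind, hf, hg]
    ring
  have hanti : ∀ z, f ((a - v) - z) = - f z := by
    intro z
    rw [hf', hf']
    have e1 : a - v - z + v = a - z := by ring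
    have e2 : a - v - z = a - (z + v) := by ring
    rw [e1, e2]
    simp only [ha]
    ring
  have hfs : f.support.Finite := by
    have h2 : (Function.support fun z : ℂ => (if z + v ∈ S then (1 : ℂ) else 0)).Finite := by
      refine (S.finite_toSet.preimage (f := fun z => z + v)
        (fun a _ b _ h => add_left_injective v h)).subset ?_
      intro z hz
      by_contra h
      apply hz
      have : z + v ∉ S := h
      simp [this]
    have h3 : (Function.support fun z : ℂ => (if z ∈ S then (1 : ℂ) else 0)).Finite := by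
      refine S.finite_toSet.subset ?_
      intro z hz
      by_contra h
      apply hz
      have : z ∉ S := h
      simp [this]
    refine (hgs.union (h2.union h3)).subset ?_
    refine (Function.support_add _ _).trans (Set.union_subset_union_right _ ?_)
    exact Function.support_sub _ _
  obtain ⟨-, r2, r4⟩ := anti_moments f hfs (a - v) hanti
  rw [hf, mom_toggle g hgs, mom_toggle g hgs] at r2
  rw [hf, mom_toggle g hgs, mom_toggle g hgs, mom_toggle g hgs] at r4
  have s1 : ∑ w ∈ S, ((w - v) ^ 1 - w ^ 1) = -v * S.card := by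
    simp only [pow_one, sub_sub_cancel_left, Finset.sum_const, nsmul_eq_mul]; ring
  have s2 : ∑ w ∈ S, ((w - v) ^ 2 - w ^ 2) = v ^ 2 * S.card - 2 * v * ∑ w ∈ S, w := by
    rw [Finset.mul_sum, ← nsmul_eq_mul', ← Finset.sum_const, ← Finset.sum_sub_distrib]
    refine Finset.sum_congr rfl fun z _ => ?_
    ring
  have s3 : ∑ w ∈ S, ((w - v) ^ 3 - w ^ 3) = -3 * v * (∑ w ∈ S, w ^ 2)
      + 3 * v ^ 2 * (∑ w ∈ S, w) - v ^ 3 * S.card := by
    rw [Finset.mul_sum, Finset.mul_sum, ← nsmul_eq_mul', ← Finset.sum_const,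
      ← Finset.sum_add_distrib, ← Finset.sum_sub_distrib]
    refine Finset.sum_congr rfl fun z _ => ?_
    ring
  have s4 : ∑ w ∈ S, ((w - v) ^ 4 - w ^ 4) = -4 * v * (∑ w ∈ S, w ^ 3)
      + 6 * v ^ 2 * (∑ w ∈ S, w ^ 2) - 4 * v ^ 3 * (∑ w ∈ S, w) + v ^ 4 * S.card := by
    rw [Finset.mul_sum, Finset.mul_sum, Finset.mul_sum, ← nsmul_eq_mul', ← Finset.sum_const,
      ← Finset.sum_add_distrib, ← Finset.sum_sub_distrib, ← Finset.sum_add_distrib]
    refine Finset.sum_congr rfl fun z _ => ?_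
    ring
  rw [s1, s2, hN, hp1] at r2
  rw [s1, s3, s4, hN, hp2, hp3] at r4
  set e1 := ∑ w ∈ S, w with he1
  set e2 := ∑ w ∈ S, w ^ 2 with he2
  set e3 := ∑ w ∈ S, w ^ 3 with he3
  set n : ℂ := (S.card : ℂ) with hn
  have R1 : a * (N + n) = 2 * (p1 + e1) := by
    apply mul_left_cancel₀ hv
    linear_combination r2
  refine ⟨R1, ?_⟩
  apply mul_left_cancel₀ hv
  linear_combination (-1 / 2) * r4 + (1 / 2) * (-v ^ 3 + 3 * a * v ^ 2 - a ^ 2 * v) * R1

end Pool.Agent.R174.Ext
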