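import Pool.Agent.R174.ExtB
import Pool.Agent.R174.ExtD

/-!
# Distinguishing extension number of the plane, part E

Half-turn case, regularisation, and the main combinatorial theorem.
-/

namespace Pool.Agent.R174.Ext

lemma fin3_of_card {T : Finset ℂ} (hT : 3 ≤ T.card) :
    ∃ w : Fin 3 → ℂ, Function.Injective w ∧ ∀ i, w i ∈ T := by
  obtain ⟨U, hUT, hU⟩ := Finset.exists_subset_card_eq hT
  obtain ⟨x, y, z, hxy, hxz, hyz, rfl⟩ := Finset.card_eq_three.1 hU
  refine ⟨![x, y, z], ?_, ?_⟩
  · intro i j hij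
    fin_cases i <;> fin_cases j <;> simp_all
  · intro i
    apply hUT
    fin_cases i <;> simp

lemma halfturns_false (A : Set ℂ) (W : Finset ℂ) (hW : W.card = 4) (hA : ∀ w ∈ W, w ∉ A)
    (a : Finset ℂ → ℂ)
    (ha : ∀ S ⊆ W, ∀ z, (a S - z ∈ A ∨ a S - z ∈ S) ↔ (z ∈ A ∨ z ∈ S))
    (v : ℂ) (hv : v ≠ 0) (hfin : {z | ¬ (z + v ∈ A ↔ z ∈ A)}.Finite) : False := by
  classical
  obtain ⟨N, p1, p2, p3, hrel⟩ := halfturn_rel A W hA v hv hfin
  have hr : ∀ S ⊆ W, _ := fun S hS => hrel S hS (a S) (ha S hS)
  have base : ∀ S0 ⊆ W, ∀ w : Fin 3 → ℂ, Function.Injective w → (∀ i, w i ∈ W) →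
      (∀ i, w i ∉ S0) → (∀ i, w i ≠ a S0 / 2) → N + S0.card = 0 := by
    intro S0 hS0 w hw hwW hwS hwa
    obtain ⟨b1, b2⟩ := hr S0 hS0
    refine base_alg (N + S0.card) (p1 + ∑ w ∈ S0, w) (p2 + ∑ w ∈ S0, w ^ 2)
      (p3 + ∑ w ∈ S0, w ^ 3) (a S0) b1 b2 w hw hwa ?_ ?_
    · intro i
      obtain ⟨c1, c2⟩ := hr (insert (w i) S0) (Finset.insert_subset (hwW i) hS0)
      rw [Finset.card_insert_of_notMem (hwS i)] at c1
      rw [Finset.sum_insert (hwS i)] at c1 c2
      rw [Finset.sum_insert (hwS i), Finset.sum_insert (hwS i)] at c2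
      push_cast at c1
      exact ⟨a (insert (w i) S0), by linear_combination c1, by linear_combination c2⟩
    · intro i j hij
      have hwS' : w i ∉ insert (w j) S0 := by
        rw [Finset.mem_insert, not_or]
        exact ⟨fun h => hij (hw h), hwS i⟩
      obtain ⟨c1, c2⟩ := hr (insert (w i) (insert (w j) S0))
        (Finset.insert_subset (hwW i) (Finset.insert_subset (hwW j) hS0))
      rw [Finset.card_insert_of_notMem hwS', Finset.card_insert_of_notMem (hwS j)] at c1
      simp only [Finset.sum_insert hwS', Finset.sum_insert (hwS j)] at c1 c2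
      push_cast at c1
      exact ⟨a (insert (w i) (insert (w j) S0)), by linear_combination c1,
        by linear_combination c2⟩
  have hN0 : N = 0 := by
    obtain ⟨w, hw, hwT⟩ := fin3_of_card (T := W.erase (a ∅ / 2)) (by
      have := Finset.pred_card_le_card_erase (s := W) (a := a ∅ / 2)
      omega)
    have := base ∅ (by simp) w hw (fun i => Finset.mem_of_mem_erase (hwT i)) (by simp)
      (fun i => Finset.ne_of_mem_erase (hwT i))
    simpa using this
  subst hN0
  have hp1 : p1 = 0 := by
    obtain ⟨b1, -⟩ := hr ∅ (by simp)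
    simp only [Finset.card_empty, Nat.cast_zero, add_zero, mul_zero, Finset.sum_empty] at b1
    linear_combination -b1 / 2
  obtain ⟨w4, hw4⟩ := Finset.card_pos.1 (show 0 < W.card by omega)
  have ha4 : a {w4} / 2 = w4 := by
    obtain ⟨b1, -⟩ := hr {w4} (by simpa using hw4)
    rw [hp1] at b1
    simp only [Finset.card_singleton, Nat.cast_one, zero_add, mul_one, Finset.sum_singleton] at b1
    linear_combination b1 / 2
  obtain ⟨w, hw, hwT⟩ := fin3_of_card (T := W.erase w4) (by
    rw [Finset.card_erase_of_mem hw4]; omega)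
  have := base {w4} (by simpa using hw4) w hw (fun i => Finset.mem_of_mem_erase (hwT i))
    (fun i => by
      rw [Finset.mem_singleton]; exact Finset.ne_of_mem_erase (hwT i))
    (fun i => by rw [ha4]; exact Finset.ne_of_mem_erase (hwT i))
  simp at this

/-- A finite set mapped into itself by a nontrivial translation is empty. -/
lemma finite_shift (K : Set ℂ) (hK : K.Finite) (v : ℂ) (hv : v ≠ 0) (h : ∀ z ∈ K, z + v ∈ K) :
    K = ∅ := by
  by_contra hne
  obtain ⟨z, hz⟩ := Set.nonempty_iff_ne_empty.2 hne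
  have hn : ∀ n : ℕ, z + n * v ∈ K := by
    intro n
    induction n with
    | zero => simpa using hz
    | succ n ih =>
      have := h _ ih
      have e : z + ((n + 1 : ℕ) : ℂ) * v = z + n * v + v := by push_cast; ring
      rw [e]; exact this
  have hinj : Function.Injective fun n : ℕ => z + n * v := by
    intro m n hmn
    have : (m : ℂ) * v = n * v := by
      have h1 : z + m * v = z + n * v := hmn
      linear_combination h1
    exact_mod_cast mul_right_cancel₀ hv this
  exact Set.infinite_of_injective_forall_mem hinj hn hK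

lemma unit_ne_zero {u : ℂ} (hu : ‖u‖ = 1) : u ≠ 0 := by
  intro h0; simp [h0] at hu

lemma aff_inj {u : ℂ} (hu : ‖u‖ = 1) (b : ℂ) : Function.Injective fun z : ℂ => u * z + b := by
  intro x y h
  have : u * x = u * y := by
    have h1 : u * x + b = u * y + b := h
    linear_combination h1
  exact mul_left_cancel₀ (unit_ne_zero hu) this

end Pool.Agent.R174.Ext
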