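import Pool.Agent.R174.ExtE

/-!
# Distinguishing extension number of the plane, part F

Regularisation along two independent translations and the main combinatorial theorem.
-/

namespace Pool.Agent.R174.Ext

open Filter ComplexConjugate

/-- `A` is invariant under translation by `x` up to finitely many points. -/
def TrFin (A : Set ℂ) (x : ℂ) : Prop := {z | ¬ (z + x ∈ A ↔ z ∈ A)}.Finite

/-- `A` is invariant under `z ↦ u z + b` up to finitely many points. -/
def AffFin (A : Set ℂ) (u b : ℂ) : Prop := {z | ¬ (u * z + b ∈ A ↔ z ∈ A)}.Finite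

lemma affFin_of_ext {A : Set ℂ} {S : Finset ℂ} {u b : ℂ} (hu : ‖u‖ = 1)
    (h : ∀ z, (u * z + b ∈ A ∨ u * z + b ∈ S) ↔ (z ∈ A ∨ z ∈ S)) : AffFin A u b := by
  refine (S.finite_toSet.union
    (S.finite_toSet.preimage (f := fun z => u * z + b) ((aff_inj hu b).injOn))).subset ?_
  intro z hz
  by_contra hc
  apply hz
  have hc1 : z ∉ S := fun h => hc (Or.inl h)
  have hc2 : u * z + b ∉ S := fun h => hc (Or.inr h)
  have := h z
  tauto

/-- pull-back of an almost period by an almost symmetry -/
lemma trFin_pull {A : Set ℂ} {u b x v : ℂ} (hu : ‖u‖ = 1) (hx : u * x = v) (hg : AffFin A u b)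
    (hv : TrFin A v) : TrFin A x := by
  unfold TrFin
  refine ((hg.union (hg.preimage (f := fun z => z + x)
    (fun a _ b _ h => add_left_injective x h))).union
    (hv.preimage (f := fun z => u * z + b) ((aff_inj hu b).injOn))).subset ?_
  intro z hz
  by_contra hc
  apply hz
  have h1 : u * z + b ∈ A ↔ z ∈ A := by
    by_contra h; exact hc (Or.inl (Or.inl h))
  have h2 : u * (z + x) + b ∈ A ↔ z + x ∈ A := by
    by_contra h; exact hc (Or.inl (Or.inr h))
  have h3 : (u * z + b) + v ∈ A ↔ u * z + b ∈ A := by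
    by_contra h; exact hc (Or.inr h)
  have e : u * (z + x) + b = (u * z + b) + v := by rw [← hx]; ring
  rw [← h2, e, h3, h1]

/-- push-forward of an almost period by an almost symmetry -/
lemma trFin_push {A : Set ℂ} {u b v : ℂ} (hu : ‖u‖ = 1) (hg : AffFin A u b)
    (hv : TrFin A v) : TrFin A (u * v) := by
  have hu0 := unit_ne_zero hu
  have hinj : Function.Injective fun z : ℂ => (z - b) / u := by
    intro x y h
    have h1 : (x - b) / u = (y - b) / u := h
    rw [div_left_inj' hu0] at h1
    linear_combination h1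
  have hinj2 : Function.Injective fun z : ℂ => (z - b) / u + v := fun x y h =>
    hinj (add_left_injective v h)
  unfold TrFin
  refine (((hg.preimage (f := fun z => (z - b) / u) hinj.injOn).union
    (hg.preimage (f := fun z => (z - b) / u + v) hinj2.injOn)).union
    (hv.preimage (f := fun z => (z - b) / u) hinj.injOn)).subset ?_
  intro z hz
  by_contra hc
  apply hz
  have h1 : u * ((z - b) / u) + b ∈ A ↔ (z - b) / u ∈ A := by
    by_contra h; exact hc (Or.inl (Or.inl h))
  have h2 : u * ((z - b) / u + v) + b ∈ A ↔ (z - b) / u + v ∈ A := by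
    by_contra h; exact hc (Or.inl (Or.inr h))
  have h3 : (z - b) / u + v ∈ A ↔ (z - b) / u ∈ A := by
    by_contra h; exact hc (Or.inr h)
  have e1 : u * ((z - b) / u) + b = z := by field_simp; ring
  have e2 : u * ((z - b) / u + v) + b = z + u * v := by field_simp; ring
  rw [e1] at h1
  rw [e2] at h2
  rw [h1, h2, h3]

/-- The commutator of two almost symmetries is an almost period. -/
lemma trFin_comm {A : Set ℂ} {u b u' b' : ℂ} (hu : ‖u‖ = 1) (hu' : ‖u'‖ = 1)
    (hg : AffFin A u b) (hg' : AffFin A u' b') :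
    TrFin A ((1 - u') * b - (1 - u) * b') := by
  have hu0 := unit_ne_zero hu
  have hu0' := unit_ne_zero hu'
  -- z = u' (u y + b) + b'
  set t := (1 - u') * b - (1 - u) * b' with ht
  set φ : ℂ → ℂ := fun z => ((z - b') / u' - b) / u with hφ
  have hφe : ∀ z, u' * (u * φ z + b) + b' = z := by
    intro z; rw [hφ]; field_simp; ring
  have hφe2 : ∀ z, u * (u' * φ z + b') + b = z + t := by
    intro z
    have := hφe z
    rw [ht]
    linear_combination this
  have hφi : Function.Injective φ := by
    intro x y h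
    rw [← hφe x, ← hφe y, h]
  unfold TrFin
  refine (((hg.preimage (f := φ) hφi.injOn).union
    (hg'.preimage (f := fun z => u * φ z + b) ((aff_inj hu b).comp hφi).injOn)).union
    ((hg'.preimage (f := φ) hφi.injOn).union
    (hg.preimage (f := fun z => u' * φ z + b') ((aff_inj hu' b').comp hφi).injOn))).subset ?_
  intro z hz
  by_contra hc
  apply hz
  have h1 : u * φ z + b ∈ A ↔ φ z ∈ A := by
    by_contra h; exact hc (Or.inl (Or.inl h))
  have h2 : u' * (u * φ z + b) + b' ∈ A ↔ u * φ z + b ∈ A := by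
    by_contra h; exact hc (Or.inl (Or.inr h))
  have h3 : u' * φ z + b' ∈ A ↔ φ z ∈ A := by
    by_contra h; exact hc (Or.inr (Or.inl h))
  have h4 : u * (u' * φ z + b') + b ∈ A ↔ u' * φ z + b' ∈ A := by
    by_contra h; exact hc (Or.inr (Or.inr h))
  rw [hφe] at h2
  rw [hφe2] at h4
  rw [h4, h3, h2, h1]

/-- Regularisation. -/
lemma reg (A : Set ℂ) (v u0 : ℂ) (hv : v ≠ 0) (hu0 : ‖u0‖ = 1) (hu1 : u0 ≠ 1) (hu2 : u0 ≠ -1)
    (hv1 : TrFin A v) (hv2 : TrFin A (u0 * v)) :
    ∃ R : Set ℂ, {z | ¬ (z ∈ A ↔ z ∈ R)}.Finite ∧ ∀ x, TrFin A x → ∀ z, (z + x ∈ R ↔ z ∈ R) := by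
  have hinjn : ∀ (w : ℂ), w ≠ 0 → ∀ z, Function.Injective fun n : ℕ => z + n * w := by
    intro w hw z m n hmn
    have : (m : ℂ) * w = n * w := by
      have h1 : z + m * w = z + n * w := hmn
      linear_combination h1
    exact_mod_cast mul_right_cancel₀ hw this
  set R : Set ℂ := {z | ∀ᶠ n : ℕ in atTop, z + n * v ∈ A} with hR
  -- points of a finite set are eventually avoided
  have avoid : ∀ (K : Set ℂ), K.Finite → ∀ z, ∀ᶠ n : ℕ in atTop, z + n * v ∉ K := by
    intro K hK z
    have h1 : {n : ℕ | z + n * v ∈ K}.Finite :=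
      hK.preimage (f := fun n : ℕ => z + n * v) ((hinjn v hv z).injOn)
    have h2 := h1.compl_mem_cofinite
    rw [Nat.cofinite_eq_atTop] at h2
    exact h2
  have hev : ∀ z, ∀ᶠ n : ℕ in atTop, (z + n * v ∈ A ↔ z ∈ R) := by
    intro z
    obtain ⟨n0, hn0⟩ := eventually_atTop.1 (avoid _ hv1 z)
    have hconst : ∀ n, n0 ≤ n → (z + n * v ∈ A ↔ z + n0 * v ∈ A) := by
      intro n hn
      induction n, hn using Nat.le_induction with
      | base => exact Iff.rfl
      | succ n hn ih =>
        have h1 : (z + n * v) + v ∈ A ↔ z + n * v ∈ A := by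
          by_contra h; exact hn0 n hn h
        have e : z + ((n + 1 : ℕ) : ℂ) * v = z + n * v + v := by push_cast; ring
        rw [e, h1, ih]
    by_cases hz : z + n0 * v ∈ A
    · have hzR : z ∈ R := by
        show ∀ᶠ n : ℕ in atTop, z + n * v ∈ A
        exact eventually_atTop.2 ⟨n0, fun n hn => (hconst n hn).2 hz⟩
      exact eventually_atTop.2 ⟨n0, fun n hn => by
        constructor
        · intro _; exact hzR
        · intro _; exact (hconst n hn).2 hz⟩
    · have hzR : z ∉ R := by
        intro hR'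
        obtain ⟨n1, hn1⟩ := eventually_atTop.1 hR'
        exact hz ((hconst (max n0 n1) (le_max_left _ _)).1 (hn1 _ (le_max_right _ _)))
      exact eventually_atTop.2 ⟨n0, fun n hn => by
        constructor
        · intro h; exact absurd ((hconst n hn).1 h) hz
        · intro h; exact absurd h hzR⟩
  have hper : ∀ x, TrFin A x → ∀ z, (z + x ∈ R ↔ z ∈ R) := by
    intro x hx z
    obtain ⟨n, h1, h2, h3⟩ := ((hev (z + x)).and ((hev z).and (avoid _ hx z))).exists
    have h4 : (z + n * v) + x ∈ A ↔ z + n * v ∈ A := by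
      by_contra h; exact h3 h
    have e : z + x + n * v = (z + n * v) + x := by ring
    rw [← h1, ← h2, e, h4]
  refine ⟨R, ?_, hper⟩
  set E : Set ℂ := {z | ¬ (z ∈ A ↔ z ∈ R)} with hE
  set D : Set ℂ := {z | ¬ (z + v ∈ A ↔ z ∈ A)} with hD
  set v' := u0 * v with hv'
  have hv'0 : v' ≠ 0 := mul_ne_zero (unit_ne_zero hu0) hv
  set D' : Set ℂ := {z | ¬ (z + v' ∈ A ↔ z ∈ A)} with hD'
  set Φ : ℂ → ℝ := fun z => (z * conj v).im with hΦ
  set Ψ : ℂ → ℝ := fun z => (z * conj v').im with hΨ
  have hu0im : u0.im ≠ 0 := by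
    intro h0
    have h1 : u0.re ^ 2 + u0.im ^ 2 = 1 := by
      have := Complex.sq_norm u0
      rw [hu0, Complex.normSq_apply] at this
      linarith
    rw [h0] at h1
    have h2 : (u0.re - 1) * (u0.re + 1) = 0 := by linear_combination h1
    rcases mul_eq_zero.1 h2 with h | h
    · exact hu1 (Complex.ext (by simp; linarith) (by simpa using h0))
    · exact hu2 (Complex.ext (by simp; linarith) (by simpa using h0))
  have hvsq : v.re ^ 2 + v.im ^ 2 ≠ 0 := by
    intro h0
    apply hv
    have h1 : v.re = 0 := by nlinarith [sq_nonneg v.re, sq_nonneg v.im]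
    have h2 : v.im = 0 := by nlinarith [sq_nonneg v.re, sq_nonneg v.im]
    exact Complex.ext h1 h2
  have hΦv : ∀ z (n : ℕ), Φ (z + n * v) = Φ z := by
    intro z n
    simp only [hΦ, Complex.mul_im, Complex.add_re, Complex.add_im, Complex.mul_re,
      Complex.conj_re, Complex.conj_im, Complex.natCast_re, Complex.natCast_im]
    ring
  have hΨv : ∀ z (n : ℕ), Ψ (z + n * v') = Ψ z := by
    intro z n
    simp only [hΨ, Complex.mul_im, Complex.add_re, Complex.add_im, Complex.mul_re,
      Complex.conj_re, Complex.conj_im, Complex.natCast_re, Complex.natCast_im]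
    ring
  have hΦv' : ∀ z (n : ℕ), Φ (z + n * v') = Φ z + n * (u0.im * (v.re ^ 2 + v.im ^ 2)) := by
    intro z n
    simp only [hΦ, hv', Complex.mul_im, Complex.add_re, Complex.add_im, Complex.mul_re,
      Complex.conj_re, Complex.conj_im, Complex.natCast_re, Complex.natCast_im]
    ring
  have hinj : Function.Injective fun z => (Φ z, Ψ z) := by
    intro z w hzw
    have h1 : Φ z = Φ w := congrArg Prod.fst hzw
    have h2 : Ψ z = Ψ w := congrArg Prod.snd hzw
    simp only [hΦ, hΨ, hv', Complex.mul_im, Complex.mul_re, Complex.conj_re,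
      Complex.conj_im, map_mul] at h1 h2
    have h3 : (u0.im * (v.re ^ 2 + v.im ^ 2)) * (z.re - w.re) = 0 := by
      linear_combination -v.re * (h2 - u0.re * h1) - v.im * u0.im * h1
    have h4 : (u0.im * (v.re ^ 2 + v.im ^ 2)) * (z.im - w.im) = 0 := by
      linear_combination -v.im * (h2 - u0.re * h1) + v.re * u0.im * h1
    have hc : u0.im * (v.re ^ 2 + v.im ^ 2) ≠ 0 := mul_ne_zero hu0im hvsq
    exact Complex.ext (by linarith [(mul_eq_zero.1 h3).resolve_left hc])
      (by linarith [(mul_eq_zero.1 h4).resolve_left hc])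
  have hEΦ : ∀ z ∈ E, Φ z ∈ Φ '' D := by
    intro z hz
    by_contra hno
    have hav : ∀ n : ℕ, z + n * v ∉ D := fun n h => hno ⟨_, h, hΦv z n⟩
    have hconst : ∀ n : ℕ, (z + n * v ∈ A ↔ z ∈ A) := by
      intro n
      induction n with
      | zero => simp
      | succ n ih =>
        have h1 : (z + n * v) + v ∈ A ↔ z + n * v ∈ A := by
          by_contra h; exact hav n h
        have e : z + ((n + 1 : ℕ) : ℂ) * v = z + n * v + v := by push_cast; ring
        rw [e, h1, ih]
    obtain ⟨n, hn⟩ := (hev z).exists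
    apply hz
    rw [← hn, hconst n]
  have hΦE : (Φ '' E).Finite := by
    refine (hv1.image Φ).subset ?_
    rintro _ ⟨z, hz, rfl⟩
    exact hEΦ z hz
  have hEΨ : ∀ z ∈ E, Ψ z ∈ Ψ '' D' := by
    intro z hz
    have hex : ∃ n : ℕ, z + n * v' ∉ E := by
      by_contra hno
      push Not at hno
      have hinj' : Function.Injective fun n : ℕ => Φ (z + n * v') := by
        intro m n hmn
        have h1 : Φ (z + m * v') = Φ (z + n * v') := hmn
        rw [hΦv', hΦv'] at h1
        have hc : u0.im * (v.re ^ 2 + v.im ^ 2) ≠ 0 := mul_ne_zero hu0im hvsq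
        have h2 : (m : ℝ) * (u0.im * (v.re ^ 2 + v.im ^ 2))
            = n * (u0.im * (v.re ^ 2 + v.im ^ 2)) := by linarith
        exact_mod_cast mul_right_cancel₀ hc h2
      have hmem : ∀ n : ℕ, Φ (z + n * v') ∈ Φ '' E := fun n => ⟨_, hno n, rfl⟩
      exact Set.infinite_of_injective_forall_mem hinj' hmem hΦE
    classical
    have hmin := Nat.find_spec hex
    have hpos : Nat.find hex ≠ 0 := by
      intro h0
      rw [h0] at hmin
      apply hmin
      simpa using hz
    obtain ⟨m, hm⟩ := Nat.exists_eq_succ_of_ne_zero hpos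
    have hmE : z + m * v' ∈ E := by
      by_contra h
      have := Nat.find_min' hex h
      omega
    rw [hm] at hmin
    have e : z + ((m.succ : ℕ) : ℂ) * v' = (z + m * v') + v' := by push_cast; ring
    rw [e] at hmin
    refine ⟨z + m * v', ?_, hΨv z m⟩
    intro hiff
    apply hmin
    intro h
    apply hmE
    rw [← hiff, ← hper v' hv2 (z + m * v')]
    exact h
  have hΨE : (Ψ '' E).Finite := by
    refine (hv2.image Ψ).subset ?_
    rintro _ ⟨z, hz, rfl⟩
    exact hEΨ z hz
  refine ((hΦE.prod hΨE).preimage (f := fun z => (Φ z, Ψ z)) hinj.injOn).subset ?_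
  intro z hz
  exact ⟨⟨z, hz, rfl⟩, ⟨z, hz, rfl⟩⟩

end Pool.Agent.R174.Ext
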