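import Pool.Agent.R174.ExtF

/-!
# Distinguishing extension number of the plane, part G

The main combinatorial theorem.
-/

namespace Pool.Agent.R174.Ext

/-- Case 1: one of the extensions is invariant under a nontrivial translation. -/
lemma case_translation (A : Set ℂ) (W : Finset ℂ) (hW : W.card = 4) (hA : ∀ w ∈ W, w ∉ A)
    (u b : Finset ℂ → ℂ) (hu : ∀ S ⊆ W, ‖u S‖ = 1) (hne : ∀ S ⊆ W, u S = 1 → b S ≠ 0)
    (hinv : ∀ S ⊆ W, ∀ z, (u S * z + b S ∈ A ∨ u S * z + b S ∈ S) ↔ (z ∈ A ∨ z ∈ S))
    (S0 : Finset ℂ) (hS0 : S0 ⊆ W) (hu0 : u S0 = 1) : False := by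
  classical
  set b0 := b S0 with hb0
  have hb0ne : b0 ≠ 0 := hne S0 hS0 hu0
  set R : Set ℂ := {z | z ∈ A ∨ z ∈ S0} with hR
  have hRm : ∀ z, z ∈ R ↔ (z ∈ A ∨ z ∈ S0) := fun z => Iff.rfl
  have hRt : ∀ z, z + b0 ∈ R ↔ z ∈ R := by
    intro z
    have := hinv S0 hS0 z
    rw [hu0, one_mul] at this
    exact this
  refine no_ref A R W hW hA ?_ ?_
  · refine S0.finite_toSet.subset fun z hz => ?_
    by_contra h
    apply hz
    rw [hRm]
    constructor
    · intro h1; exact Or.inl h1
    · rintro (h1 | h1)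
      · exact h1
      · exact absurd h1 h
  · intro T hT
    by_cases hTS : T = S0
    · subst hTS
      refine ⟨-1, 0, by simp, ?_, ?_⟩
      · intro h
        have := congrArg Complex.re h
        norm_num at this
      · intro z
        rw [hRm, hRm]
        tauto
    · have hinj := aff_inj (hu T hT) (b T)
      set K : Set ℂ := {z | ¬ (u T * z + b T ∈ R ↔ z ∈ R)} with hK
      have hKfin : K.Finite := by
        refine (W.finite_toSet.union
          (W.finite_toSet.preimage (f := fun z => u T * z + b T) hinj.injOn)).subset ?_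
        intro z hz
        by_contra hc
        apply hz
        have hc1 : z ∉ W := fun h => hc (Or.inl h)
        have hc2 : u T * z + b T ∉ W := fun h => hc (Or.inr h)
        have h1 := hinv T hT z
        have t1 : z ∉ T := fun h => hc1 (hT h)
        have t2 : z ∉ S0 := fun h => hc1 (hS0 h)
        have t3 : u T * z + b T ∉ T := fun h => hc2 (hT h)
        have t4 : u T * z + b T ∉ S0 := fun h => hc2 (hS0 h)
        rw [hRm, hRm]
        tauto
      have huT0 := unit_ne_zero (hu T hT)
      set x := b0 / u T with hx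
      have hx0 : x ≠ 0 := div_ne_zero hb0ne huT0
      have hux : u T * x = b0 := by rw [hx]; field_simp
      set K' : Set ℂ := {z | ¬ (z + b0 ∈ K ↔ z ∈ K)} with hK'
      have hK'fin : K'.Finite := by
        refine ((hKfin.preimage (f := fun z => z + b0)
          (fun a _ c _ h => add_left_injective b0 h)).union hKfin).subset ?_
        intro z hz
        by_contra hc
        apply hz
        have hc1 : z ∉ K := fun h => hc (Or.inr h)
        have hc2 : z + b0 ∉ K := fun h => hc (Or.inl h)
        exact ⟨fun h => absurd h hc2, fun h => absurd h hc1⟩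
      have hK'mem : ∀ z, z ∈ K' ↔ ¬ (u T * (z + b0) + b T ∈ R ↔ u T * z + b T ∈ R) := by
        intro z
        have h1 := hRt z
        show (¬ ((¬ (u T * (z + b0) + b T ∈ R ↔ z + b0 ∈ R))
          ↔ (¬ (u T * z + b T ∈ R ↔ z ∈ R)))) ↔ _
        tauto
      have hK'emp : K' = ∅ := by
        refine finite_shift K' hK'fin x hx0 ?_
        intro z hz
        rw [hK'mem] at hz ⊢
        have e1 : u T * (z + x + b0) + b T = (u T * (z + b0) + b T) + b0 := by
          rw [← hux]; ring
        have e2 : u T * (z + x) + b T = (u T * z + b T) + b0 := by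
          rw [← hux]; ring
        rw [e1, e2, hRt, hRt]
        exact hz
      have hKemp : K = ∅ := by
        refine finite_shift K hKfin b0 hb0ne ?_
        intro z hz
        by_contra h
        have : z ∈ K' := fun hiff => h (hiff.2 hz)
        rw [hK'emp] at this
        exact this
      have hRT : ∀ z, u T * z + b T ∈ R ↔ z ∈ R := by
        intro z
        by_contra h
        have : z ∈ K := h
        rw [hKemp] at this
        exact this
      have hV : ∀ z, (¬ ((u T * z + b T ∈ A ∨ u T * z + b T ∈ T) ↔ u T * z + b T ∈ R)) ↔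
        (¬ ((z ∈ A ∨ z ∈ T) ↔ z ∈ R)) := by
        intro z
        rw [hinv T hT z, hRT z]
      refine ⟨u T, b T, hu T hT, ?_, hV⟩
      intro huT
      have hbT := hne T hT huT
      set V : Set ℂ := {z | ¬ ((z ∈ A ∨ z ∈ T) ↔ z ∈ R)} with hVd
      have hVfin : V.Finite := by
        refine W.finite_toSet.subset fun z hz => ?_
        by_contra hc
        apply hz
        have hc' : z ∉ W := hc
        have t1 : z ∉ T := fun h => hc' (hT h)
        have t2 : z ∉ S0 := fun h => hc' (hS0 h)
        rw [hRm]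
        tauto
      have hVemp : V = ∅ := by
        refine finite_shift V hVfin (b T) hbT ?_
        intro z hz
        have := (hV z).2 hz
        rw [huT, one_mul] at this
        exact this
      apply hTS
      ext z
      have hzV : ¬ (z ∈ V) := by rw [hVemp]; exact fun h => h
      have h1 : (z ∈ A ∨ z ∈ T) ↔ (z ∈ A ∨ z ∈ S0) := by
        by_contra h; exact hzV h
      constructor
      · intro hz
        rcases h1.1 (Or.inr hz) with h | h
        · exact absurd h (hA z (hT hz))
        · exact h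
      · intro hz
        rcases h1.2 (Or.inr hz) with h | h
        · exact absurd h (hA z (hS0 hz))
        · exact h

/-- Case 2a: two rotations with the same centre. -/
lemma case_same_centre (A : Set ℂ) (w : ℂ) (hw : w ∉ A) (u b u' b' p : ℂ) (hu1 : u ≠ 1)
    (hu1' : u' ≠ 1) (hp : (1 - u) * p = b) (hp' : (1 - u') * p = b')
    (h : ∀ z, u * z + b ∈ A ↔ z ∈ A)
    (h' : ∀ z, (u' * z + b' ∈ A ∨ u' * z + b' = w) ↔ (z ∈ A ∨ z = w)) : w = p := by
  by_contra hwp
  have f1 : u * w + b ≠ w := by
    intro h0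
    have : (1 - u) * (w - p) = 0 := by rw [← hp] at h0; linear_combination -h0
    rcases mul_eq_zero.1 this with h1 | h1
    · exact hu1 (by linear_combination -h1)
    · exact hwp (by linear_combination h1)
  have f2 : u' * w + b' ≠ w := by
    intro h0
    have : (1 - u') * (w - p) = 0 := by rw [← hp'] at h0; linear_combination -h0
    rcases mul_eq_zero.1 this with h1 | h1
    · exact hu1' (by linear_combination -h1)
    · exact hwp (by linear_combination h1)
  have g1 : u' * w + b' ∈ A := by
    rcases (h' w).2 (Or.inr rfl) with h1 | h1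
    · exact h1
    · exact absurd h1 f2
  have g2 : u' * (u * w + b) + b' ∈ A := by
    have e : u' * (u * w + b) + b' = u * (u' * w + b') + b := by
      rw [← hp, ← hp']; ring
    rw [e, h]; exact g1
  rcases (h' _).1 (Or.inl g2) with h1 | h1
  · exact hw ((h w).1 h1)
  · exact f1 h1

/-- Case 3: a rotation of order bigger than two, and another rotation with another centre. -/
lemma case_rotation (A : Set ℂ) (W : Finset ℂ) (hW : W.card = 4) (hA : ∀ w ∈ W, w ∉ A)
    (u b : Finset ℂ → ℂ) (hu : ∀ S ⊆ W, ‖u S‖ = 1) (hu1 : ∀ S ⊆ W, u S ≠ 1)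
    (hinv : ∀ S ⊆ W, ∀ z, (u S * z + b S ∈ A ∨ u S * z + b S ∈ S) ↔ (z ∈ A ∨ z ∈ S))
    (S T : Finset ℂ) (hS : S ⊆ W) (hT : T ⊆ W) (huS : u S ≠ -1)
    (hST : (1 - u T) * b S - (1 - u S) * b T ≠ 0) : False := by
  set v := (1 - u T) * b S - (1 - u S) * b T with hv
  have aff : ∀ S ⊆ W, AffFin A (u S) (b S) := fun S hS => affFin_of_ext (hu S hS) (hinv S hS)
  have hv1 : TrFin A v := trFin_comm (hu S hS) (hu T hT) (aff S hS) (aff T hT)
  have hv2 : TrFin A (u S * v) := trFin_push (hu S hS) (aff S hS) hv1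
  obtain ⟨R, hRfin, hper⟩ := reg A v (u S) hST (hu S hS) (hu1 S hS) huS hv1 hv2
  refine no_ref A R W hW hA hRfin ?_
  intro S' hS'
  refine ⟨u S', b S', hu S' hS', hu1 S' hS', ?_⟩
  have hinj := aff_inj (hu S' hS') (b S')
  have hu0 := unit_ne_zero (hu S' hS')
  set K : Set ℂ := {z | ¬ (u S' * z + b S' ∈ R ↔ z ∈ R)} with hK
  have hKfin : K.Finite := by
    refine (((aff S' hS').union hRfin).union
      (hRfin.preimage (f := fun z => u S' * z + b S') hinj.injOn)).subset ?_
    intro z hz
    by_contra hc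
    apply hz
    have h1 : u S' * z + b S' ∈ A ↔ z ∈ A := by
      by_contra h; exact hc (Or.inl (Or.inl h))
    have h2 : z ∈ A ↔ z ∈ R := by
      by_contra h; exact hc (Or.inl (Or.inr h))
    have h3 : u S' * z + b S' ∈ A ↔ u S' * z + b S' ∈ R := by
      by_contra h; exact hc (Or.inr h)
    rw [← h3, h1, h2]
  set x := v / u S' with hx
  have hx0 : x ≠ 0 := div_ne_zero hST hu0
  have hux : u S' * x = v := by rw [hx]; field_simp
  have hxT : TrFin A x := trFin_pull (hu S' hS') hux (aff S' hS') hv1
  have hKemp : K = ∅ := by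
    refine finite_shift K hKfin x hx0 ?_
    intro z hz
    intro hiff
    apply hz
    have e : u S' * (z + x) + b S' = (u S' * z + b S') + v := by rw [← hux]; ring
    rw [e, hper v hv1, hper x hxT] at hiff
    exact hiff
  intro z
  have hRT : u S' * z + b S' ∈ R ↔ z ∈ R := by
    by_contra h
    have : z ∈ K := h
    rw [hKemp] at this
    exact this
  rw [hinv S' hS' z, hRT]

/-- **Main theorem.** Any partial two-colouring of the plane leaving four points uncoloured
extends to a two-colouring that is preserved by no nontrivial orientation preserving isometry. -/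
theorem exists_extension (A : Set ℂ) (W : Finset ℂ) (hW : W.card = 4) (hA : ∀ w ∈ W, w ∉ A) :
    ∃ S ⊆ W, ∀ u b : ℂ, ‖u‖ = 1 →
      (∀ z, (u * z + b ∈ A ∨ u * z + b ∈ S) ↔ (z ∈ A ∨ z ∈ S)) → u = 1 ∧ b = 0 := by
  classical
  by_contra hcon
  push Not at hcon
  have hex : ∀ S : Finset ℂ, ∃ u b : ℂ, S ⊆ W → (‖u‖ = 1 ∧
      (∀ z, (u * z + b ∈ A ∨ u * z + b ∈ S) ↔ (z ∈ A ∨ z ∈ S)) ∧ (u = 1 → b ≠ 0)) := by
    intro S
    by_cases hS : S ⊆ W
    · obtain ⟨u, b, h⟩ := hcon S hS
      exact ⟨u, b, fun _ => h⟩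
    · exact ⟨0, 0, fun h => absurd h hS⟩
  choose u b hub using hex
  have hu : ∀ S ⊆ W, ‖u S‖ = 1 := fun S hS => (hub S hS).1
  have hinv : ∀ S ⊆ W, ∀ z, (u S * z + b S ∈ A ∨ u S * z + b S ∈ S) ↔ (z ∈ A ∨ z ∈ S) :=
    fun S hS => (hub S hS).2.1
  have hne : ∀ S ⊆ W, u S = 1 → b S ≠ 0 := fun S hS => (hub S hS).2.2
  by_cases h1 : ∃ S0 ⊆ W, u S0 = 1
  · obtain ⟨S0, hS0, hu0⟩ := h1
    exact case_translation A W hW hA u b hu hne hinv S0 hS0 hu0
  push Not at h1
  have h1' : ∀ S ⊆ W, 1 - u S ≠ 0 := fun S hS => sub_ne_zero.2 (Ne.symm (h1 S hS))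
  have hE : (∅ : Finset ℂ) ⊆ W := Finset.empty_subset _
  -- not all centres are equal
  have hcen : ∃ T ⊆ W, (1 - u T) * b ∅ - (1 - u ∅) * b T ≠ 0 := by
    by_contra hall
    push Not at hall
    have hp : ∀ T ⊆ W, (1 - u T) * (b ∅ / (1 - u ∅)) = b T := by
      intro T hT
      have h2 := hall T hT
      have h3 := h1' ∅ hE
      field_simp
      linear_combination h2
    have hall' : ∀ w ∈ W, w = b ∅ / (1 - u ∅) := by
      intro w hw
      have hwW : ({w} : Finset ℂ) ⊆ W := by simpa using hw
      refine case_same_centre A w (hA w hw) (u ∅) (b ∅) (u {w}) (b {w}) _ (h1 ∅ hE)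
        (h1 {w} hwW) (hp ∅ hE) (hp {w} hwW) ?_ ?_
      · intro z
        have := hinv ∅ hE z
        simpa using this
      · intro z
        have := hinv {w} hwW z
        simpa using this
    have : W.card ≤ 1 := Finset.card_le_one.2 fun x hx y hy => (hall' x hx).trans (hall' y hy).symm
    omega
  by_cases h2 : ∃ S ⊆ W, u S ≠ -1
  · obtain ⟨S, hS, huS⟩ := h2
    have : ∃ T ⊆ W, (1 - u T) * b S - (1 - u S) * b T ≠ 0 := by
      by_contra hall
      push Not at hall
      obtain ⟨T, hT, hTne⟩ := hcen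
      apply hTne
      have e1 := hall T hT
      have e2 := hall ∅ hE
      have e3 : (1 - u S) * ((1 - u T) * b ∅ - (1 - u ∅) * b T) = 0 := by
        linear_combination (1 - u ∅) * e1 - (1 - u T) * e2
      exact (mul_eq_zero.1 e3).resolve_left (h1' S hS)
    obtain ⟨T, hT, hTne⟩ := this
    exact case_rotation A W hW hA u b hu h1 hinv S T hS hT huS hTne
  · push Not at h2
    obtain ⟨T, hT, hTne⟩ := hcen
    refine halfturns_false A W hW hA b ?_ _ hTne
      (trFin_comm (hu ∅ hE) (hu T hT) (affFin_of_ext (hu ∅ hE) (hinv ∅ hE))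
        (affFin_of_ext (hu T hT) (hinv T hT)))
    intro S hS z
    have := hinv S hS z
    rw [h2 S hS] at this
    have e : -1 * z + b S = b S - z := by ring
    rw [e] at this
    exact this

end Pool.Agent.R174.Ext
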