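import Pool.Agent.R684.GP.Stm
import Pool.Agent.R372.VG.TR

set_option autoImplicit false

/-!
# Dimension at finite level (piece GP-VD, MP_305fdd_al)
-/

open scoped InnerProductSpace InnerProduct ENNReal

namespace Pool.Agent.R174.GPVD

open Pool.Agent.W649.ZL Pool.Agent.R684.PN Pool.Agent.R684.VG Pool.Agent.R684.GP
open Pool.Agent.R372.VG.TR

/-- at finite level the von Neumann dimension is the dimension divided by the order -/
theorem vd_fin {Γ Q S : Type} [Group Γ] [Group Q] [Finite Q] [Fintype S] (σ : S → Γ)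
    (q : Γ →* Q) (A : Set (List S)) :
    vd (UU σ q A) * Nat.card Q = Module.finrank ℂ (UU σ q A) := by
  classical
  have := Fintype.ofFinite Q
  obtain ⟨hcl, hinv⟩ := Pool.Agent.R928.PNCLO.t_CLO Γ Q S σ q A
  set U : Submodule ℂ (EE Q S) := UU σ q A with hU
  have : CompleteSpace U := hcl.completeSpace_coe
  have : FiniteDimensional ℂ (EE Q S) := fin_dim
  rw [← sum_proj U, vd_eq U U (topcl_eq hcl), Fintype.sum_prod_type]
  have h2 : ∀ (x : Q) (s : S), ‖U.starProjection (dl (x, s))‖ ^ 2 =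
      ‖U.starProjection (dl ((1 : Q), s))‖ ^ 2 := by
    intro x s
    have e : (dl (x, s) : EE Q S) = tr x⁻¹ (dl ((1 : Q), s)) := by
      rw [tr_dl, one_mul, inv_inv]
    rw [e, proj_tr hinv, norm_tr]
  simp only [h2]
  rw [Finset.sum_const, Finset.card_univ, nsmul_eq_mul, Nat.card_eq_fintype_card, mul_comm]

/-- evaluation of a cocycle at the word `L₀` -/
noncomputable def wd {Γ Q S : Type} [Group Γ] [Group Q] (σ : S → Γ) (q : Γ →* Q) (L₀ : List S) :
    UU σ q ∅ →ₗ[ℂ] (Q → ℂ) where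
  toFun f := fun x => DD (fun s => q (σ s)) L₀ f.1 x
  map_add' f g := by
    funext x
    change DD (fun s => q (σ s)) L₀ (f.1 + g.1 : EE Q S) x = _
    rw [lp.coeFn_add]
    exact DD_add _ L₀ _ _ x
  map_smul' a f := by
    funext x
    change DD (fun s => q (σ s)) L₀ (a • f.1 : EE Q S) x = _
    rw [lp.coeFn_smul]
    exact DD_smul _ L₀ a _ x

/-- the kernel embeds in `UU σ q {L₀}` -/
noncomputable def inj {Γ Q S : Type} [Group Γ] [Group Q] (σ : S → Γ) (q : Γ →* Q)
    (L₀ : List S) : LinearMap.ker (wd σ q L₀) →ₗ[ℂ] UU σ q {L₀} where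
  toFun f := ⟨f.1.1, by
    rw [mem_UU]
    have h1 := (mem_UU σ q ∅ f.1.1).1 f.1.2
    refine ⟨h1.1, fun L hL x => ?_⟩
    rw [Set.mem_singleton_iff] at hL
    subst hL
    have h2 : wd σ q L f.1 = 0 := f.2
    exact congrFun h2 x⟩
  map_add' f g := rfl
  map_smul' a f := rfl

theorem t_VD : S_VD := by
  classical
  intro Γ Q S _ _ _ _ σ hσ q L₀
  have := Fintype.ofFinite Q
  have : FiniteDimensional ℂ (EE Q S) := fin_dim
  have h1 : Module.finrank ℂ (ZZ q) = Module.finrank ℂ (UU σ q ∅) :=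
    (LinearEquiv.ofBijective (ev σ q) (ev_bij σ hσ q)).finrank_eq
  have h2 := LinearMap.finrank_range_add_finrank_ker (wd σ q L₀)
  have h3 : Module.finrank ℂ (LinearMap.range (wd σ q L₀)) ≤ Nat.card Q := by
    refine (Submodule.finrank_le _).trans ?_
    rw [Module.finrank_fintype_fun_eq_card, Nat.card_eq_fintype_card]
  have h4 : Module.finrank ℂ (LinearMap.ker (wd σ q L₀)) ≤ Module.finrank ℂ (UU σ q {L₀}) := by
    refine LinearMap.finrank_le_finrank_of_injective (f := inj σ q L₀) ?_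
    intro f g hfg
    have : (inj σ q L₀ f).1 = (inj σ q L₀ g).1 := congrArg Subtype.val hfg
    exact Subtype.ext (Subtype.ext this)
  rw [vd_fin σ q {L₀}]
  have h5 : Module.finrank ℂ (ZZ q) ≤ Module.finrank ℂ (UU σ q {L₀}) + Nat.card Q := by
    rw [h1, ← h2]
    omega
  exact_mod_cast h5

end Pool.Agent.R174.GPVD
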