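import Mathlib

open Set Metric Topology

namespace Pool.Agent.R174.Hom

/-- the open disk circumscribed about the unit square -/
def Dk : Set ℂ := {z | 0 < z.re*(1-z.re) + z.im*(1-z.im)}

noncomputable def lu (z : ℂ) : ℝ := (1 + z.im - z.re)/2
noncomputable def lv (z : ℂ) : ℝ := (z.re + z.im - 1)/2
noncomputable def lw (z : ℂ) : ℝ := (1 + z.re - z.im)/2

@[ext] structure M4 where
  p : ℤ
  q : ℤ
  r : ℤ
  s : ℤ

instance : Mul M4 := ⟨fun g h => ⟨g.p*h.p+g.q*h.r, g.p*h.q+g.q*h.s, g.r*h.p+g.s*h.r, g.r*h.q+g.s*h.s⟩⟩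

lemma mul_def (g h : M4) :
    g * h = ⟨g.p*h.p+g.q*h.r, g.p*h.q+g.q*h.s, g.r*h.p+g.s*h.r, g.r*h.q+g.s*h.s⟩ := rfl

def inv (g : M4) : M4 := ⟨g.s, -g.q, -g.r, g.p⟩

def one : M4 := ⟨1, 0, 0, 1⟩

def neg (g : M4) : M4 := ⟨-g.p, -g.q, -g.r, -g.s⟩

/-- the congruence subgroup of level two -/
def Gam (g : M4) : Prop := g.p*g.s - g.q*g.r = 1 ∧ Even g.q ∧ Even g.r

lemma Gam_mul {g h : M4} (hg : Gam g) (hh : Gam h) : Gam (g*h) := by
  obtain ⟨h1, ⟨a, ha⟩, ⟨b, hb⟩⟩ := hg
  obtain ⟨h2, ⟨c, hc⟩, ⟨d, hd⟩⟩ := hh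
  refine ⟨?_, ?_, ?_⟩
  · rw [mul_def]
    simp only
    have : (g.p * h.p + g.q * h.r) * (g.r * h.q + g.s * h.s) -
      (g.p * h.q + g.q * h.s) * (g.r * h.p + g.s * h.r) =
      (g.p*g.s - g.q*g.r) * (h.p*h.s-h.q*h.r) := by ring
    rw [this, h1, h2]; norm_num
  · rw [mul_def]; exact ⟨g.p*c + a*h.s, by simp only; rw [hc, ha]; ring⟩
  · rw [mul_def]; exact ⟨b*h.p + g.s*d, by simp only; rw [hd, hb]; ring⟩

lemma Gam_inv {g : M4} (hg : Gam g) : Gam (inv g) := by
  obtain ⟨h1, h2, h3⟩ := hg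
  refine ⟨?_, ?_, ?_⟩
  · simp only [inv]; linarith
  · simpa [inv] using h2
  · simpa [inv] using h3

lemma Gam_one : Gam one := ⟨by norm_num [one], by simp [one], by simp [one]⟩

lemma Gam_neg {g : M4} (hg : Gam g) : Gam (neg g) := by
  obtain ⟨h1, h2, h3⟩ := hg
  refine ⟨?_, ?_, ?_⟩
  · simp only [neg]; linarith
  · simpa [neg] using h2
  · simpa [neg] using h3

lemma mul_inv_cancel' {g : M4} (hg : Gam g) : g * inv g = one := by
  obtain ⟨h1, h2, h3⟩ := hg
  rw [mul_def]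
  ext <;> simp only [inv, one] <;> linarith

lemma inv_mul_cancel' {g : M4} (hg : Gam g) : inv g * g = one := by
  obtain ⟨h1, h2, h3⟩ := hg
  rw [mul_def]
  ext <;> simp only [inv, one] <;> linarith

lemma mul_assoc' (g h k : M4) : g * h * k = g * (h * k) := by
  simp only [mul_def]
  ext <;> simp only <;> ring

lemma one_mul' (g : M4) : one * g = g := by
  rw [mul_def]; ext <;> simp [one]

lemma mul_one' (g : M4) : g * one = g := by
  rw [mul_def]; ext <;> simp [one]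

lemma neg_mul' (g h : M4) : neg g * h = neg (g * h) := by
  simp only [mul_def, neg]; ext <;> simp only <;> ring

lemma odd_p {g : M4} (hg : Gam g) : Odd g.p := by
  obtain ⟨h1, ⟨a, ha⟩, ⟨b, hb⟩⟩ := hg
  by_contra h
  rw [Int.not_odd_iff_even] at h
  obtain ⟨c, hc⟩ := h
  rw [ha, hc] at h1
  have : (2:ℤ) ∣ 1 := ⟨c * g.s - a * g.r, by rw [← h1]; ring⟩
  omega

lemma odd_s {g : M4} (hg : Gam g) : Odd g.s := by
  obtain ⟨h1, ⟨a, ha⟩, ⟨b, hb⟩⟩ := hg
  by_contra h
  rw [Int.not_odd_iff_even] at h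
  obtain ⟨c, hc⟩ := h
  rw [ha, hc] at h1
  have : (2:ℤ) ∣ 1 := ⟨g.p * c - a * g.r, by rw [← h1]; ring⟩
  omega

/-- transformed coordinates -/
noncomputable def U (g : M4) (z : ℂ) : ℝ := g.p^2 * lu z + 2*g.p*g.q*lv z + g.q^2*lw z
noncomputable def W (g : M4) (z : ℂ) : ℝ := g.r^2 * lu z + 2*g.r*g.s*lv z + g.s^2*lw z
noncomputable def V (g : M4) (z : ℂ) : ℝ := g.p*g.r*lu z + (g.p*g.s+g.q*g.r)*lv z + g.q*g.s*lw z

/-- the action -/
noncomputable def act (g : M4) (z : ℂ) : ℂ :=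
  ⟨(V g z + W g z)/(U g z + W g z), (U g z + V g z)/(U g z + W g z)⟩

lemma sum_one (z : ℂ) : lu z + lw z = 1 := by unfold lu lw; ring

lemma det_lift (z : ℂ) : lu z * lw z - lv z^2 = (z.re*(1-z.re) + z.im*(1-z.im))/2 := by
  unfold lu lv lw; ring

lemma det_pos {z : ℂ} (hz : z ∈ Dk) : 0 < lu z * lw z - lv z^2 := by
  rw [det_lift]; have : 0 < z.re*(1-z.re) + z.im*(1-z.im) := hz; linarith

lemma lu_pos {z : ℂ} (hz : z ∈ Dk) : 0 < lu z := by
  have h1 := det_pos hz
  have h2 := sum_one z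
  nlinarith [sq_nonneg (lv z), sq_nonneg (lu z), sq_nonneg (lw z)]

lemma lw_pos {z : ℂ} (hz : z ∈ Dk) : 0 < lw z := by
  have h1 := det_pos hz
  have h2 := sum_one z
  nlinarith [sq_nonneg (lv z), sq_nonneg (lu z), sq_nonneg (lw z)]

lemma det_act (g : M4) (z : ℂ) : U g z * W g z - V g z^2 =
    (lu z * lw z - lv z^2) * ((g.p*g.s - g.q*g.r : ℤ):ℝ)^2 := by
  unfold U V W; push_cast; ring

lemma form_pos {z : ℂ} (hz : z ∈ Dk) {x y : ℝ} (h : x ≠ 0 ∨ y ≠ 0) :
    0 < x^2 * lu z + 2*x*y*lv z + y^2*lw z := by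
  have h1 := det_pos hz
  have h2 := lu_pos hz
  have h3 : lu z * (x^2 * lu z + 2*x*y*lv z + y^2*lw z) =
    (x * lu z + y * lv z)^2 + y^2 * (lu z * lw z - lv z^2) := by ring
  have h4 : 0 < lu z * (x^2 * lu z + 2*x*y*lv z + y^2*lw z) := by
    rw [h3]
    rcases eq_or_ne y 0 with hy | hy
    · subst hy
      have hx : x ≠ 0 := by tauto
      have : x * lu z ≠ 0 := mul_ne_zero hx h2.ne'
      have h5 : (x * lu z + 0 * lv z)^2 + 0^2 * (lu z * lw z - lv z^2) = (x * lu z)^2 := by ring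
      rw [h5]
      exact lt_of_le_of_ne (sq_nonneg _) (Ne.symm (pow_ne_zero 2 this))
    · have h6 : 0 < y^2 := lt_of_le_of_ne (sq_nonneg _) (Ne.symm (pow_ne_zero 2 hy))
      have h7 := mul_pos h6 h1
      have h8 := sq_nonneg (x * lu z + y * lv z)
      linarith
  exact (pos_iff_pos_of_mul_pos h4).1 h2

lemma U_pos {g : M4} (hg : Gam g) {z : ℂ} (hz : z ∈ Dk) : 0 < U g z := by
  unfold U
  apply form_pos hz
  by_contra hcon
  push Not at hcon
  obtain ⟨h1, h2⟩ := hcon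
  have h1' : g.p = 0 := by exact_mod_cast h1
  have h2' : g.q = 0 := by exact_mod_cast h2
  have := hg.1
  rw [h1', h2'] at this
  simp at this

lemma W_pos {g : M4} (hg : Gam g) {z : ℂ} (hz : z ∈ Dk) : 0 < W g z := by
  unfold W
  apply form_pos hz
  by_contra hcon
  push Not at hcon
  obtain ⟨h1, h2⟩ := hcon
  have h1' : g.r = 0 := by exact_mod_cast h1
  have h2' : g.s = 0 := by exact_mod_cast h2
  have := hg.1
  rw [h1', h2'] at this
  simp at this

lemma S_pos {g : M4} (hg : Gam g) {z : ℂ} (hz : z ∈ Dk) : 0 < U g z + W g z :=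
  add_pos (U_pos hg hz) (W_pos hg hz)

lemma lu_act {g : M4} (hg : Gam g) {z : ℂ} (hz : z ∈ Dk) :
    lu (act g z) = U g z / (U g z + W g z) := by
  have := (S_pos hg hz).ne'
  unfold lu act
  simp only
  field_simp
  ring

lemma lv_act {g : M4} (hg : Gam g) {z : ℂ} (hz : z ∈ Dk) :
    lv (act g z) = V g z / (U g z + W g z) := by
  have := (S_pos hg hz).ne'
  unfold lv act
  simp only
  field_simp
  ring

lemma lw_act {g : M4} (hg : Gam g) {z : ℂ} (hz : z ∈ Dk) :
    lw (act g z) = W g z / (U g z + W g z) := by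
  have := (S_pos hg hz).ne'
  unfold lw act
  simp only
  field_simp
  ring

lemma act_mem {g : M4} (hg : Gam g) {z : ℂ} (hz : z ∈ Dk) : act g z ∈ Dk := by
  have hS := S_pos hg hz
  have h1 := det_lift (act g z)
  rw [lu_act hg hz, lv_act hg hz, lw_act hg hz] at h1
  have h2 := det_act g z
  rw [hg.1] at h2
  have h3 := det_pos hz
  have h4 : U g z / (U g z + W g z) * (W g z / (U g z + W g z)) - (V g z / (U g z + W g z))^2 =
    (U g z * W g z - V g z^2) / (U g z + W g z)^2 := by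
    field_simp
  rw [h4, h2] at h1
  have h5 : 0 < (lu z * lw z - lv z^2) * ((1:ℤ):ℝ)^2 / (U g z + W g z)^2 := by positivity
  show 0 < (act g z).re*(1-(act g z).re) + (act g z).im*(1-(act g z).im)
  linarith

lemma U_act {g h : M4} (hh : Gam h) {z : ℂ} (hz : z ∈ Dk) :
    U g (act h z) = U (g*h) z / (U h z + W h z) := by
  have h0 := (S_pos hh hz).ne'
  have key : U (g*h) z = g.p^2 * U h z + 2*g.p*g.q * V h z + g.q^2 * W h z := by
    rw [mul_def]; unfold U V W; push_cast; ring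
  have h1 : U g (act h z) = g.p^2 * lu (act h z) + 2*g.p*g.q*lv (act h z) + g.q^2*lw (act h z) := rfl
  rw [h1, key, lu_act hh hz, lv_act hh hz, lw_act hh hz]
  ring

lemma V_act {g h : M4} (hh : Gam h) {z : ℂ} (hz : z ∈ Dk) :
    V g (act h z) = V (g*h) z / (U h z + W h z) := by
  have key : V (g*h) z = g.p*g.r * U h z + (g.p*g.s+g.q*g.r) * V h z + g.q*g.s * W h z := by
    rw [mul_def]; unfold U V W; push_cast; ring
  have h1 : V g (act h z) = g.p*g.r*lu (act h z) + (g.p*g.s+g.q*g.r)*lv (act h z) +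
    g.q*g.s*lw (act h z) := rfl
  rw [h1, key, lu_act hh hz, lv_act hh hz, lw_act hh hz]
  ring

lemma W_act {g h : M4} (hh : Gam h) {z : ℂ} (hz : z ∈ Dk) :
    W g (act h z) = W (g*h) z / (U h z + W h z) := by
  have key : W (g*h) z = g.r^2 * U h z + 2*g.r*g.s * V h z + g.s^2 * W h z := by
    rw [mul_def]; unfold U V W; push_cast; ring
  have h1 : W g (act h z) = g.r^2 * lu (act h z) + 2*g.r*g.s*lv (act h z) + g.s^2*lw (act h z) := rfl
  rw [h1, key, lu_act hh hz, lv_act hh hz, lw_act hh hz]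
  ring

lemma act_act {g h : M4} (hh : Gam h) {z : ℂ} (hz : z ∈ Dk) :
    act g (act h z) = act (g*h) z := by
  have h1 := (S_pos hh hz).ne'
  have h3 : act g (act h z) = ⟨(V g (act h z) + W g (act h z))/(U g (act h z) + W g (act h z)),
    (U g (act h z) + V g (act h z))/(U g (act h z) + W g (act h z))⟩ := rfl
  rw [h3, U_act hh hz, V_act hh hz, W_act hh hz]
  apply Complex.ext
  · simp only [act]
    rw [← add_div, ← add_div, div_div_div_cancel_right₀ h1]
  · simp only [act]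
    rw [← add_div, ← add_div, div_div_div_cancel_right₀ h1]

lemma act_one {z : ℂ} : act one z = z := by
  have := sum_one z
  apply Complex.ext
  · simp only [act, U, V, W, one]
    push_cast
    norm_num
    rw [this]
    unfold lv lw
    ring
  · simp only [act, U, V, W, one]
    push_cast
    norm_num
    rw [this]
    unfold lv lu
    ring

lemma act_neg (g : M4) (z : ℂ) : act (neg g) z = act g z := by
  have h1 : U (neg g) z = U g z := by unfold U neg; push_cast; ring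
  have h2 : V (neg g) z = V g z := by unfold V neg; push_cast; ring
  have h3 : W (neg g) z = W g z := by unfold W neg; push_cast; ring
  unfold act
  rw [h1, h2, h3]

/-! ### the four side pairings -/

def tp : M4 := ⟨1, 2, 0, 1⟩
def tm : M4 := ⟨1, -2, 0, 1⟩
def ap : M4 := ⟨1, 0, 2, 1⟩
def am : M4 := ⟨1, 0, -2, 1⟩

lemma Gam_tp : Gam tp := ⟨by norm_num [tp], by simp [tp], by simp [tp]⟩
lemma Gam_tm : Gam tm := ⟨by norm_num [tm], by simp [tm], by simp [tm]⟩
lemma Gam_ap : Gam ap := ⟨by norm_num [ap], by simp [ap], by simp [ap]⟩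
lemma Gam_am : Gam am := ⟨by norm_num [am], by simp [am], by simp [am]⟩

lemma act_tp (z : ℂ) : act tp z = ⟨(1+2*z.re-z.im)/(1+4*z.re), (1+5*z.re)/(1+4*z.re)⟩ := by
  have h : U tp z + W tp z = 1+4*z.re := by unfold U W tp lu lv lw; push_cast; ring
  have h2 : V tp z + W tp z = 1+2*z.re-z.im := by unfold V W tp lu lv lw; push_cast; ring
  have h3 : U tp z + V tp z = 1+5*z.re := by unfold U V tp lu lv lw; push_cast; ring
  unfold act
  rw [h, h2, h3]

lemma act_tm (z : ℂ) : act tm z = ⟨(z.im-1)/(5-4*z.im), (3-z.re-2*z.im)/(5-4*z.im)⟩ := by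
  have h : U tm z + W tm z = 5-4*z.im := by unfold U W tm lu lv lw; push_cast; ring
  have h2 : V tm z + W tm z = z.im-1 := by unfold V W tm lu lv lw; push_cast; ring
  have h3 : U tm z + V tm z = 3-z.re-2*z.im := by unfold U V tm lu lv lw; push_cast; ring
  unfold act
  rw [h, h2, h3]

lemma act_ap (z : ℂ) : act ap z = ⟨(1+5*z.im)/(1+4*z.im), (1+2*z.im-z.re)/(1+4*z.im)⟩ := by
  have h : U ap z + W ap z = 1+4*z.im := by unfold U W ap lu lv lw; push_cast; ring
  have h2 : V ap z + W ap z = 1+5*z.im := by unfold V W ap lu lv lw; push_cast; ring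
  have h3 : U ap z + V ap z = 1+2*z.im-z.re := by unfold U V ap lu lv lw; push_cast; ring
  unfold act
  rw [h, h2, h3]

lemma act_am (z : ℂ) : act am z = ⟨(3-z.im-2*z.re)/(5-4*z.re), (z.re-1)/(5-4*z.re)⟩ := by
  have h : U am z + W am z = 5-4*z.re := by unfold U W am lu lv lw; push_cast; ring
  have h2 : V am z + W am z = 3-z.im-2*z.re := by unfold V W am lu lv lw; push_cast; ring
  have h3 : U am z + V am z = z.re-1 := by unfold U V am lu lv lw; push_cast; ring
  unfold act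
  rw [h, h2, h3]

end Pool.Agent.R174.Hom
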