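import Mathlib
import Pool.Agent.R174.HomA

open Set Metric Topology

namespace Pool.Agent.R174.Hom

/-- the ideal quadrilateral -/
def Q : Set ℂ := {z | z ∈ Dk ∧ 0 ≤ z.re ∧ z.re ≤ 1 ∧ 0 ≤ z.im ∧ z.im ≤ 1}

lemma re_eq (z : ℂ) : z.re = lv z + lw z := by unfold lv lw; ring
lemma im_eq (z : ℂ) : z.im = lu z + lv z := by unfold lv lu; ring
lemma re_eq' (z : ℂ) : 1 - z.re = lu z - lv z := by unfold lv lu; ring
lemma im_eq' (z : ℂ) : 1 - z.im = lw z - lv z := by unfold lv lw; ring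

lemma form_split (u v w p q m P R : ℝ) (hP : P^2 = p^2) (hR : R^2 = q^2) :
    p^2*u+2*p*q*v+q^2*w - u = (u-m)*(P^2-1) + (w-m)*R^2 + 2*(p*q*v+P*R*m) + m*((P-R)^2-1) := by
  have : (P-R)^2 = P^2 - 2*P*R + R^2 := by ring
  rw [this, hP, hR]; ring

lemma form_terms {u v w : ℝ} (h1 : |v| ≤ u) (h2 : |v| ≤ w) {p q : ℤ} (hp : Odd p) (hq : Even q) :
    0 ≤ (u-|v|)*((|p|:ℝ)^2-1) ∧ 0 ≤ (w-|v|)*(|q|:ℝ)^2 ∧ 0 ≤ 2*(p*q*v+|(p:ℝ)| * |(q:ℝ)| * |v|) ∧
    0 ≤ |v| * ((|(p:ℝ)|-|(q:ℝ)|)^2-1) := by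
  have hodd : Odd (|p| - |q|) := by
    rw [Int.odd_sub]
    constructor
    · intro _; exact (even_abs).2 hq
    · intro _; exact (odd_abs).2 hp
  have hp0 : |p| ≠ 0 := by
    intro h; rw [abs_eq_zero] at h; rw [h] at hp; simp at hp
  have hp1 : 1 ≤ |p| := by
    have := abs_nonneg p; omega
  have hp1' : (1:ℝ) ≤ |(p:ℝ)| := by exact_mod_cast hp1
  have hd0 : (|p| - |q|) ≠ 0 := by
    intro h; rw [h] at hodd; simp at hodd
  have hd1 : 1 ≤ (|p| - |q|)^2 := by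
    have := sq_nonneg (|p| - |q|)
    have h3 : (|p| - |q|)^2 ≠ 0 := pow_ne_zero 2 hd0
    omega
  have hd1' : (1:ℝ) ≤ (|(p:ℝ)|-|(q:ℝ)|)^2 := by exact_mod_cast hd1
  refine ⟨?_, ?_, ?_, ?_⟩
  · apply mul_nonneg (by linarith)
    nlinarith
  · apply mul_nonneg (by linarith) (sq_nonneg _)
  · have h := neg_abs_le ((p:ℝ)*q*v)
    rw [abs_mul, abs_mul] at h
    linarith
  · apply mul_nonneg (abs_nonneg _) (by linarith)

lemma form_ge {u v w : ℝ} (h1 : |v| ≤ u) (h2 : |v| ≤ w) {p q : ℤ} (hp : Odd p) (hq : Even q) :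
    u ≤ (p:ℝ)^2*u+2*p*q*v+(q:ℝ)^2*w := by
  obtain ⟨t1, t2, t3, t4⟩ := form_terms h1 h2 hp hq
  have := form_split u v w p q |v| |(p:ℝ)| |(q:ℝ)| (sq_abs _) (sq_abs _)
  linarith

lemma form_eq {u v w : ℝ} (hu : 0 < u) (hw : 0 < w) (hd : v^2 < u*w)
    (h1 : |v| ≤ u) (h2 : |v| ≤ w) {p q : ℤ} (hp : Odd p) (hq : Even q)
    (hle : (p:ℝ)^2*u+2*p*q*v+(q:ℝ)^2*w ≤ u) (hq0 : q ≠ 0) :
    w = |v| ∧ ((q = 2*p ∧ v = -w) ∨ (q = -2*p ∧ v = w)) := by
  obtain ⟨t1, t2, t3, t4⟩ := form_terms h1 h2 hp hq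
  have hs := form_split u v w p q |v| |(p:ℝ)| |(q:ℝ)| (sq_abs _) (sq_abs _)
  have e1 : (u-|v|)*((|p|:ℝ)^2-1) = 0 := by linarith
  have e2 : (w-|v|)*(|q|:ℝ)^2 = 0 := by linarith
  have e3 : 2*(p*q*v+|(p:ℝ)| * |(q:ℝ)| * |v|) = 0 := by linarith
  have e4 : |v| * ((|(p:ℝ)|-|(q:ℝ)|)^2-1) = 0 := by linarith
  have hqr : (q:ℝ) ≠ 0 := by exact_mod_cast hq0
  have hw' : w = |v| := by
    rcases mul_eq_zero.1 e2 with h | h
    · linarith
    · exfalso; exact pow_ne_zero 2 (abs_ne_zero.2 hqr) h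
  have hvpos : 0 < |v| := by linarith
  have huw : |v| < u := by
    by_contra hcon
    push Not at hcon
    have : u = |v| := le_antisymm hcon h1
    rw [this, hw', ← pow_two, sq_abs] at hd
    exact lt_irrefl _ hd
  have hP : |(p:ℝ)|^2 = 1 := by
    rcases mul_eq_zero.1 e1 with h | h <;> linarith
  have hP2 : |p| = 1 := by
    have h3 : |p|^2 = 1 := by exact_mod_cast hP
    have := abs_nonneg p
    nlinarith
  have hPr : |(p:ℝ)| = 1 := by exact_mod_cast hP2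
  have hQ : (|(p:ℝ)|-|(q:ℝ)|)^2 = 1 := by
    rcases mul_eq_zero.1 e4 with h | h <;> linarith
  have hQ2 : |q| = 2 := by
    have h3 : (|p|-|q|)^2 = 1 := by exact_mod_cast hQ
    rw [hP2] at h3
    have h4 : |q| * (|q| - 2) = 0 := by linarith
    rcases mul_eq_zero.1 h4 with h | h
    · exfalso; exact abs_ne_zero.2 hq0 h
    · omega
  have hQr : |(q:ℝ)| = 2 := by exact_mod_cast hQ2
  rw [hPr, hQr] at e3
  have hp' : p = 1 ∨ p = -1 := by
    rcases abs_cases p with ⟨h, _⟩ | ⟨h, _⟩ <;> omega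
  have hq' : q = 2 ∨ q = -2 := by
    rcases abs_cases q with ⟨h, _⟩ | ⟨h, _⟩ <;> omega
  refine ⟨hw', ?_⟩
  rcases hp' with rfl | rfl <;> rcases hq' with rfl | rfl <;>
    push_cast at e3 <;> rw [← hw'] at e3
  · left; exact ⟨by norm_num, by linarith⟩
  · right; exact ⟨by norm_num, by linarith⟩
  · right; exact ⟨by norm_num, by linarith⟩
  · left; exact ⟨by norm_num, by linarith⟩

lemma Q_abs {z : ℂ} (hz : z ∈ Q) : |lv z| ≤ lu z ∧ |lv z| ≤ lw z := by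
  obtain ⟨h0, h1, h2, h3, h4⟩ := hz
  have e1 := re_eq z
  have e2 := im_eq z
  have e3 := re_eq' z
  have e4 := im_eq' z
  constructor <;> rw [abs_le] <;> constructor <;> linarith

lemma S_ge {z : ℂ} (hz : z ∈ Q) {g : M4} (hg : Gam g) : lu z ≤ U g z ∧ lw z ≤ W g z := by
  obtain ⟨h1, h2⟩ := Q_abs hz
  constructor
  · exact form_ge h1 h2 (odd_p hg) hg.2.1
  · have := form_ge (u := lw z) (v := lv z) (w := lu z) h2 h1 (odd_s hg) hg.2.2
    unfold W; linarith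

lemma act_inv {g : M4} (hg : Gam g) {z : ℂ} (hz : z ∈ Dk) : act (inv g) (act g z) = z := by
  rw [act_act hg hz, inv_mul_cancel' hg, act_one]

lemma act_inv' {g : M4} (hg : Gam g) {z : ℂ} (hz : z ∈ Dk) : act g (act (inv g) z) = z := by
  rw [act_act (Gam_inv hg) hz, mul_inv_cancel' hg, act_one]

lemma S_one (z : ℂ) : U one z + W one z = 1 := by
  have := sum_one z
  unfold U W one
  push_cast
  linarith

/-- the key lemma: the translates of `Q` meeting `Q` -/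
lemma key {z : ℂ} (hz : z ∈ Q) {g : M4} (hg : Gam g) (hgz : act g z ∈ Q) :
    (g = one ∨ g = neg one) ∨ ((g = tp ∨ g = neg tp) ∧ z.re = 0) ∨
    ((g = tm ∨ g = neg tm) ∧ z.im = 1) ∨ ((g = ap ∨ g = neg ap) ∧ z.im = 0) ∨
    ((g = am ∨ g = neg am) ∧ z.re = 1) := by
  have hD := hz.1
  have hS := S_pos hg hD
  obtain ⟨a1, a2⟩ := S_ge hz hg
  obtain ⟨b1, b2⟩ := S_ge hgz (Gam_inv hg)
  have h1 := sum_one z
  have h2 := sum_one (act g z)
  have h3 : U (inv g) (act g z) + W (inv g) (act g z) = 1 / (U g z + W g z) := by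
    rw [U_act hg hD, W_act hg hD, inv_mul_cancel' hg, ← add_div, S_one]
  have h4 : 1 ≤ 1 / (U g z + W g z) := by rw [← h3]; linarith
  have h5 : U g z + W g z ≤ 1 := by
    rw [le_div_iff₀ hS] at h4; linarith
  have hU : U g z ≤ lu z := by linarith
  have hW : W g z ≤ lw z := by linarith
  obtain ⟨c1, c2⟩ := Q_abs hz
  have hup := lu_pos hD
  have hwp := lw_pos hD
  have hdet := det_pos hD
  have e1 := re_eq z
  have e2 := im_eq z
  have e3 := re_eq' z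
  have e4 := im_eq' z
  have hW' : (g.s:ℝ)^2*lw z+2*g.s*g.r*lv z+(g.r:ℝ)^2*lu z ≤ lw z := by
    unfold W at hW; linarith
  by_cases hq : g.q = 0
  · by_cases hr : g.r = 0
    · left
      have hdt := hg.1
      rw [hq, hr] at hdt
      have hps : g.p * g.s = 1 := by linarith
      rcases Int.mul_eq_one_iff_eq_one_or_neg_one.1 hps with ⟨h6, h7⟩ | ⟨h6, h7⟩
      · left; ext <;> simp [one, *]
      · right; ext <;> simp [one, neg, *]
    · obtain ⟨d1, d2⟩ := form_eq hwp hup (by linarith) c2 c1 (odd_s hg) hg.2.2 hW' hr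
      have hdt := hg.1
      rw [hq] at hdt
      have hps : g.p * g.s = 1 := by linarith
      right; right; right
      rcases d2 with ⟨d2, d3⟩ | ⟨d2, d3⟩
      · left
        refine ⟨?_, by linarith⟩
        rcases Int.mul_eq_one_iff_eq_one_or_neg_one.1 hps with ⟨h6, h7⟩ | ⟨h6, h7⟩
        · left; ext <;> simp [ap, *]
        · right; ext <;> simp [ap, neg, *]
      · right
        refine ⟨?_, by linarith⟩
        rcases Int.mul_eq_one_iff_eq_one_or_neg_one.1 hps with ⟨h6, h7⟩ | ⟨h6, h7⟩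
        · left; ext <;> simp [am, *]
        · right; ext <;> simp [am, neg, *]
  · obtain ⟨d1, d2⟩ := form_eq hup hwp (by linarith) c1 c2 (odd_p hg) hg.2.1 hU hq
    have hr : g.r = 0 := by
      by_contra hr
      obtain ⟨f1, f2⟩ := form_eq hwp hup (by linarith) c2 c1 (odd_s hg) hg.2.2 hW' hr
      rw [d1, f1, ← pow_two, sq_abs] at hdet
      linarith
    have hdt := hg.1
    rw [hr] at hdt
    have hps : g.p * g.s = 1 := by linarith
    right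
    rcases d2 with ⟨d2, d3⟩ | ⟨d2, d3⟩
    · left
      refine ⟨?_, by linarith⟩
      rcases Int.mul_eq_one_iff_eq_one_or_neg_one.1 hps with ⟨h6, h7⟩ | ⟨h6, h7⟩
      · left; ext <;> simp [tp, *]
      · right; ext <;> simp [tp, neg, *]
    · right; left
      refine ⟨?_, by linarith⟩
      rcases Int.mul_eq_one_iff_eq_one_or_neg_one.1 hps with ⟨h6, h7⟩ | ⟨h6, h7⟩
      · left; ext <;> simp [tm, *]
      · right; ext <;> simp [tm, neg, *]

/-- finiteness -/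
lemma fin_set {z : ℂ} (hz : z ∈ Dk) : {g : M4 | Gam g ∧ U g z + W g z ≤ 1}.Finite := by
  have hd := det_pos hz
  set d := lu z * lw z - lv z^2 with hdd
  have hb : ∀ x y : ℝ, d * (x^2+y^2) ≤ x^2 * lu z + 2*x*y*lv z + y^2*lw z := by
    intro x y
    have h1 := sum_one z
    have h2 : (x^2 * lu z + 2*x*y*lv z + y^2*lw z) * (lu z + lw z) - d * (x^2+y^2) =
      (lu z * x + lv z * y)^2 + (lv z * x + lw z * y)^2 := by rw [hdd]; ring
    rw [h1] at h2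
    nlinarith [sq_nonneg (lu z * x + lv z * y), sq_nonneg (lv z * x + lw z * y)]
  obtain ⟨N, hN⟩ := exists_nat_ge (1/d)
  have hN' : ∀ x y : ℤ, d * ((x:ℝ)^2+(y:ℝ)^2) ≤ 1 → (-(N:ℤ) ≤ x ∧ x ≤ N) ∧ (-(N:ℤ) ≤ y ∧ y ≤ N) := by
    intro x y h
    have h1 : (x:ℝ)^2+(y:ℝ)^2 ≤ 1/d := by
      rw [le_div_iff₀ hd]; linarith
    have h2 : (x:ℝ)^2 + (y:ℝ)^2 ≤ N := h1.trans hN
    have h3 : x^2+y^2 ≤ (N:ℤ) := by exact_mod_cast h2
    have h4 : x ≤ x^2 := Int.le_self_sq x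
    have h5 : -x ≤ x^2 := by have := Int.le_self_sq (-x); linarith [neg_sq x]
    have h6 : y ≤ y^2 := Int.le_self_sq y
    have h7 : -y ≤ y^2 := by have := Int.le_self_sq (-y); linarith [neg_sq y]
    have h8 := sq_nonneg x
    have h9 := sq_nonneg y
    refine ⟨⟨by linarith, by linarith⟩, ⟨by linarith, by linarith⟩⟩
  have hfin : ((fun t : ℤ × ℤ × ℤ × ℤ => (⟨t.1, t.2.1, t.2.2.1, t.2.2.2⟩ : M4)) ''
      (Icc (-(N:ℤ)) N ×ˢ (Icc (-(N:ℤ)) N ×ˢ (Icc (-(N:ℤ)) N ×ˢ Icc (-(N:ℤ)) N)))).Finite := by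
    apply Set.Finite.image
    exact (finite_Icc _ _).prod ((finite_Icc _ _).prod ((finite_Icc _ _).prod (finite_Icc _ _)))
  apply hfin.subset
  rintro g ⟨hg, hle⟩
  have hU := U_pos hg hz
  have hW := W_pos hg hz
  have b1 := hb g.p g.q
  have b2 := hb g.r g.s
  have b1' : d * ((g.p:ℝ)^2+(g.q:ℝ)^2) ≤ 1 := by
    have : U g z = (g.p:ℝ)^2 * lu z + 2*g.p*g.q*lv z + (g.q:ℝ)^2*lw z := rfl
    linarith
  have b2' : d * ((g.r:ℝ)^2+(g.s:ℝ)^2) ≤ 1 := by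
    have : W g z = (g.r:ℝ)^2 * lu z + 2*g.r*g.s*lv z + (g.s:ℝ)^2*lw z := rfl
    linarith
  obtain ⟨⟨n1, n2⟩, ⟨n3, n4⟩⟩ := hN' _ _ b1'
  obtain ⟨⟨n5, n6⟩, ⟨n7, n8⟩⟩ := hN' _ _ b2'
  exact ⟨(g.p, g.q, g.r, g.s), ⟨⟨n1, n2⟩, ⟨n3, n4⟩, ⟨n5, n6⟩, ⟨n7, n8⟩⟩, rfl⟩

lemma S_tp (z : ℂ) : U tp z + W tp z = 1+4*z.re := by unfold U W tp lu lv lw; push_cast; ring
lemma S_tm (z : ℂ) : U tm z + W tm z = 5-4*z.im := by unfold U W tm lu lv lw; push_cast; ring
lemma S_ap (z : ℂ) : U ap z + W ap z = 1+4*z.im := by unfold U W ap lu lv lw; push_cast; ring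
lemma S_am (z : ℂ) : U am z + W am z = 5-4*z.re := by unfold U W am lu lv lw; push_cast; ring

/-- every point can be moved into `Q` -/
lemma cover {z : ℂ} (hz : z ∈ Dk) : ∃ g, Gam g ∧ act g z ∈ Q := by
  obtain ⟨g, hg, hmin⟩ := Set.exists_min_image _ (fun g => U g z + W g z) (fin_set hz)
    ⟨one, Gam_one, (S_one z).le⟩
  have hS := S_pos hg.1 hz
  have hm : ∀ h, Gam h → 1 ≤ U h (act g z) + W h (act g z) := by
    intro h hh
    rw [U_act hg.1 hz, W_act hg.1 hz, ← add_div, le_div_iff₀ hS, one_mul]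
    by_cases hc : U (h*g) z + W (h*g) z ≤ 1
    · exact hmin _ ⟨Gam_mul hh hg.1, hc⟩
    · push Not at hc
      exact hg.2.trans hc.le
  refine ⟨g, hg.1, act_mem hg.1 hz, ?_, ?_, ?_, ?_⟩
  · have := hm tp Gam_tp; rw [S_tp] at this; linarith
  · have := hm am Gam_am; rw [S_am] at this; linarith
  · have := hm ap Gam_ap; rw [S_ap] at this; linarith
  · have := hm tm Gam_tm; rw [S_tm] at this; linarith

end Pool.Agent.R174.Hom
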