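import Mathlib

open Set Metric Topology

namespace Pool.Agent.R174.Til

/-- binary digits `s`, extended by zero to the negative places -/
def dig (s : ℕ → Bool) (k : ℤ) : ℤ := if 0 ≤ k ∧ s k.toNat = true then 1 else 0

/-- the left end of the `k`-th ancestor of the unit square -/
noncomputable def off (s : ℕ → Bool) (k : ℤ) : ℝ :=
  -∑ i ∈ Finset.range k.toNat, (if s i = true then (2:ℝ)^i else 0)

lemma dig_bd (s : ℕ → Bool) (k : ℤ) : dig s k = 0 ∨ dig s k = 1 := by
  unfold dig; split_ifs <;> simp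

lemma off_succ (s : ℕ → Bool) (k : ℤ) : off s (k+1) = off s k - dig s k * (2:ℝ)^k := by
  unfold off dig
  rcases lt_or_ge k 0 with hk | hk
  · have h1 : (k+1).toNat = 0 := by omega
    have h2 : k.toNat = 0 := by omega
    have h3 : ¬ (0 ≤ k) := by omega
    simp [h1, h2, h3]
  · obtain ⟨n, rfl⟩ := Int.eq_ofNat_of_zero_le hk
    have h1 : ((n:ℤ)+1).toNat = n+1 := by omega
    have h2 : (n:ℤ).toNat = n := by omega
    rw [h1, h2, Finset.sum_range_succ]
    by_cases h : s n = true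
    · simp [h]; ring
    · simp [h]

/-- left end of tile `m` of level `k` -/
noncomputable def L (s : ℕ → Bool) (k m : ℤ) : ℝ := off s k + m * (2:ℝ)^k

lemma L_up (s : ℕ → Bool) (k m : ℤ) : L s (k+1) m = L s k (2*m - dig s k) := by
  unfold L
  rw [off_succ, zpow_add_one₀ (by norm_num)]
  push_cast
  ring

lemma L_strictMono (s : ℕ → Bool) (k : ℤ) : StrictMono (L s k) := by
  intro m n h
  unfold L
  have h2 : (0:ℝ) < (2:ℝ)^k := by positivity
  have h3 : (m:ℝ) < n := by exact_mod_cast h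
  nlinarith

lemma L_add_one (s : ℕ → Bool) (k m : ℤ) : L s k (m+1) = L s k m + (2:ℝ)^k := by
  unfold L; push_cast; ring

lemma L_lt_iff (s : ℕ → Bool) (k m n : ℤ) : L s k m < L s k n ↔ m < n := (L_strictMono s k).lt_iff_lt
lemma L_le_iff (s : ℕ → Bool) (k m n : ℤ) : L s k m ≤ L s k n ↔ m ≤ n := (L_strictMono s k).le_iff_le
lemma L_inj (s : ℕ → Bool) (k m n : ℤ) : L s k m = L s k n ↔ m = n := (L_strictMono s k).injective.eq_iff

/-- every real is in some half open level-k interval -/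
lemma exists_L (s : ℕ → Bool) (k : ℤ) (x : ℝ) : ∃ m : ℤ, L s k m ≤ x ∧ x < L s k (m+1) := by
  refine ⟨⌊(x - off s k) / (2:ℝ)^k⌋, ?_, ?_⟩
  · unfold L
    have h2 : (0:ℝ) < (2:ℝ)^k := by positivity
    have := Int.floor_le ((x - off s k) / (2:ℝ)^k)
    have h3 := mul_le_mul_of_nonneg_right this h2.le
    rw [div_mul_cancel₀ _ h2.ne'] at h3
    linarith
  · unfold L
    have h2 : (0:ℝ) < (2:ℝ)^k := by positivity
    have := Int.lt_floor_add_one ((x - off s k) / (2:ℝ)^k)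
    have h3 := mul_lt_mul_of_pos_right this h2
    rw [div_mul_cancel₀ _ h2.ne'] at h3
    push_cast
    linarith

/-- the tile `(k,m)` -/
def R (s : ℕ → Bool) (k m : ℤ) : Set ℂ :=
  {z : ℂ | L s k m ≤ z.re ∧ z.re ≤ L s k (m+1) ∧ (k:ℝ) ≤ z.im ∧ z.im ≤ (k:ℝ)+1}

/-- the tiling -/
def T (s : ℕ → Bool) : Set (Set ℂ) := {X | ∃ k m, X = R s k m}

lemma R_eq (s : ℕ → Bool) (k m : ℤ) :
    R s k m = Set.Icc (L s k m) (L s k (m+1)) ×ℂ Set.Icc (k:ℝ) (k+1) := by
  ext z
  simp [R, Complex.mem_reProdIm, and_assoc]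

lemma R_closed (s : ℕ → Bool) (k m : ℤ) : IsClosed (R s k m) := by
  rw [R_eq]; exact isClosed_Icc.reProdIm isClosed_Icc

lemma R_interior (s : ℕ → Bool) (k m : ℤ) : interior (R s k m) =
    {z : ℂ | L s k m < z.re ∧ z.re < L s k (m+1) ∧ (k:ℝ) < z.im ∧ z.im < (k:ℝ)+1} := by
  rw [R_eq, Complex.interior_reProdIm, interior_Icc, interior_Icc]
  ext z
  simp [Complex.mem_reProdIm, and_assoc]

/-- a point of level strictly between -/
lemma interior_mem_iff {s : ℕ → Bool} {k m k' m' : ℤ} {z : ℂ} (hz : z ∈ interior (R s k m))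
    (hz' : z ∈ R s k' m') : k' = k ∧ m' = m := by
  rw [R_interior] at hz
  obtain ⟨h1, h2, h3, h4⟩ := hz
  obtain ⟨g1, g2, g3, g4⟩ := hz'
  have hk : k' = k := by
    have a1 : (k':ℝ) < k+1 := by linarith
    have a2 : (k:ℝ) < k'+1 := by linarith
    have a3 : k' < k+1 := by exact_mod_cast a1
    have a4 : k < k'+1 := by exact_mod_cast a2
    omega
  subst hk
  refine ⟨rfl, ?_⟩
  have a1 : L s k' m' < L s k' (m+1) := by linarith
  have a2 : L s k' m < L s k' (m'+1) := by linarith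
  rw [L_lt_iff] at a1 a2
  omega

lemma mid_mem (s : ℕ → Bool) (k m : ℤ) :
    (⟨L s k m + (2:ℝ)^k/2, k + 1/2⟩ : ℂ) ∈ interior (R s k m) := by
  rw [R_interior]
  have h2 : (0:ℝ) < (2:ℝ)^k := by positivity
  refine ⟨?_, ?_, ?_, ?_⟩ <;> simp [L_add_one] <;> linarith

lemma R_inj {s : ℕ → Bool} {k m k' m' : ℤ} (h : R s k m = R s k' m') : k = k' ∧ m = m' := by
  have h1 := mid_mem s k m
  have h2 : (⟨L s k m + (2:ℝ)^k/2, k + 1/2⟩ : ℂ) ∈ R s k' m' := h ▸ interior_subset h1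
  have h3 := interior_mem_iff h1 h2
  exact ⟨h3.1.symm, h3.2.symm⟩

lemma R_inj_iff {s : ℕ → Bool} {k m k' m' : ℤ} : R s k m = R s k' m' ↔ k = k' ∧ m = m' :=
  ⟨R_inj, fun ⟨h1, h2⟩ => by rw [h1, h2]⟩

/-- the vertex below the middle of the tile `(k,m)` -/
noncomputable def V3 (s : ℕ → Bool) (k m : ℤ) : ℂ := ⟨L s (k-1) (2*m + 1 - dig s (k-1)), k⟩

/-- the lower left corner of the tile `(k,m)` -/
noncomputable def V4 (s : ℕ → Bool) (k m : ℤ) : ℂ := ⟨L s k m, k⟩

lemma L_down (s : ℕ → Bool) (k m : ℤ) : L s k m = L s (k-1) (2*m - dig s (k-1)) := by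
  have := L_up s (k-1) m
  rwa [sub_add_cancel] at this

def inc3 (s : ℕ → Bool) (k m j n : ℤ) : Prop :=
  (j = k ∧ n = m) ∨ (j = k-1 ∧ (n = 2*m - dig s (k-1) ∨ n = 2*m+1-dig s (k-1)))

def inc4 (s : ℕ → Bool) (k m j n : ℤ) : Prop :=
  (j = k ∧ (n = m ∨ n = m-1)) ∨ (j = k-1 ∧ (n = 2*m - dig s (k-1) ∨ n = 2*m-1-dig s (k-1)))

/-- heights -/
lemma height {j k : ℤ} (h1 : (j:ℝ) ≤ (k:ℝ)) (h2 : (k:ℝ) ≤ j+1) : j = k ∨ j = k - 1 := by
  have a1 : j ≤ k := by exact_mod_cast h1
  have a2 : k ≤ j+1 := by exact_mod_cast h2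
  omega

lemma V3_mem (s : ℕ → Bool) (k m j n : ℤ) : V3 s k m ∈ R s j n ↔ inc3 s k m j n := by
  constructor
  · rintro ⟨h1, h2, h3, h4⟩
    simp only [V3] at h1 h2 h3 h4
    rcases height h3 h4 with h | h
    · subst h
      rw [L_down s j n, L_le_iff] at h1
      rw [L_down s j (n+1), L_le_iff] at h2
      left
      refine ⟨rfl, ?_⟩
      omega
    · subst h
      rw [L_le_iff] at h1 h2
      right
      refine ⟨rfl, ?_⟩
      omega
  · rintro (⟨rfl, rfl⟩ | ⟨rfl, h | h⟩)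
    · refine ⟨?_, ?_, ?_, ?_⟩ <;> simp only [V3]
      · rw [L_down s j n, L_le_iff]; omega
      · rw [L_down s j (n+1), L_le_iff]; omega
      · exact le_refl _
      · linarith
    · refine ⟨?_, ?_, ?_, ?_⟩ <;> simp only [V3]
      · rw [L_le_iff]; omega
      · rw [L_le_iff]; omega
      · push_cast; linarith
      · push_cast; linarith
    · refine ⟨?_, ?_, ?_, ?_⟩ <;> simp only [V3]
      · rw [L_le_iff]; omega
      · rw [L_le_iff]; omega
      · push_cast; linarith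
      · push_cast; linarith

lemma V4_mem (s : ℕ → Bool) (k m j n : ℤ) : V4 s k m ∈ R s j n ↔ inc4 s k m j n := by
  constructor
  · rintro ⟨h1, h2, h3, h4⟩
    simp only [V4] at h1 h2 h3 h4
    rcases height h3 h4 with h | h
    · subst h
      rw [L_le_iff] at h1 h2
      left
      refine ⟨rfl, ?_⟩
      omega
    · subst h
      rw [L_down s k m, L_le_iff] at h1 h2
      right
      refine ⟨rfl, ?_⟩
      omega
  · rintro (⟨rfl, h | h⟩ | ⟨rfl, h | h⟩)
    · subst h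
      refine ⟨?_, ?_, ?_, ?_⟩ <;> simp only [V4]
      · exact le_refl _
      · rw [L_le_iff]; omega
      · exact le_refl _
      · linarith
    · subst h
      refine ⟨?_, ?_, ?_, ?_⟩ <;> simp only [V4]
      · rw [L_le_iff]; omega
      · rw [L_le_iff]; omega
      · exact le_refl _
      · linarith
    · subst h
      refine ⟨?_, ?_, ?_, ?_⟩ <;> simp only [V4]
      · rw [L_down s k m, L_le_iff]
      · rw [L_down s k m, L_le_iff]; omega
      · push_cast; linarith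
      · push_cast; linarith
    · subst h
      refine ⟨?_, ?_, ?_, ?_⟩ <;> simp only [V4]
      · rw [L_down s k m, L_le_iff]; omega
      · rw [L_down s k m, L_le_iff]; omega
      · push_cast; linarith
      · push_cast; linarith

end Pool.Agent.R174.Til
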