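import Mathlib

/-!
# Homogeneous tilings of type [3.4.3.4.4]: definitions

The Euclidean plane is `ℂ`.
-/

open Set Metric Topology

namespace Pool.Agent.R174.Til

/-- A tiling of the plane: a countable family of closed sets whose union is the plane and whose
interiors are pairwise disjoint. -/
structure IsTiling (T : Set (Set ℂ)) : Prop where
  countable : T.Countable
  closed : ∀ X ∈ T, IsClosed X
  cover : ⋃₀ T = Set.univ
  disjoint : ∀ X ∈ T, ∀ Y ∈ T, X ≠ Y → Disjoint (interior X) (interior Y)

/-- The standing assumptions on tilings: (N.1) tiles are closed topological disks; (N.2) two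
tiles have empty or connected intersection; there are no singular points, i.e. every point has a
neighbourhood meeting only finitely many tiles. -/
structure IsNormal (T : Set (Set ℂ)) : Prop extends IsTiling T where
  disk : ∀ X ∈ T, Nonempty (X ≃ₜ closedBall (0:ℂ) 1)
  conn : ∀ X ∈ T, ∀ Y ∈ T, X ≠ Y → IsPreconnected (X ∩ Y)
  noSingular : ∀ x : ℂ, ∃ U ∈ 𝓝 x, {X | X ∈ T ∧ (X ∩ U).Nonempty}.Finite

/-- The number of tiles containing a point. -/
noncomputable def valence (T : Set (Set ℂ)) (x : ℂ) : ℕ∞ := {X | X ∈ T ∧ x ∈ X}.encard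

/-- A vertex is a point which lies in at least three tiles. -/
def IsVertex (T : Set (Set ℂ)) (x : ℂ) : Prop := 3 ≤ valence T x

/-- `X` has exactly five vertices, and going once around its boundary (along the simple closed
curve `γ`) one meets vertices of valences `3, 4, 3, 4, 4` in this order. -/
def HasType34344 (T : Set (Set ℂ)) (X : Set ℂ) : Prop :=
  ∃ γ : ℝ → ℂ, Continuous γ ∧ γ 0 = γ 5 ∧ InjOn γ (Ico 0 5) ∧ γ '' Icc 0 5 = frontier X ∧
    {v | v ∈ X ∧ IsVertex T v} = {γ 0, γ 1, γ 2, γ 3, γ 4} ∧
    valence T (γ 0) = 3 ∧ valence T (γ 1) = 4 ∧ valence T (γ 2) = 3 ∧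
    valence T (γ 3) = 4 ∧ valence T (γ 4) = 4

/-- Homogeneous tilings of type `[3.4.3.4.4]`. -/
def IsHomogeneous34344 (T : Set (Set ℂ)) : Prop :=
  IsNormal T ∧ ∀ X ∈ T, HasType34344 T X

/-- Two tilings are topologically equivalent if some homeomorphism of the plane onto itself maps
the tiles of the first bijectively onto the tiles of the second. -/
def TopEquiv (T T' : Set (Set ℂ)) : Prop :=
  ∃ h : ℂ ≃ₜ ℂ, BijOn (fun X : Set ℂ => h '' X) T T'

end Pool.Agent.R174.Til
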