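import Mathlib
import Pool.Agent.R174.TilA
import Pool.Agent.R174.TilDef

open Set Metric Topology

namespace Pool.Agent.R174.Til

lemma mem_T {s : ℕ → Bool} {X : Set ℂ} : X ∈ T s ↔ ∃ k m, X = R s k m := Iff.rfl

lemma tilesAt_V3 (s : ℕ → Bool) (k m : ℤ) : {X | X ∈ T s ∧ V3 s k m ∈ X} =
    {R s k m, R s (k-1) (2*m - dig s (k-1)), R s (k-1) (2*m+1-dig s (k-1))} := by
  ext X
  simp only [Set.mem_ofPred_eq, Set.mem_insert_iff, Set.mem_singleton_iff]
  constructor
  · rintro ⟨⟨j, n, rfl⟩, h⟩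
    rw [V3_mem] at h
    rcases h with ⟨rfl, rfl⟩ | ⟨rfl, rfl | rfl⟩ <;> simp
  · rintro (rfl | rfl | rfl)
    · exact ⟨⟨_, _, rfl⟩, (V3_mem ..).2 (Or.inl ⟨rfl, rfl⟩)⟩
    · exact ⟨⟨_, _, rfl⟩, (V3_mem ..).2 (Or.inr ⟨rfl, Or.inl rfl⟩)⟩
    · exact ⟨⟨_, _, rfl⟩, (V3_mem ..).2 (Or.inr ⟨rfl, Or.inr rfl⟩)⟩

lemma tilesAt_V4 (s : ℕ → Bool) (k m : ℤ) : {X | X ∈ T s ∧ V4 s k m ∈ X} =
    {R s k m, R s k (m-1), R s (k-1) (2*m - dig s (k-1)), R s (k-1) (2*m-1-dig s (k-1))} := by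
  ext X
  simp only [Set.mem_ofPred_eq, Set.mem_insert_iff, Set.mem_singleton_iff]
  constructor
  · rintro ⟨⟨j, n, rfl⟩, h⟩
    rw [V4_mem] at h
    rcases h with ⟨rfl, rfl | rfl⟩ | ⟨rfl, rfl | rfl⟩ <;> simp
  · rintro (rfl | rfl | rfl | rfl)
    · exact ⟨⟨_, _, rfl⟩, (V4_mem ..).2 (Or.inl ⟨rfl, Or.inl rfl⟩)⟩
    · exact ⟨⟨_, _, rfl⟩, (V4_mem ..).2 (Or.inl ⟨rfl, Or.inr rfl⟩)⟩
    · exact ⟨⟨_, _, rfl⟩, (V4_mem ..).2 (Or.inr ⟨rfl, Or.inl rfl⟩)⟩
    · exact ⟨⟨_, _, rfl⟩, (V4_mem ..).2 (Or.inr ⟨rfl, Or.inr rfl⟩)⟩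

lemma valence_V3 (s : ℕ → Bool) (k m : ℤ) : valence (T s) (V3 s k m) = 3 := by
  unfold valence
  rw [tilesAt_V3, Set.encard_eq_three]
  refine ⟨_, _, _, ?_, ?_, ?_, rfl⟩
  · intro h; have := R_inj h; omega
  · intro h; have := R_inj h; omega
  · intro h; have := R_inj h; omega

lemma valence_V4 (s : ℕ → Bool) (k m : ℤ) : valence (T s) (V4 s k m) = 4 := by
  unfold valence
  rw [tilesAt_V4, Set.encard_insert_of_notMem, (Set.encard_eq_three).2 ⟨_, _, _, ?_, ?_, ?_, rfl⟩]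
  · norm_num
  · intro h; have := R_inj h; omega
  · intro h; have := R_inj h; omega
  · intro h; have := R_inj h; omega
  · simp only [Set.mem_insert_iff, Set.mem_singleton_iff, R_inj_iff]
    omega

lemma vertex_class (s : ℕ → Bool) (z : ℂ) (h : IsVertex (T s) z) :
    (∃ k m, z = V3 s k m) ∨ (∃ k m, z = V4 s k m) := by
  unfold IsVertex valence at h
  set k := ⌊z.im⌋ with hk
  have k1 : (k:ℝ) ≤ z.im := Int.floor_le _
  have k2 : z.im < k+1 := Int.lt_floor_add_one _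
  have two : ∀ A B : Set ℂ, ¬ ({X | X ∈ T s ∧ z ∈ X} ⊆ {A, B}) := by
    intro A B hAB
    have h1 := Set.encard_le_encard hAB
    have h2 : ({A, B} : Set (Set ℂ)).encard ≤ 2 := by
      refine (Set.encard_insert_le _ _).trans ?_
      rw [Set.encard_singleton]; norm_num
    have h3 := h.trans (h1.trans h2)
    revert h3
    norm_num
  rcases eq_or_lt_of_le k1 with h0 | h0
  · -- integral height
    obtain ⟨m, m1, m2⟩ := exists_L s (k-1) z.re
    rcases eq_or_lt_of_le m1 with h3 | h3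
    · rcases Int.even_or_odd (m + dig s (k-1)) with ⟨c, hc⟩ | ⟨c, hc⟩
      · right
        refine ⟨k, c, ?_⟩
        apply Complex.ext
        · simp only [V4]; rw [← h3, L_down s k c]; congr 1; omega
        · simp only [V4]; exact h0.symm
      · left
        refine ⟨k, c, ?_⟩
        apply Complex.ext
        · simp only [V3]; rw [← h3]; congr 1; omega
        · simp only [V3]; exact h0.symm
    · exfalso
      obtain ⟨m', m1', m2'⟩ := exists_L s k z.re
      apply two (R s (k-1) m) (R s k m')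
      rintro X ⟨⟨j, n, rfl⟩, g1, g2, g3, g4⟩
      simp only [Set.mem_insert_iff, Set.mem_singleton_iff, R_inj_iff]
      rw [← h0] at g3 g4
      rcases height g3 g4 with hj | hj
      · subst hj
        right
        refine ⟨rfl, ?_⟩
        have a1 : L s k n < L s k (m'+1) := lt_of_le_of_lt g1 m2'
        rw [L_lt_iff] at a1
        have a2 : L s k m' ≤ L s k (n+1) := le_trans m1' g2
        rw [L_le_iff] at a2
        rcases eq_or_lt_of_le a2 with h5 | h5
        · exfalso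
          rw [← h5] at g2
          have g6 : z.re = L s k m' := le_antisymm g2 m1'
          rw [L_down] at g6
          rw [g6, L_lt_iff] at h3
          rw [g6, L_lt_iff] at m2
          omega
        · omega
      · subst hj
        left
        refine ⟨rfl, ?_⟩
        have a1 : L s (k-1) n < L s (k-1) (m+1) := lt_of_le_of_lt g1 m2
        have a2 : L s (k-1) m < L s (k-1) (n+1) := lt_of_lt_of_le h3 g2
        rw [L_lt_iff] at a1 a2
        omega
  · exfalso
    obtain ⟨m, m1, m2⟩ := exists_L s k z.re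
    apply two (R s k m) (R s k (m-1))
    rintro X ⟨⟨j, n, rfl⟩, g1, g2, g3, g4⟩
    simp only [Set.mem_insert_iff, Set.mem_singleton_iff, R_inj_iff]
    have hj : j = k := by
      have a1 : (j:ℝ) < k+1 := by linarith
      have a2 : (k:ℝ) < j+1 := by linarith
      have a3 : j < k+1 := by exact_mod_cast a1
      have a4 : k < j+1 := by exact_mod_cast a2
      omega
    rw [hj] at g1 g2 ⊢
    have a1 : L s k n < L s k (m+1) := lt_of_le_of_lt g1 m2
    have a2 : L s k m ≤ L s k (n+1) := le_trans m1 g2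
    rw [L_lt_iff] at a1
    rw [L_le_iff] at a2
    omega

lemma T_isTiling (s : ℕ → Bool) : IsTiling (T s) where
  countable := by
    have : T s = Set.range (fun p : ℤ × ℤ => R s p.1 p.2) := by
      ext X
      simp only [mem_T, Set.mem_range, Prod.exists]
      constructor
      · rintro ⟨k, m, rfl⟩; exact ⟨k, m, rfl⟩
      · rintro ⟨k, m, rfl⟩; exact ⟨k, m, rfl⟩
    rw [this]
    exact Set.countable_range _
  closed := by
    rintro X ⟨k, m, rfl⟩
    exact R_closed s k m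
  cover := by
    ext z
    simp only [Set.mem_sUnion, Set.mem_univ, iff_true]
    obtain ⟨m, m1, m2⟩ := exists_L s ⌊z.im⌋ z.re
    exact ⟨R s ⌊z.im⌋ m, ⟨_, _, rfl⟩, m1, m2.le, Int.floor_le _, (Int.lt_floor_add_one _).le⟩
  disjoint := by
    rintro X ⟨k, m, rfl⟩ Y ⟨k', m', rfl⟩ hne
    rw [Set.disjoint_left]
    intro z hz hz'
    have := interior_mem_iff hz (interior_subset hz')
    exact hne (R_inj_iff.2 ⟨this.1.symm, this.2.symm⟩)

lemma R_convex (s : ℕ → Bool) (k m : ℤ) : Convex ℝ (R s k m) := by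
  have : R s k m = Complex.equivRealProdCLM ⁻¹' (Set.Icc (L s k m) (L s k (m+1)) ×ˢ Set.Icc (k:ℝ) (k+1)) := by
    ext z
    simp only [R, Set.mem_ofPred_eq, Set.mem_preimage, Complex.equivRealProdCLM_apply, Set.mem_prod,
      Set.mem_Icc]
    tauto
  rw [this]
  exact ((convex_Icc _ _).prod (convex_Icc _ _)).linear_preimage
    (Complex.equivRealProdCLM.toLinearEquiv.toLinearMap)

lemma R_bounded (s : ℕ → Bool) (k m : ℤ) : Bornology.IsBounded (R s k m) := by
  rw [R_eq]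
  exact Bornology.IsBounded.reProdIm (Metric.isBounded_Icc _ _) (Metric.isBounded_Icc _ _)

lemma disk_of_convex {X : Set ℂ} (h1 : Convex ℝ X) (h2 : (interior X).Nonempty)
    (h3 : Bornology.IsBounded X) (h4 : IsClosed X) : Nonempty (X ≃ₜ closedBall (0:ℂ) 1) := by
  obtain ⟨h, _, hc, _⟩ := exists_homeomorph_image_interior_closure_frontier_eq_unitBall h1 h2 h3
  rw [h4.closure_eq] at hc
  exact ⟨(h.image X).trans (Homeomorph.setCongr hc)⟩

lemma T_isNormal (s : ℕ → Bool) : IsNormal (T s) where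
  toIsTiling := T_isTiling s
  disk := by
    rintro X ⟨k, m, rfl⟩
    exact disk_of_convex (R_convex s k m) ⟨_, mid_mem s k m⟩ (R_bounded s k m) (R_closed s k m)
  conn := by
    rintro X ⟨k, m, rfl⟩ Y ⟨k', m', rfl⟩ _
    exact ((R_convex s k m).inter (R_convex s k' m')).isPreconnected
  noSingular := by
    intro x
    refine ⟨Metric.ball x 1, Metric.ball_mem_nhds x one_pos, ?_⟩
    have key : ∀ j : ℤ, {n : ℤ | L s j n ≤ x.re + 1 ∧ x.re - 1 ≤ L s j (n+1)}.Finite := by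
      intro j
      obtain ⟨p, p1, p2⟩ := exists_L s j (x.re+1)
      obtain ⟨q, q1, q2⟩ := exists_L s j (x.re-1)
      apply (Set.finite_Icc (q-1) p).subset
      rintro n ⟨h1, h2⟩
      have a1 : L s j n < L s j (p+1) := by linarith
      have a2 : L s j q ≤ L s j (n+1) := by linarith
      rw [L_lt_iff] at a1
      rw [L_le_iff] at a2
      exact ⟨by omega, by omega⟩
    have fin : (⋃ j ∈ Set.Icc (⌊x.im⌋ - 3) (⌊x.im⌋ + 3),
        (R s j) '' {n : ℤ | L s j n ≤ x.re + 1 ∧ x.re - 1 ≤ L s j (n+1)}).Finite :=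
      (Set.finite_Icc _ _).biUnion fun j _ => (key j).image _
    apply fin.subset
    rintro X ⟨⟨j, n, rfl⟩, z, ⟨g1, g2, g3, g4⟩, hz⟩
    rw [Metric.mem_ball, dist_eq_norm] at hz
    have r1 : |z.re - x.re| < 1 := lt_of_le_of_lt (by simpa using Complex.abs_re_le_norm (z - x)) hz
    have r2 : |z.im - x.im| < 1 := lt_of_le_of_lt (by simpa using Complex.abs_im_le_norm (z - x)) hz
    rw [abs_lt] at r1 r2
    have f1 : (⌊x.im⌋:ℝ) ≤ x.im := Int.floor_le _
    have f2 : x.im < ⌊x.im⌋ + 1 := Int.lt_floor_add_one _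
    refine Set.mem_biUnion (x := j) ?_ ⟨n, ⟨by linarith, by linarith⟩, rfl⟩
    have b1 : (j:ℝ) < ⌊x.im⌋ + 2 := by linarith
    have b2 : (⌊x.im⌋:ℝ) < j + 2 := by linarith
    have b3 : j < ⌊x.im⌋ + 2 := by exact_mod_cast b1
    have b4 : ⌊x.im⌋ < j + 2 := by exact_mod_cast b2
    exact ⟨by omega, by omega⟩

end Pool.Agent.R174.Til
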