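import Mathlib
import Pool.Agent.R174.HomB
import Pool.Agent.R174.TilB

open Set Metric Topology

namespace Pool.Agent.R174.Hom

noncomputable def c0 : ℂ := ⟨1/2, 1/2⟩

lemma Dk_eq : Dk = ball c0 (√(1/2)) := by
  ext z
  rw [mem_ball, dist_eq_norm, Complex.norm_def, Real.sqrt_lt_sqrt_iff (Complex.normSq_nonneg _)]
  rw [Complex.normSq_apply]
  simp only [Dk, c0, Set.mem_ofPred_eq, Complex.sub_re, Complex.sub_im]
  constructor <;> intro h <;> nlinarith

/-- the plane is identified with the disk -/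
noncomputable def psi : OpenPartialHomeomorph ℂ ℂ := OpenPartialHomeomorph.univBall c0 (√(1/2))

lemma psi_source : psi.source = univ := OpenPartialHomeomorph.univBall_source _ _

lemma psi_target : psi.target = Dk := by
  rw [Dk_eq]
  exact OpenPartialHomeomorph.univBall_target _ (by positivity)

lemma psi_mem (z : ℂ) : psi z ∈ Dk := by
  rw [← psi_target]; exact psi.map_source (by rw [psi_source]; trivial)

lemma psi_cont : Continuous psi := OpenPartialHomeomorph.continuous_univBall _ _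

lemma psi_symm_cont : ContinuousOn psi.symm Dk := by
  rw [← psi_target]; exact psi.continuousOn_symm

lemma psi_left (z : ℂ) : psi.symm (psi z) = z := psi.left_inv (by rw [psi_source]; trivial)

lemma psi_right {z : ℂ} (hz : z ∈ Dk) : psi (psi.symm z) = z :=
  psi.right_inv (by rw [psi_target]; exact hz)

lemma psi_emb : IsOpenEmbedding psi := psi.isOpenEmbedding psi_source

lemma psi_range : range psi = Dk := by
  ext z
  constructor
  · rintro ⟨w, rfl⟩; exact psi_mem w
  · intro hz; exact ⟨_, psi_right hz⟩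

/-- a pair of mutually inverse continuous self maps of the disk -/
structure DH (f f' : ℂ → ℂ) : Prop where
  maps : ∀ z ∈ Dk, f z ∈ Dk
  maps' : ∀ z ∈ Dk, f' z ∈ Dk
  cont : ContinuousOn f Dk
  cont' : ContinuousOn f' Dk
  left : ∀ z ∈ Dk, f' (f z) = z
  right : ∀ z ∈ Dk, f (f' z) = z

lemma cont_conj {f : ℂ → ℂ} (h1 : ∀ z ∈ Dk, f z ∈ Dk) (h2 : ContinuousOn f Dk) :
    Continuous (fun z => psi.symm (f (psi z))) := by
  rw [← continuousOn_univ]
  apply psi_symm_cont.comp (t := Dk)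
  · apply h2.comp psi_cont.continuousOn
    intro z _; exact psi_mem z
  · intro z _; exact h1 _ (psi_mem z)

/-- the corresponding self-homeomorphism of the plane -/
noncomputable def DH.homeo {f f' : ℂ → ℂ} (h : DH f f') : ℂ ≃ₜ ℂ where
  toFun z := psi.symm (f (psi z))
  invFun z := psi.symm (f' (psi z))
  left_inv z := by
    simp only
    rw [psi_right (h.maps _ (psi_mem z)), h.left _ (psi_mem z), psi_left]
  right_inv z := by
    simp only
    rw [psi_right (h.maps' _ (psi_mem z)), h.right _ (psi_mem z), psi_left]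
  continuous_toFun := cont_conj h.maps h.cont
  continuous_invFun := cont_conj h.maps' h.cont'

lemma DH.psi_homeo {f f' : ℂ → ℂ} (h : DH f f') (z : ℂ) : psi (h.homeo z) = f (psi z) :=
  psi_right (h.maps _ (psi_mem z))

lemma DH.psi_homeo_symm {f f' : ℂ → ℂ} (h : DH f f') (z : ℂ) : psi (h.homeo.symm z) = f' (psi z) :=
  psi_right (h.maps' _ (psi_mem z))

lemma continuousOn_mk {f g : ℂ → ℝ} {s : Set ℂ} (hf : ContinuousOn f s) (hg : ContinuousOn g s) :
    ContinuousOn (fun z => (⟨f z, g z⟩ : ℂ)) s := by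
  have : (fun z => (⟨f z, g z⟩ : ℂ)) = fun z => (f z : ℂ) + (g z : ℂ) * Complex.I := by
    funext z
    apply Complex.ext <;> simp
  rw [this]
  have h1 : ContinuousOn (fun z => (f z : ℂ)) s := Complex.continuous_ofReal.comp_continuousOn hf
  have h2 : ContinuousOn (fun z => (g z : ℂ)) s := Complex.continuous_ofReal.comp_continuousOn hg
  exact h1.add (h2.mul continuousOn_const)

lemma U_cont (g : M4) : Continuous (U g) := by
  unfold U lu lv lw; fun_prop
lemma V_cont (g : M4) : Continuous (V g) := by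
  unfold V lu lv lw; fun_prop
lemma W_cont (g : M4) : Continuous (W g) := by
  unfold W lu lv lw; fun_prop

lemma act_cont {g : M4} (hg : Gam g) : ContinuousOn (act g) Dk := by
  unfold act
  apply continuousOn_mk
  · exact ((V_cont g).add (W_cont g)).continuousOn.div ((U_cont g).add (W_cont g)).continuousOn
      (fun z hz => (S_pos hg hz).ne')
  · exact ((U_cont g).add (V_cont g)).continuousOn.div ((U_cont g).add (W_cont g)).continuousOn
      (fun z hz => (S_pos hg hz).ne')

lemma act_DH {g : M4} (hg : Gam g) : DH (act g) (act (inv g)) where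
  maps z hz := act_mem hg hz
  maps' z hz := act_mem (Gam_inv hg) hz
  cont := act_cont hg
  cont' := act_cont (Gam_inv hg)
  left z hz := act_inv hg hz
  right z hz := act_inv' hg hz

/-! ### the tiles -/

noncomputable def Bn (n : ℤ) : ℝ := (2:ℝ)^n/(1+(2:ℝ)^n)

lemma Bn_le_iff (n : ℤ) (b : ℝ) : Bn n ≤ b ↔ (2:ℝ)^n*(1-b) ≤ b := by
  have h : (0:ℝ) < (2:ℝ)^n := by positivity
  unfold Bn
  rw [div_le_iff₀ (by positivity)]
  constructor <;> intro h' <;> linarith

lemma le_Bn_iff (n : ℤ) (b : ℝ) : b ≤ Bn n ↔ b ≤ (2:ℝ)^n*(1-b) := by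
  have h : (0:ℝ) < (2:ℝ)^n := by positivity
  unfold Bn
  rw [le_div_iff₀ (by positivity)]
  constructor <;> intro h' <;> linarith

lemma Bn_strictMono : StrictMono Bn := by
  intro m n h
  unfold Bn
  have h1 : (0:ℝ) < (2:ℝ)^m := by positivity
  have h2 : (0:ℝ) < (2:ℝ)^n := by positivity
  have h3 : (2:ℝ)^m < (2:ℝ)^n := zpow_lt_zpow_right₀ (by norm_num) h
  rw [div_lt_div_iff₀ (by positivity) (by positivity)]
  nlinarith

lemma Bn_pos (n : ℤ) : 0 < Bn n := by unfold Bn; positivity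
lemma Bn_lt_one (n : ℤ) : Bn n < 1 := by
  unfold Bn
  rw [div_lt_one (by positivity)]
  linarith

/-- the tiles in `Q` -/
noncomputable def tn (n : ℤ) : Set ℂ := Set.Icc (0:ℝ) 1 ×ℂ Set.Icc (Bn n) (Bn (n+1))

lemma mem_tn {n : ℤ} {z : ℂ} : z ∈ tn n ↔ 0 ≤ z.re ∧ z.re ≤ 1 ∧ Bn n ≤ z.im ∧ z.im ≤ Bn (n+1) := by
  simp [tn, Complex.mem_reProdIm, and_assoc]

lemma tn_im {n : ℤ} {z : ℂ} (hz : z ∈ tn n) : 0 < z.im ∧ z.im < 1 := by
  rw [mem_tn] at hz
  have h1 := Bn_pos n
  have h2 := Bn_lt_one (n+1)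
  constructor <;> linarith [hz.2.2.1, hz.2.2.2]

lemma tn_Q {n : ℤ} {z : ℂ} (hz : z ∈ tn n) : z ∈ Q := by
  obtain ⟨h1, h2⟩ := tn_im hz
  rw [mem_tn] at hz
  refine ⟨?_, hz.1, hz.2.1, h1.le, h2.le⟩
  show 0 < z.re*(1-z.re) + z.im*(1-z.im)
  have h3 : 0 ≤ z.re*(1-z.re) := mul_nonneg hz.1 (by linarith [hz.2.1])
  have h4 : 0 < z.im*(1-z.im) := mul_pos h1 (by linarith)
  linarith

/-- the tiles -/
noncomputable def tile (g : M4) (n : ℤ) : Set ℂ := {z | act g (psi z) ∈ tn n}

/-- the tiling -/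
noncomputable def TT : Set (Set ℂ) := {X | ∃ g n, Gam g ∧ X = tile g n}

lemma tile_pre {g : M4} (hg : Gam g) (n : ℤ) : tile g n = (act_DH hg).homeo ⁻¹' (psi ⁻¹' tn n) := by
  ext z
  simp only [tile, Set.mem_ofPred_eq, Set.mem_preimage, DH.psi_homeo]

lemma im_tp_of {y : ℂ} (h : y.re = 0) : (act tp y).im = 1 := by
  rw [act_tp]; simp [h]

lemma im_am_of {y : ℂ} (h : y.re = 1) : (act am y).im = 0 := by
  rw [act_am]; simp [h]

lemma meet {g h : M4} (hg : Gam g) (hh : Gam h) {n m : ℤ} {z : ℂ} (h1 : z ∈ tile g n)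
    (h2 : z ∈ tile h m) : h = g ∨ h = neg g := by
  have hz := psi_mem z
  set y := act g (psi z) with hy
  have hyn : y ∈ tn n := h1
  have hym : act h (psi z) ∈ tn m := h2
  have hyD : y ∈ Dk := act_mem hg hz
  have hk : act (h * inv g) y = act h (psi z) := by
    rw [← act_act (Gam_inv hg) hyD, hy, act_inv hg hz]
  have hback : (h * inv g) * g = h := by
    rw [mul_assoc', inv_mul_cancel' hg, mul_one']
  have hq2 : act (h * inv g) y ∈ Q := by rw [hk]; exact tn_Q hym
  obtain ⟨i1, i2⟩ := tn_im hyn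
  obtain ⟨j1, j2⟩ := tn_im hym
  rw [← hk] at j1 j2
  rcases key (tn_Q hyn) (Gam_mul hh (Gam_inv hg)) hq2 with
    (h3 | h3) | ⟨h3 | h3, h4⟩ | ⟨h3, h4⟩ | ⟨h3, h4⟩ | ⟨h3 | h3, h4⟩
  · left; rw [← hback, h3, one_mul']
  · right; rw [← hback, h3, neg_mul', one_mul']
  · rw [h3, im_tp_of h4] at j2; exact absurd j2 (lt_irrefl _)
  · rw [h3, act_neg, im_tp_of h4] at j2; exact absurd j2 (lt_irrefl _)
  · rw [h4] at i2; exact absurd i2 (lt_irrefl _)
  · rw [h4] at i1; exact absurd i1 (lt_irrefl _)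
  · rw [h3, im_am_of h4] at j1; exact absurd j1 (lt_irrefl _)
  · rw [h3, act_neg, im_am_of h4] at j1; exact absurd j1 (lt_irrefl _)

lemma tile_neg (g : M4) (n : ℤ) : tile (neg g) n = tile g n := by
  unfold tile
  ext z
  simp only [Set.mem_ofPred_eq, act_neg]

lemma meet' {g h : M4} (hg : Gam g) (hh : Gam h) {n m : ℤ} {z : ℂ} (h1 : z ∈ tile g n)
    (h2 : z ∈ tile h m) : tile h m = tile g m := by
  rcases meet hg hh h1 h2 with h3 | h3
  · rw [h3]
  · rw [h3, tile_neg]

lemma exists_Bn {b : ℝ} (h0 : 0 < b) (h1 : b < 1) : ∃ n : ℤ, Bn n ≤ b ∧ b ≤ Bn (n+1) := by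
  obtain ⟨n, hn⟩ := exists_mem_Ico_zpow (x := b/(1-b)) (y := 2) (div_pos h0 (by linarith)) (by norm_num)
  refine ⟨n, ?_, ?_⟩
  · rw [Bn_le_iff, ← le_div_iff₀ (by linarith)]; exact hn.1
  · rw [le_Bn_iff, ← div_le_iff₀ (by linarith)]; exact hn.2.le

lemma cover_tiles (z : ℂ) : ∃ g n, Gam g ∧ z ∈ tile g n := by
  obtain ⟨g, hg, hQ⟩ := cover (psi_mem z)
  have hz := psi_mem z
  obtain ⟨hD, a0, a1, b0, b1⟩ := hQ
  set y := act g (psi z) with hy
  have hD' : 0 < y.re*(1-y.re) + y.im*(1-y.im) := hD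
  rcases eq_or_lt_of_le b0 with h | h
  · -- bottom side: apply `ap`
    have e : act (ap * g) (psi z) = ⟨1, 1 - y.re⟩ := by
      rw [← act_act hg hz, ← hy, act_ap, ← h]; norm_num
    rw [← h] at hD'
    have h5 : 0 < 1 - y.re := by
      by_contra hcon
      have : y.re = 1 := by linarith
      rw [this] at hD'; norm_num at hD'
    have h6 : 1 - y.re < 1 := by
      by_contra hcon
      have : y.re = 0 := by linarith
      rw [this] at hD'; norm_num at hD'
    obtain ⟨n, hn1, hn2⟩ := exists_Bn h5 h6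
    refine ⟨ap * g, n, Gam_mul Gam_ap hg, ?_⟩
    show act (ap * g) (psi z) ∈ tn n
    rw [e, mem_tn]
    exact ⟨by norm_num, le_refl _, hn1, hn2⟩
  · rcases eq_or_lt_of_le b1 with h' | h'
    · have e : act (tm * g) (psi z) = ⟨0, 1 - y.re⟩ := by
        rw [← act_act hg hz, ← hy, act_tm, h']
        apply Complex.ext
        · norm_num
        · norm_num; ring
      rw [h'] at hD'
      have h5 : 0 < 1 - y.re := by
        by_contra hcon
        have : y.re = 1 := by linarith
        rw [this] at hD'; norm_num at hD'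
      have h6 : 1 - y.re < 1 := by
        by_contra hcon
        have : y.re = 0 := by linarith
        rw [this] at hD'; norm_num at hD'
      obtain ⟨n, hn1, hn2⟩ := exists_Bn h5 h6
      refine ⟨tm * g, n, Gam_mul Gam_tm hg, ?_⟩
      show act (tm * g) (psi z) ∈ tn n
      rw [e, mem_tn]
      exact ⟨le_refl _, by norm_num, hn1, hn2⟩
    · obtain ⟨n, hn1, hn2⟩ := exists_Bn h h'
      refine ⟨g, n, hg, ?_⟩
      show act g (psi z) ∈ tn n
      rw [← hy, mem_tn]
      exact ⟨a0, a1, hn1, hn2⟩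

instance : Countable M4 := by
  have : Function.Injective (fun g : M4 => (g.p, g.q, g.r, g.s)) := by
    intro g h hgh
    simp only [Prod.mk.injEq] at hgh
    ext <;> tauto
  exact this.countable

lemma TT_tiling : Til.IsTiling TT where
  countable := by
    have : TT ⊆ Set.range (fun p : M4 × ℤ => tile p.1 p.2) := by
      rintro X ⟨g, n, _, rfl⟩
      exact ⟨(g, n), rfl⟩
    exact (Set.countable_range _).mono this
  closed := by
    rintro X ⟨g, n, hg, rfl⟩
    rw [tile_pre hg]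
    exact ((isClosed_Icc.reProdIm isClosed_Icc).preimage psi_cont).preimage
      (act_DH hg).homeo.continuous
  cover := by
    ext z
    simp only [Set.mem_sUnion, Set.mem_univ, iff_true]
    obtain ⟨g, n, hg, hz⟩ := cover_tiles z
    exact ⟨_, ⟨g, n, hg, rfl⟩, hz⟩
  disjoint := by
    rintro X ⟨g, n, hg, rfl⟩ Y ⟨h, m, hh, rfl⟩ hne
    rw [Set.disjoint_left]
    intro z hz hz'
    have e := meet' hg hh (interior_subset hz) (interior_subset hz')
    rw [e] at hz' hne
    rw [tile_pre hg, ← (act_DH hg).homeo.preimage_interior,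
      ← psi_emb.isOpenMap.preimage_interior_eq_interior_preimage psi_cont] at hz hz'
    simp only [Set.mem_preimage, tn, Complex.interior_reProdIm, interior_Icc,
      Complex.mem_reProdIm, Set.mem_Ioo] at hz hz'
    obtain ⟨-, h1, h2⟩ := hz
    obtain ⟨-, h3, h4⟩ := hz'
    have h5 : n < m+1 := Bn_strictMono.lt_iff_lt.1 (h1.trans h4)
    have h6 : m < n+1 := Bn_strictMono.lt_iff_lt.1 (h3.trans h2)
    have h7 : n = m := by omega
    exact hne (by rw [h7])

lemma tn_convex (n : ℤ) : Convex ℝ (tn n) := by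
  have : tn n = Complex.equivRealProdCLM ⁻¹' (Set.Icc (0:ℝ) 1 ×ˢ Set.Icc (Bn n) (Bn (n+1))) := by
    ext z
    simp only [mem_tn, Set.mem_preimage, Complex.equivRealProdCLM_apply, Set.mem_prod,
      Set.mem_Icc]
    tauto
  rw [this]
  exact ((convex_Icc _ _).prod (convex_Icc _ _)).linear_preimage
    (Complex.equivRealProdCLM.toLinearEquiv.toLinearMap)

lemma tile_disk {g : M4} (hg : Gam g) (n : ℤ) : Nonempty (tile g n ≃ₜ closedBall (0:ℂ) 1) := by
  have h1 : Nonempty (tn n ≃ₜ closedBall (0:ℂ) 1) := by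
    apply Til.disk_of_convex (tn_convex n)
    · refine ⟨⟨1/2, (Bn n + Bn (n+1))/2⟩, ?_⟩
      rw [tn, Complex.interior_reProdIm, interior_Icc, interior_Icc, Complex.mem_reProdIm]
      have := Bn_strictMono (show n < n+1 by omega)
      refine ⟨⟨by norm_num, by norm_num⟩, ⟨?_, ?_⟩⟩
      · show Bn n < (Bn n + Bn (n+1))/2; linarith
      · show (Bn n + Bn (n+1))/2 < Bn (n+1); linarith
    · exact Bornology.IsBounded.reProdIm (Metric.isBounded_Icc _ _) (Metric.isBounded_Icc _ _)
    · exact isClosed_Icc.reProdIm isClosed_Icc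
  obtain ⟨e1⟩ := h1
  have h2 : psi '' (psi ⁻¹' tn n) = tn n := by
    rw [Set.image_preimage_eq_inter_range, psi_range]
    apply Set.inter_eq_left.2
    intro z hz; exact (tn_Q hz).1
  have e2 : (psi ⁻¹' tn n) ≃ₜ tn n :=
    (psi_emb.isEmbedding.homeomorphImage _).trans (Homeomorph.setCongr h2)
  have h3 : (act_DH hg).homeo '' (tile g n) = psi ⁻¹' tn n := by
    rw [tile_pre hg, Homeomorph.image_preimage]
  have e3 : tile g n ≃ₜ (psi ⁻¹' tn n) :=
    ((act_DH hg).homeo.image _).trans (Homeomorph.setCongr h3)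
  exact ⟨(e3.trans e2).trans e1⟩

lemma tile_conn {g h : M4} (hg : Gam g) (hh : Gam h) (n m : ℤ) :
    IsPreconnected (tile g n ∩ tile h m) := by
  rcases Set.eq_empty_or_nonempty (tile g n ∩ tile h m) with he | ⟨z, hz, hz'⟩
  · rw [he]; exact isPreconnected_empty
  · rw [meet' hg hh hz hz', tile_pre hg, tile_pre hg, ← Set.preimage_inter, ← Set.preimage_inter]
    rw [← (act_DH hg).homeo.isInducing.isPreconnected_image, Homeomorph.image_preimage]
    rw [← psi_emb.isInducing.isPreconnected_image, Set.image_preimage_eq_inter_range, psi_range]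
    rw [Set.inter_eq_left.2]
    · exact ((tn_convex n).inter (tn_convex m)).isPreconnected
    · intro w hw; exact (tn_Q hw.1).1

end Pool.Agent.R174.Hom
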