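import Mathlib
import Pool.Agent.R174.HomC

open Set Metric Topology

namespace Pool.Agent.R174.Hom

noncomputable def Ff (s b : ℝ) : ℝ := max b ((1+s)*b/(1+s*b))
noncomputable def Gf (s a : ℝ) : ℝ := min a (a/(1+s-s*a))

lemma Gf_in {s a : ℝ} (hs : 0 ≤ s) (h0 : 0 ≤ a) (h1 : a ≤ 1) : Gf s a = a/(1+s-s*a) := by
  unfold Gf
  apply min_eq_right
  have h : 0 ≤ s * (1-a) := mul_nonneg hs (by linarith)
  apply div_le_self h0
  linarith

lemma Ff_in {s a : ℝ} (hs : 0 ≤ s) (h0 : 0 ≤ a) (h1 : a ≤ 1) : Ff s a = (1+s)*a/(1+s*a) := by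
  unfold Ff
  apply max_eq_right
  have h : 0 ≤ s * a := mul_nonneg hs h0
  rw [le_div_iff₀ (by linarith)]
  nlinarith [mul_nonneg hs h0, mul_nonneg (mul_nonneg hs h0) (sub_nonneg.2 h1)]

lemma den_pos {s a : ℝ} (hs : 0 ≤ s) (hs1 : s ≤ 3/2) (h1 : a < 5/4) : 0 < 1+s-s*a := by
  nlinarith

lemma den_pos' {s a : ℝ} (hs : 0 ≤ s) (hs1 : s ≤ 3/2) (h1 : -(1/4) < a) : 0 < 1+s*a := by
  nlinarith

lemma Gf_out {s a : ℝ} (hs : 0 ≤ s) (hs1 : s ≤ 3/2) (hb : a < 5/4) (h : a ≤ 0 ∨ 1 ≤ a) :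
    Gf s a = a := by
  unfold Gf
  apply min_eq_left
  have hd := den_pos hs hs1 hb
  rw [le_div_iff₀ hd]
  rcases h with h | h
  · nlinarith [mul_nonneg hs (neg_nonneg.2 h), mul_nonneg (mul_nonneg hs (neg_nonneg.2 h)) (by linarith : 0 ≤ 1 - a)]
  · nlinarith [mul_nonneg (mul_nonneg hs (by linarith : 0 ≤ a)) (by linarith : 0 ≤ a - 1)]

lemma Ff_out {s a : ℝ} (hs : 0 ≤ s) (hs1 : s ≤ 3/2) (hb : -(1/4) < a) (h : a ≤ 0 ∨ 1 ≤ a) :
    Ff s a = a := by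
  unfold Ff
  apply max_eq_left
  have hd := den_pos' hs hs1 hb
  rw [div_le_iff₀ hd]
  rcases h with h | h
  · nlinarith [mul_nonneg (mul_nonneg hs (neg_nonneg.2 h)) (by linarith : 0 ≤ 1 - a)]
  · nlinarith [mul_nonneg (mul_nonneg hs (by linarith : 0 ≤ a)) (by linarith : 0 ≤ a - 1)]

lemma Gf_bd {s a : ℝ} (hs : 0 ≤ s) (h0 : 0 ≤ a) (h1 : a ≤ 1) : 0 ≤ Gf s a ∧ Gf s a ≤ 1 := by
  rw [Gf_in hs h0 h1]
  have h : 0 ≤ s * (1-a) := mul_nonneg hs (by linarith)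
  have hd : 0 < 1+s-s*a := by linarith
  constructor
  · positivity
  · rw [div_le_one hd]; linarith

lemma Ff_bd {s a : ℝ} (hs : 0 ≤ s) (h0 : 0 ≤ a) (h1 : a ≤ 1) : 0 ≤ Ff s a ∧ Ff s a ≤ 1 := by
  rw [Ff_in hs h0 h1]
  have h : 0 ≤ s * a := mul_nonneg hs h0
  have hd : 0 < 1+s*a := by linarith
  constructor
  · positivity
  · rw [div_le_one hd]; linarith

lemma FG {s a : ℝ} (hs : 0 ≤ s) (hs1 : s ≤ 3/2) (hb : -(1/4) < a) (hb' : a < 5/4) :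
    Ff s (Gf s a) = a := by
  by_cases h0 : a ≤ 0
  · rw [Gf_out hs hs1 hb' (Or.inl h0), Ff_out hs hs1 hb (Or.inl h0)]
  by_cases h1 : 1 ≤ a
  · rw [Gf_out hs hs1 hb' (Or.inr h1), Ff_out hs hs1 hb (Or.inr h1)]
  push Not at h0 h1
  obtain ⟨g0, g1⟩ := Gf_bd hs h0.le h1.le
  rw [Ff_in hs g0 g1, Gf_in hs h0.le h1.le]
  have hd : 0 < 1+s-s*a := den_pos hs hs1 hb'
  have hd2 : 1 + s * (a / (1+s-s*a)) = (1+s)/(1+s-s*a) := by
    rw [eq_div_iff hd.ne', add_mul, mul_assoc, div_mul_cancel₀ _ hd.ne']; ring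
  rw [hd2]
  have hs2 : (1+s) ≠ 0 := by linarith
  field_simp

lemma GF {s a : ℝ} (hs : 0 ≤ s) (hs1 : s ≤ 3/2) (hb : -(1/4) < a) (hb' : a < 5/4) :
    Gf s (Ff s a) = a := by
  by_cases h0 : a ≤ 0
  · rw [Ff_out hs hs1 hb (Or.inl h0), Gf_out hs hs1 hb' (Or.inl h0)]
  by_cases h1 : 1 ≤ a
  · rw [Ff_out hs hs1 hb (Or.inr h1), Gf_out hs hs1 hb' (Or.inr h1)]
  push Not at h0 h1
  obtain ⟨g0, g1⟩ := Ff_bd hs h0.le h1.le
  rw [Gf_in hs g0 g1, Ff_in hs h0.le h1.le]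
  have hd : 0 < 1+s*a := den_pos' hs hs1 hb
  have hd2 : 1 + s - s * ((1+s)*a/(1+s*a)) = (1+s)/(1+s*a) := by
    rw [eq_div_iff hd.ne', sub_mul, mul_assoc s, div_mul_cancel₀ _ hd.ne']; ring
  rw [hd2]
  have hs2 : (1+s) ≠ 0 := by linarith
  field_simp

/-! ### coordinates in the disk are bounded -/

lemma Dk_bd {z : ℂ} (hz : z ∈ Dk) : (-(1/4) < z.re ∧ z.re < 5/4) ∧ (-(1/4) < z.im ∧ z.im < 5/4) := by
  have h : 0 < z.re*(1-z.re) + z.im*(1-z.im) := hz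
  refine ⟨⟨?_, ?_⟩, ⟨?_, ?_⟩⟩
  · by_contra hc; push Not at hc; nlinarith [sq_nonneg (z.im - 1/2)]
  · by_contra hc; push Not at hc; nlinarith [sq_nonneg (z.im - 1/2)]
  · by_contra hc; push Not at hc; nlinarith [sq_nonneg (z.re - 1/2)]
  · by_contra hc; push Not at hc; nlinarith [sq_nonneg (z.re - 1/2)]

lemma Dk_of_re {z : ℂ} (h0 : 0 < z.re) (h1 : z.re < 1) (h2 : 0 ≤ z.im) (h3 : z.im ≤ 1) : z ∈ Dk := by
  show 0 < z.re*(1-z.re) + z.im*(1-z.im)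
  have := mul_pos h0 (by linarith : 0 < 1 - z.re)
  have := mul_nonneg h2 (by linarith : 0 ≤ 1 - z.im)
  linarith

lemma Dk_of_im {z : ℂ} (h0 : 0 ≤ z.re) (h1 : z.re ≤ 1) (h2 : 0 < z.im) (h3 : z.im < 1) : z ∈ Dk := by
  show 0 < z.re*(1-z.re) + z.im*(1-z.im)
  have := mul_nonneg h0 (by linarith : 0 ≤ 1 - z.re)
  have := mul_pos h2 (by linarith : 0 < 1 - z.im)
  linarith

noncomputable def sA (z : ℂ) : ℝ := max 0 (2*z.im-1)
noncomputable def sB (z : ℂ) : ℝ := max 0 (1-2*z.im)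

lemma sA_bd {z : ℂ} (hz : z ∈ Dk) : 0 ≤ sA z ∧ sA z ≤ 3/2 := by
  obtain ⟨-, h1, h2⟩ := Dk_bd hz
  exact ⟨le_max_left _ _, max_le (by norm_num) (by linarith)⟩

lemma sB_bd {z : ℂ} (hz : z ∈ Dk) : 0 ≤ sB z ∧ sB z ≤ 3/2 := by
  obtain ⟨-, h1, h2⟩ := Dk_bd hz
  exact ⟨le_max_left _ _, max_le (by norm_num) (by linarith)⟩

noncomputable def phi (z : ℂ) : ℂ := ⟨z.re, Ff 1 z.im⟩
noncomputable def phi' (z : ℂ) : ℂ := ⟨z.re, Gf 1 z.im⟩
noncomputable def sm (z : ℂ) : ℂ := ⟨Gf (sA z) z.re, z.im⟩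
noncomputable def sm' (z : ℂ) : ℂ := ⟨Ff (sA z) z.re, z.im⟩
noncomputable def sp (z : ℂ) : ℂ := ⟨Gf (sB z) z.re, z.im⟩
noncomputable def sp' (z : ℂ) : ℂ := ⟨Ff (sB z) z.re, z.im⟩

lemma sA_zero {z : ℂ} (h : z.im ≤ 1/2) : sA z = 0 := max_eq_left (by linarith)
lemma sB_zero {z : ℂ} (h : 1/2 ≤ z.im) : sB z = 0 := max_eq_left (by linarith)

lemma Gf_zero (a : ℝ) : Gf 0 a = a := by unfold Gf; norm_num
lemma Ff_zero (a : ℝ) : Ff 0 a = a := by unfold Ff; norm_num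

/-- generic: a horizontal map stays in the disk -/
lemma horiz_mem {z : ℂ} (hz : z ∈ Dk) {f : ℝ → ℝ} (hf : ∀ a, 0 ≤ a → a ≤ 1 → 0 ≤ f a ∧ f a ≤ 1)
    (hf' : 0 < z.re → z.re < 1 → 0 < f z.re ∧ f z.re < 1)
    (hout : z.re ≤ 0 ∨ 1 ≤ z.re → f z.re = z.re)
    (hid : z.im < 0 ∨ 1 < z.im → f z.re = z.re) : (⟨f z.re, z.im⟩ : ℂ) ∈ Dk := by
  by_cases h1 : z.re ≤ 0 ∨ 1 ≤ z.re
  · rw [hout h1]; exact hz
  by_cases h2 : z.im < 0 ∨ 1 < z.im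
  · rw [hid h2]; exact hz
  push Not at h1 h2
  obtain ⟨g1, g2⟩ := hf' h1.1 h1.2
  exact Dk_of_re (z := ⟨f z.re, z.im⟩) g1 g2 h2.1 h2.2

lemma Gf_strict {s a : ℝ} (hs : 0 ≤ s) (h0 : 0 < a) (h1 : a < 1) : 0 < Gf s a ∧ Gf s a < 1 := by
  rw [Gf_in hs h0.le h1.le]
  have h : 0 ≤ s * (1-a) := mul_nonneg hs (by linarith)
  have hd : 0 < 1+s-s*a := by linarith
  constructor
  · positivity
  · rw [div_lt_one hd]; linarith

lemma Ff_strict {s a : ℝ} (hs : 0 ≤ s) (h0 : 0 < a) (h1 : a < 1) : 0 < Ff s a ∧ Ff s a < 1 := by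
  rw [Ff_in hs h0.le h1.le]
  have h : 0 ≤ s * a := mul_nonneg hs h0.le
  have hd : 0 < 1+s*a := by linarith
  constructor
  · positivity
  · rw [div_lt_one hd]; linarith

lemma sm_mem {z : ℂ} (hz : z ∈ Dk) (h1 : z.im ≤ 1) : sm z ∈ Dk := by
  obtain ⟨⟨b1, b2⟩, b3, b4⟩ := Dk_bd hz
  obtain ⟨s1, s2⟩ := sA_bd hz
  apply horiz_mem hz (f := Gf (sA z))
  · intro a; exact Gf_bd s1
  · exact Gf_strict s1
  · exact Gf_out s1 s2 b2
  · intro h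
    rcases h with h | h
    · rw [sA_zero (by linarith), Gf_zero]
    · linarith

lemma sm'_mem {z : ℂ} (hz : z ∈ Dk) (h1 : z.im ≤ 1) : sm' z ∈ Dk := by
  obtain ⟨⟨b1, b2⟩, b3, b4⟩ := Dk_bd hz
  obtain ⟨s1, s2⟩ := sA_bd hz
  apply horiz_mem hz (f := Ff (sA z))
  · intro a; exact Ff_bd s1
  · exact Ff_strict s1
  · exact Ff_out s1 s2 b1
  · intro h
    rcases h with h | h
    · rw [sA_zero (by linarith), Ff_zero]
    · linarith

lemma sp_mem {z : ℂ} (hz : z ∈ Dk) (h1 : 0 ≤ z.im) : sp z ∈ Dk := by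
  obtain ⟨⟨b1, b2⟩, b3, b4⟩ := Dk_bd hz
  obtain ⟨s1, s2⟩ := sB_bd hz
  apply horiz_mem hz (f := Gf (sB z))
  · intro a; exact Gf_bd s1
  · exact Gf_strict s1
  · exact Gf_out s1 s2 b2
  · intro h
    rcases h with h | h
    · linarith
    · rw [sB_zero (by linarith), Gf_zero]

lemma sp'_mem {z : ℂ} (hz : z ∈ Dk) (h1 : 0 ≤ z.im) : sp' z ∈ Dk := by
  obtain ⟨⟨b1, b2⟩, b3, b4⟩ := Dk_bd hz
  obtain ⟨s1, s2⟩ := sB_bd hz
  apply horiz_mem hz (f := Ff (sB z))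
  · intro a; exact Ff_bd s1
  · exact Ff_strict s1
  · exact Ff_out s1 s2 b1
  · intro h
    rcases h with h | h
    · linarith
    · rw [sB_zero (by linarith), Ff_zero]

lemma phi_mem {z : ℂ} (hz : z ∈ Dk) (h0 : 0 < z.re) (h1 : z.re < 1) : phi z ∈ Dk := by
  obtain ⟨-, b3, b4⟩ := Dk_bd hz
  by_cases h : z.im ≤ 0 ∨ 1 ≤ z.im
  · have : phi z = z := by
      unfold phi; rw [Ff_out (by norm_num) (by norm_num) b3 h]
    rw [this]; exact hz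
  · push Not at h
    obtain ⟨g1, g2⟩ := Ff_bd (s := 1) (by norm_num) h.1.le h.2.le
    exact Dk_of_re (z := phi z) h0 h1 g1 g2

lemma phi'_mem {z : ℂ} (hz : z ∈ Dk) (h0 : 0 < z.re) (h1 : z.re < 1) : phi' z ∈ Dk := by
  obtain ⟨-, b3, b4⟩ := Dk_bd hz
  by_cases h : z.im ≤ 0 ∨ 1 ≤ z.im
  · have : phi' z = z := by
      unfold phi'; rw [Gf_out (by norm_num) (by norm_num) b4 h]
    rw [this]; exact hz
  · push Not at h
    obtain ⟨g1, g2⟩ := Gf_bd (s := 1) (by norm_num) h.1.le h.2.le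
    exact Dk_of_re (z := phi' z) h0 h1 g1 g2

lemma sm_sm' {z : ℂ} (hz : z ∈ Dk) : sm (sm' z) = z := by
  obtain ⟨⟨b1, b2⟩, b3, b4⟩ := Dk_bd hz
  obtain ⟨s1, s2⟩ := sA_bd hz
  have h1 : sA (sm' z) = sA z := rfl
  have h2 : sm (sm' z) = ⟨Gf (sA (sm' z)) (Ff (sA z) z.re), z.im⟩ := rfl
  rw [h2, h1, GF s1 s2 b1 b2]

lemma sm'_sm {z : ℂ} (hz : z ∈ Dk) : sm' (sm z) = z := by
  obtain ⟨⟨b1, b2⟩, b3, b4⟩ := Dk_bd hz
  obtain ⟨s1, s2⟩ := sA_bd hz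
  have h1 : sA (sm z) = sA z := rfl
  have h2 : sm' (sm z) = ⟨Ff (sA (sm z)) (Gf (sA z) z.re), z.im⟩ := rfl
  rw [h2, h1, FG s1 s2 b1 b2]

lemma sp_sp' {z : ℂ} (hz : z ∈ Dk) : sp (sp' z) = z := by
  obtain ⟨⟨b1, b2⟩, b3, b4⟩ := Dk_bd hz
  obtain ⟨s1, s2⟩ := sB_bd hz
  have h1 : sB (sp' z) = sB z := rfl
  have h2 : sp (sp' z) = ⟨Gf (sB (sp' z)) (Ff (sB z) z.re), z.im⟩ := rfl
  rw [h2, h1, GF s1 s2 b1 b2]

lemma sp'_sp {z : ℂ} (hz : z ∈ Dk) : sp' (sp z) = z := by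
  obtain ⟨⟨b1, b2⟩, b3, b4⟩ := Dk_bd hz
  obtain ⟨s1, s2⟩ := sB_bd hz
  have h1 : sB (sp z) = sB z := rfl
  have h2 : sp' (sp z) = ⟨Ff (sB (sp z)) (Gf (sB z) z.re), z.im⟩ := rfl
  rw [h2, h1, FG s1 s2 b1 b2]

lemma phi_phi' {z : ℂ} (hz : z ∈ Dk) : phi (phi' z) = z := by
  obtain ⟨-, b3, b4⟩ := Dk_bd hz
  have h2 : phi (phi' z) = ⟨z.re, Ff 1 (Gf 1 z.im)⟩ := rfl
  rw [h2, FG (by norm_num) (by norm_num) b3 b4]

lemma phi'_phi {z : ℂ} (hz : z ∈ Dk) : phi' (phi z) = z := by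
  obtain ⟨-, b3, b4⟩ := Dk_bd hz
  have h2 : phi' (phi z) = ⟨z.re, Gf 1 (Ff 1 z.im)⟩ := rfl
  rw [h2, GF (by norm_num) (by norm_num) b3 b4]

/-! ### the side pairings between the half planes -/

lemma tm_tp {z : ℂ} (hz : z ∈ Dk) : act tm (act tp z) = z := by
  rw [act_act Gam_tp hz, show tm * tp = one by rw [mul_def]; rfl, act_one]
lemma tp_tm {z : ℂ} (hz : z ∈ Dk) : act tp (act tm z) = z := by
  rw [act_act Gam_tm hz, show tp * tm = one by rw [mul_def]; rfl, act_one]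
lemma ap_am {z : ℂ} (hz : z ∈ Dk) : act ap (act am z) = z := by
  rw [act_act Gam_am hz, show ap * am = one by rw [mul_def]; rfl, act_one]
lemma am_ap {z : ℂ} (hz : z ∈ Dk) : act am (act ap z) = z := by
  rw [act_act Gam_ap hz, show am * ap = one by rw [mul_def]; rfl, act_one]

lemma tp_im {z : ℂ} (hz : z ∈ Dk) (h : z.re ≤ 0) : (act tp z).im ≤ 1 := by
  obtain ⟨⟨b1, b2⟩, b3, b4⟩ := Dk_bd hz
  rw [act_tp]
  show (1+5*z.re)/(1+4*z.re) ≤ 1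
  rw [div_le_one (by linarith)]; linarith

lemma tm_re {z : ℂ} (hz : z ∈ Dk) (h : z.im ≤ 1) : (act tm z).re ≤ 0 := by
  obtain ⟨⟨b1, b2⟩, b3, b4⟩ := Dk_bd hz
  rw [act_tm]
  show (z.im-1)/(5-4*z.im) ≤ 0
  exact div_nonpos_of_nonpos_of_nonneg (by linarith) (by linarith)

lemma am_im {z : ℂ} (hz : z ∈ Dk) (h : 1 ≤ z.re) : 0 ≤ (act am z).im := by
  obtain ⟨⟨b1, b2⟩, b3, b4⟩ := Dk_bd hz
  rw [act_am]
  show 0 ≤ (z.re-1)/(5-4*z.re)
  exact div_nonneg (by linarith) (by linarith)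

lemma ap_re {z : ℂ} (hz : z ∈ Dk) (h : 0 ≤ z.im) : 1 ≤ (act ap z).re := by
  obtain ⟨⟨b1, b2⟩, b3, b4⟩ := Dk_bd hz
  rw [act_ap]
  show 1 ≤ (1+5*z.im)/(1+4*z.im)
  rw [le_div_iff₀ (by linarith)]; linarith

/-- the extra symmetry and its inverse -/
noncomputable def gg (z : ℂ) : ℂ :=
  if z.re ≤ 0 then act tm (sm (act tp z)) else if 1 ≤ z.re then act ap (sp (act am z)) else phi z

noncomputable def gg' (z : ℂ) : ℂ :=
  if z.re ≤ 0 then act tm (sm' (act tp z)) else if 1 ≤ z.re then act ap (sp' (act am z)) else phi' z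

lemma gg_left {z : ℂ} (h : z.re ≤ 0) : gg z = act tm (sm (act tp z)) := if_pos h
lemma gg'_left {z : ℂ} (h : z.re ≤ 0) : gg' z = act tm (sm' (act tp z)) := if_pos h
lemma gg_right {z : ℂ} (h : 1 ≤ z.re) : gg z = act ap (sp (act am z)) := by
  unfold gg; rw [if_neg (by linarith), if_pos h]
lemma gg'_right {z : ℂ} (h : 1 ≤ z.re) : gg' z = act ap (sp' (act am z)) := by
  unfold gg'; rw [if_neg (by linarith), if_pos h]
lemma gg_mid {z : ℂ} (h0 : 0 < z.re) (h1 : z.re < 1) : gg z = phi z := by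
  unfold gg; rw [if_neg (by linarith), if_neg (by linarith)]
lemma gg'_mid {z : ℂ} (h0 : 0 < z.re) (h1 : z.re < 1) : gg' z = phi' z := by
  unfold gg'; rw [if_neg (by linarith), if_neg (by linarith)]

lemma left_mem {z : ℂ} (hz : z ∈ Dk) (h : z.re ≤ 0) :
    act tm (sm (act tp z)) ∈ Dk ∧ (act tm (sm (act tp z))).re ≤ 0 := by
  have h1 := act_mem Gam_tp hz
  have h2 := tp_im hz h
  have h3 := sm_mem h1 h2
  exact ⟨act_mem Gam_tm h3, tm_re h3 h2⟩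

lemma left'_mem {z : ℂ} (hz : z ∈ Dk) (h : z.re ≤ 0) :
    act tm (sm' (act tp z)) ∈ Dk ∧ (act tm (sm' (act tp z))).re ≤ 0 := by
  have h1 := act_mem Gam_tp hz
  have h2 := tp_im hz h
  have h3 := sm'_mem h1 h2
  exact ⟨act_mem Gam_tm h3, tm_re h3 h2⟩

lemma right_mem {z : ℂ} (hz : z ∈ Dk) (h : 1 ≤ z.re) :
    act ap (sp (act am z)) ∈ Dk ∧ 1 ≤ (act ap (sp (act am z))).re := by
  have h1 := act_mem Gam_am hz
  have h2 := am_im hz h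
  have h3 := sp_mem h1 h2
  exact ⟨act_mem Gam_ap h3, ap_re h3 h2⟩

lemma right'_mem {z : ℂ} (hz : z ∈ Dk) (h : 1 ≤ z.re) :
    act ap (sp' (act am z)) ∈ Dk ∧ 1 ≤ (act ap (sp' (act am z))).re := by
  have h1 := act_mem Gam_am hz
  have h2 := am_im hz h
  have h3 := sp'_mem h1 h2
  exact ⟨act_mem Gam_ap h3, ap_re h3 h2⟩

lemma gg_maps {z : ℂ} (hz : z ∈ Dk) : gg z ∈ Dk := by
  by_cases h0 : z.re ≤ 0
  · rw [gg_left h0]; exact (left_mem hz h0).1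
  by_cases h1 : 1 ≤ z.re
  · rw [gg_right h1]; exact (right_mem hz h1).1
  push Not at h0 h1
  rw [gg_mid h0 h1]; exact phi_mem hz h0 h1

lemma gg'_maps {z : ℂ} (hz : z ∈ Dk) : gg' z ∈ Dk := by
  by_cases h0 : z.re ≤ 0
  · rw [gg'_left h0]; exact (left'_mem hz h0).1
  by_cases h1 : 1 ≤ z.re
  · rw [gg'_right h1]; exact (right'_mem hz h1).1
  push Not at h0 h1
  rw [gg'_mid h0 h1]; exact phi'_mem hz h0 h1

lemma gg'_gg {z : ℂ} (hz : z ∈ Dk) : gg' (gg z) = z := by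
  by_cases h0 : z.re ≤ 0
  · have h1 := act_mem Gam_tp hz
    have h2 := tp_im hz h0
    have h3 := sm_mem h1 h2
    rw [gg_left h0, gg'_left (left_mem hz h0).2, tp_tm h3, sm'_sm h1, tm_tp hz]
  by_cases h1 : 1 ≤ z.re
  · have h1' := act_mem Gam_am hz
    have h2 := am_im hz h1
    have h3 := sp_mem h1' h2
    rw [gg_right h1, gg'_right (right_mem hz h1).2, am_ap h3, sp'_sp h1', ap_am hz]
  push Not at h0 h1
  rw [gg_mid h0 h1, gg'_mid (show 0 < (phi z).re from h0) (show (phi z).re < 1 from h1), phi'_phi hz]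

lemma gg_gg' {z : ℂ} (hz : z ∈ Dk) : gg (gg' z) = z := by
  by_cases h0 : z.re ≤ 0
  · have h1 := act_mem Gam_tp hz
    have h2 := tp_im hz h0
    have h3 := sm'_mem h1 h2
    rw [gg'_left h0, gg_left (left'_mem hz h0).2, tp_tm h3, sm_sm' h1, tm_tp hz]
  by_cases h1 : 1 ≤ z.re
  · have h1' := act_mem Gam_am hz
    have h2 := am_im hz h1
    have h3 := sp'_mem h1' h2
    rw [gg'_right h1, gg_right (right'_mem hz h1).2, am_ap h3, sp_sp' h1', ap_am hz]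
  push Not at h0 h1
  rw [gg'_mid h0 h1, gg_mid (show 0 < (phi' z).re from h0) (show (phi' z).re < 1 from h1), phi_phi' hz]

/-! agreement on the two sides -/

lemma Dk_side {z : ℂ} (hz : z ∈ Dk) (h : z.re = 0 ∨ z.re = 1) : 0 < z.im ∧ z.im < 1 := by
  have hz' : 0 < z.re*(1-z.re) + z.im*(1-z.im) := hz
  have h0 : z.re * (1-z.re) = 0 := by rcases h with h | h <;> rw [h] <;> ring
  rw [h0, zero_add] at hz'
  constructor
  · by_contra hc; push Not at hc; nlinarith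
  · by_contra hc; push Not at hc; nlinarith

lemma agree_left {z : ℂ} (hz : z ∈ Dk) (h : z.re = 0) : act tm (sm (act tp z)) = phi z := by
  obtain ⟨h1, h2⟩ := Dk_side hz (Or.inl h)
  have e1 : act tp z = ⟨1 - z.im, 1⟩ := by rw [act_tp, h]; norm_num
  have e2 : sm ⟨1 - z.im, 1⟩ = ⟨(1-z.im)/(1+z.im), 1⟩ := by
    have : sA ⟨1 - z.im, 1⟩ = 1 := by unfold sA; norm_num
    unfold sm
    rw [this, Gf_in (by norm_num) (by simp only; linarith) (by simp only; linarith)]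
    simp only
    congr 2; ring
  rw [e1, e2, act_tm]
  unfold phi
  rw [Ff_in (by norm_num) h1.le h2.le]
  have h3 : (1 + z.im) ≠ 0 := by linarith
  apply Complex.ext
  · simp [h]
  · simp only
    rw [one_mul]
    field_simp
    ring

lemma agree_left' {z : ℂ} (hz : z ∈ Dk) (h : z.re = 0) : act tm (sm' (act tp z)) = phi' z := by
  obtain ⟨h1, h2⟩ := Dk_side hz (Or.inl h)
  have e1 : act tp z = ⟨1 - z.im, 1⟩ := by rw [act_tp, h]; norm_num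
  have e2 : sm' ⟨1 - z.im, 1⟩ = ⟨2*(1-z.im)/(2-z.im), 1⟩ := by
    have : sA ⟨1 - z.im, 1⟩ = 1 := by unfold sA; norm_num
    unfold sm'
    rw [this, Ff_in (by norm_num) (by simp only; linarith) (by simp only; linarith)]
    simp only
    congr 2 <;> ring
  rw [e1, e2, act_tm]
  unfold phi'
  rw [Gf_in (by norm_num) h1.le h2.le]
  have h3 : (2 - z.im) ≠ 0 := by linarith
  have h4 : (1 + 1 - 1 * z.im) = 2 - z.im := by ring
  apply Complex.ext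
  · simp [h]
  · simp only
    rw [h4]
    field_simp
    ring

lemma agree_right {z : ℂ} (hz : z ∈ Dk) (h : z.re = 1) : act ap (sp (act am z)) = phi z := by
  obtain ⟨h1, h2⟩ := Dk_side hz (Or.inr h)
  have e1 : act am z = ⟨1 - z.im, 0⟩ := by
    rw [act_am, h]; apply Complex.ext <;> norm_num; ring
  have e2 : sp ⟨1 - z.im, 0⟩ = ⟨(1-z.im)/(1+z.im), 0⟩ := by
    have : sB ⟨1 - z.im, 0⟩ = 1 := by unfold sB; norm_num
    unfold sp
    rw [this, Gf_in (by norm_num) (by simp only; linarith) (by simp only; linarith)]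
    simp only
    congr 2; ring
  rw [e1, e2, act_ap]
  unfold phi
  rw [Ff_in (by norm_num) h1.le h2.le]
  have h3 : (1 + z.im) ≠ 0 := by linarith
  apply Complex.ext
  · simp [h]
  · simp only
    rw [one_mul]
    field_simp
    ring

lemma agree_right' {z : ℂ} (hz : z ∈ Dk) (h : z.re = 1) : act ap (sp' (act am z)) = phi' z := by
  obtain ⟨h1, h2⟩ := Dk_side hz (Or.inr h)
  have e1 : act am z = ⟨1 - z.im, 0⟩ := by
    rw [act_am, h]; apply Complex.ext <;> norm_num; ring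
  have e2 : sp' ⟨1 - z.im, 0⟩ = ⟨2*(1-z.im)/(2-z.im), 0⟩ := by
    have : sB ⟨1 - z.im, 0⟩ = 1 := by unfold sB; norm_num
    unfold sp'
    rw [this, Ff_in (by norm_num) (by simp only; linarith) (by simp only; linarith)]
    simp only
    congr 2 <;> ring
  rw [e1, e2, act_ap]
  unfold phi'
  rw [Gf_in (by norm_num) h1.le h2.le]
  have h3 : (2 - z.im) ≠ 0 := by linarith
  have h4 : (1 + 1 - 1 * z.im) = 2 - z.im := by ring
  apply Complex.ext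
  · simp [h]
  · simp only
    rw [h4]
    field_simp
    ring

end Pool.Agent.R174.Hom
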