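import Mathlib
import Pool.Agent.R174.HomD

open Set Metric Topology

namespace Pool.Agent.R174.Hom

lemma sA_cont : Continuous sA := by unfold sA; fun_prop
lemma sB_cont : Continuous sB := by unfold sB; fun_prop

lemma Gf_contOn {s : ℂ → ℝ} {a : ℂ → ℝ} (hs : Continuous s) (ha : Continuous a)
    (h : ∀ z ∈ Dk, 1 + s z - s z * a z ≠ 0) : ContinuousOn (fun z => Gf (s z) (a z)) Dk := by
  unfold Gf
  apply ContinuousOn.inf ha.continuousOn
  exact ha.continuousOn.div (by fun_prop) h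

lemma Ff_contOn {s : ℂ → ℝ} {a : ℂ → ℝ} (hs : Continuous s) (ha : Continuous a)
    (h : ∀ z ∈ Dk, 1 + s z * a z ≠ 0) : ContinuousOn (fun z => Ff (s z) (a z)) Dk := by
  unfold Ff
  apply ContinuousOn.sup ha.continuousOn
  apply ContinuousOn.div _ _ h
  · fun_prop
  · fun_prop

lemma sm_cont : ContinuousOn sm Dk := by
  apply continuousOn_mk
  · apply Gf_contOn sA_cont Complex.continuous_re
    intro z hz
    obtain ⟨⟨b1, b2⟩, b3, b4⟩ := Dk_bd hz
    obtain ⟨s1, s2⟩ := sA_bd hz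
    exact (den_pos s1 s2 b2).ne'
  · exact Complex.continuous_im.continuousOn

lemma sm'_cont : ContinuousOn sm' Dk := by
  apply continuousOn_mk
  · apply Ff_contOn sA_cont Complex.continuous_re
    intro z hz
    obtain ⟨⟨b1, b2⟩, b3, b4⟩ := Dk_bd hz
    obtain ⟨s1, s2⟩ := sA_bd hz
    exact (den_pos' s1 s2 b1).ne'
  · exact Complex.continuous_im.continuousOn

lemma sp_cont : ContinuousOn sp Dk := by
  apply continuousOn_mk
  · apply Gf_contOn sB_cont Complex.continuous_re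
    intro z hz
    obtain ⟨⟨b1, b2⟩, b3, b4⟩ := Dk_bd hz
    obtain ⟨s1, s2⟩ := sB_bd hz
    exact (den_pos s1 s2 b2).ne'
  · exact Complex.continuous_im.continuousOn

lemma sp'_cont : ContinuousOn sp' Dk := by
  apply continuousOn_mk
  · apply Ff_contOn sB_cont Complex.continuous_re
    intro z hz
    obtain ⟨⟨b1, b2⟩, b3, b4⟩ := Dk_bd hz
    obtain ⟨s1, s2⟩ := sB_bd hz
    exact (den_pos' s1 s2 b1).ne'
  · exact Complex.continuous_im.continuousOn

lemma phi_cont : ContinuousOn phi Dk := by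
  apply continuousOn_mk
  · exact Complex.continuous_re.continuousOn
  · apply Ff_contOn continuous_const Complex.continuous_im
    intro z hz
    obtain ⟨⟨b1, b2⟩, b3, b4⟩ := Dk_bd hz
    exact (den_pos' (by norm_num) (by norm_num) b3).ne'

lemma phi'_cont : ContinuousOn phi' Dk := by
  apply continuousOn_mk
  · exact Complex.continuous_re.continuousOn
  · apply Gf_contOn continuous_const Complex.continuous_im
    intro z hz
    obtain ⟨⟨b1, b2⟩, b3, b4⟩ := Dk_bd hz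
    exact (den_pos (by norm_num) (by norm_num) b4).ne'

/-- `act tm` is continuous on a half plane -/
lemma tm_contOn : ContinuousOn (act tm) {z : ℂ | z.im < 5/4} := by
  have : act tm = fun z : ℂ => (⟨(z.im-1)/(5-4*z.im), (3-z.re-2*z.im)/(5-4*z.im)⟩ : ℂ) := by
    funext z; exact act_tm z
  rw [this]
  have hne : ∀ z ∈ {z : ℂ | z.im < 5/4}, 5-4*z.im ≠ 0 := by
    intro z hz
    have : z.im < 5/4 := hz
    intro h; linarith
  apply continuousOn_mk
  · exact ContinuousOn.div (by fun_prop) (by fun_prop) hne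
  · exact ContinuousOn.div (by fun_prop) (by fun_prop) hne

lemma ap_contOn : ContinuousOn (act ap) {z : ℂ | -(1/4) < z.im} := by
  have : act ap = fun z : ℂ => (⟨(1+5*z.im)/(1+4*z.im), (1+2*z.im-z.re)/(1+4*z.im)⟩ : ℂ) := by
    funext z; exact act_ap z
  rw [this]
  have hne : ∀ z ∈ {z : ℂ | -(1/4) < z.im}, 1+4*z.im ≠ 0 := by
    intro z hz
    have : -(1/4) < z.im := hz
    intro h; linarith
  apply continuousOn_mk
  · exact ContinuousOn.div (by fun_prop) (by fun_prop) hne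
  · exact ContinuousOn.div (by fun_prop) (by fun_prop) hne

lemma left_cont {f : ℂ → ℂ} (hf : ContinuousOn f Dk) (him : ∀ z, (f z).im = z.im) :
    ContinuousOn (fun z => act tm (f (act tp z))) Dk := by
  apply tm_contOn.comp (hf.comp (act_cont Gam_tp) (fun z hz => act_mem Gam_tp hz))
  intro z hz
  show (f (act tp z)).im < 5/4
  rw [him]
  exact (Dk_bd (act_mem Gam_tp hz)).2.2

lemma right_cont {f : ℂ → ℂ} (hf : ContinuousOn f Dk) (him : ∀ z, (f z).im = z.im) :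
    ContinuousOn (fun z => act ap (f (act am z))) Dk := by
  apply ap_contOn.comp (hf.comp (act_cont Gam_am) (fun z hz => act_mem Gam_am hz))
  intro z hz
  show -(1/4) < (f (act am z)).im
  rw [him]
  exact (Dk_bd (act_mem Gam_am hz)).2.1

lemma glue_cont {f1 f2 f3 : ℂ → ℂ} (h1 : ContinuousOn f1 Dk) (h2 : ContinuousOn f2 Dk)
    (h3 : ContinuousOn f3 Dk) (a1 : ∀ z ∈ Dk, z.re = 0 → f1 z = f3 z)
    (a2 : ∀ z ∈ Dk, z.re = 1 → f2 z = f3 z) :
    ContinuousOn (fun z => if z.re ≤ 0 then f1 z else if 1 ≤ z.re then f2 z else f3 z) Dk := by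
  rw [continuousOn_iff_continuous_domRestrict] at h1 h2 h3 ⊢
  have hre : Continuous (fun z : Dk => (z:ℂ).re) := by fun_prop
  have hin : Continuous (fun z : Dk => if 1 ≤ (z:ℂ).re then f2 z else f3 z) := by
    apply Continuous.if_le h2 h3 continuous_const hre
    intro z hz
    exact a2 z z.2 hz.symm
  apply Continuous.if_le h1 hin hre continuous_const
  intro z hz
  have h4 : ¬ (1 ≤ (z:ℂ).re) := by rw [hz]; norm_num
  simp only [h4, if_false]
  exact a1 z z.2 hz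

lemma gg_cont : ContinuousOn gg Dk :=
  glue_cont (left_cont sm_cont (fun _ => rfl)) (right_cont sp_cont (fun _ => rfl)) phi_cont
    (fun _ hz h => agree_left hz h) (fun _ hz h => agree_right hz h)

lemma gg'_cont : ContinuousOn gg' Dk :=
  glue_cont (left_cont sm'_cont (fun _ => rfl)) (right_cont sp'_cont (fun _ => rfl)) phi'_cont
    (fun _ hz h => agree_left' hz h) (fun _ hz h => agree_right' hz h)

lemma gg_DH : DH gg gg' where
  maps _ hz := gg_maps hz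
  maps' _ hz := gg'_maps hz
  cont := gg_cont
  cont' := gg'_cont
  left _ hz := gg'_gg hz
  right _ hz := gg_gg' hz

/-! ### action on the tiles -/

lemma gg_on_closed {z : ℂ} (hz : z ∈ Dk) (h0 : 0 ≤ z.re) (h1 : z.re ≤ 1) : gg z = phi z := by
  rcases eq_or_lt_of_le h0 with h | h
  · rw [gg_left h.symm.le, agree_left hz h.symm]
  rcases eq_or_lt_of_le h1 with h' | h'
  · rw [gg_right h'.symm.le, agree_right hz h']
  · exact gg_mid h h'

lemma gg'_on_closed {z : ℂ} (hz : z ∈ Dk) (h0 : 0 ≤ z.re) (h1 : z.re ≤ 1) : gg' z = phi' z := by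
  rcases eq_or_lt_of_le h0 with h | h
  · rw [gg'_left h.symm.le, agree_left' hz h.symm]
  rcases eq_or_lt_of_le h1 with h' | h'
  · rw [gg'_right h'.symm.le, agree_right' hz h']
  · exact gg'_mid h h'

lemma two_zpow_succ (n : ℤ) : (2:ℝ)^(n+1) = 2 * (2:ℝ)^n := by
  rw [zpow_add_one₀ (by norm_num)]; ring

lemma phi_tn {z : ℂ} {n : ℤ} (hz : z ∈ tn n) : phi z ∈ tn (n+1) := by
  obtain ⟨i1, i2⟩ := tn_im hz
  rw [mem_tn, Bn_le_iff, le_Bn_iff] at hz
  obtain ⟨h1, h2, h3, h4⟩ := hz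
  rw [mem_tn, Bn_le_iff, le_Bn_iff]
  have e : (phi z).im = 2*z.im/(1+z.im) := by
    show Ff 1 z.im = _
    rw [Ff_in (by norm_num) i1.le i2.le]; congr 1 <;> ring
  have hd : 0 < 1 + z.im := by linarith
  have e' : 1 - (phi z).im = (1-z.im)/(1+z.im) := by
    rw [e]; field_simp; ring
  refine ⟨h1, h2, ?_, ?_⟩
  · rw [e', e, two_zpow_succ, ← mul_div_assoc]
    apply div_le_div_of_nonneg_right _ hd.le
    linarith
  · rw [e', e, two_zpow_succ, ← mul_div_assoc]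
    apply div_le_div_of_nonneg_right _ hd.le
    linarith

lemma phi'_tn {z : ℂ} {n : ℤ} (hz : z ∈ tn (n+1)) : phi' z ∈ tn n := by
  obtain ⟨i1, i2⟩ := tn_im hz
  rw [mem_tn, Bn_le_iff, le_Bn_iff] at hz
  obtain ⟨h1, h2, h3, h4⟩ := hz
  rw [mem_tn, Bn_le_iff, le_Bn_iff]
  have e : (phi' z).im = z.im/(2-z.im) := by
    show Gf 1 z.im = _
    rw [Gf_in (by norm_num) i1.le i2.le]; congr 1; ring
  have hd : 0 < 2 - z.im := by linarith
  have e' : 1 - (phi' z).im = (2*(1-z.im))/(2-z.im) := by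
    rw [e]; field_simp; ring
  rw [two_zpow_succ] at h3 h4
  refine ⟨h1, h2, ?_, ?_⟩
  · rw [e', e, ← mul_div_assoc]
    apply div_le_div_of_nonneg_right _ hd.le
    linarith
  · rw [e', e, ← mul_div_assoc]
    apply div_le_div_of_nonneg_right _ hd.le
    rw [two_zpow_succ] at h4 ⊢
    linarith

lemma horiz_tn {z : ℂ} {n : ℤ} {f : ℝ} (hz : z ∈ tn n) (h0 : 0 ≤ f) (h1 : f ≤ 1) :
    (⟨f, z.im⟩ : ℂ) ∈ tn n := by
  rw [mem_tn] at hz ⊢
  exact ⟨h0, h1, hz.2.2.1, hz.2.2.2⟩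

lemma sm_tn {z : ℂ} {n : ℤ} (hz : z ∈ tn n) : sm z ∈ tn n := by
  have hD := (tn_Q hz).1
  obtain ⟨a, b⟩ := Gf_bd (sA_bd hD).1 (mem_tn.1 hz).1 (mem_tn.1 hz).2.1
  exact horiz_tn hz a b

lemma sm'_tn {z : ℂ} {n : ℤ} (hz : z ∈ tn n) : sm' z ∈ tn n := by
  have hD := (tn_Q hz).1
  obtain ⟨a, b⟩ := Ff_bd (sA_bd hD).1 (mem_tn.1 hz).1 (mem_tn.1 hz).2.1
  exact horiz_tn hz a b

lemma sp_tn {z : ℂ} {n : ℤ} (hz : z ∈ tn n) : sp z ∈ tn n := by
  have hD := (tn_Q hz).1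
  obtain ⟨a, b⟩ := Gf_bd (sB_bd hD).1 (mem_tn.1 hz).1 (mem_tn.1 hz).2.1
  exact horiz_tn hz a b

lemma sp'_tn {z : ℂ} {n : ℤ} (hz : z ∈ tn n) : sp' z ∈ tn n := by
  have hD := (tn_Q hz).1
  obtain ⟨a, b⟩ := Ff_bd (sB_bd hD).1 (mem_tn.1 hz).1 (mem_tn.1 hz).2.1
  exact horiz_tn hz a b

lemma image_eq_of {e : ℂ ≃ₜ ℂ} {X Y : Set ℂ} (h1 : ∀ z ∈ X, e z ∈ Y) (h2 : ∀ z ∈ Y, e.symm z ∈ X) :
    e '' X = Y := by
  apply Set.Subset.antisymm
  · rintro _ ⟨z, hz, rfl⟩; exact h1 z hz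
  · intro z hz
    exact ⟨e.symm z, h2 z hz, by simp⟩

/-- (T1) -/
lemma H_one (n : ℤ) : gg_DH.homeo '' tile one n = tile one (n+1) := by
  apply image_eq_of
  · intro z hz
    have hz' : psi z ∈ tn n := by
      have : act one (psi z) ∈ tn n := hz
      rwa [act_one] at this
    show act one (psi (gg_DH.homeo z)) ∈ tn (n+1)
    rw [act_one, DH.psi_homeo, gg_on_closed (psi_mem z) (mem_tn.1 hz').1 (mem_tn.1 hz').2.1]
    exact phi_tn hz'
  · intro z hz
    have hz' : psi z ∈ tn (n+1) := by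
      have : act one (psi z) ∈ tn (n+1) := hz
      rwa [act_one] at this
    show act one (psi (gg_DH.homeo.symm z)) ∈ tn n
    rw [act_one, DH.psi_homeo_symm, gg'_on_closed (psi_mem z) (mem_tn.1 hz').1 (mem_tn.1 hz').2.1]
    exact phi'_tn hz'

/-- (T2) -/
lemma H_tp (n : ℤ) : gg_DH.homeo '' tile tp n = tile tp n := by
  apply image_eq_of
  · intro z hz
    have hz' : act tp (psi z) ∈ tn n := hz
    have hre : (psi z).re ≤ 0 := by
      have h1 := tm_re (tn_Q hz').1 (tn_im hz').2.le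
      rwa [tm_tp (psi_mem z)] at h1
    show act tp (psi (gg_DH.homeo z)) ∈ tn n
    rw [DH.psi_homeo, gg_left hre, tp_tm (sm_mem (tn_Q hz').1 (tn_im hz').2.le)]
    exact sm_tn hz'
  · intro z hz
    have hz' : act tp (psi z) ∈ tn n := hz
    have hre : (psi z).re ≤ 0 := by
      have h1 := tm_re (tn_Q hz').1 (tn_im hz').2.le
      rwa [tm_tp (psi_mem z)] at h1
    show act tp (psi (gg_DH.homeo.symm z)) ∈ tn n
    rw [DH.psi_homeo_symm, gg'_left hre, tp_tm (sm'_mem (tn_Q hz').1 (tn_im hz').2.le)]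
    exact sm'_tn hz'

/-- (T3) -/
lemma H_am (n : ℤ) : gg_DH.homeo '' tile am n = tile am n := by
  apply image_eq_of
  · intro z hz
    have hz' : act am (psi z) ∈ tn n := hz
    have hre : 1 ≤ (psi z).re := by
      have h1 := ap_re (tn_Q hz').1 (tn_im hz').1.le
      rwa [ap_am (psi_mem z)] at h1
    show act am (psi (gg_DH.homeo z)) ∈ tn n
    rw [DH.psi_homeo, gg_right hre, am_ap (sp_mem (tn_Q hz').1 (tn_im hz').1.le)]
    exact sp_tn hz'
  · intro z hz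
    have hz' : act am (psi z) ∈ tn n := hz
    have hre : 1 ≤ (psi z).re := by
      have h1 := ap_re (tn_Q hz').1 (tn_im hz').1.le
      rwa [ap_am (psi_mem z)] at h1
    show act am (psi (gg_DH.homeo.symm z)) ∈ tn n
    rw [DH.psi_homeo_symm, gg'_right hre, am_ap (sp'_mem (tn_Q hz').1 (tn_im hz').1.le)]
    exact sp'_tn hz'

lemma neg_neg' (g : M4) : neg (neg g) = g := by
  ext <;> simp [neg]

lemma cancel_right {g a b c : M4} (h : g * a = c) (hab : a * b = one) : g = c * b := by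
  rw [← h, mul_assoc', hab, mul_one']

lemma tm_tp_one : tm * tp = one := by rw [mul_def]; rfl
lemma tm_mul_tp : tm * tp = one := tm_tp_one
lemma ap_am_one : ap * am = one := by rw [mul_def]; rfl

/-- (T4) all other tiles are fixed pointwise -/
lemma gg_fix {g : M4} (hg : Gam g) (n1 : g ≠ one) (n2 : g ≠ neg one) (n3 : g ≠ tp) (n4 : g ≠ neg tp)
    (n5 : g ≠ am) (n6 : g ≠ neg am) {w : ℂ} (hw : w ∈ Dk) (hQ : act g w ∈ Q) : gg w = w := by
  by_cases h0 : w.re ≤ 0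
  · set y := act tp w with hy
    have hyD : y ∈ Dk := act_mem Gam_tp hw
    have hy1 : y.im ≤ 1 := tp_im hw h0
    obtain ⟨⟨b1, b2⟩, b3, b4⟩ := Dk_bd hyD
    obtain ⟨s1, s2⟩ := sA_bd hyD
    have hfix : sm y = y := by
      by_cases c1 : y.re ≤ 0 ∨ 1 ≤ y.re
      · unfold sm; rw [Gf_out s1 s2 b2 c1]
      by_cases c2 : y.im ≤ 1/2
      · unfold sm; rw [sA_zero c2, Gf_zero]
      exfalso
      push Not at c1 c2
      have hyQ : y ∈ Q := ⟨hyD, c1.1.le, c1.2.le, by linarith, hy1⟩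
      have hk : act (g * tm) y = act g w := by
        rw [← act_act Gam_tm hyD, hy, tm_tp hw]
      have hQ2 : act (g * tm) y ∈ Q := by rw [hk]; exact hQ
      rcases key hyQ (Gam_mul hg Gam_tm) hQ2 with
        (h | h) | ⟨_, h⟩ | ⟨h | h, _⟩ | ⟨_, h⟩ | ⟨_, h⟩
      · apply n3; rw [cancel_right h tm_tp_one, one_mul']
      · apply n4; rw [cancel_right h tm_tp_one, neg_mul', one_mul']
      · linarith
      · apply n1; rw [cancel_right h tm_tp_one, tm_tp_one]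
      · apply n2; rw [cancel_right h tm_tp_one, neg_mul', tm_tp_one]
      · linarith
      · linarith
    rw [gg_left h0, ← hy, hfix, hy, tm_tp hw]
  by_cases h1 : 1 ≤ w.re
  · set y := act am w with hy
    have hyD : y ∈ Dk := act_mem Gam_am hw
    have hy1 : 0 ≤ y.im := am_im hw h1
    obtain ⟨⟨b1, b2⟩, b3, b4⟩ := Dk_bd hyD
    obtain ⟨s1, s2⟩ := sB_bd hyD
    have hfix : sp y = y := by
      by_cases c1 : y.re ≤ 0 ∨ 1 ≤ y.re
      · unfold sp; rw [Gf_out s1 s2 b2 c1]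
      by_cases c2 : 1/2 ≤ y.im
      · unfold sp; rw [sB_zero c2, Gf_zero]
      exfalso
      push Not at c1 c2
      have hyQ : y ∈ Q := ⟨hyD, c1.1.le, c1.2.le, hy1, by linarith⟩
      have hk : act (g * ap) y = act g w := by
        rw [← act_act Gam_ap hyD, hy, ap_am hw]
      have hQ2 : act (g * ap) y ∈ Q := by rw [hk]; exact hQ
      rcases key hyQ (Gam_mul hg Gam_ap) hQ2 with
        (h | h) | ⟨_, h⟩ | ⟨_, h⟩ | ⟨h | h, _⟩ | ⟨_, h⟩
      · apply n5; rw [cancel_right h ap_am_one, one_mul']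
      · apply n6; rw [cancel_right h ap_am_one, neg_mul', one_mul']
      · linarith
      · linarith
      · apply n1; rw [cancel_right h ap_am_one, ap_am_one]
      · apply n2; rw [cancel_right h ap_am_one, neg_mul', ap_am_one]
      · linarith
    rw [gg_right h1, ← hy, hfix, hy, ap_am hw]
  push Not at h0 h1
  obtain ⟨⟨b1, b2⟩, b3, b4⟩ := Dk_bd hw
  rw [gg_mid h0 h1]
  by_cases c : w.im ≤ 0 ∨ 1 ≤ w.im
  · unfold phi; rw [Ff_out (by norm_num) (by norm_num) b3 c]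
  · exfalso
    push Not at c
    have hwQ : w ∈ Q := ⟨hw, h0.le, h1.le, c.1.le, c.2.le⟩
    rcases key hwQ hg hQ with (h | h) | ⟨_, h⟩ | ⟨_, h⟩ | ⟨_, h⟩ | ⟨_, h⟩
    · exact n1 h
    · exact n2 h
    · linarith
    · linarith
    · linarith
    · linarith

lemma H_fix {g : M4} (hg : Gam g) (n1 : g ≠ one) (n2 : g ≠ neg one) (n3 : g ≠ tp) (n4 : g ≠ neg tp)
    (n5 : g ≠ am) (n6 : g ≠ neg am) (n : ℤ) : gg_DH.homeo '' tile g n = tile g n := by
  have key : ∀ z ∈ tile g n, gg_DH.homeo z = z := by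
    intro z hz
    apply psi_emb.injective
    rw [DH.psi_homeo]
    exact gg_fix hg n1 n2 n3 n4 n5 n6 (psi_mem z) (tn_Q hz)
  apply image_eq_of
  · intro z hz; rw [key z hz]; exact hz
  · intro z hz
    have : gg_DH.homeo.symm z = z := by
      rw [Homeomorph.symm_apply_eq, key z hz]
    rw [this]; exact hz

lemma H_maps {X : Set ℂ} (hX : X ∈ TT) : gg_DH.homeo '' X ∈ TT := by
  obtain ⟨g, n, hg, rfl⟩ := hX
  by_cases n1 : g = one
  · rw [n1, H_one]; exact ⟨one, n+1, Gam_one, rfl⟩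
  by_cases n2 : g = neg one
  · rw [n2, tile_neg, H_one]; exact ⟨one, n+1, Gam_one, rfl⟩
  by_cases n3 : g = tp
  · rw [n3, H_tp]; exact ⟨tp, n, Gam_tp, rfl⟩
  by_cases n4 : g = neg tp
  · rw [n4, tile_neg, H_tp]; exact ⟨tp, n, Gam_tp, rfl⟩
  by_cases n5 : g = am
  · rw [n5, H_am]; exact ⟨am, n, Gam_am, rfl⟩
  by_cases n6 : g = neg am
  · rw [n6, tile_neg, H_am]; exact ⟨am, n, Gam_am, rfl⟩
  rw [H_fix hg n1 n2 n3 n4 n5 n6]
  exact ⟨g, n, hg, rfl⟩

lemma H_surj {X : Set ℂ} (hX : X ∈ TT) : ∃ Y ∈ TT, gg_DH.homeo '' Y = X := by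
  obtain ⟨g, n, hg, rfl⟩ := hX
  by_cases n1 : g = one
  · refine ⟨tile one (n-1), ⟨one, n-1, Gam_one, rfl⟩, ?_⟩
    rw [H_one, n1, sub_add_cancel]
  by_cases n2 : g = neg one
  · refine ⟨tile one (n-1), ⟨one, n-1, Gam_one, rfl⟩, ?_⟩
    rw [H_one, n2, tile_neg, sub_add_cancel]
  by_cases n3 : g = tp
  · exact ⟨tile tp n, ⟨tp, n, Gam_tp, rfl⟩, by rw [n3, H_tp]⟩
  by_cases n4 : g = neg tp
  · exact ⟨tile tp n, ⟨tp, n, Gam_tp, rfl⟩, by rw [n4, tile_neg, H_tp]⟩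
  by_cases n5 : g = am
  · exact ⟨tile am n, ⟨am, n, Gam_am, rfl⟩, by rw [n5, H_am]⟩
  by_cases n6 : g = neg am
  · exact ⟨tile am n, ⟨am, n, Gam_am, rfl⟩, by rw [n6, tile_neg, H_am]⟩
  exact ⟨tile g n, ⟨g, n, hg, rfl⟩, H_fix hg n1 n2 n3 n4 n5 n6 n⟩

/-- symmetries of the tiling -/
def Sym (σ : ℂ ≃ₜ ℂ) : Prop := (fun Z : Set ℂ => σ '' Z) '' TT = TT

lemma Sym_H : Sym gg_DH.homeo := by
  apply Set.Subset.antisymm
  · rintro _ ⟨X, hX, rfl⟩; exact H_maps hX
  · intro X hX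
    obtain ⟨Y, hY, hYX⟩ := H_surj hX
    exact ⟨Y, hY, hYX⟩

lemma act_tile {g : M4} (hg : Gam g) {h : M4} (n : ℤ) :
    (act_DH hg).homeo '' tile h n = tile (h * inv g) n := by
  apply image_eq_of
  · intro z hz
    show act (h * inv g) (psi ((act_DH hg).homeo z)) ∈ tn n
    rw [DH.psi_homeo, ← act_act (Gam_inv hg) (act_mem hg (psi_mem z)), act_inv hg (psi_mem z)]
    exact hz
  · intro z hz
    show act h (psi ((act_DH hg).homeo.symm z)) ∈ tn n
    rw [DH.psi_homeo_symm, act_act (Gam_inv hg) (psi_mem z)]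
    exact hz

lemma inv_inv' (g : M4) : inv (inv g) = g := by
  ext <;> simp [inv]

lemma Sym_act {g : M4} (hg : Gam g) : Sym (act_DH hg).homeo := by
  apply Set.Subset.antisymm
  · rintro _ ⟨X, ⟨h, n, hh, rfl⟩, rfl⟩
    exact ⟨h * inv g, n, Gam_mul hh (Gam_inv hg), act_tile hg n⟩
  · rintro _ ⟨h, n, hh, rfl⟩
    refine ⟨tile (h * g) n, ⟨h*g, n, Gam_mul hh hg, rfl⟩, ?_⟩
    show (act_DH hg).homeo '' tile (h * g) n = tile h n
    rw [act_tile hg, mul_assoc', mul_inv_cancel' hg, mul_one']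

/-- tiles equivalent under the symmetry group -/
def Eqv (X Y : Set ℂ) : Prop := ∃ σ : ℂ ≃ₜ ℂ, Sym σ ∧ σ '' X = Y

lemma Eqv.symm {X Y : Set ℂ} (h : Eqv X Y) : Eqv Y X := by
  obtain ⟨σ, h1, h2⟩ := h
  refine ⟨σ.symm, ?_, ?_⟩
  · have h1' : (fun Z : Set ℂ => σ '' Z) '' TT = TT := h1
    show (fun Z : Set ℂ => σ.symm '' Z) '' TT = TT
    conv_lhs => rw [← h1']
    rw [Set.image_image]
    have : (fun x : Set ℂ => σ.symm '' (σ '' x)) = id := by
      funext x; exact σ.toEquiv.symm_image_image x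
    rw [this, Set.image_id]
  · rw [← h2]; exact σ.toEquiv.symm_image_image X

lemma Eqv.trans {X Y Z : Set ℂ} (h : Eqv X Y) (h' : Eqv Y Z) : Eqv X Z := by
  obtain ⟨σ, h1, h2⟩ := h
  obtain ⟨τ, h3, h4⟩ := h'
  refine ⟨σ.trans τ, ?_, ?_⟩
  · have h1' : (fun Z : Set ℂ => σ '' Z) '' TT = TT := h1
    have h3' : (fun Z : Set ℂ => τ '' Z) '' TT = TT := h3
    show (fun Z : Set ℂ => (σ.trans τ) '' Z) '' TT = TT
    have e : (fun Z : Set ℂ => (σ.trans τ) '' Z) = (fun Z : Set ℂ => τ '' Z) ∘ (fun Z => σ '' Z) := by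
      funext W
      exact Set.image_comp τ σ W
    rw [e, Set.image_comp, h1', h3']
  · have e : (σ.trans τ) '' X = τ '' (σ '' X) := Set.image_comp τ σ X
    rw [e, h2, h4]

lemma eqv_one_zero (n : ℤ) : Eqv (tile one 0) (tile one n) := by
  induction n using Int.induction_on with
  | zero =>
    refine ⟨Homeomorph.refl ℂ, ?_, ?_⟩
    · show (fun Z : Set ℂ => (Homeomorph.refl ℂ) '' Z) '' TT = TT
      simp
    · simp
  | succ i ih => exact ih.trans ⟨_, Sym_H, H_one _⟩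
  | pred i ih =>
    apply ih.trans
    apply Eqv.symm
    refine ⟨_, Sym_H, ?_⟩
    rw [H_one, sub_add_cancel]

lemma eqv_one {g : M4} (hg : Gam g) (n : ℤ) : Eqv (tile one 0) (tile g n) := by
  apply (eqv_one_zero n).trans
  apply Eqv.symm
  refine ⟨_, Sym_act hg, ?_⟩
  rw [act_tile hg, mul_inv_cancel' hg]

lemma homeohedral {X Y : Set ℂ} (hX : X ∈ TT) (hY : Y ∈ TT) : Eqv X Y := by
  obtain ⟨g, n, hg, rfl⟩ := hX
  obtain ⟨h, m, hh, rfl⟩ := hY
  exact (eqv_one hg n).symm.trans (eqv_one hh m)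

/-! ### a singular point -/

lemma tile_inj {n m : ℤ} (h : tile one n = tile one m) : n = m := by
  have key : ∀ n m : ℤ, tile one n = tile one m → Bn m ≤ Bn n := by
    intro n m h
    have hw : (⟨1/2, Bn n⟩ : ℂ) ∈ tn n := by
      rw [mem_tn]
      exact ⟨by norm_num, by norm_num, le_refl _, (Bn_strictMono (by omega : n < n+1)).le⟩
    have h1 : psi.symm ⟨1/2, Bn n⟩ ∈ tile one n := by
      show act one (psi (psi.symm ⟨1/2, Bn n⟩)) ∈ tn n
      rw [act_one, psi_right (tn_Q hw).1]; exact hw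
    rw [h] at h1
    have h2 : act one (psi (psi.symm ⟨1/2, Bn n⟩)) ∈ tn m := h1
    rw [act_one, psi_right (tn_Q hw).1, mem_tn] at h2
    exact h2.2.2.1
  exact Bn_strictMono.injective (le_antisymm (key m n h.symm) (key n m h))

lemma Bn_tendsto : Filter.Tendsto (fun k : ℕ => Bn (k:ℤ)) Filter.atTop (𝓝 1) := by
  have h1 : Filter.Tendsto (fun k : ℕ => 1 - (1/2:ℝ)^k) Filter.atTop (𝓝 1) := by
    have := tendsto_pow_atTop_nhds_zero_of_lt_one (r := (1/2:ℝ)) (by norm_num) (by norm_num)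
    simpa using this.const_sub 1
  apply tendsto_of_tendsto_of_tendsto_of_le_of_le h1 tendsto_const_nhds
  · intro k
    show 1 - (1/2:ℝ)^k ≤ Bn (k:ℤ)
    unfold Bn
    rw [zpow_natCast, le_div_iff₀ (by positivity)]
    have h2 : (1/2:ℝ)^k * 2^k = 1 := by rw [← mul_pow]; norm_num
    have h3 : (0:ℝ) < (1/2:ℝ)^k := by positivity
    nlinarith
  · intro k; exact (Bn_lt_one _).le

lemma singular : ∃ x : ℂ, ∀ r > 0, {X | X ∈ TT ∧ (X ∩ ball x r).Nonempty}.Infinite := by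
  have hq : (⟨1/2, 1⟩ : ℂ) ∈ Dk := by show (0:ℝ) < 1/2*(1-1/2) + 1*(1-1); norm_num
  refine ⟨psi.symm ⟨1/2, 1⟩, ?_⟩
  intro r hr
  have hopen : IsOpen Dk := by rw [Dk_eq]; exact isOpen_ball
  have hc : ContinuousAt psi.symm (⟨1/2, 1⟩ : ℂ) := psi_symm_cont.continuousAt (hopen.mem_nhds hq)
  have ht : Filter.Tendsto (fun k : ℕ => (⟨1/2, Bn (k:ℤ)⟩ : ℂ)) Filter.atTop (𝓝 ⟨1/2, 1⟩) := by
    have e : (fun k : ℕ => (⟨1/2, Bn (k:ℤ)⟩ : ℂ)) =
        fun k : ℕ => ((1/2:ℝ):ℂ) + ((Bn (k:ℤ) : ℝ) : ℂ) * Complex.I := by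
      funext k; apply Complex.ext <;> simp
    have e' : (⟨1/2, 1⟩ : ℂ) = ((1/2:ℝ):ℂ) + ((1 : ℝ) : ℂ) * Complex.I := by
      apply Complex.ext <;> simp
    rw [e, e']
    apply Filter.Tendsto.const_add
    apply Filter.Tendsto.mul_const
    exact (Complex.continuous_ofReal.tendsto _).comp Bn_tendsto
  have ht2 := (hc.tendsto.comp ht).eventually (ball_mem_nhds _ hr)
  obtain ⟨N, hN⟩ := Filter.eventually_atTop.1 ht2
  have hinj : Function.Injective (fun k : ℕ => tile one ((N + k : ℕ):ℤ)) := by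
    intro a b hab
    have := tile_inj hab
    omega
  apply Set.infinite_of_injective_forall_mem hinj
  intro k
  refine ⟨⟨one, _, Gam_one, rfl⟩, psi.symm ⟨1/2, Bn ((N+k:ℕ):ℤ)⟩, ?_, hN (N+k) (by omega)⟩
  have hw : (⟨1/2, Bn ((N+k:ℕ):ℤ)⟩ : ℂ) ∈ tn ((N+k:ℕ):ℤ) := by
    rw [mem_tn]
    exact ⟨by norm_num, by norm_num, le_refl _, (Bn_strictMono (by omega)).le⟩
  show act one (psi (psi.symm ⟨1/2, Bn ((N+k:ℕ):ℤ)⟩)) ∈ tn ((N+k:ℕ):ℤ)
  rw [act_one, psi_right (tn_Q hw).1]; exact hw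

end Pool.Agent.R174.Hom
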