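import Mathlib

/-!
# Distinguishing extension number of the plane under all isometries, part A

The functional `LL`: for a permutation `θ` of the plane which preserves the colour class `A` up
to finitely many points, the increments `c ∘ θ - c` of the indicator `c` of `A ∪ S` have finite
support and can be integrated against arbitrary functions.
-/

namespace Pool.Agent.R174.Pl

open ComplexConjugate

/-- `A` is preserved by `θ` up to finitely many points. -/
def FinInv (A : Set ℂ) (θ : Equiv.Perm ℂ) : Prop := {z | ¬ (θ z ∈ A ↔ z ∈ A)}.Finite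

/-- `A ∪ S` is preserved by `g`. -/
def Pres (A : Set ℂ) (S : Finset ℂ) (g : Equiv.Perm ℂ) : Prop :=
  ∀ z, (g z ∈ A ∨ g z ∈ S) ↔ (z ∈ A ∨ z ∈ S)

open Classical in
/-- indicator of `A ∪ S` -/
noncomputable def ind (A : Set ℂ) (S : Finset ℂ) (z : ℂ) : ℂ := if z ∈ A ∨ z ∈ S then 1 else 0

lemma ind_mem {A : Set ℂ} {S : Finset ℂ} {z : ℂ} (h : z ∈ A ∨ z ∈ S) : ind A S z = 1 := if_pos h

lemma ind_not_mem {A : Set ℂ} {S : Finset ℂ} {z : ℂ} (h : ¬ (z ∈ A ∨ z ∈ S)) : ind A S z = 0 :=
  if_neg h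

lemma ind_congr {A : Set ℂ} {S : Finset ℂ} {z w : ℂ} (h : (z ∈ A ∨ z ∈ S) ↔ (w ∈ A ∨ w ∈ S)) :
    ind A S z = ind A S w := by
  by_cases hz : z ∈ A ∨ z ∈ S
  · rw [ind_mem hz, ind_mem (h.1 hz)]
  · rw [ind_not_mem hz, ind_not_mem (fun hw => hz (h.2 hw))]

/-- increment of the indicator along `θ` -/
noncomputable def dif (θ : Equiv.Perm ℂ) (A : Set ℂ) (S : Finset ℂ) (z : ℂ) : ℂ :=
  ind A S (θ z) - ind A S z

/-- the functional -/
noncomputable def LL (θ : Equiv.Perm ℂ) (A : Set ℂ) (S : Finset ℂ) (P : ℂ → ℂ) : ℂ :=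
  ∑ᶠ z, P z * dif θ A S z

lemma dif_finite {θ : Equiv.Perm ℂ} {A : Set ℂ} (hθ : FinInv A θ) (S : Finset ℂ) :
    (dif θ A S).support.Finite := by
  refine ((hθ.union S.finite_toSet).union (S.finite_toSet.preimage (f := θ)
    θ.injective.injOn)).subset ?_
  intro z hz
  by_contra hc
  apply hz
  have h1 : θ z ∈ A ↔ z ∈ A := by
    by_contra h; exact hc (Or.inl (Or.inl h))
  have h2 : z ∉ S := fun h => hc (Or.inl (Or.inr h))
  have h3 : θ z ∉ S := fun h => hc (Or.inr h)
  unfold dif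
  rw [ind_congr (z := θ z) (w := z) (by tauto), sub_self]

lemma mul_supp {f : ℂ → ℂ} (hf : f.support.Finite) (P : ℂ → ℂ) :
    (Function.support fun z => P z * f z).Finite :=
  hf.subset fun z hz h0 => hz (by simp [h0])

lemma LL_add {θ : Equiv.Perm ℂ} {A : Set ℂ} (hθ : FinInv A θ) (S : Finset ℂ) (P Q : ℂ → ℂ) :
    LL θ A S (fun z => P z + Q z) = LL θ A S P + LL θ A S Q := by
  unfold LL
  rw [← finsum_add_distrib (mul_supp (dif_finite hθ S) P) (mul_supp (dif_finite hθ S) Q)]
  refine finsum_congr fun z => ?_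
  ring

lemma LL_smul {θ : Equiv.Perm ℂ} {A : Set ℂ} (hθ : FinInv A θ) (S : Finset ℂ) (a : ℂ)
    (P : ℂ → ℂ) : LL θ A S (fun z => a * P z) = a * LL θ A S P := by
  unfold LL
  rw [mul_finsum' _ _ (mul_supp (dif_finite hθ S) P)]
  refine finsum_congr fun z => ?_
  ring

lemma LL_conj {θ : Equiv.Perm ℂ} {A : Set ℂ} (hθ : FinInv A θ) (S : Finset ℂ) (P : ℂ → ℂ) :
    LL θ A S (fun z => conj (P z)) = conj (LL θ A S P) := by
  unfold LL
  have h := (starRingEnd ℂ).toAddMonoidHom.map_finsum (mul_supp (dif_finite hθ S) P)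
  have h' : conj (∑ᶠ z, P z * dif θ A S z) = ∑ᶠ z, conj (P z * dif θ A S z) := h
  rw [h']
  refine finsum_congr fun z => ?_
  rw [map_mul]
  congr 1
  unfold dif ind
  rw [map_sub]
  congr 1 <;> split_ifs <;> simp

lemma LL_comm {θ g : Equiv.Perm ℂ} {A : Set ℂ} {S : Finset ℂ} (hg : Pres A S g)
    (hc : ∀ z, θ (g z) = g (θ z)) (P : ℂ → ℂ) :
    LL θ A S P = LL θ A S (fun z => P (g z)) := by
  unfold LL
  rw [← finsum_comp_equiv g]
  refine finsum_congr fun z => ?_
  congr 1
  have hi : ∀ z, ind A S (g z) = ind A S z := by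
    intro z; exact ind_congr (hg z)
  unfold dif
  rw [hc, hi, hi]

lemma LL_anti {θ g : Equiv.Perm ℂ} {A : Set ℂ} {S : Finset ℂ} (hg : Pres A S g)
    (hc : ∀ z, θ (g (θ z)) = g z) (P : ℂ → ℂ) :
    LL θ A S P = - LL θ A S (fun z => P (g (θ z))) := by
  unfold LL
  rw [← finsum_comp_equiv (θ.trans g), ← finsum_neg_distrib]
  refine finsum_congr fun z => ?_
  have hi : ∀ z, ind A S (g z) = ind A S z := by
    intro z; exact ind_congr (hg z)
  have e : dif θ A S ((θ.trans g) z) = - dif θ A S z := by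
    unfold dif
    rw [Equiv.trans_apply, hc, hi, hi]
    ring
  rw [e, Equiv.trans_apply]
  ring

lemma LL_toggle {θ : Equiv.Perm ℂ} {A : Set ℂ} (hθ : FinInv A θ) (S : Finset ℂ)
    (hS : ∀ w ∈ S, w ∉ A) (P : ℂ → ℂ) :
    LL θ A S P = LL θ A ∅ P + ∑ w ∈ S, (P (θ.symm w) - P w) := by
  classical
  set iS : ℂ → ℂ := fun z => if z ∈ S then (1 : ℂ) else 0 with hiS
  have h1 : (Function.support fun z : ℂ => P z * dif θ A ∅ z).Finite :=
    mul_supp (dif_finite hθ ∅) P
  have h2 : (Function.support fun z : ℂ => P z * iS (θ z)).Finite := by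
    refine (S.finite_toSet.preimage (f := θ) θ.injective.injOn).subset ?_
    intro z hz
    by_contra h
    apply hz
    have : θ z ∉ S := h
    simp [hiS, this]
  have h3 : (Function.support fun z : ℂ => P z * iS z).Finite := by
    refine S.finite_toSet.subset ?_
    intro z hz
    by_contra h
    apply hz
    have : z ∉ S := h
    simp [hiS, this]
  have hind : ∀ z, ind A S z = ind A ∅ z + iS z := by
    intro z
    by_cases h1 : z ∈ S
    · have h2 := hS z h1
      rw [ind_mem (Or.inr h1), ind_not_mem (by simp [h2])]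
      simp [hiS, h1]
    · by_cases h2 : z ∈ A
      · rw [ind_mem (Or.inl h2), ind_mem (Or.inl h2)]
        simp [hiS, h1]
      · rw [ind_not_mem (by simp [h1, h2]), ind_not_mem (by simp [h2])]
        simp [hiS, h1]
  have e : ∀ z : ℂ, P z * dif θ A S z
      = P z * dif θ A ∅ z + (P z * iS (θ z) - P z * iS z) := by
    intro z
    unfold dif
    rw [hind, hind]
    ring
  unfold LL
  rw [finsum_congr e, finsum_add_distrib h1 ((h2.union h3).subset (Function.support_sub _ _)),
    finsum_sub_distrib h2 h3, Finset.sum_sub_distrib]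
  have s1 : ∀ G : ℂ → ℂ, ∑ᶠ z, G z * iS z = ∑ z ∈ S, G z := by
    intro G
    rw [finsum_eq_sum_of_support_subset (s := S)]
    · refine Finset.sum_congr rfl fun z hz => ?_
      simp [hiS, hz]
    · intro z hz
      by_contra h
      apply hz
      have : z ∉ S := h
      simp [hiS, this]
  have s2 := finsum_comp_equiv θ (f := fun y : ℂ => P (θ.symm y) * iS y)
  simp only [Equiv.symm_apply_apply] at s2
  rw [s2, s1, s1]

end Pool.Agent.R174.Pl
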