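import Pool.Agent.R174.PlA

/-!
# Distinguishing extension number of the plane under all isometries, part B

Moment relations for colourings almost preserved by a rotation, and the fixed centre lemma.
-/

namespace Pool.Agent.R174.Pl

open ComplexConjugate

lemma unit_mul_conj {u : ℂ} (hu : ‖u‖ = 1) : u * conj u = 1 := by
  rw [Complex.mul_conj, Complex.normSq_eq_norm_sq, hu]; simp

lemma unit_ne_zero {u : ℂ} (hu : ‖u‖ = 1) : u ≠ 0 := by
  intro h0; simp [h0] at hu

lemma rot_rel (A : Set ℂ) (O l : ℂ) (hl : ‖l‖ = 1) (hl1 : l ≠ 1) (hl2 : l ^ 2 ≠ 1)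
    (θ : Equiv.Perm ℂ) (hθf : ∀ z, θ z = O + l * (z - O)) (hθ : FinInv A θ) :
    ∃ q1 q2 q3 : ℂ, ∀ S : Finset ℂ, (∀ w ∈ S, w ∉ A) → ∀ g : Equiv.Perm ℂ, Pres A S g →
      ∀ k : ℂ, ‖k‖ = 1 →
      ((k ≠ 1 → (∀ z, g z = O + k * (z - O)) →
        (q1 + ∑ w ∈ S, (w - O) = 0 ∧ q3 + ∑ w ∈ S, (w - O) ^ 2 * conj (w - O) = 0)) ∧
       ((∀ z, g z = O + k * conj (z - O)) →
        (q1 + ∑ w ∈ S, (w - O) = k * conj (q1 + ∑ w ∈ S, (w - O)) ∧
         q3 + ∑ w ∈ S, (w - O) ^ 2 * conj (w - O)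
          = k * conj (q3 + ∑ w ∈ S, (w - O) ^ 2 * conj (w - O)) ∧
         q2 + ∑ w ∈ S, (w - O) ^ 2 = k ^ 2 * conj (q2 + ∑ w ∈ S, (w - O) ^ 2)))) := by
  have hll := unit_mul_conj hl
  have c1 : conj l - 1 ≠ 0 := by
    intro h
    apply hl1
    have h2 : conj l = 1 := by linear_combination h
    rw [h2] at hll
    linear_combination hll
  have c2 : conj l ^ 2 - 1 ≠ 0 := by
    intro h
    apply hl2
    linear_combination (-l ^ 2) * h + (l * conj l + 1) * hll
  have hsymm : ∀ w, θ.symm w = O + conj l * (w - O) := by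
    intro w
    rw [Equiv.symm_apply_eq, hθf]
    linear_combination (O - w) * hll
  set P1 : ℂ → ℂ := fun z => z - O with hP1
  set P2 : ℂ → ℂ := fun z => (z - O) ^ 2 with hP2
  set P3 : ℂ → ℂ := fun z => (z - O) ^ 2 * conj (z - O) with hP3
  refine ⟨LL θ A ∅ P1 / (conj l - 1), LL θ A ∅ P2 / (conj l ^ 2 - 1),
    LL θ A ∅ P3 / (conj l - 1), ?_⟩
  intro S hS g hg k hk
  have hkk := unit_mul_conj hk
  have t1 : LL θ A S P1 = (conj l - 1) * (LL θ A ∅ P1 / (conj l - 1) + ∑ w ∈ S, (w - O)) := by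
    rw [LL_toggle hθ S hS, mul_add, mul_div_cancel₀ _ c1, Finset.mul_sum]
    congr 1
    refine Finset.sum_congr rfl fun w _ => ?_
    rw [hsymm]
    simp only [hP1]
    ring
  have t2 : LL θ A S P2
      = (conj l ^ 2 - 1) * (LL θ A ∅ P2 / (conj l ^ 2 - 1) + ∑ w ∈ S, (w - O) ^ 2) := by
    rw [LL_toggle hθ S hS, mul_add, mul_div_cancel₀ _ c2, Finset.mul_sum]
    congr 1
    refine Finset.sum_congr rfl fun w _ => ?_
    rw [hsymm]
    simp only [hP2]
    ring
  have t3 : LL θ A S P3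
      = (conj l - 1) * (LL θ A ∅ P3 / (conj l - 1) + ∑ w ∈ S, (w - O) ^ 2 * conj (w - O)) := by
    rw [LL_toggle hθ S hS, mul_add, mul_div_cancel₀ _ c1, Finset.mul_sum]
    congr 1
    refine Finset.sum_congr rfl fun w _ => ?_
    rw [hsymm]
    simp only [hP3, add_sub_cancel_left, map_mul, Complex.conj_conj]
    linear_combination (conj l * (w - O) ^ 2 * conj (w - O)) * hll
  set Q1 := LL θ A ∅ P1 / (conj l - 1) + ∑ w ∈ S, (w - O) with hQ1
  set Q2 := LL θ A ∅ P2 / (conj l ^ 2 - 1) + ∑ w ∈ S, (w - O) ^ 2 with hQ2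
  set Q3 := LL θ A ∅ P3 / (conj l - 1) + ∑ w ∈ S, (w - O) ^ 2 * conj (w - O) with hQ3
  constructor
  · intro hk1 hgf
    have hc : ∀ z, θ (g z) = g (θ z) := by
      intro z; rw [hgf, hθf, hgf, hθf]; ring
    have e1 := LL_comm hg hc P1
    have e3 := LL_comm hg hc P3
    have f1 : (fun z => P1 (g z)) = fun z => k * P1 z := by
      funext z; rw [hgf]; simp only [hP1]; ring
    have f3 : (fun z => P3 (g z)) = fun z => k * P3 z := by
      funext z; rw [hgf]; simp only [hP3, add_sub_cancel_left, map_mul]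
      linear_combination (k * (z - O) ^ 2 * conj (z - O)) * hkk
    rw [f1, LL_smul hθ] at e1
    rw [f3, LL_smul hθ] at e3
    have g1 : LL θ A S P1 = 0 := by
      have : (k - 1) * LL θ A S P1 = 0 := by linear_combination -e1
      exact (mul_eq_zero.1 this).resolve_left (sub_ne_zero.2 hk1)
    have g3 : LL θ A S P3 = 0 := by
      have : (k - 1) * LL θ A S P3 = 0 := by linear_combination -e3
      exact (mul_eq_zero.1 this).resolve_left (sub_ne_zero.2 hk1)
    rw [g1] at t1
    rw [g3] at t3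
    exact ⟨(mul_eq_zero.1 t1.symm).resolve_left c1, (mul_eq_zero.1 t3.symm).resolve_left c1⟩
  · intro hgf
    have hc : ∀ z, θ (g (θ z)) = g z := by
      intro z; rw [hgf z, hθf z, hgf, hθf]
      simp only [add_sub_cancel_left, map_mul]
      linear_combination (k * conj (z - O)) * hll
    have e1 := LL_anti hg hc P1
    have e2 := LL_anti hg hc P2
    have e3 := LL_anti hg hc P3
    have f1 : (fun z => P1 (g (θ z))) = fun z => (k * conj l) * conj (P1 z) := by
      funext z; rw [hgf, hθf]; simp only [hP1, add_sub_cancel_left, map_mul]; ring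
    have f2 : (fun z => P2 (g (θ z))) = fun z => (k * conj l) ^ 2 * conj (P2 z) := by
      funext z; rw [hgf, hθf]; simp only [hP2, add_sub_cancel_left, map_mul, map_pow]; ring
    have f3 : (fun z => P3 (g (θ z))) = fun z => (k * conj l) * conj (P3 z) := by
      funext z; rw [hgf, hθf]
      simp only [hP3, add_sub_cancel_left, map_mul, map_pow, Complex.conj_conj]
      linear_combination (k * conj l * conj (z - O) ^ 2 * (z - O)) * (k * conj k) * hll
        + (k * conj l * conj (z - O) ^ 2 * (z - O)) * hkk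
    rw [f1, LL_smul hθ, LL_conj hθ] at e1
    rw [f2, LL_smul hθ, LL_conj hθ] at e2
    rw [f3, LL_smul hθ, LL_conj hθ] at e3
    rw [t1, map_mul, map_sub, map_one, Complex.conj_conj] at e1
    rw [t2, map_mul, map_sub, map_one, map_pow, Complex.conj_conj] at e2
    rw [t3, map_mul, map_sub, map_one, Complex.conj_conj] at e3
    refine ⟨?_, ?_, ?_⟩
    · apply mul_left_cancel₀ c1
      linear_combination e1 - (k * conj Q1) * hll
    · apply mul_left_cancel₀ c1
      linear_combination e3 - (k * conj Q3) * hll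
    · apply mul_left_cancel₀ c2
      linear_combination e2 - (k ^ 2 * conj Q2 * (l * conj l + 1)) * hll

end Pool.Agent.R174.Pl
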