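import Pool.Agent.R174.PlB

/-!
# Distinguishing extension number of the plane under all isometries, part C

The fixed centre lemma.
-/

namespace Pool.Agent.R174.Pl

open ComplexConjugate

lemma iso_of_im (a b c r : ℂ) (hr : r ≠ 0) (ha : a * conj a = r) (hb : b * conj b = r)
    (hc : c * conj c = r)
    (h : a ^ 2 * conj b * conj c + b ^ 2 * conj a * conj c + c ^ 2 * conj a * conj b
      = conj a ^ 2 * b * c + conj b ^ 2 * a * c + conj c ^ 2 * a * b) :
    a ^ 2 = b * c ∨ b ^ 2 = c * a ∨ c ^ 2 = a * b := by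
  have e : r ^ 2 * ((a ^ 2 - b * c) * (b ^ 2 - c * a) * (c ^ 2 - a * b)) = 0 := by
    have l1 : (a ^ 2 * conj b * conj c + b ^ 2 * conj a * conj c + c ^ 2 * conj a * conj b)
        * (a ^ 2 * b ^ 2 * c ^ 2) = r ^ 2 * (a ^ 4 * b * c + b ^ 4 * a * c + c ^ 4 * a * b) := by
      have x1 : (b * conj b) * (c * conj c) = r ^ 2 := by rw [hb, hc]; ring
      have x2 : (a * conj a) * (c * conj c) = r ^ 2 := by rw [ha, hc]; ring
      have x3 : (a * conj a) * (b * conj b) = r ^ 2 := by rw [ha, hb]; ring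
      linear_combination (a ^ 4 * b * c) * x1 + (b ^ 4 * a * c) * x2 + (c ^ 4 * a * b) * x3
    have l2 : (conj a ^ 2 * b * c + conj b ^ 2 * a * c + conj c ^ 2 * a * b)
        * (a ^ 2 * b ^ 2 * c ^ 2)
        = r ^ 2 * (b ^ 3 * c ^ 3 + a ^ 3 * c ^ 3 + a ^ 3 * b ^ 3) := by
      have x1 : (a * conj a) ^ 2 = r ^ 2 := by rw [ha]
      have x2 : (b * conj b) ^ 2 = r ^ 2 := by rw [hb]
      have x3 : (c * conj c) ^ 2 = r ^ 2 := by rw [hc]
      linear_combination (b ^ 3 * c ^ 3) * x1 + (a ^ 3 * c ^ 3) * x2 + (a ^ 3 * b ^ 3) * x3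
    have l3 : (a ^ 2 * conj b * conj c + b ^ 2 * conj a * conj c + c ^ 2 * conj a * conj b)
        * (a ^ 2 * b ^ 2 * c ^ 2)
        = (conj a ^ 2 * b * c + conj b ^ 2 * a * c + conj c ^ 2 * a * b)
        * (a ^ 2 * b ^ 2 * c ^ 2) := by rw [h]
    rw [l1, l2] at l3
    linear_combination l3
  have e' := (mul_eq_zero.1 e).resolve_left (pow_ne_zero _ hr)
  rcases mul_eq_zero.1 e' with e1 | e1
  · rcases mul_eq_zero.1 e1 with e2 | e2
    · left; linear_combination e2
    · right; left; linear_combination e2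
  · right; right; linear_combination e1

lemma no_six (X : Finset ℂ) (hX : 6 ≤ X.card) (h0 : ∀ x ∈ X, x ≠ 0)
    (h : ∀ a ∈ X, ∀ b ∈ X, ∀ c ∈ X, a ≠ b → a ≠ c → b ≠ c →
      a ^ 2 = b * c ∨ b ^ 2 = c * a ∨ c ^ 2 = a * b) : False := by
  classical
  obtain ⟨b, hb, c, hc, hbc⟩ := Finset.one_lt_card.1 (show 1 < X.card by omega)
  set Y := (X.erase b).erase c with hY
  have hYc : 4 ≤ Y.card := by
    have h1 := Finset.pred_card_le_card_erase (s := X) (a := b)
    have h2 := Finset.pred_card_le_card_erase (s := X.erase b) (a := c)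
    rw [hY]
    omega
  have hYm : ∀ a, a ∈ Y ↔ a ≠ c ∧ a ≠ b ∧ a ∈ X := by
    intro a; rw [hY, Finset.mem_erase, Finset.mem_erase]
  have hb0 := h0 b hb
  have hc0 := h0 c hc
  have key : ∀ a ∈ Y, a ^ 2 = b * c ∨ a = b ^ 2 / c ∨ a = c ^ 2 / b := by
    intro a ha
    obtain ⟨h1, h2, h3⟩ := (hYm a).1 ha
    rcases h a h3 b hb c hc h2 h1 hbc with h4 | h4 | h4
    · exact Or.inl h4
    · right; left; rw [h4]; field_simp
    · right; right; rw [h4]; field_simp
  have f2 : (Y.filter fun a => ¬ a ^ 2 = b * c).card ≤ 2 := by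
    refine (Finset.card_le_card (t := {b ^ 2 / c, c ^ 2 / b}) ?_).trans Finset.card_le_two
    intro a ha
    rw [Finset.mem_filter] at ha
    rcases key a ha.1 with h1 | h1 | h1
    · exact absurd h1 ha.2
    · simp [h1]
    · simp [h1]
  have hsum := Finset.card_filter_add_card_filter_not (s := Y) (fun a => a ^ 2 = b * c)
  have f1 : 1 < (Y.filter fun a => a ^ 2 = b * c).card := by omega
  obtain ⟨m, hm, m', hm', hmm⟩ := Finset.one_lt_card.1 f1
  rw [Finset.mem_filter] at hm hm'
  have hneg : m' = -m := by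
    have : (m - m') * (m + m') = 0 := by linear_combination hm.2 - hm'.2
    rcases mul_eq_zero.1 this with h1 | h1
    · exact absurd (by linear_combination h1) hmm
    · linear_combination h1
  have f3 : (Y.filter fun a => a ^ 2 = b * c).card ≤ 2 := by
    refine (Finset.card_le_card (t := {m, -m}) ?_).trans Finset.card_le_two
    intro a ha
    rw [Finset.mem_filter] at ha
    have : (a - m) * (a + m) = 0 := by linear_combination ha.2 - hm.2
    rw [Finset.mem_insert, Finset.mem_singleton]
    rcases mul_eq_zero.1 this with h1 | h1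
    · left; linear_combination h1
    · right; linear_combination h1
  obtain ⟨m1, m2, m3⟩ := (hYm m).1 hm.1
  obtain ⟨n1, n2, n3⟩ := (hYm m').1 hm'.1
  have hcb : c = -b := by
    rcases h m m3 m' n3 b hb hmm m2 n2 with h1 | h1 | h1
    · exfalso
      apply n2
      rw [hneg] at h1
      have : m * (m + b) = 0 := by linear_combination h1
      rcases mul_eq_zero.1 this with h2 | h2
      · exact absurd h2 (h0 m m3)
      · rw [hneg]; linear_combination -h2
    · exfalso
      apply m2
      rw [hneg] at h1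
      have : m * (m - b) = 0 := by linear_combination h1
      rcases mul_eq_zero.1 this with h2 | h2
      · exact absurd h2 (h0 m m3)
      · linear_combination h2
    · rw [hneg] at h1
      have : b * (b + c) = 0 := by linear_combination h1 - hm.2
      rcases mul_eq_zero.1 this with h2 | h2
      · exact absurd h2 hb0
      · linear_combination h2
  have f4 : 0 < (Y.filter fun a => ¬ a ^ 2 = b * c).card := by omega
  obtain ⟨a, ha⟩ := Finset.card_pos.1 f4
  rw [Finset.mem_filter] at ha
  obtain ⟨a1, a2, a3⟩ := (hYm a).1 ha.1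
  rcases key a ha.1 with h1 | h1 | h1
  · exact ha.2 h1
  · apply a1
    rw [h1, hcb]; field_simp
  · apply a2
    rw [h1, hcb]; field_simp

/-- `g` fixes `O` and is a rotation `≠ 1` or a reflection -/
def FixC (O : ℂ) (g : Equiv.Perm ℂ) : Prop :=
  ∃ k : ℂ, ‖k‖ = 1 ∧ ((k ≠ 1 ∧ ∀ z, g z = O + k * (z - O)) ∨ ∀ z, g z = O + k * conj (z - O))

/-- Fixed centre lemma. -/
lemma fixed_centre (A : Set ℂ) (U : Finset ℂ) (hU : 7 ≤ U.card) (hUA : ∀ w ∈ U, w ∉ A)
    (O l : ℂ) (hl : ‖l‖ = 1) (hl1 : l ≠ 1) (hl2 : l ^ 2 ≠ 1)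
    (θ : Equiv.Perm ℂ) (hθf : ∀ z, θ z = O + l * (z - O)) (hθ : FinInv A θ)
    (h : ∀ S ⊆ U, ∃ g : Equiv.Perm ℂ, Pres A S g ∧ FixC O g) :
    ∃ k : ℂ, ‖k‖ = 1 ∧ (∀ w ∈ U, O + k * conj (w - O) = w) ∧
      ∀ z, (O + k * conj (z - O) ∈ A ↔ z ∈ A) := by
  classical
  obtain ⟨q1, q2, q3, hq⟩ := rot_rel A O l hl hl1 hl2 θ hθf hθ
  have hSA : ∀ S ⊆ U, ∀ w ∈ S, w ∉ A := fun S hS w hw => hUA w (hS hw)
  -- the two exact identities
  have E1 : ∀ S ⊆ U, (q3 + ∑ w ∈ S, (w - O) ^ 2 * conj (w - O)) * conj (q1 + ∑ w ∈ S, (w - O))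
      = conj (q3 + ∑ w ∈ S, (w - O) ^ 2 * conj (w - O)) * (q1 + ∑ w ∈ S, (w - O)) := by
    intro S hS
    obtain ⟨g, hg, k, hk, hgk⟩ := h S hS
    obtain ⟨r1, r2⟩ := hq S (hSA S hS) g hg k hk
    rcases hgk with ⟨hk1, hgk⟩ | hgk
    · obtain ⟨s1, s3⟩ := r1 hk1 hgk
      rw [s1, s3]; simp
    · obtain ⟨s1, s3, s2⟩ := r2 hgk
      linear_combination conj (q1 + ∑ w ∈ S, (w - O)) * s3
        - conj (q3 + ∑ w ∈ S, (w - O) ^ 2 * conj (w - O)) * s1
  have E2 : ∀ S ⊆ U, (q2 + ∑ w ∈ S, (w - O) ^ 2) * conj (q1 + ∑ w ∈ S, (w - O)) ^ 2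
      = conj (q2 + ∑ w ∈ S, (w - O) ^ 2) * (q1 + ∑ w ∈ S, (w - O)) ^ 2 := by
    intro S hS
    obtain ⟨g, hg, k, hk, hgk⟩ := h S hS
    obtain ⟨r1, r2⟩ := hq S (hSA S hS) g hg k hk
    rcases hgk with ⟨hk1, hgk⟩ | hgk
    · obtain ⟨s1, s3⟩ := r1 hk1 hgk
      rw [s1]; simp
    · obtain ⟨s1, s3, s2⟩ := r2 hgk
      linear_combination conj (q1 + ∑ w ∈ S, (w - O)) ^ 2 * s2
        - conj (q2 + ∑ w ∈ S, (w - O) ^ 2) * ((q1 + ∑ w ∈ S, (w - O))
          + k * conj (q1 + ∑ w ∈ S, (w - O))) * s1
  have M1 : ∀ w ∈ U, ∀ w' ∈ U, w ≠ w' →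
      ((w - O) * conj (w - O) - (w' - O) * conj (w' - O))
        * ((w - O) * conj (w' - O) - conj (w - O) * (w' - O)) = 0 := by
    intro w hw w' hw' hne
    have a0 := E1 ∅ (by simp)
    have a1 := E1 {w} (by simpa using hw)
    have a2 := E1 {w'} (by simpa using hw')
    have a3 := E1 {w, w'} (by
      intro x hx; simp only [Finset.mem_insert, Finset.mem_singleton] at hx
      rcases hx with rfl | rfl
      · exact hw
      · exact hw')
    rw [Finset.sum_pair hne, Finset.sum_pair hne] at a3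
    simp only [Finset.sum_empty, Finset.sum_singleton, add_zero, map_add, map_mul, map_pow,
      Complex.conj_conj] at a0 a1 a2 a3
    linear_combination a3 - a1 - a2 + a0
  have M2 : ∀ a ∈ U, ∀ b ∈ U, ∀ c ∈ U, a ≠ b → a ≠ c → b ≠ c →
      (a - O) ^ 2 * conj (b - O) * conj (c - O) + (b - O) ^ 2 * conj (a - O) * conj (c - O)
        + (c - O) ^ 2 * conj (a - O) * conj (b - O)
      = conj (a - O) ^ 2 * (b - O) * (c - O) + conj (b - O) ^ 2 * (a - O) * (c - O)
        + conj (c - O) ^ 2 * (a - O) * (b - O) := by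
    intro a ha b hb c hc hab hac hbc
    have sub2 : ∀ x ∈ U, ∀ y ∈ U, ({x, y} : Finset ℂ) ⊆ U := by
      intro x hx y hy z hz
      simp only [Finset.mem_insert, Finset.mem_singleton] at hz
      rcases hz with rfl | rfl
      · exact hx
      · exact hy
    have b0 := E2 ∅ (by simp)
    have b1 := E2 {a} (by simpa using ha)
    have b2 := E2 {b} (by simpa using hb)
    have b3 := E2 {c} (by simpa using hc)
    have b12 := E2 {a, b} (sub2 a ha b hb)
    have b13 := E2 {a, c} (sub2 a ha c hc)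
    have b23 := E2 {b, c} (sub2 b hb c hc)
    have b123 := E2 (insert a {b, c}) (Finset.insert_subset ha (sub2 b hb c hc))
    have hna : a ∉ ({b, c} : Finset ℂ) := by
      simp only [Finset.mem_insert, Finset.mem_singleton, not_or]; exact ⟨hab, hac⟩
    rw [Finset.sum_insert hna, Finset.sum_insert hna, Finset.sum_pair hbc,
      Finset.sum_pair hbc] at b123
    rw [Finset.sum_pair hab, Finset.sum_pair hab] at b12
    rw [Finset.sum_pair hac, Finset.sum_pair hac] at b13
    rw [Finset.sum_pair hbc, Finset.sum_pair hbc] at b23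
    simp only [Finset.sum_empty, Finset.sum_singleton, add_zero, map_add, map_pow]
      at b0 b1 b2 b3 b12 b13 b23 b123
    linear_combination (1 / 2) * (b123 - b12 - b13 - b23 + b1 + b2 + b3 - b0)
  -- a point different from O
  obtain ⟨w1, hw1⟩ := Finset.card_pos.1 (show 0 < (U.erase O).card by
    have := Finset.pred_card_le_card_erase (s := U) (a := O)
    omega)
  have hx1 : w1 - O ≠ 0 := sub_ne_zero.2 (Finset.ne_of_mem_erase hw1)
  have hw1U := Finset.mem_of_mem_erase hw1
  have cne : ∀ x : ℂ, x ≠ 0 → conj x ≠ 0 := fun x hx => (map_ne_zero _).2 hx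
  by_cases hcol : ∀ w ∈ U, (w - O) * conj (w1 - O) = conj (w - O) * (w1 - O)
  · -- collinear case
    set k : ℂ := (w1 - O) / conj (w1 - O) with hk
    have hkn : ‖k‖ = 1 := by
      rw [hk, norm_div, Complex.norm_conj, div_self (norm_ne_zero_iff.2 hx1)]
    have hkk := unit_mul_conj hkn
    have hkw : ∀ w ∈ U, w - O = k * conj (w - O) := by
      intro w hw
      have h1 := hcol w hw
      have h2 := cne _ hx1
      rw [hk]
      field_simp
      linear_combination h1
    -- linear relation
    have Lr : ∀ w ∈ U, w ≠ O → q3 - k * conj q3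
        = ((w - O) * conj (w - O)) * (q1 - k * conj q1) := by
      intro w hw hwO
      have a0 := E1 ∅ (by simp)
      have a1 := E1 {w} (by simpa using hw)
      simp only [Finset.sum_empty, Finset.sum_singleton, add_zero, map_add, map_mul, map_pow,
        Complex.conj_conj] at a0 a1
      have hx : w - O ≠ 0 := sub_ne_zero.2 hwO
      have h2 := hkw w hw
      set x := w - O with hxd
      apply mul_left_cancel₀ (cne _ hx)
      linear_combination a1 - a0 + (conj q3 - x * conj x * conj q1) * h2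
    have hq1 : q1 - k * conj q1 = 0 := by
      by_contra hne
      have hcard : 2 < (U.erase O).card := by
        have := Finset.pred_card_le_card_erase (s := U) (a := O)
        omega
      obtain ⟨a, ha, b, hb, c, hc, hab, hac, hbc⟩ := Finset.two_lt_card.1 hcard
      have eq : ∀ a ∈ U.erase O, ∀ b ∈ U.erase O, (a - O) ^ 2 = (b - O) ^ 2 := by
        intro a ha b hb
        have h1 := Lr a (Finset.mem_of_mem_erase ha) (Finset.ne_of_mem_erase ha)
        have h2 := Lr b (Finset.mem_of_mem_erase hb) (Finset.ne_of_mem_erase hb)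
        have h3 : (a - O) * conj (a - O) = (b - O) * conj (b - O) := by
          apply mul_right_cancel₀ hne
          rw [← h1, ← h2]
        have h4 := hkw a (Finset.mem_of_mem_erase ha)
        have h5 := hkw b (Finset.mem_of_mem_erase hb)
        linear_combination (a - O) * h4 - (b - O) * h5 + k * h3
      have e1 := sq_eq_sq_iff_eq_or_eq_neg.1 (eq a ha b hb)
      have e2 := sq_eq_sq_iff_eq_or_eq_neg.1 (eq a ha c hc)
      rcases e1 with e1 | e1
      · exact hab (sub_left_injective e1)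
      · rcases e2 with e2 | e2
        · exact hac (sub_left_injective e2)
        · exact hbc (by linear_combination e1 - e2)
    -- all first moments are on the line
    have hQ : ∀ S ⊆ U, q1 + ∑ w ∈ S, (w - O) = k * conj (q1 + ∑ w ∈ S, (w - O)) := by
      intro S hS
      rw [map_add, map_sum, mul_add, Finset.mul_sum,
        Finset.sum_congr rfl fun w hw => hkw w (hS hw)]
      have : q1 = k * conj q1 := by linear_combination hq1
      rw [← this]
    obtain ⟨S, hS, hSne⟩ : ∃ S ⊆ U, q1 + ∑ w ∈ S, (w - O) ≠ 0 := by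
      by_cases hq0 : q1 = 0
      · refine ⟨{w1}, by simpa using hw1U, ?_⟩
        rw [hq0, Finset.sum_singleton, zero_add]; exact hx1
      · exact ⟨∅, by simp, by simpa using hq0⟩
    obtain ⟨g, hg, k', hk', hgk⟩ := h S hS
    obtain ⟨r1, r2⟩ := hq S (hSA S hS) g hg k' hk'
    rcases hgk with ⟨hk1, hgk⟩ | hgk
    · exact absurd (r1 hk1 hgk).1 hSne
    · have hkk' : k' = k := by
        have h1 := (r2 hgk).1
        have h2 := hQ S hS
        apply mul_right_cancel₀ (cne _ hSne)
        rw [← h1, ← h2]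
      rw [hkk'] at hgk
      have hfix : ∀ w ∈ U, g w = w := by
        intro w hw
        rw [hgk, ← hkw w hw]; ring
      refine ⟨k, hkn, ?_, ?_⟩
      · intro w hw
        rw [← hkw w hw]; ring
      · intro z
        rw [← hgk]
        have h1 := hg z
        constructor
        · intro hz
          rcases h1.1 (Or.inl hz) with h2 | h2
          · exact h2
          · exfalso
            have h3 := hfix z (hS h2)
            rw [h3] at hz
            exact hUA z (hS h2) hz
        · intro hz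
          rcases h1.2 (Or.inl hz) with h2 | h2
          · exact h2
          · exfalso
            have h3 := hfix _ (hS h2)
            have h4 : g z = z := g.injective h3
            rw [h4] at h2
            exact hUA z (hS h2) hz
  · -- non-collinear case
    exfalso
    push Not at hcol
    obtain ⟨w2, hw2, hne2⟩ := hcol
    have hw21 : w2 ≠ w1 := by
      rintro rfl; exact hne2 (by ring)
    have hr : (w1 - O) * conj (w1 - O) = (w2 - O) * conj (w2 - O) := by
      rcases mul_eq_zero.1 (M1 w2 hw2 w1 hw1U hw21) with h1 | h1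
      · linear_combination -h1
      · exact absurd (by linear_combination h1) hne2
    set r := (w1 - O) * conj (w1 - O) with hrd
    have hr0 : r ≠ 0 := mul_ne_zero hx1 (cne _ hx1)
    have hall : ∀ w ∈ U, w ≠ O → (w - O) * conj (w - O) = r := by
      intro w hw hwO
      by_contra hne
      have hww1 : w ≠ w1 := by rintro rfl; exact hne rfl
      have hww2 : w ≠ w2 := by rintro rfl; exact hne hr.symm
      have h1 := (mul_eq_zero.1 (M1 w hw w1 hw1U hww1)).resolve_left (sub_ne_zero.2 hne)
      have h2 := (mul_eq_zero.1 (M1 w hw w2 hw2 hww2)).resolve_left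
        (by rw [← hr]; exact sub_ne_zero.2 hne)
      have hx : w - O ≠ 0 := sub_ne_zero.2 hwO
      apply hne2
      apply mul_left_cancel₀ hx
      linear_combination (w2 - O) * h1 - (w1 - O) * h2
    set X := (U.erase O).image fun w => w - O with hX
    have hXc : 6 ≤ X.card := by
      rw [hX, Finset.card_image_of_injective _ sub_left_injective]
      have := Finset.pred_card_le_card_erase (s := U) (a := O)
      omega
    have hXm : ∀ x ∈ X, ∃ w ∈ U, w ≠ O ∧ w - O = x := by
      intro x hx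
      rw [hX, Finset.mem_image] at hx
      obtain ⟨w, hw, rfl⟩ := hx
      exact ⟨w, Finset.mem_of_mem_erase hw, Finset.ne_of_mem_erase hw, rfl⟩
    refine no_six X hXc ?_ ?_
    · intro x hx
      obtain ⟨w, hw, hwO, rfl⟩ := hXm x hx
      exact sub_ne_zero.2 hwO
    · intro x hx y hy z hz hxy hxz hyz
      obtain ⟨a, ha, haO, rfl⟩ := hXm x hx
      obtain ⟨b, hb, hbO, rfl⟩ := hXm y hy
      obtain ⟨c, hc, hcO, rfl⟩ := hXm z hz
      exact iso_of_im _ _ _ r hr0 (hall a ha haO) (hall b hb hbO) (hall c hc hcO)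
        (M2 a ha b hb c hc (fun h => hxy (by rw [h])) (fun h => hxz (by rw [h]))
          (fun h => hyz (by rw [h])))

end Pool.Agent.R174.Pl
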