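import Pool.Agent.R174.PlC

/-!
# Distinguishing extension number of the plane under all isometries, part D

Finite colour classes: the smallest enclosing circle provides a fixed centre.
-/

namespace Pool.Agent.R174.Pl

open ComplexConjugate

/-- isometries of the plane -/
def IsIso (g : Equiv.Perm ℂ) : Prop :=
  ∃ u b : ℂ, ‖u‖ = 1 ∧ ((∀ z, g z = u * z + b) ∨ (∀ z, g z = u * conj z + b))

lemma iso_dist {g : Equiv.Perm ℂ} (hg : IsIso g) (x y : ℂ) : dist (g x) (g y) = dist x y := by
  obtain ⟨u, b, hu, h | h⟩ := hg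
  · rw [h, h, dist_eq_norm, dist_eq_norm]
    have : u * x + b - (u * y + b) = u * (x - y) := by ring
    rw [this, norm_mul, hu, one_mul]
  · rw [h, h, dist_eq_norm, dist_eq_norm]
    have : u * conj x + b - (u * conj y + b) = u * conj (x - y) := by rw [map_sub]; ring
    rw [this, norm_mul, hu, one_mul, Complex.norm_conj]

lemma fixC_of_iso {g : Equiv.Perm ℂ} (hg : IsIso g) (hg1 : g ≠ 1) {O : ℂ} (hO : g O = O) :
    FixC O g := by
  obtain ⟨u, b, hu, h | h⟩ := hg
  · refine ⟨u, hu, Or.inl ⟨?_, ?_⟩⟩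
    · intro hu1
      apply hg1
      rw [h, hu1] at hO
      have hb : b = 0 := by linear_combination hO
      ext z
      rw [h, hu1, hb]; simp
    · intro z
      rw [h] at hO ⊢
      linear_combination hO
  · refine ⟨u, hu, Or.inr ?_⟩
    intro z
    rw [h] at hO ⊢
    rw [map_sub]
    linear_combination hO

/-- smallest enclosing circle, with at most three supporting points -/
lemma enclosing (B : Finset ℂ) (hB : B.Nonempty) :
    ∃ (O : ℂ) (r : ℝ), (∀ z ∈ B, dist z O ≤ r) ∧
      ∃ T ⊆ B, T.card ≤ 3 ∧ ∀ x, ∃ t ∈ T, r ≤ dist t x := by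
  set f : ℂ → ℝ := fun x => B.sup' hB (fun z => dist z x) with hf
  have hfc : Continuous f := by
    apply Continuous.finset_sup'_apply
    intro z _
    exact continuous_const.dist continuous_id
  obtain ⟨z0, hz0⟩ := hB
  have hle : ∀ z ∈ B, ∀ x, dist z x ≤ f x := fun z hz x =>
    Finset.le_sup' (fun z => dist z x) hz
  have hf0 : 0 ≤ f z0 := by
    have := hle z0 hz0 z0
    rwa [dist_self] at this
  obtain ⟨O, hOK, hO⟩ := (isCompact_closedBall z0 (f z0)).exists_isMinOn
    ⟨z0, Metric.mem_closedBall_self hf0⟩ hfc.continuousOn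
  have hmin : ∀ x, f O ≤ f x := by
    intro x
    by_cases hx : x ∈ Metric.closedBall z0 (f z0)
    · exact hO hx
    · rw [Metric.mem_closedBall, not_le] at hx
      have h1 : f O ≤ f z0 := hO (Metric.mem_closedBall_self hf0)
      have h2 := hle z0 hz0 x
      rw [dist_comm] at h2
      linarith
  refine ⟨O, f O, fun z hz => hle z hz O, ?_⟩
  by_cases hc : B.card < 3
  · refine ⟨B, Finset.Subset.refl _, hc.le, fun x => ?_⟩
    obtain ⟨t, ht, hte⟩ := Finset.exists_mem_eq_sup' ⟨z0, hz0⟩ (fun z => dist z x)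
    refine ⟨t, ht, ?_⟩
    have := hmin x
    rw [← hte]
    exact this
  · push Not at hc
    by_contra hcon
    push Not at hcon
    have hh := Convex.helly_theorem (𝕜 := ℝ) (E := ℂ) (F := fun z => Metric.ball z (f O)) (s := B)
      (by rw [Complex.finrank_real_complex]; exact hc)
      (fun z _ => convex_ball z (f O))
      (by
        intro I hI hIc
        rw [Complex.finrank_real_complex] at hIc
        obtain ⟨x, hx⟩ := hcon I hI hIc.le
        refine ⟨x, ?_⟩
        simp only [Set.mem_iInter, Metric.mem_ball]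
        intro t ht
        rw [dist_comm]
        exact hx t ht)
    obtain ⟨x, hx⟩ := hh
    simp only [Set.mem_iInter, Metric.mem_ball] at hx
    have h1 : f x < f O := by
      refine (Finset.sup'_lt_iff (a := f O) ⟨z0, hz0⟩).2 ?_
      intro z hz
      have := hx z hz
      rw [dist_comm] at this
      exact this
    exact absurd (hmin x) (not_le.2 h1)

lemma centre_fixed {O : ℂ} {r : ℝ} {B T : Finset ℂ} (hB : ∀ z ∈ B, dist z O ≤ r) (hTB : T ⊆ B)
    (hT : ∀ x, ∃ t ∈ T, r ≤ dist t x) {g : Equiv.Perm ℂ} (hg : IsIso g)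
    (hinv : ∀ z, g z ∈ B ↔ z ∈ B) : g O = O := by
  by_contra hne
  obtain ⟨t, ht, htr⟩ := hT ((O + g O) / 2)
  have h1 : dist t O ≤ r := hB t (hTB ht)
  have h2 : dist t (g O) ≤ r := by
    have h3 : t = g (g.symm t) := by simp
    rw [h3, iso_dist hg]
    apply hB
    rw [← hinv]
    simpa using hTB ht
  have hp := parallelogram_law_with_norm ℝ (t - O) (t - g O)
  have e1 : t - O + (t - g O) = 2 * (t - (O + g O) / 2) := by ring
  have e2 : t - O - (t - g O) = g O - O := by ring
  rw [e1, e2, norm_mul] at hp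
  rw [dist_eq_norm] at h1 h2 htr
  have h4 : 0 < ‖g O - O‖ := norm_pos_iff.2 (sub_ne_zero.2 hne)
  have h5 : ‖(2 : ℂ)‖ = 2 := by simp
  rw [h5] at hp
  have h6 := norm_nonneg (t - O)
  have h7 := norm_nonneg (t - g O)
  nlinarith [mul_self_le_mul_self h6 h1, mul_self_le_mul_self h7 h2,
    mul_self_le_mul_self (h6.trans h1) htr, mul_pos h4 h4]

/-- rotation by a right angle about `O` -/
noncomputable def rotI (O : ℂ) : Equiv.Perm ℂ where
  toFun z := O + Complex.I * (z - O)
  invFun z := O - Complex.I * (z - O)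
  left_inv z := by linear_combination (O - z) * Complex.I_sq
  right_inv z := by linear_combination (O - z) * Complex.I_sq

lemma fin_one (F W : Finset ℂ) (hFW : ∀ w ∈ W, w ∉ F) (hW : 10 ≤ W.card)
    (h : ∀ S ⊆ W, ∃ g : Equiv.Perm ℂ, IsIso g ∧ g ≠ 1 ∧ ∀ z, g z ∈ F ∪ S ↔ z ∈ F ∪ S) :
    ∃ k b : ℂ, ‖k‖ = 1 ∧ (∀ z, k * conj z + b ∈ F ∪ W ↔ z ∈ F ∪ W) ∧
      (W.filter fun w => k * conj w + b ≠ w).card ≤ 3 := by
  classical
  have hne : (F ∪ W).Nonempty := by
    obtain ⟨w, hw⟩ := Finset.card_pos.1 (show 0 < W.card by omega)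
    exact ⟨w, Finset.mem_union_right _ hw⟩
  obtain ⟨O, r, hOr, T, hTB, hT3, hT⟩ := enclosing (F ∪ W) hne
  set U := W \ T with hU
  have hUc : 7 ≤ U.card := by
    have := Finset.le_card_sdiff T W
    rw [hU]; omega
  set A : Set ℂ := ↑(F ∪ (T ∩ W)) with hA
  have hAm : ∀ z, z ∈ A ↔ (z ∈ F ∨ (z ∈ T ∧ z ∈ W)) := by
    intro z; rw [hA, Finset.mem_coe, Finset.mem_union, Finset.mem_inter]
  have hUA : ∀ w ∈ U, w ∉ A := by
    intro w hw hwA
    rw [hU, Finset.mem_sdiff] at hw
    rcases (hAm w).1 hwA with h1 | h1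
    · exact hFW w hw.1 h1
    · exact hw.2 h1.1
  have hAfin : A.Finite := by rw [hA]; exact Finset.finite_toSet _
  have hθ : FinInv A (rotI O) := by
    refine (hAfin.union (hAfin.preimage (f := rotI O) (rotI O).injective.injOn)).subset ?_
    intro z hz
    by_contra hc
    apply hz
    have h1 : z ∉ A := fun h => hc (Or.inl h)
    have h2 : rotI O z ∉ A := fun h => hc (Or.inr h)
    exact ⟨fun h => absurd h h2, fun h => absurd h h1⟩
  obtain ⟨k, hk, hkU, hkA⟩ := fixed_centre A U hUc hUA O Complex.I (by simp)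
    (by
      intro h
      have := congrArg Complex.re h
      simp at this)
    (by
      rw [Complex.I_sq]
      intro h
      have := congrArg Complex.re h
      norm_num at this)
    (rotI O) (fun z => rfl) hθ (by
      intro S hS
      have hSW : (T ∩ W) ∪ S ⊆ W := by
        intro z hz
        rw [Finset.mem_union, Finset.mem_inter] at hz
        rcases hz with hz | hz
        · exact hz.2
        · exact (Finset.mem_sdiff.1 (hS hz)).1
      obtain ⟨g, hg, hg1, hgi⟩ := h _ hSW
      have hmem : ∀ z, z ∈ F ∪ ((T ∩ W) ∪ S) ↔ (z ∈ A ∨ z ∈ S) := by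
        intro z
        rw [Finset.mem_union, Finset.mem_union, Finset.mem_inter, hAm]
        tauto
      refine ⟨g, ?_, ?_⟩
      · intro z
        rw [← hmem, ← hmem]
        exact hgi z
      · apply fixC_of_iso hg hg1
        refine centre_fixed (B := F ∪ ((T ∩ W) ∪ S)) (r := r) ?_ ?_ hT hg hgi
        · intro z hz
          apply hOr
          rw [Finset.mem_union] at hz ⊢
          rcases hz with hz | hz
          · exact Or.inl hz
          · exact Or.inr (hSW hz)
        · intro t ht
          have h1 := hTB ht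
          rw [Finset.mem_union] at h1
          rw [Finset.mem_union, Finset.mem_union, Finset.mem_inter]
          tauto)
  refine ⟨k, O - k * conj O, hk, ?_, ?_⟩
  · intro z
    have e : k * conj z + (O - k * conj O) = O + k * conj (z - O) := by rw [map_sub]; ring
    rw [e]
    have hm : ∀ z, z ∈ F ∪ W ↔ (z ∈ A ∨ z ∈ U) := by
      intro z
      rw [hAm, hU, Finset.mem_union, Finset.mem_sdiff]
      tauto
    rw [hm, hm, hkA]
    have hkz : O + k * conj (z - O) ∈ U ↔ z ∈ U := by
      constructor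
      · intro h1
        have h2 := hkU _ h1
        have h3 : k * conj (O + k * conj (z - O) - O) = k * conj (z - O) := by
          linear_combination h2
        have h4 := mul_left_cancel₀ (unit_ne_zero hk) h3
        have h5 : O + k * conj (z - O) - O = z - O := by
          have := congrArg conj h4
          rwa [Complex.conj_conj, Complex.conj_conj] at this
        have h6 : O + k * conj (z - O) = z := by linear_combination h5
        rwa [h6] at h1
      · intro h1
        rw [hkU z h1]; exact h1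
    rw [hkz]
  · refine le_trans (Finset.card_le_card ?_) hT3
    intro w hw
    rw [Finset.mem_filter] at hw
    by_contra hwT
    apply hw.2
    have h1 := hkU w (Finset.mem_sdiff.2 ⟨hw.1, hwT⟩)
    rw [map_sub] at h1
    linear_combination h1

/-- `W` is not contained in the axis of a reflection -/
def NonCol (W : Finset ℂ) : Prop := ∀ k b : ℂ, ‖k‖ = 1 → ∃ w ∈ W, k * conj w + b ≠ w

lemma fin_lemma (F W : Finset ℂ) (hFW : ∀ w ∈ W, w ∉ F) (hW : 11 ≤ W.card) (hnc : NonCol W)
    (h : ∀ S ⊆ W, ∃ g : Equiv.Perm ℂ, IsIso g ∧ g ≠ 1 ∧ ∀ z, g z ∈ F ∪ S ↔ z ∈ F ∪ S) :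
    False := by
  classical
  obtain ⟨k, b, hk, hinv, hcard⟩ := fin_one F W hFW (by omega) h
  obtain ⟨p, hpW, hp⟩ := hnc k b hk
  obtain ⟨k', b', hk', hinv', hcard'⟩ := fin_one F (W.erase p)
    (fun w hw => hFW w (Finset.mem_of_mem_erase hw))
    (by rw [Finset.card_erase_of_mem hpW]; omega)
    (fun S hS => h S (hS.trans (Finset.erase_subset _ _)))
  -- common fixed points
  set V := ((W.erase p) \ (W.filter fun w => k * conj w + b ≠ w))
    \ ((W.erase p).filter fun w => k' * conj w + b' ≠ w) with hV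
  have hVc : 4 ≤ V.card := by
    have h1 := Finset.le_card_sdiff (W.filter fun w => k * conj w + b ≠ w) (W.erase p)
    have h2 := Finset.le_card_sdiff ((W.erase p).filter fun w => k' * conj w + b' ≠ w)
      ((W.erase p) \ (W.filter fun w => k * conj w + b ≠ w))
    rw [Finset.card_erase_of_mem hpW] at h1
    rw [hV]; omega
  have hVm : ∀ w ∈ V, k * conj w + b = w ∧ k' * conj w + b' = w := by
    intro w hw
    rw [hV, Finset.mem_sdiff, Finset.mem_sdiff, Finset.mem_filter, Finset.mem_filter] at hw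
    obtain ⟨⟨h1, h2⟩, h3⟩ := hw
    constructor
    · by_contra h4
      exact h2 ⟨Finset.mem_of_mem_erase h1, h4⟩
    · by_contra h4
      exact h3 ⟨h1, h4⟩
  obtain ⟨x, hx, y, hy, hxy⟩ := Finset.one_lt_card.1 (show 1 < V.card by omega)
  obtain ⟨x1, x2⟩ := hVm x hx
  obtain ⟨y1, y2⟩ := hVm y hy
  have hkk : k = k' := by
    have h1 : conj (x - y) ≠ 0 := (map_ne_zero _).2 (sub_ne_zero.2 hxy)
    apply mul_right_cancel₀ h1
    rw [map_sub]
    linear_combination x1 - y1 - x2 + y2
  have hbb : b = b' := by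
    rw [← hkk] at x2
    linear_combination x1 - x2
  subst hkk hbb
  have h1 : k * conj p + b ∈ F ∪ W := (hinv p).2 (Finset.mem_union_right _ hpW)
  have h2 : k * conj p + b ∈ F ∪ W.erase p := by
    rw [Finset.mem_union] at h1 ⊢
    rcases h1 with h1 | h1
    · exact Or.inl h1
    · exact Or.inr (Finset.mem_erase.2 ⟨hp, h1⟩)
  have h3 := (hinv' p).1 h2
  rw [Finset.mem_union] at h3
  rcases h3 with h3 | h3
  · exact hFW p hpW h3
  · exact (Finset.notMem_erase p W) h3

end Pool.Agent.R174.Pl
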