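import Pool.Agent.R174.PlD

/-!
# Distinguishing extension number of the plane under all isometries, part E

Translation invariant extensions, and colourings with two independent almost periods.
-/

namespace Pool.Agent.R174.Pl

open Filter ComplexConjugate

/-- `A` is invariant under translation by `x` up to finitely many points. -/
def TrFin (A : Set ℂ) (x : ℂ) : Prop := {z | ¬ (z + x ∈ A ↔ z ∈ A)}.Finite

/-- Reference form of the finite lemma. -/
lemma no_ref (A R : Set ℂ) (W : Finset ℂ) (hW : 11 ≤ W.card) (hnc : NonCol W)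
    (hA : ∀ w ∈ W, w ∉ A) (hfin : {z | ¬ (z ∈ A ↔ z ∈ R)}.Finite)
    (h : ∀ S ⊆ W, ∃ g : Equiv.Perm ℂ, IsIso g ∧ g ≠ 1 ∧
      ∀ z, (¬ ((g z ∈ A ∨ g z ∈ S) ↔ g z ∈ R)) ↔ (¬ ((z ∈ A ∨ z ∈ S) ↔ z ∈ R))) : False := by
  classical
  set F : Finset ℂ := hfin.toFinset \ W with hF
  have hmF : ∀ z, z ∈ F ↔ (¬ (z ∈ A ↔ z ∈ R)) ∧ z ∉ W := by
    intro z
    rw [hF, Finset.mem_sdiff, Set.Finite.mem_toFinset]
    rfl
  refine fin_lemma F W (fun w hw hwF => ((hmF w).1 hwF).2 hw) hW hnc ?_
  intro S hS
  obtain ⟨g, hg, hg1, hi⟩ := h (W.filter fun w => ¬ (w ∈ S ↔ w ∈ R)) (Finset.filter_subset _ _)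
  refine ⟨g, hg, hg1, ?_⟩
  have e : ∀ z, z ∈ F ∪ S ↔
      (¬ ((z ∈ A ∨ z ∈ (W.filter fun w => ¬ (w ∈ S ↔ w ∈ R))) ↔ z ∈ R)) := by
    intro z
    rw [Finset.mem_union, hmF, Finset.mem_filter]
    have h1 := hA z
    have h2 := @hS z
    by_cases a1 : z ∈ W <;> by_cases a2 : z ∈ S <;> by_cases a3 : z ∈ R <;>
      by_cases a4 : z ∈ A <;> simp_all
  intro z
  rw [e, e]
  exact hi z

/-- A finite set mapped into itself by a nontrivial translation is empty. -/
lemma finite_shift (K : Set ℂ) (hK : K.Finite) (v : ℂ) (hv : v ≠ 0) (h : ∀ z ∈ K, z + v ∈ K) :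
    K = ∅ := by
  by_contra hne
  obtain ⟨z, hz⟩ := Set.nonempty_iff_ne_empty.2 hne
  have hn : ∀ n : ℕ, z + n * v ∈ K := by
    intro n
    induction n with
    | zero => simpa using hz
    | succ n ih =>
      have := h _ ih
      have e : z + ((n + 1 : ℕ) : ℂ) * v = z + n * v + v := by push_cast; ring
      rw [e]; exact this
  have hinj : Function.Injective fun n : ℕ => z + n * v := by
    intro m n hmn
    have : (m : ℂ) * v = n * v := by
      have h1 : z + m * v = z + n * v := hmn
      linear_combination h1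
    exact_mod_cast mul_right_cancel₀ hv this
  exact Set.infinite_of_injective_forall_mem hinj hn hK

lemma iso_pull {g : Equiv.Perm ℂ} (hg : IsIso g) {b : ℂ} (hb : b ≠ 0) :
    ∃ x : ℂ, x ≠ 0 ∧ ∀ z, g (z + x) = g z + b := by
  obtain ⟨u, c, hu, h | h⟩ := hg
  · have hu0 := unit_ne_zero hu
    refine ⟨b / u, div_ne_zero hb hu0, fun z => ?_⟩
    rw [h, h]; field_simp; ring
  · have hu0 := unit_ne_zero hu
    refine ⟨conj (b / u), (map_ne_zero _).2 (div_ne_zero hb hu0), fun z => ?_⟩
    rw [h, h, map_add, Complex.conj_conj]; field_simp; ring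

lemma finInv_of_pres {A : Set ℂ} {S : Finset ℂ} {g : Equiv.Perm ℂ} (h : Pres A S g) :
    FinInv A g := by
  refine (S.finite_toSet.union
    (S.finite_toSet.preimage (f := g) g.injective.injOn)).subset ?_
  intro z hz
  by_contra hc
  apply hz
  have hc1 : z ∉ S := fun h => hc (Or.inl h)
  have hc2 : g z ∉ S := fun h => hc (Or.inr h)
  have := h z
  tauto

/-- pull-back of an almost period -/
lemma trFin_pull {A : Set ℂ} {g : Equiv.Perm ℂ} {x v : ℂ} (hx : ∀ z, g (z + x) = g z + v)
    (hg : FinInv A g) (hv : TrFin A v) : TrFin A x := by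
  unfold TrFin
  refine ((hg.union (hg.preimage (f := fun z => z + x)
    (fun a _ b _ h => add_left_injective x h))).union
    (hv.preimage (f := g) g.injective.injOn)).subset ?_
  intro z hz
  by_contra hc
  apply hz
  have h1 : g z ∈ A ↔ z ∈ A := by
    by_contra h; exact hc (Or.inl (Or.inl h))
  have h2 : g (z + x) ∈ A ↔ z + x ∈ A := by
    by_contra h; exact hc (Or.inl (Or.inr h))
  have h3 : g z + v ∈ A ↔ g z ∈ A := by
    by_contra h; exact hc (Or.inr h)
  rw [← h2, hx, h3, h1]

/-- Case 1: one of the extensions is invariant under a nontrivial translation. -/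
lemma case_translation (A : Set ℂ) (W : Finset ℂ) (hW : 11 ≤ W.card) (hnc : NonCol W)
    (hA : ∀ w ∈ W, w ∉ A)
    (g : Finset ℂ → Equiv.Perm ℂ) (hg : ∀ S ⊆ W, IsIso (g S) ∧ g S ≠ 1 ∧ Pres A S (g S))
    (S0 : Finset ℂ) (hS0 : S0 ⊆ W) (b0 : ℂ) (hb0ne : b0 ≠ 0)
    (hb0 : ∀ z, (z + b0 ∈ A ∨ z + b0 ∈ S0) ↔ (z ∈ A ∨ z ∈ S0)) : False := by
  classical
  set R : Set ℂ := {z | z ∈ A ∨ z ∈ S0} with hR
  have hRm : ∀ z, z ∈ R ↔ (z ∈ A ∨ z ∈ S0) := fun z => Iff.rfl
  have hRt : ∀ z, z + b0 ∈ R ↔ z ∈ R := hb0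
  refine no_ref A R W hW hnc hA ?_ ?_
  · refine S0.finite_toSet.subset fun z hz => ?_
    by_contra h
    apply hz
    rw [hRm]
    constructor
    · intro h1; exact Or.inl h1
    · rintro (h1 | h1)
      · exact h1
      · exact absurd h1 h
  · intro T hT
    by_cases hTS : T = S0
    · subst hTS
      obtain ⟨i1, i2, i3⟩ := hg T hT
      refine ⟨g T, i1, i2, ?_⟩
      intro z
      rw [hRm, hRm]
      tauto
    · obtain ⟨i1, i2, i3⟩ := hg T hT
      have hinj := (g T).injective
      set K : Set ℂ := {z | ¬ (g T z ∈ R ↔ z ∈ R)} with hK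
      have hKfin : K.Finite := by
        refine (W.finite_toSet.union
          (W.finite_toSet.preimage (f := g T) hinj.injOn)).subset ?_
        intro z hz
        by_contra hc
        apply hz
        have hc1 : z ∉ W := fun h => hc (Or.inl h)
        have hc2 : g T z ∉ W := fun h => hc (Or.inr h)
        have h1 := i3 z
        have t1 : z ∉ T := fun h => hc1 (hT h)
        have t2 : z ∉ S0 := fun h => hc1 (hS0 h)
        have t3 : g T z ∉ T := fun h => hc2 (hT h)
        have t4 : g T z ∉ S0 := fun h => hc2 (hS0 h)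
        rw [hRm, hRm]
        tauto
      obtain ⟨x, hx0, hux⟩ := iso_pull i1 hb0ne
      set K' : Set ℂ := {z | ¬ (z + b0 ∈ K ↔ z ∈ K)} with hK'
      have hK'fin : K'.Finite := by
        refine ((hKfin.preimage (f := fun z => z + b0)
          (fun a _ c _ h => add_left_injective b0 h)).union hKfin).subset ?_
        intro z hz
        by_contra hc
        apply hz
        have hc1 : z ∉ K := fun h => hc (Or.inr h)
        have hc2 : z + b0 ∉ K := fun h => hc (Or.inl h)
        exact ⟨fun h => absurd h hc2, fun h => absurd h hc1⟩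
      have hK'mem : ∀ z, z ∈ K' ↔ ¬ (g T (z + b0) ∈ R ↔ g T z ∈ R) := by
        intro z
        have h1 := hRt z
        show (¬ ((¬ (g T (z + b0) ∈ R ↔ z + b0 ∈ R))
          ↔ (¬ (g T z ∈ R ↔ z ∈ R)))) ↔ _
        tauto
      have hK'emp : K' = ∅ := by
        refine finite_shift K' hK'fin x hx0 ?_
        intro z hz
        rw [hK'mem] at hz ⊢
        have e1 : z + x + b0 = z + b0 + x := by ring
        rw [e1, hux, hux, hRt, hRt]
        exact hz
      have hKemp : K = ∅ := by
        refine finite_shift K hKfin b0 hb0ne ?_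
        intro z hz
        by_contra h
        have : z ∈ K' := fun hiff => h (hiff.2 hz)
        rw [hK'emp] at this
        exact this
      have hRT : ∀ z, g T z ∈ R ↔ z ∈ R := by
        intro z
        by_contra h
        have : z ∈ K := h
        rw [hKemp] at this
        exact this
      refine ⟨g T, i1, i2, ?_⟩
      intro z
      rw [i3 z, hRT z]

/-- Regularisation along two independent almost periods. -/
lemma reg (A : Set ℂ) (v v' : ℂ) (hind : (v' * conj v).im ≠ 0)
    (hv1 : TrFin A v) (hv2 : TrFin A v') :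
    ∃ R : Set ℂ, {z | ¬ (z ∈ A ↔ z ∈ R)}.Finite ∧ ∀ x, TrFin A x → ∀ z, (z + x ∈ R ↔ z ∈ R) := by
  have hv : v ≠ 0 := by rintro rfl; simp at hind
  have hinjn : ∀ (w : ℂ), w ≠ 0 → ∀ z, Function.Injective fun n : ℕ => z + n * w := by
    intro w hw z m n hmn
    have : (m : ℂ) * w = n * w := by
      have h1 : z + m * w = z + n * w := hmn
      linear_combination h1
    exact_mod_cast mul_right_cancel₀ hw this
  set R : Set ℂ := {z | ∀ᶠ n : ℕ in atTop, z + n * v ∈ A} with hR
  have avoid : ∀ (K : Set ℂ), K.Finite → ∀ z, ∀ᶠ n : ℕ in atTop, z + n * v ∉ K := by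
    intro K hK z
    have h1 : {n : ℕ | z + n * v ∈ K}.Finite :=
      hK.preimage (f := fun n : ℕ => z + n * v) ((hinjn v hv z).injOn)
    have h2 := h1.compl_mem_cofinite
    rw [Nat.cofinite_eq_atTop] at h2
    exact h2
  have hev : ∀ z, ∀ᶠ n : ℕ in atTop, (z + n * v ∈ A ↔ z ∈ R) := by
    intro z
    obtain ⟨n0, hn0⟩ := eventually_atTop.1 (avoid _ hv1 z)
    have hconst : ∀ n, n0 ≤ n → (z + n * v ∈ A ↔ z + n0 * v ∈ A) := by
      intro n hn
      induction n, hn using Nat.le_induction with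
      | base => exact Iff.rfl
      | succ n hn ih =>
        have h1 : (z + n * v) + v ∈ A ↔ z + n * v ∈ A := by
          by_contra h; exact hn0 n hn h
        have e : z + ((n + 1 : ℕ) : ℂ) * v = z + n * v + v := by push_cast; ring
        rw [e, h1, ih]
    by_cases hz : z + n0 * v ∈ A
    · have hzR : z ∈ R := by
        show ∀ᶠ n : ℕ in atTop, z + n * v ∈ A
        exact eventually_atTop.2 ⟨n0, fun n hn => (hconst n hn).2 hz⟩
      exact eventually_atTop.2 ⟨n0, fun n hn => by
        constructor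
        · intro _; exact hzR
        · intro _; exact (hconst n hn).2 hz⟩
    · have hzR : z ∉ R := by
        intro hR'
        obtain ⟨n1, hn1⟩ := eventually_atTop.1 hR'
        exact hz ((hconst (max n0 n1) (le_max_left _ _)).1 (hn1 _ (le_max_right _ _)))
      exact eventually_atTop.2 ⟨n0, fun n hn => by
        constructor
        · intro h; exact absurd ((hconst n hn).1 h) hz
        · intro h; exact absurd h hzR⟩
  have hper : ∀ x, TrFin A x → ∀ z, (z + x ∈ R ↔ z ∈ R) := by
    intro x hx z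
    obtain ⟨n, h1, h2, h3⟩ := ((hev (z + x)).and ((hev z).and (avoid _ hx z))).exists
    have h4 : (z + n * v) + x ∈ A ↔ z + n * v ∈ A := by
      by_contra h; exact h3 h
    have e : z + x + n * v = (z + n * v) + x := by ring
    rw [← h1, ← h2, e, h4]
  refine ⟨R, ?_, hper⟩
  set E : Set ℂ := {z | ¬ (z ∈ A ↔ z ∈ R)} with hE
  set D : Set ℂ := {z | ¬ (z + v ∈ A ↔ z ∈ A)} with hD
  set D' : Set ℂ := {z | ¬ (z + v' ∈ A ↔ z ∈ A)} with hD'
  set Φ : ℂ → ℝ := fun z => (z * conj v).im with hΦ
  set Ψ : ℂ → ℝ := fun z => (z * conj v').im with hΨ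
  have hΦv : ∀ z (n : ℕ), Φ (z + n * v) = Φ z := by
    intro z n
    simp only [hΦ, Complex.mul_im, Complex.add_re, Complex.add_im, Complex.mul_re,
      Complex.conj_re, Complex.conj_im, Complex.natCast_re, Complex.natCast_im]
    ring
  have hΨv : ∀ z (n : ℕ), Ψ (z + n * v') = Ψ z := by
    intro z n
    simp only [hΨ, Complex.mul_im, Complex.add_re, Complex.add_im, Complex.mul_re,
      Complex.conj_re, Complex.conj_im, Complex.natCast_re, Complex.natCast_im]
    ring
  have hΦv' : ∀ z (n : ℕ), Φ (z + n * v') = Φ z + n * (v' * conj v).im := by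
    intro z n
    simp only [hΦ, Complex.mul_im, Complex.add_re, Complex.add_im, Complex.mul_re,
      Complex.conj_re, Complex.conj_im, Complex.natCast_re, Complex.natCast_im]
    ring
  have hinj : Function.Injective fun z => (Φ z, Ψ z) := by
    intro z w hzw
    have h1 : Φ z = Φ w := congrArg Prod.fst hzw
    have h2 : Ψ z = Ψ w := congrArg Prod.snd hzw
    simp only [Complex.mul_im, Complex.conj_re, Complex.conj_im] at hind
    simp only [hΦ, hΨ, Complex.mul_im, Complex.conj_re, Complex.conj_im] at h1 h2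
    have h3 : (v'.re * -v.im + v'.im * v.re) * (z.re - w.re) = 0 := by
      linear_combination v'.re * h1 - v.re * h2
    have h4 : (v'.re * -v.im + v'.im * v.re) * (z.im - w.im) = 0 := by
      linear_combination v'.im * h1 - v.im * h2
    exact Complex.ext (by linarith [(mul_eq_zero.1 h3).resolve_left hind])
      (by linarith [(mul_eq_zero.1 h4).resolve_left hind])
  have hEΦ : ∀ z ∈ E, Φ z ∈ Φ '' D := by
    intro z hz
    by_contra hno
    have hav : ∀ n : ℕ, z + n * v ∉ D := fun n h => hno ⟨_, h, hΦv z n⟩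
    have hconst : ∀ n : ℕ, (z + n * v ∈ A ↔ z ∈ A) := by
      intro n
      induction n with
      | zero => simp
      | succ n ih =>
        have h1 : (z + n * v) + v ∈ A ↔ z + n * v ∈ A := by
          by_contra h; exact hav n h
        have e : z + ((n + 1 : ℕ) : ℂ) * v = z + n * v + v := by push_cast; ring
        rw [e, h1, ih]
    obtain ⟨n, hn⟩ := (hev z).exists
    apply hz
    rw [← hn, hconst n]
  have hΦE : (Φ '' E).Finite := by
    refine (hv1.image Φ).subset ?_
    rintro _ ⟨z, hz, rfl⟩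
    exact hEΦ z hz
  have hEΨ : ∀ z ∈ E, Ψ z ∈ Ψ '' D' := by
    intro z hz
    have hex : ∃ n : ℕ, z + n * v' ∉ E := by
      by_contra hno
      push Not at hno
      have hinj' : Function.Injective fun n : ℕ => Φ (z + n * v') := by
        intro m n hmn
        have h1 : Φ (z + m * v') = Φ (z + n * v') := hmn
        rw [hΦv', hΦv'] at h1
        have h2 : (m : ℝ) * (v' * conj v).im = n * (v' * conj v).im := by linarith
        exact_mod_cast mul_right_cancel₀ hind h2
      have hmem : ∀ n : ℕ, Φ (z + n * v') ∈ Φ '' E := fun n => ⟨_, hno n, rfl⟩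
      exact Set.infinite_of_injective_forall_mem hinj' hmem hΦE
    classical
    have hmin := Nat.find_spec hex
    have hpos : Nat.find hex ≠ 0 := by
      intro h0
      rw [h0] at hmin
      apply hmin
      simpa using hz
    obtain ⟨m, hm⟩ := Nat.exists_eq_succ_of_ne_zero hpos
    have hmE : z + m * v' ∈ E := by
      by_contra h
      have := Nat.find_min' hex h
      omega
    rw [hm] at hmin
    have e : z + ((m.succ : ℕ) : ℂ) * v' = (z + m * v') + v' := by push_cast; ring
    rw [e] at hmin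
    refine ⟨z + m * v', ?_, hΨv z m⟩
    intro hiff
    apply hmin
    intro h
    apply hmE
    rw [← hiff, ← hper v' hv2 (z + m * v')]
    exact h
  have hΨE : (Ψ '' E).Finite := by
    refine (hv2.image Ψ).subset ?_
    rintro _ ⟨z, hz, rfl⟩
    exact hEΨ z hz
  refine ((hΦE.prod hΨE).preimage (f := fun z => (Φ z, Ψ z)) hinj.injOn).subset ?_
  intro z hz
  exact ⟨⟨z, hz, rfl⟩, ⟨z, hz, rfl⟩⟩

/-- Case 2: two independent almost periods. -/
lemma case_rank_two (A : Set ℂ) (W : Finset ℂ) (hW : 11 ≤ W.card) (hnc : NonCol W)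
    (hA : ∀ w ∈ W, w ∉ A)
    (g : Finset ℂ → Equiv.Perm ℂ) (hg : ∀ S ⊆ W, IsIso (g S) ∧ g S ≠ 1 ∧ Pres A S (g S))
    (v v' : ℂ) (hind : (v' * conj v).im ≠ 0) (hv1 : TrFin A v) (hv2 : TrFin A v') : False := by
  obtain ⟨R, hRfin, hper⟩ := reg A v v' hind hv1 hv2
  have hv : v ≠ 0 := by rintro rfl; simp at hind
  refine no_ref A R W hW hnc hA hRfin ?_
  intro S hS
  obtain ⟨i1, i2, i3⟩ := hg S hS
  refine ⟨g S, i1, i2, ?_⟩
  have hfi := finInv_of_pres i3
  set K : Set ℂ := {z | ¬ (g S z ∈ R ↔ z ∈ R)} with hK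
  have hKfin : K.Finite := by
    refine ((hfi.union hRfin).union
      (hRfin.preimage (f := g S) (g S).injective.injOn)).subset ?_
    intro z hz
    by_contra hc
    apply hz
    have h1 : g S z ∈ A ↔ z ∈ A := by
      by_contra h; exact hc (Or.inl (Or.inl h))
    have h2 : z ∈ A ↔ z ∈ R := by
      by_contra h; exact hc (Or.inl (Or.inr h))
    have h3 : g S z ∈ A ↔ g S z ∈ R := by
      by_contra h; exact hc (Or.inr h)
    rw [← h3, h1, h2]
  obtain ⟨x, hx0, hux⟩ := iso_pull i1 hv
  have hxT : TrFin A x := trFin_pull hux hfi hv1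
  have hKemp : K = ∅ := by
    refine finite_shift K hKfin x hx0 ?_
    intro z hz hiff
    apply hz
    rw [hux, hper v hv1, hper x hxT] at hiff
    exact hiff
  intro z
  have hRT : g S z ∈ R ↔ z ∈ R := by
    by_contra h
    have : z ∈ K := h
    rw [hKemp] at this
    exact this
  rw [i3 z, hRT]

end Pool.Agent.R174.Pl
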