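import Pool.Agent.R174.PlE

/-!
# Distinguishing extension number of the plane under all isometries, part F

Moment relations for one almost period.
-/

namespace Pool.Agent.R174.Pl

open ComplexConjugate

lemma tr_rel (A : Set ℂ) (v xi : ℂ) (hxi : xi ≠ 0) (hv : TrFin A v) (X Y : ℂ → ℂ)
    (hX : ∀ z, X (z + v) = X z + xi) (hY : ∀ z, Y (z + v) = Y z) :
    ∃ N p1 p2 p3 M m1 : ℂ, ∀ S : Finset ℂ, (∀ w ∈ S, w ∉ A) → ∀ g : Equiv.Perm ℂ,
      Pres A S g → (∀ z, g (z + v) = g z - v) → ∀ a : ℂ, (∀ z, X (g z) = a - X z) →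
      (∀ z, Y (g z) = Y z) →
      (a * (N + S.card) = 2 * (p1 + ∑ w ∈ S, X w) ∧
       2 * (p3 + ∑ w ∈ S, X w ^ 3)
        = 3 * a * (p2 + ∑ w ∈ S, X w ^ 2) - a ^ 2 * (p1 + ∑ w ∈ S, X w) ∧
       a * (M + ∑ w ∈ S, Y w) = 2 * (m1 + ∑ w ∈ S, Y w * X w)) := by
  set θ : Equiv.Perm ℂ := Equiv.addRight v with hθd
  have hθa : ∀ z, θ z = z + v := fun z => rfl
  have hsymm : ∀ w, θ.symm w = w - v := by
    intro w
    rw [Equiv.symm_apply_eq, hθa]; ring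
  have hθ : FinInv A θ := hv
  have hXm : ∀ w, X (w - v) = X w - xi := by
    intro w
    have := hX (w - v)
    rw [sub_add_cancel] at this
    linear_combination -this
  have hYm : ∀ w, Y (w - v) = Y w := by
    intro w
    have := hY (w - v)
    rw [sub_add_cancel] at this
    exact this.symm
  obtain ⟨N, hN⟩ : ∃ N, LL θ A ∅ (fun z => X z) = -xi * N :=
    ⟨-LL θ A ∅ (fun z => X z) / xi, by field_simp⟩
  obtain ⟨p1, hp1⟩ : ∃ p1, LL θ A ∅ (fun z => X z ^ 2) = xi ^ 2 * N - 2 * xi * p1 :=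
    ⟨(xi ^ 2 * N - LL θ A ∅ (fun z => X z ^ 2)) / (2 * xi), by field_simp; ring⟩
  obtain ⟨p2, hp2⟩ : ∃ p2, LL θ A ∅ (fun z => X z ^ 3)
      = -3 * xi * p2 + 3 * xi ^ 2 * p1 - xi ^ 3 * N :=
    ⟨(3 * xi ^ 2 * p1 - xi ^ 3 * N - LL θ A ∅ (fun z => X z ^ 3)) / (3 * xi),
      by field_simp; ring⟩
  obtain ⟨p3, hp3⟩ : ∃ p3, LL θ A ∅ (fun z => X z ^ 4)
      = -4 * xi * p3 + 6 * xi ^ 2 * p2 - 4 * xi ^ 3 * p1 + xi ^ 4 * N :=
    ⟨(6 * xi ^ 2 * p2 - 4 * xi ^ 3 * p1 + xi ^ 4 * N - LL θ A ∅ (fun z => X z ^ 4)) / (4 * xi),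
      by field_simp; ring⟩
  obtain ⟨M, hM⟩ : ∃ M, LL θ A ∅ (fun z => Y z * X z) = -xi * M :=
    ⟨-LL θ A ∅ (fun z => Y z * X z) / xi, by field_simp⟩
  obtain ⟨m1, hm1⟩ : ∃ m1, LL θ A ∅ (fun z => Y z * X z ^ 2) = xi ^ 2 * M - 2 * xi * m1 :=
    ⟨(xi ^ 2 * M - LL θ A ∅ (fun z => Y z * X z ^ 2)) / (2 * xi), by field_simp; ring⟩
  refine ⟨N, p1, p2, p3, M, m1, ?_⟩
  intro S hS g hg hgv a hXa hYa
  set n : ℂ := (S.card : ℂ) with hn
  have hc : ∀ z, θ (g (θ z)) = g z := by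
    intro z; rw [hθa, hθa, hgv]; ring
  have hXg : ∀ z, X (g (θ z)) = (a - xi) - X z := by
    intro z; rw [hXa, hθa, hX]; ring
  have hYg : ∀ z, Y (g (θ z)) = Y z := by
    intro z; rw [hYa, hθa, hY]
  set al := a - xi with hal
  -- toggles
  have t1 : LL θ A S (fun z => X z) = -xi * (N + n) := by
    rw [LL_toggle hθ S hS, hN]
    have : ∑ w ∈ S, (X (θ.symm w) - X w) = -xi * n := by
      rw [Finset.sum_congr rfl fun w _ => by rw [hsymm, hXm]]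
      simp only [sub_sub_cancel_left, Finset.sum_const, nsmul_eq_mul]
      ring
    rw [this]; ring
  have t2 : LL θ A S (fun z => X z ^ 2)
      = xi ^ 2 * (N + n) - 2 * xi * (p1 + ∑ w ∈ S, X w) := by
    rw [LL_toggle hθ S hS, hp1]
    have : ∑ w ∈ S, (X (θ.symm w) ^ 2 - X w ^ 2) = xi ^ 2 * n - 2 * xi * ∑ w ∈ S, X w := by
      rw [hn, Finset.mul_sum, ← nsmul_eq_mul', ← Finset.sum_const, ← Finset.sum_sub_distrib]
      refine Finset.sum_congr rfl fun w _ => ?_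
      rw [hsymm, hXm]; ring
    rw [this]; ring
  have t3 : LL θ A S (fun z => X z ^ 3)
      = -3 * xi * (p2 + ∑ w ∈ S, X w ^ 2) + 3 * xi ^ 2 * (p1 + ∑ w ∈ S, X w)
        - xi ^ 3 * (N + n) := by
    rw [LL_toggle hθ S hS, hp2]
    have : ∑ w ∈ S, (X (θ.symm w) ^ 3 - X w ^ 3) = -3 * xi * (∑ w ∈ S, X w ^ 2)
        + 3 * xi ^ 2 * (∑ w ∈ S, X w) - xi ^ 3 * n := by
      rw [hn, Finset.mul_sum, Finset.mul_sum, ← nsmul_eq_mul', ← Finset.sum_const,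
        ← Finset.sum_add_distrib, ← Finset.sum_sub_distrib]
      refine Finset.sum_congr rfl fun w _ => ?_
      rw [hsymm, hXm]; ring
    rw [this]; ring
  have t4 : LL θ A S (fun z => X z ^ 4)
      = -4 * xi * (p3 + ∑ w ∈ S, X w ^ 3) + 6 * xi ^ 2 * (p2 + ∑ w ∈ S, X w ^ 2)
        - 4 * xi ^ 3 * (p1 + ∑ w ∈ S, X w) + xi ^ 4 * (N + n) := by
    rw [LL_toggle hθ S hS, hp3]
    have : ∑ w ∈ S, (X (θ.symm w) ^ 4 - X w ^ 4) = -4 * xi * (∑ w ∈ S, X w ^ 3)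
        + 6 * xi ^ 2 * (∑ w ∈ S, X w ^ 2) - 4 * xi ^ 3 * (∑ w ∈ S, X w) + xi ^ 4 * n := by
      rw [hn, Finset.mul_sum, Finset.mul_sum, Finset.mul_sum, ← nsmul_eq_mul',
        ← Finset.sum_const, ← Finset.sum_add_distrib, ← Finset.sum_sub_distrib,
        ← Finset.sum_add_distrib]
      refine Finset.sum_congr rfl fun w _ => ?_
      rw [hsymm, hXm]; ring
    rw [this]; ring
  have s1 : LL θ A S (fun z => Y z * X z) = -xi * (M + ∑ w ∈ S, Y w) := by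
    rw [LL_toggle hθ S hS, hM]
    have : ∑ w ∈ S, (Y (θ.symm w) * X (θ.symm w) - Y w * X w) = -xi * ∑ w ∈ S, Y w := by
      rw [Finset.mul_sum]
      refine Finset.sum_congr rfl fun w _ => ?_
      rw [hsymm, hXm, hYm]; ring
    rw [this]; ring
  have s2 : LL θ A S (fun z => Y z * X z ^ 2)
      = xi ^ 2 * (M + ∑ w ∈ S, Y w) - 2 * xi * (m1 + ∑ w ∈ S, Y w * X w) := by
    rw [LL_toggle hθ S hS, hm1]
    have : ∑ w ∈ S, (Y (θ.symm w) * X (θ.symm w) ^ 2 - Y w * X w ^ 2)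
        = xi ^ 2 * (∑ w ∈ S, Y w) - 2 * xi * ∑ w ∈ S, Y w * X w := by
      rw [Finset.mul_sum, Finset.mul_sum, ← Finset.sum_sub_distrib]
      refine Finset.sum_congr rfl fun w _ => ?_
      rw [hsymm, hXm, hYm]; ring
    rw [this]; ring
  -- antisymmetry
  have a0 := LL_anti hg hc (fun _ => 1)
  have L0 : LL θ A S (fun _ => 1) = 0 := by linear_combination a0 / 2
  have a2 := LL_anti hg hc (fun z => X z ^ 2)
  have a4 := LL_anti hg hc (fun z => X z ^ 4)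
  have b0 := LL_anti hg hc (fun z => Y z)
  have b2 := LL_anti hg hc (fun z => Y z * X z ^ 2)
  simp only [hXg, hYg] at a2 a4 b0 b2
  have M0 : LL θ A S (fun z => Y z) = 0 := by linear_combination b0 / 2
  have f2 : (fun z => (al - X z) ^ 2)
      = fun z => (al ^ 2 * (1 : ℂ) + (-2 * al) * X z) + X z ^ 2 := by funext z; ring
  have f4 : (fun z => (al - X z) ^ 4)
      = fun z => (((al ^ 4 * (1 : ℂ) + (-4 * al ^ 3) * X z) + (6 * al ^ 2) * X z ^ 2)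
        + (-4 * al) * X z ^ 3) + X z ^ 4 := by funext z; ring
  have g2 : (fun z => Y z * (al - X z) ^ 2)
      = fun z => (al ^ 2 * Y z + (-2 * al) * (Y z * X z)) + Y z * X z ^ 2 := by funext z; ring
  rw [f2, LL_add hθ, LL_add hθ, LL_smul hθ, LL_smul hθ] at a2
  rw [f4, LL_add hθ, LL_add hθ, LL_add hθ, LL_add hθ, LL_smul hθ, LL_smul hθ, LL_smul hθ,
    LL_smul hθ] at a4
  rw [g2, LL_add hθ, LL_add hθ, LL_smul hθ, LL_smul hθ] at b2
  rw [L0] at a2 a4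
  rw [M0] at b2
  rw [t1, t2] at a2
  rw [t1, t2, t3, t4] at a4
  rw [s1, s2] at b2
  set e1 := ∑ w ∈ S, X w with he1
  set e2 := ∑ w ∈ S, X w ^ 2 with he2
  set e3 := ∑ w ∈ S, X w ^ 3 with he3
  set d0 := ∑ w ∈ S, Y w with hd0
  set d1 := ∑ w ∈ S, Y w * X w with hd1
  have ha : a = al + xi := by rw [hal]; ring
  have R1 : a * (N + n) = 2 * (p1 + e1) := by
    apply mul_left_cancel₀ hxi
    rw [ha]
    linear_combination a2 / 2
  have R2 : a * (M + d0) = 2 * (m1 + d1) := by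
    apply mul_left_cancel₀ hxi
    rw [ha]
    linear_combination b2 / 2
  refine ⟨R1, ?_, R2⟩
  have h4 : -4 * xi * (p3 + e3) + 6 * xi ^ 2 * (p2 + e2) - 4 * xi ^ 3 * (p1 + e1)
      + xi ^ 4 * (N + n) = 2 * al * (-3 * xi * (p2 + e2) + 3 * xi ^ 2 * (p1 + e1)
        - xi ^ 3 * (N + n)) - al ^ 3 * (-xi * (N + n)) := by
    linear_combination a4 / 2 - (3 * al ^ 2 / 2) * a2
  rw [hal] at h4
  apply mul_left_cancel₀ hxi
  linear_combination (-1 / 2) * h4 + (1 / 2) * (-xi ^ 3 + 3 * a * xi ^ 2 - a ^ 2 * xi) * R1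

end Pool.Agent.R174.Pl
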