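import Pool.Agent.R174.PlF
import Pool.Agent.R174.ExtC

/-!
# Distinguishing extension number of the plane under all isometries, part G

The two algebraic contradictions for one almost period.
-/

namespace Pool.Agent.R174.Pl

open ComplexConjugate

lemma fin3_of_card {T : Finset ℂ} (hT : 3 ≤ T.card) :
    ∃ w : Fin 3 → ℂ, Function.Injective w ∧ ∀ i, w i ∈ T := by
  obtain ⟨U, hUT, hU⟩ := Finset.exists_subset_card_eq hT
  obtain ⟨x, y, z, hxy, hxz, hyz, rfl⟩ := Finset.card_eq_three.1 hU
  refine ⟨![x, y, z], ?_, ?_⟩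
  · intro i j hij
    fin_cases i <;> fin_cases j <;> simp_all
  · intro i
    apply hUT
    fin_cases i <;> simp

/-- Four points with different `X`-coordinates cannot all be toggled. -/
lemma abs_four (W : Finset ℂ) (hW : W.card = 4) (X : ℂ → ℂ) (hX : Set.InjOn X W)
    (N p1 p2 p3 : ℂ) (a : Finset ℂ → ℂ)
    (hr : ∀ S ⊆ W, a S * (N + S.card) = 2 * (p1 + ∑ w ∈ S, X w) ∧
       2 * (p3 + ∑ w ∈ S, X w ^ 3)
        = 3 * a S * (p2 + ∑ w ∈ S, X w ^ 2) - a S ^ 2 * (p1 + ∑ w ∈ S, X w)) : False := by
  classical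
  have base : ∀ S0 ⊆ W, ∀ w : Fin 3 → ℂ, Function.Injective w → (∀ i, w i ∈ W) →
      (∀ i, w i ∉ S0) → (∀ i, X (w i) ≠ a S0 / 2) → N + S0.card = 0 := by
    intro S0 hS0 w hw hwW hwS hwa
    obtain ⟨b1, b2⟩ := hr S0 hS0
    refine Pool.Agent.R174.Ext.base_alg (N + S0.card) (p1 + ∑ w ∈ S0, X w)
      (p2 + ∑ w ∈ S0, X w ^ 2)
      (p3 + ∑ w ∈ S0, X w ^ 3) (a S0) b1 b2 (fun i => X (w i)) ?_ hwa ?_ ?_
    · intro i j hij
      exact hw (hX (hwW i) (hwW j) hij)
    · intro i
      obtain ⟨c1, c2⟩ := hr (insert (w i) S0) (Finset.insert_subset (hwW i) hS0)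
      rw [Finset.card_insert_of_notMem (hwS i)] at c1
      rw [Finset.sum_insert (hwS i)] at c1 c2
      rw [Finset.sum_insert (hwS i), Finset.sum_insert (hwS i)] at c2
      push_cast at c1
      exact ⟨a (insert (w i) S0), by linear_combination c1, by linear_combination c2⟩
    · intro i j hij
      have hwS' : w i ∉ insert (w j) S0 := by
        rw [Finset.mem_insert, not_or]
        exact ⟨fun h => hij (hw h), hwS i⟩
      obtain ⟨c1, c2⟩ := hr (insert (w i) (insert (w j) S0))
        (Finset.insert_subset (hwW i) (Finset.insert_subset (hwW j) hS0))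
      rw [Finset.card_insert_of_notMem hwS', Finset.card_insert_of_notMem (hwS j)] at c1
      simp only [Finset.sum_insert hwS', Finset.sum_insert (hwS j)] at c1 c2
      push_cast at c1
      exact ⟨a (insert (w i) (insert (w j) S0)), by linear_combination c1,
        by linear_combination c2⟩
  have hN0 : N = 0 := by
    have hc : 3 ≤ (W.filter fun w => X w ≠ a ∅ / 2).card := by
      have h1 : (W.filter fun w => X w = a ∅ / 2).card ≤ 1 := by
        rw [Finset.card_le_one]
        intro x hx y hy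
        rw [Finset.mem_filter] at hx hy
        exact hX hx.1 hy.1 (hx.2.trans hy.2.symm)
      have h2 := Finset.card_filter_add_card_filter_not (s := W) (fun w => X w = a ∅ / 2)
      have h3 : (W.filter fun w => X w ≠ a ∅ / 2) = W.filter fun w => ¬ X w = a ∅ / 2 := rfl
      rw [h3]
      omega
    obtain ⟨w, hw, hwT⟩ := fin3_of_card hc
    have := base ∅ (by simp) w hw (fun i => (Finset.mem_filter.1 (hwT i)).1) (by simp)
      (fun i => (Finset.mem_filter.1 (hwT i)).2)
    simpa using this
  subst hN0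
  have hp1 : p1 = 0 := by
    obtain ⟨b1, -⟩ := hr ∅ (by simp)
    simp only [Finset.card_empty, Nat.cast_zero, add_zero, mul_zero, Finset.sum_empty] at b1
    linear_combination -b1 / 2
  obtain ⟨w4, hw4⟩ := Finset.card_pos.1 (show 0 < W.card by omega)
  have ha4 : a {w4} / 2 = X w4 := by
    obtain ⟨b1, -⟩ := hr {w4} (by simpa using hw4)
    rw [hp1] at b1
    simp only [Finset.card_singleton, Nat.cast_one, zero_add, mul_one, Finset.sum_singleton] at b1
    linear_combination b1 / 2
  obtain ⟨w, hw, hwT⟩ := fin3_of_card (T := W.erase w4) (by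
    rw [Finset.card_erase_of_mem hw4]; omega)
  have := base {w4} (by simpa using hw4) w hw (fun i => Finset.mem_of_mem_erase (hwT i))
    (fun i => by
      rw [Finset.mem_singleton]; exact Finset.ne_of_mem_erase (hwT i))
    (fun i => by
      rw [ha4]
      intro h
      exact Finset.ne_of_mem_erase (hwT i) (hX (Finset.mem_of_mem_erase (hwT i)) hw4 h))
  simp at this

lemma col_alg (a0 a1 a2 N p M m y1 y2 : ℂ) (hy : y1 ≠ y2)
    (h1 : a0 * N = 2 * p) (h2 : a0 * M = 2 * m)
    (h3 : a1 * (N + 1) = 2 * p) (h4 : a1 * (M + y1) = 2 * m)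
    (h5 : a2 * (N + 1) = 2 * p) (h6 : a2 * (M + y2) = 2 * m) : p = 0 := by
  have aux : ∀ a y : ℂ, a * (N + 1) = 2 * p → a * (M + y) = 2 * m → m = y * p := by
    intro a y g1 g2
    by_contra hne
    have e1 : a0 * (M - y * N) = 2 * (m - y * p) := by linear_combination h2 - y * h1
    have e2 : a * (M - y * N) = 2 * (m - y * p) := by linear_combination g2 - y * g1
    have hne' : m - y * p ≠ 0 := sub_ne_zero.2 hne
    have hM : M - y * N ≠ 0 := by
      intro h0
      rw [h0, mul_zero] at e1
      apply hne'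
      linear_combination -e1 / 2
    have ha : a0 = a := by
      apply mul_right_cancel₀ hM
      rw [e1, e2]
    rw [← ha] at g1
    have ha0 : a0 = 0 := by linear_combination g1 - h1
    rw [ha0] at e1
    apply hne'
    linear_combination -e1 / 2
  have r1 := aux a1 y1 h3 h4
  have r2 := aux a2 y2 h5 h6
  have : (y1 - y2) * p = 0 := by linear_combination r2 - r1
  exact (mul_eq_zero.1 this).resolve_left (sub_ne_zero.2 hy)

/-- Two points in one column and a third point outside it cannot all be toggled. -/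
lemma abs_col (u1 u2 w1 : ℂ) (X Y : ℂ → ℂ) (hX : X u1 = X u2) (hY : Y u1 ≠ Y u2)
    (hXw : X w1 ≠ X u1) (N p1 M m1 : ℂ) (a : Finset ℂ → ℂ)
    (hr : ∀ S ⊆ ({u1, u2, w1} : Finset ℂ), a S * (N + S.card) = 2 * (p1 + ∑ w ∈ S, X w) ∧
       a S * (M + ∑ w ∈ S, Y w) = 2 * (m1 + ∑ w ∈ S, Y w * X w)) : False := by
  have n12 : u1 ≠ u2 := by rintro rfl; exact hY rfl
  have n1w : u1 ≠ w1 := by rintro rfl; exact hXw rfl
  have n2w : u2 ≠ w1 := by rintro rfl; exact hXw hX.symm
  set x := X u1 with hx
  obtain ⟨a1, a2⟩ := hr ∅ (by simp)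
  obtain ⟨b1, b2⟩ := hr {u1} (by simp)
  obtain ⟨c1, c2⟩ := hr {u2} (by
    intro z hz; simp only [Finset.mem_singleton] at hz; subst hz; simp)
  obtain ⟨d1, d2⟩ := hr {w1} (by
    intro z hz; simp only [Finset.mem_singleton] at hz; subst hz; simp)
  obtain ⟨e1, e2⟩ := hr {u1, w1} (by
    intro z hz; simp only [Finset.mem_insert, Finset.mem_singleton] at hz ⊢; tauto)
  obtain ⟨f1, f2⟩ := hr {u2, w1} (by
    intro z hz; simp only [Finset.mem_insert, Finset.mem_singleton] at hz ⊢; tauto)
  simp only [Finset.card_empty, Finset.card_singleton, Finset.card_pair n1w,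
    Finset.card_pair n2w, Finset.sum_empty,
    Finset.sum_singleton, Finset.sum_pair n1w, Finset.sum_pair n2w, Nat.cast_zero, Nat.cast_one,
    Nat.cast_ofNat, add_zero, ← hX] at a1 a2 b1 b2 c1 c2 d1 d2 e1 e2 f1 f2
  have r0 := col_alg (a ∅ - 2 * x) (a {u1} - 2 * x) (a {u2} - 2 * x) N (p1 - x * N)
    M (m1 - x * M) (Y u1) (Y u2) hY
    (by linear_combination a1) (by linear_combination a2) (by linear_combination b1)
    (by linear_combination b2) (by linear_combination c1) (by linear_combination c2)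
  have r1 := col_alg (a {w1} - 2 * x) (a {u1, w1} - 2 * x) (a {u2, w1} - 2 * x) (N + 1)
    (p1 - x * N + (X w1 - x))
    (M + Y w1) (m1 - x * M + Y w1 * (X w1 - x)) (Y u1) (Y u2) hY
    (by linear_combination d1) (by linear_combination d2) (by linear_combination e1)
    (by linear_combination e2) (by linear_combination f1) (by linear_combination f2)
  rw [r0, zero_add] at r1
  exact hXw (by linear_combination r1)

end Pool.Agent.R174.Pl
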