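import Pool.Agent.R174.PlG

/-!
# Distinguishing extension number of the plane under all isometries, part H

One direction of almost periods.
-/

namespace Pool.Agent.R174.Pl

open ComplexConjugate

lemma zeta_inj {v z w : ℂ} (hv : v ≠ 0) (h : z * conj v = w * conj v) : z = w :=
  mul_right_cancel₀ ((map_ne_zero _).2 hv) h

lemma types {A : Set ℂ} {S : Finset ℂ} {g : Equiv.Perm ℂ} (hiso : IsIso g) (hg1 : g ≠ 1)
    (hp : Pres A S g)
    (hnt : ∀ b : ℂ, b ≠ 0 → ¬ ∀ z, (z + b ∈ A ∨ z + b ∈ S) ↔ (z ∈ A ∨ z ∈ S))
    {v : ℂ} (hv : v ≠ 0) (hvA : TrFin A v) (hpar : ∀ x, TrFin A x → (x * conj v).im = 0) :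
    (∃ c : ℂ, ∀ z, g z * conj v = c - z * conj v) ∨
    (∃ a : ℝ, ∀ z, g z * conj v = a - conj (z * conj v)) ∨
    (∃ β : ℝ, ∀ z, g z * conj v = conj (z * conj v) + β * Complex.I) := by
  have hvc : conj v ≠ 0 := (map_ne_zero _).2 hv
  obtain ⟨u, b, hu, h | h⟩ := hiso
  · left
    have hu0 := unit_ne_zero hu
    have huu := unit_mul_conj hu
    have hx : TrFin A (v * conj u) := trFin_pull (g := g) (v := v)
      (fun z => by rw [h, h]; linear_combination v * huu) (finInv_of_pres hp) hvA
    have him := Complex.conj_eq_iff_im.2 (hpar _ hx)
    rw [map_mul, map_mul, Complex.conj_conj, Complex.conj_conj] at him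
    have h1 : u = conj u := by
      have : (v * conj v) * u = (v * conj v) * conj u := by linear_combination him
      exact mul_left_cancel₀ (mul_ne_zero hv hvc) this
    rw [← h1] at huu
    have h2 : (u - 1) * (u + 1) = 0 := by linear_combination huu
    rcases mul_eq_zero.1 h2 with h3 | h3
    · exfalso
      have hu1 : u = 1 := by linear_combination h3
      have hb : b ≠ 0 := by
        rintro rfl
        apply hg1
        ext z
        rw [h, hu1]; simp
      apply hnt b hb
      intro z
      have := hp z
      rw [h, hu1, one_mul] at this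
      exact this
    · refine ⟨b * conj v, fun z => ?_⟩
      have hu1 : u = -1 := by linear_combination h3
      rw [h, hu1]; ring
  · right
    have hu0 := unit_ne_zero hu
    have huu := unit_mul_conj hu
    have hx : TrFin A (conj v * u) := trFin_pull (g := g) (v := v)
      (fun z => by
        rw [h, h, map_add, map_mul, Complex.conj_conj]
        linear_combination v * huu) (finInv_of_pres hp) hvA
    have him := Complex.conj_eq_iff_im.2 (hpar _ hx)
    rw [map_mul, map_mul, Complex.conj_conj] at him
    have h2 : (u * conj v - v) * (u * conj v + v) = 0 := by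
      linear_combination -u * him + v ^ 2 * huu
    have tr : ∀ t : ℂ, (∀ z, g (g z) = z + t) → t = 0 := by
      intro t ht
      by_contra ht0
      apply hnt t ht0
      intro z
      rw [← ht, hp, hp]
    rcases mul_eq_zero.1 h2 with h3 | h3
    · right
      have hgv : ∀ z, g z * conj v = conj (z * conj v) + b * conj v := by
        intro z
        rw [h, map_mul, Complex.conj_conj]
        linear_combination conj z * h3
      have hre : (b * conj v).re = 0 := by
        have h4 := tr (2 * (b * conj v).re / conj v) (fun z => by
          apply zeta_inj hv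
          rw [hgv, hgv, map_add, Complex.conj_conj, add_mul, div_mul_cancel₀ _ hvc]
          have := Complex.add_conj (b * conj v)
          push_cast at this
          linear_combination this)
        rw [div_eq_zero_iff] at h4
        rcases h4 with h4 | h4
        · rcases mul_eq_zero.1 h4 with h5 | h5
          · norm_num at h5
          · exact_mod_cast h5
        · exact absurd h4 hvc
      refine ⟨(b * conj v).im, fun z => ?_⟩
      rw [hgv]
      congr 1
      apply Complex.ext
      · rw [hre]; simp
      · simp
    · left
      have hgv : ∀ z, g z * conj v = b * conj v - conj (z * conj v) := by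
        intro z
        rw [h, map_mul, Complex.conj_conj]
        linear_combination conj z * h3
      have him2 : (b * conj v).im = 0 := by
        have h4 := tr (2 * (b * conj v).im * Complex.I / conj v) (fun z => by
          apply zeta_inj hv
          rw [hgv, hgv, map_sub, Complex.conj_conj, add_mul, div_mul_cancel₀ _ hvc]
          have := Complex.sub_conj (b * conj v)
          push_cast at this
          linear_combination this)
        rw [div_eq_zero_iff] at h4
        rcases h4 with h4 | h4
        · rcases mul_eq_zero.1 h4 with h5 | h5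
          · rcases mul_eq_zero.1 h5 with h6 | h6
            · norm_num at h6
            · exact_mod_cast h6
          · exact absurd h5 Complex.I_ne_zero
        · exact absurd h4 hvc
      refine ⟨(b * conj v).re, fun z => ?_⟩
      rw [hgv]
      congr 1
      apply Complex.ext
      · simp
      · rw [him2]; simp

/-- `g` reverses the second coordinate -/
def Flip (v : ℂ) (g : Equiv.Perm ℂ) (β : ℝ) : Prop :=
  ∃ ε a : ℝ, (ε = 1 ∨ ε = -1) ∧ ∀ z, (g z * conj v).re = ε * (z * conj v).re + a ∧
    (g z * conj v).im = β - (z * conj v).im

lemma finInv_mul {A : Set ℂ} {g h : Equiv.Perm ℂ} (hg : FinInv A g) (hh : FinInv A h) :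
    FinInv A (g * h) := by
  refine (hh.union (hg.preimage (f := h) h.injective.injOn)).subset ?_
  intro z hz
  by_contra hc
  apply hz
  have h1 : h z ∈ A ↔ z ∈ A := by
    by_contra h; exact hc (Or.inl h)
  have h2 : g (h z) ∈ A ↔ h z ∈ A := by
    by_contra h; exact hc (Or.inr h)
  rw [Equiv.Perm.mul_apply, h2, h1]

lemma flips_eq {A : Set ℂ} {g h : Equiv.Perm ℂ} (hg : FinInv A g) (hh : FinInv A h)
    {v : ℂ} (hv : v ≠ 0) (hpar : ∀ x, TrFin A x → (x * conj v).im = 0) {β β' : ℝ}
    (hgf : Flip v g β) (hhf : Flip v h β') : β = β' := by
  have hvc : conj v ≠ 0 := (map_ne_zero _).2 hv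
  obtain ⟨e, a, he, hga⟩ := hgf
  obtain ⟨e', a', he', hha⟩ := hhf
  set t : ℂ := (((e * e' + 1) * (e * a' + a) : ℝ) + (2 * (β - β') : ℝ) * Complex.I) / conj v
    with ht
  have htv : t * conj v = (((e * e' + 1) * (e * a' + a) : ℝ) : ℂ)
      + ((2 * (β - β') : ℝ) : ℂ) * Complex.I := by
    rw [ht, div_mul_cancel₀ _ hvc]
  have hf := finInv_mul (finInv_mul hg hh) (finInv_mul hg hh)
  have htr : TrFin A t := by
    have e1 : ∀ z, ((g * h) * (g * h)) z = z + t := by
      intro z
      apply zeta_inj hv
      rw [add_mul, htv]
      simp only [Equiv.Perm.mul_apply]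
      have hee : e * e = 1 := by rcases he with rfl | rfl <;> norm_num
      have hee' : e' * e' = 1 := by rcases he' with rfl | rfl <;> norm_num
      apply Complex.ext
      · rw [(hga _).1, (hha _).1, (hga _).1, (hha _).1, Complex.add_re, Complex.add_re,
          Complex.ofReal_re, Complex.re_ofReal_mul, Complex.I_re]
        linear_combination (z * conj v).re * (e' * e') * hee + (z * conj v).re * hee'
      · rw [(hga _).2, (hha _).2, (hga _).2, (hha _).2, Complex.add_im, Complex.add_im,
          Complex.ofReal_im, Complex.im_ofReal_mul, Complex.I_im]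
        ring
    unfold FinInv at hf
    unfold TrFin
    simpa only [e1] using hf
  have h1 := hpar t htr
  rw [htv, Complex.add_im, Complex.ofReal_im, Complex.im_ofReal_mul, Complex.I_im] at h1
  linarith

end Pool.Agent.R174.Pl
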