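import Pool.Agent.R174.PlH

/-!
# Distinguishing extension number of the plane under all isometries, part I

One direction of almost periods: conclusion.
-/

namespace Pool.Agent.R174.Pl

open ComplexConjugate

lemma trFin_add {A : Set ℂ} {v : ℂ} (hv : TrFin A v) (s : Finset ℂ) :
    TrFin {z | z ∈ A ∨ z ∈ s} v := by
  refine ((hv.union s.finite_toSet).union (s.finite_toSet.preimage (f := fun z => z + v)
    (fun a _ b _ h => add_left_injective v h))).subset ?_
  intro z hz
  by_contra hc
  apply hz
  have h1 : z + v ∈ A ↔ z ∈ A := by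
    by_contra h; exact hc (Or.inl (Or.inl h))
  have h2 : z ∉ s := fun h => hc (Or.inl (Or.inr h))
  have h3 : z + v ∉ s := fun h => hc (Or.inr h)
  show (z + v ∈ A ∨ z + v ∈ s) ↔ (z ∈ A ∨ z ∈ s)
  tauto

lemma case_rank_one (A : Set ℂ) (W : Finset ℂ) (hW : 17 ≤ W.card) (hnc : NonCol W)
    (hA : ∀ w ∈ W, w ∉ A)
    (g : Finset ℂ → Equiv.Perm ℂ) (hg : ∀ S ⊆ W, IsIso (g S) ∧ g S ≠ 1 ∧ Pres A S (g S))
    (hnt : ∀ S ⊆ W, ∀ b : ℂ, b ≠ 0 → ¬ ∀ z, (z + b ∈ A ∨ z + b ∈ S) ↔ (z ∈ A ∨ z ∈ S))
    (v : ℂ) (hv : v ≠ 0) (hvA : TrFin A v) (hpar : ∀ x, TrFin A x → (x * conj v).im = 0) :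
    False := by
  classical
  have hvc : conj v ≠ 0 := (map_ne_zero _).2 hv
  -- a common axis
  obtain ⟨β, hβ⟩ : ∃ β0 : ℝ, ∀ S ⊆ W, ∀ β, Flip v (g S) β → β = β0 := by
    by_cases hex : ∃ S ⊆ W, ∃ β, Flip v (g S) β
    · obtain ⟨S, hS, β, h⟩ := hex
      exact ⟨β, fun T hT β' h' => flips_eq (finInv_of_pres (hg T hT).2.2)
        (finInv_of_pres (hg S hS).2.2) hv hpar h' h⟩
    · push Not at hex
      exact ⟨0, fun S hS β h => absurd h (hex S hS β)⟩
  have htypes : ∀ S ⊆ W, (∃ c : ℂ, c.im = β ∧ ∀ z, g S z * conj v = c - z * conj v) ∨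
      (∃ a : ℝ, ∀ z, g S z * conj v = a - conj (z * conj v)) ∨
      (∀ z, g S z * conj v = conj (z * conj v) + β * Complex.I) := by
    intro S hS
    obtain ⟨i1, i2, i3⟩ := hg S hS
    rcases types i1 i2 i3 (hnt S hS) hv hvA hpar with ⟨c, hc⟩ | h | ⟨β', h⟩
    · left
      refine ⟨c, ?_, hc⟩
      apply hβ S hS
      refine ⟨-1, c.re, Or.inr rfl, fun z => ?_⟩
      rw [hc, Complex.sub_re, Complex.sub_im]
      constructor
      · ring
      · rfl
    · right; left; exact h
    · right; right
      have : β' = β := by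
        apply hβ S hS
        refine ⟨1, 0, Or.inl rfl, fun z => ?_⟩
        rw [h, Complex.add_re, Complex.add_im, Complex.conj_re, Complex.conj_im,
          Complex.re_ofReal_mul, Complex.im_ofReal_mul, Complex.I_re, Complex.I_im]
        constructor <;> ring
      rw [← this]; exact h
  set X : ℂ → ℂ := fun z => ((z * conj v).re : ℂ) with hX
  set Yr : ℂ → ℝ := fun z => (z * conj v).im - β / 2 with hYr
  set Y : ℂ → ℂ := fun z => ((Yr z ^ 2 : ℝ) : ℂ) with hY
  set rho : ℂ → ℂ := fun z => (conj (z * conj v) + β * Complex.I) / conj v with hrho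
  have hrhov : ∀ z, rho z * conj v = conj (z * conj v) + β * Complex.I := by
    intro z; simp only [hrho]; rw [div_mul_cancel₀ _ hvc]
  have hrhoX : ∀ z, (rho z * conj v).re = (z * conj v).re := by
    intro z
    rw [hrhov, Complex.add_re, Complex.conj_re, Complex.re_ofReal_mul, Complex.I_re]; ring
  have hrhoY : ∀ z, Yr (rho z) = - Yr z := by
    intro z
    simp only [hYr]
    rw [hrhov, Complex.add_im, Complex.conj_im, Complex.im_ofReal_mul, Complex.I_im]; ring
  have hvv : v * conj v = (Complex.normSq v : ℂ) := Complex.mul_conj v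
  have hnv : (Complex.normSq v : ℂ) ≠ 0 := by
    exact_mod_cast (Complex.normSq_eq_zero.not.2 hv)
  have hXv : ∀ z, X (z + v) = X z + (Complex.normSq v : ℂ) := by
    intro z
    simp only [hX]
    rw [add_mul, hvv, Complex.add_re, Complex.ofReal_re]; push_cast; ring
  have hYv : ∀ z, Y (z + v) = Y z := by
    intro z
    simp only [hY, hYr]
    rw [add_mul, hvv, Complex.add_im, Complex.ofReal_im, add_zero]
  have core : ∀ w0 ∈ W, Yr w0 ≠ 0 → ∃ (N p1 p2 p3 M m1 : ℂ) (a : Finset ℂ → ℂ),
      ∀ S ⊆ (W.erase w0).erase (rho w0),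
      (a S * (N + S.card) = 2 * (p1 + ∑ w ∈ S, X w) ∧
       2 * (p3 + ∑ w ∈ S, X w ^ 3)
        = 3 * a S * (p2 + ∑ w ∈ S, X w ^ 2) - a S ^ 2 * (p1 + ∑ w ∈ S, X w) ∧
       a S * (M + ∑ w ∈ S, Y w) = 2 * (m1 + ∑ w ∈ S, Y w * X w)) := by
    intro w0 hw0 hY0
    set r0 := rho w0 with hr0
    have hr0ne : r0 ≠ w0 := by
      intro h
      have := hrhoY w0
      rw [← hr0, h] at this
      apply hY0; linarith
    set s : Finset ℂ := if r0 ∈ A then ∅ else {w0} with hs
    have hs0 : ∀ z ∈ s, z = w0 := by
      intro z hz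
      rw [hs] at hz
      split_ifs at hz with h
      · simp at hz
      · simpa using hz
    have hs1 : w0 ∈ s ↔ r0 ∉ A := by
      rw [hs]
      split_ifs with h
      · simp [h]
      · simp [h]
    obtain ⟨N, p1, p2, p3, M, m1, hrel⟩ := tr_rel {z | z ∈ A ∨ z ∈ s} v
      (Complex.normSq v : ℂ) hnv (trFin_add hvA s) X Y hXv hYv
    have hex : ∀ S : Finset ℂ, ∃ a : ℂ, S ⊆ (W.erase w0).erase r0 →
      (a * (N + S.card) = 2 * (p1 + ∑ w ∈ S, X w) ∧
       2 * (p3 + ∑ w ∈ S, X w ^ 3)
        = 3 * a * (p2 + ∑ w ∈ S, X w ^ 2) - a ^ 2 * (p1 + ∑ w ∈ S, X w) ∧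
       a * (M + ∑ w ∈ S, Y w) = 2 * (m1 + ∑ w ∈ S, Y w * X w)) := by
      intro S
      by_cases hS : S ⊆ (W.erase w0).erase r0
      swap
      · exact ⟨0, fun h => absurd h hS⟩
      have hSm : ∀ z ∈ S, z ≠ r0 ∧ z ≠ w0 ∧ z ∈ W := by
        intro z hz
        have := hS hz
        rw [Finset.mem_erase, Finset.mem_erase] at this
        exact this
      have hsS : s ∪ S ⊆ W := by
        intro z hz
        rw [Finset.mem_union] at hz
        rcases hz with hz | hz
        · rw [hs0 z hz]; exact hw0
        · exact (hSm z hz).2.2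
      obtain ⟨i1, i2, i3⟩ := hg _ hsS
      have hSA : ∀ w ∈ S, w ∉ {z | z ∈ A ∨ z ∈ s} := by
        rintro w hw (h | h)
        · exact hA w (hSm w hw).2.2 h
        · exact (hSm w hw).2.1 (hs0 w h)
      have hP : Pres {z | z ∈ A ∨ z ∈ s} S (g (s ∪ S)) := by
        intro z
        have := i3 z
        rw [Finset.mem_union, Finset.mem_union] at this
        show ((g (s ∪ S) z ∈ A ∨ g (s ∪ S) z ∈ s) ∨ g (s ∪ S) z ∈ S) ↔ ((z ∈ A ∨ z ∈ s) ∨ z ∈ S)
        tauto
      have hcv : conj (v * conj v) = v * conj v := by rw [hvv, Complex.conj_ofReal]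
      rcases htypes _ hsS with ⟨c, hc, hgc⟩ | ⟨a, hga⟩ | hgr
      · refine ⟨(c.re : ℂ), fun _ => hrel S hSA _ hP ?_ _ ?_ ?_⟩
        · intro z
          apply zeta_inj hv
          rw [hgc, sub_mul, hgc]; ring
        · intro z
          simp only [hX]
          rw [hgc, Complex.sub_re]; push_cast; ring
        · intro z
          simp only [hY, hYr]
          rw [hgc, Complex.sub_im, hc]
          congr 1; ring
      · refine ⟨(a : ℂ), fun _ => hrel S hSA _ hP ?_ _ ?_ ?_⟩
        · intro z
          apply zeta_inj hv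
          rw [hga, sub_mul, hga, add_mul, map_add, hcv]; ring
        · intro z
          simp only [hX]
          rw [hga, Complex.sub_re, Complex.ofReal_re, Complex.conj_re]; push_cast; ring
        · intro z
          simp only [hY, hYr]
          rw [hga, Complex.sub_im, Complex.ofReal_im, Complex.conj_im]
          congr 1; ring
      · exfalso
        have hgw : g (s ∪ S) w0 = r0 := by
          apply zeta_inj hv
          rw [hgr, hr0, hrhov]
        have := i3 w0
        rw [hgw, Finset.mem_union, Finset.mem_union] at this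
        have n1 : r0 ∉ s := fun h => hr0ne (hs0 r0 h)
        have n2 : r0 ∉ S := fun h => (hSm r0 h).1 rfl
        have n3 : w0 ∉ S := fun h => (hSm w0 h).2.1 rfl
        have n4 := hA w0 hw0
        tauto
    choose a ha using hex
    exact ⟨N, p1, p2, p3, M, m1, a, fun S hS => ha S hS⟩
  -- the reflections in the axis and in vertical lines
  have hkn : ‖v / conj v‖ = 1 := by
    rw [norm_div, Complex.norm_conj, div_self (norm_ne_zero_iff.2 hv)]
  have hinjXY : ∀ z w, (z * conj v).re = (w * conj v).re → Yr z = Yr w → z = w := by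
    intro z w h1 h2
    apply zeta_inj hv
    apply Complex.ext h1
    simp only [hYr] at h2
    linarith
  set Xr : ℂ → ℝ := fun z => (z * conj v).re with hXr
  by_cases hV : 5 ≤ (W.image Xr).card
  · -- many columns
    obtain ⟨w0, hw0, hw0ne⟩ := hnc (v / conj v) (β * Complex.I / conj v) hkn
    have hY0 : Yr w0 ≠ 0 := by
      intro h0
      apply hw0ne
      apply hinjXY
      · have e : v / conj v * conj w0 + β * Complex.I / conj v = rho w0 := by
          simp only [hrho, map_mul, Complex.conj_conj]; ring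
        rw [e]; exact hrhoX w0
      · have e : v / conj v * conj w0 + β * Complex.I / conj v = rho w0 := by
          simp only [hrho, map_mul, Complex.conj_conj]; ring
        rw [e, hrhoY, h0]; simp
    obtain ⟨N, p1, p2, p3, M, m1, a, hrel⟩ := core w0 hw0 hY0
    set W' := (W.erase w0).erase (rho w0) with hW'
    have hc4 : 4 ≤ (W'.image Xr).card := by
      have hsub : (W.image Xr).erase (Xr w0) ⊆ W'.image Xr := by
        intro x hx
        rw [Finset.mem_erase, Finset.mem_image] at hx
        obtain ⟨hx1, w, hw, rfl⟩ := hx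
        rw [Finset.mem_image]
        refine ⟨w, ?_, rfl⟩
        rw [hW', Finset.mem_erase, Finset.mem_erase]
        refine ⟨?_, ?_, hw⟩
        · rintro rfl; exact hx1 (hrhoX w0)
        · rintro rfl; exact hx1 rfl
      have h1 := Finset.card_le_card hsub
      have h2 := Finset.pred_card_le_card_erase (s := W.image Xr) (a := Xr w0)
      omega
    obtain ⟨V, hVsub, hVc⟩ := Finset.exists_subset_card_eq hc4
    have hsurj : Set.SurjOn Xr (W' : Set ℂ) (V : Set ℝ) := by
      intro x hx
      have := hVsub hx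
      rw [Finset.mem_image] at this
      obtain ⟨w, hw, rfl⟩ := this
      exact ⟨w, hw, rfl⟩
    obtain ⟨T, hTW, hTinj, hTV⟩ := Finset.exists_subset_injOn_image_eq_of_surjOn _ _ hsurj
    have hTc : T.card = 4 := by
      have hh := Finset.card_image_of_injOn hTinj
      have : T.image Xr = V := by
        apply Finset.coe_injective
        rw [Finset.coe_image]
        first
          | exact hTV
          | exact_mod_cast hTV
      rw [this, hVc] at hh
      exact hh.symm
    have hTW' : T ⊆ W' := by exact_mod_cast hTW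
    refine abs_four T hTc X ?_ N p1 p2 p3 a fun S hS => ?_
    · intro x hx y hy hxy
      apply hTinj hx hy
      simp only [hX] at hxy
      exact_mod_cast hxy
    · obtain ⟨r1, r2, r3⟩ := hrel S (hS.trans hTW')
      exact ⟨r1, r2⟩
  · -- few columns
    push Not at hV
    obtain ⟨x, hx, hfib⟩ := Finset.exists_lt_card_fiber_of_mul_lt_card_of_maps_to
      (s := W) (t := W.image Xr) (f := Xr) (n := 4)
      (fun w hw => Finset.mem_image_of_mem _ hw) (by omega)
    set Wm := W.filter fun w => Xr w = x with hWm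
    -- a point outside the column
    obtain ⟨w1, hw1, hw1ne⟩ := hnc (-(v / conj v)) (2 * x / conj v) (by rw [norm_neg]; exact hkn)
    have hw1x : Xr w1 ≠ x := by
      intro h0
      apply hw1ne
      apply zeta_inj hv
      have e : (-(v / conj v) * conj w1 + 2 * x / conj v) * conj v
          = 2 * x - conj (w1 * conj v) := by
        rw [map_mul, Complex.conj_conj]; field_simp; ring
      rw [e]
      apply Complex.ext
      · simp only [hXr] at h0
        rw [Complex.sub_re, Complex.conj_re, h0]; simp; ring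
      · rw [Complex.sub_im, Complex.conj_im]; simp
    -- three different values of Y on the column
    have him : 3 ≤ (Wm.image fun w => Yr w ^ 2).card := by
      have h1 := Finset.card_le_mul_card_image (f := fun w => Yr w ^ 2) Wm 2 (by
        intro y hy
        rw [Finset.mem_image] at hy
        obtain ⟨w, hw, rfl⟩ := hy
        refine (Finset.card_le_card (t := {w, rho w}) ?_).trans Finset.card_le_two
        intro z hz
        rw [Finset.mem_filter] at hz
        rw [Finset.mem_insert, Finset.mem_singleton]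
        have e1 : Xr z = Xr w := by
          rw [hWm, Finset.mem_filter] at hw
          have := hz.1
          rw [hWm, Finset.mem_filter] at this
          rw [this.2, hw.2]
        rcases sq_eq_sq_iff_eq_or_eq_neg.1 hz.2 with h | h
        · left; exact hinjXY _ _ e1 h
        · right
          apply hinjXY
          · rw [hrhoX]; exact e1
          · rw [hrhoY]; exact h)
      omega
    set I := Wm.image fun w => Yr w ^ 2 with hI
    obtain ⟨y0, hy0⟩ := Finset.card_pos.1 (show 0 < (I.erase 0).card by
      have := Finset.pred_card_le_card_erase (s := I) (a := 0)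
      omega)
    rw [Finset.mem_erase] at hy0
    obtain ⟨y1, hy1, y2, hy2, hy12⟩ := Finset.one_lt_card.1 (show 1 < (I.erase y0).card by
      rw [Finset.card_erase_of_mem hy0.2]; omega)
    rw [Finset.mem_erase] at hy1 hy2
    have getw : ∀ y ∈ I, ∃ w ∈ W, Xr w = x ∧ Yr w ^ 2 = y := by
      intro y hy
      rw [hI, Finset.mem_image] at hy
      obtain ⟨w, hw, rfl⟩ := hy
      rw [hWm, Finset.mem_filter] at hw
      exact ⟨w, hw.1, hw.2, rfl⟩
    obtain ⟨w0, hw0, hx0, hyy0⟩ := getw y0 hy0.2
    obtain ⟨u1, hu1, hxu1, hyu1⟩ := getw y1 hy1.2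
    obtain ⟨u2, hu2, hxu2, hyu2⟩ := getw y2 hy2.2
    have hY0 : Yr w0 ≠ 0 := by
      intro h0
      rw [h0] at hyy0
      apply hy0.1
      rw [← hyy0]; norm_num
    obtain ⟨N, p1, p2, p3, M, m1, a, hrel⟩ := core w0 hw0 hY0
    set W' := (W.erase w0).erase (rho w0) with hW'
    have hu1W : u1 ∈ W' := by
      rw [hW', Finset.mem_erase, Finset.mem_erase]
      refine ⟨?_, ?_, hu1⟩
      · rintro rfl
        apply hy1.1
        rw [← hyu1, ← hyy0, hrhoY]; ring
      · rintro rfl
        exact hy1.1 (hyu1.symm.trans hyy0)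
    have hu2W : u2 ∈ W' := by
      rw [hW', Finset.mem_erase, Finset.mem_erase]
      refine ⟨?_, ?_, hu2⟩
      · rintro rfl
        apply hy2.1
        rw [← hyu2, ← hyy0, hrhoY]; ring
      · rintro rfl
        exact hy2.1 (hyu2.symm.trans hyy0)
    have hw1W : w1 ∈ W' := by
      rw [hW', Finset.mem_erase, Finset.mem_erase]
      refine ⟨?_, ?_, hw1⟩
      · rintro rfl
        apply hw1x
        rw [← hx0]; exact hrhoX w0
      · rintro rfl
        exact hw1x hx0
    refine abs_col u1 u2 w1 X Y ?_ ?_ ?_ N p1 M m1 a ?_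
    · simp only [hX]
      have e1 : (u1 * conj v).re = x := hxu1
      have e2 : (u2 * conj v).re = x := hxu2
      rw [e1, e2]
    · simp only [hY]
      intro h
      apply hy12
      rw [← hyu1, ← hyu2]
      exact_mod_cast h
    · simp only [hX]
      intro h
      apply hw1x
      have e1 : (u1 * conj v).re = x := hxu1
      rw [e1] at h
      exact_mod_cast h
    · intro S hS
      obtain ⟨r1, r2, r3⟩ := hrel S (hS.trans (by
        intro z hz
        simp only [Finset.mem_insert, Finset.mem_singleton] at hz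
        rcases hz with rfl | rfl | rfl
        · exact hu1W
        · exact hu2W
        · exact hw1W))
      exact ⟨r1, r3⟩

end Pool.Agent.R174.Pl
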