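import Pool.Agent.R174.PlI

/-!
# Distinguishing extension number of the plane under all isometries, part J

No almost periods, and the main combinatorial theorem.
-/

namespace Pool.Agent.R174.Pl

open ComplexConjugate

lemma perm_inv (g : Equiv.Perm ℂ) (z : ℂ) : g (g⁻¹ z) = z := g.apply_symm_apply z

lemma finInv_inv {A : Set ℂ} {g : Equiv.Perm ℂ} (hg : FinInv A g) : FinInv A g⁻¹ := by
  refine (hg.preimage (f := (g⁻¹ : Equiv.Perm ℂ)) (g⁻¹ : Equiv.Perm ℂ).injective.injOn).subset ?_
  intro z hz hc
  apply hz
  rw [perm_inv] at hc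
  exact hc.symm

lemma trFin_of_perm {A : Set ℂ} {g : Equiv.Perm ℂ} (hg : FinInv A g) {t : ℂ}
    (h : ∀ z, g z = z + t) : TrFin A t := by
  unfold FinInv at hg
  unfold TrFin
  simpa only [h] using hg

lemma not_comm {A : Set ℂ} {S : Finset ℂ} {w : ℂ} (hwA : w ∉ A) (hwS : w ∉ S)
    {g g' : Equiv.Perm ℂ} [DecidableEq ℂ] (hg : Pres A S g) (hg' : Pres A (insert w S) g')
    (hc : ∀ z, g (g' z) = g' (g z)) : g w = w ∨ g' w = w := by
  by_contra hcon
  push Not at hcon
  obtain ⟨h1, h2⟩ := hcon
  have a1 : g' w ∈ A ∨ g' w ∈ S := by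
    have := (hg' w).2 (Or.inr (Finset.mem_insert_self _ _))
    rw [Finset.mem_insert] at this
    tauto
  have a2 := (hg _).2 a1
  rw [hc] at a2
  have a3 := (hg' (g w)).1 (by
    rw [Finset.mem_insert]
    tauto)
  rw [Finset.mem_insert] at a3
  have a4 : g w ∈ A ∨ g w ∈ S := by tauto
  have a5 := (hg w).1 a4
  tauto

/-- if an extension with `w` is preserved by `g`, and `g w = w`, then so is the one without. -/
lemma pres_erase {A : Set ℂ} {S : Finset ℂ} {w : ℂ} (hwA : w ∉ A) (hwS : w ∉ S)
    {g : Equiv.Perm ℂ} [DecidableEq ℂ] (hg : Pres A (insert w S) g) (hw : g w = w) :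
    Pres A S g := by
  intro z
  have h1 := hg z
  rw [Finset.mem_insert, Finset.mem_insert] at h1
  by_cases hz : z = w
  · rw [hz, hw]
  · have hgz : g z ≠ w := by
      intro h
      apply hz
      apply g.injective
      rw [h, hw]
    tauto

/-- final step: the same map preserves two extensions differing in a moved point -/
lemma same_map {A : Set ℂ} {w : ℂ} (hwA : w ∉ A) {g : Equiv.Perm ℂ}
    (h1 : Pres A ∅ g) (h2 : Pres A {w} g) (hw : g w ≠ w) : False := by
  have a1 := (h2 w).2 (Or.inr (by simp))
  rw [Finset.mem_singleton] at a1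
  have a2 : g w ∈ A := by tauto
  have a3 := (h1 w).1 (Or.inl a2)
  simp only [Finset.notMem_empty, or_false] at a3
  exact hwA a3

lemma centre_of_rot {A : Set ℂ} (hL : ∀ x, TrFin A x → x = 0) {O l : ℂ} (hl : ‖l‖ = 1)
    (hl1 : l ≠ 1) {θ : Equiv.Perm ℂ} (hθf : ∀ z, θ z = O + l * (z - O)) (hθ : FinInv A θ)
    {g : Equiv.Perm ℂ} (hiso : IsIso g) (hg : FinInv A g) : g O = O := by
  have hll := unit_mul_conj hl
  have hsymm : ∀ w, θ⁻¹ w = O + conj l * (w - O) := by
    intro w
    rw [Equiv.Perm.inv_def, Equiv.symm_apply_eq, hθf]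
    linear_combination (O - w) * hll
  obtain ⟨u, b, hu, h | h⟩ := hiso
  · have hfi := finInv_mul (finInv_mul (finInv_mul hg hθ) (finInv_inv hg)) (finInv_inv hθ)
    have ht := hL _ (trFin_of_perm hfi (t := (1 - l) * (g O - O)) (fun z => by
      simp only [Equiv.Perm.mul_apply]
      set y := g⁻¹ (θ⁻¹ z) with hy
      have h1 : g y = θ⁻¹ z := by rw [hy, perm_inv]
      rw [hsymm] at h1
      have h2 : g (θ y) = g O + l * (g y - g O) := by
        rw [h, h, h, hθf]; ring
      rw [h2, h1]
      linear_combination (z - O) * hll))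
    have h3 := (mul_eq_zero.1 ht).resolve_left (sub_ne_zero.2 (Ne.symm hl1))
    linear_combination h3
  · have hfi := finInv_mul (finInv_mul (finInv_mul hg hθ) (finInv_inv hg)) hθ
    have ht := hL _ (trFin_of_perm hfi (t := (1 - conj l) * (g O - O)) (fun z => by
      simp only [Equiv.Perm.mul_apply]
      set y := g⁻¹ (θ z) with hy
      have h1 : g y = θ z := by rw [hy, perm_inv]
      rw [hθf] at h1
      have h2 : g (θ y) = g O + conj l * (g y - g O) := by
        rw [h, h, h, hθf, map_add, map_mul, map_sub]; ring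
      rw [h2, h1]
      linear_combination (z - O) * hll))
    have hl1' : 1 - conj l ≠ 0 := by
      intro h0
      apply hl1
      have : conj l = 1 := by linear_combination -h0
      rw [this] at hll
      linear_combination hll
    have h3 := (mul_eq_zero.1 ht).resolve_left hl1'
    linear_combination h3

lemma case_rank_zero (A : Set ℂ) (W : Finset ℂ) (hW : 7 ≤ W.card) (hnc : NonCol W)
    (hA : ∀ w ∈ W, w ∉ A)
    (g : Finset ℂ → Equiv.Perm ℂ) (hg : ∀ S ⊆ W, IsIso (g S) ∧ g S ≠ 1 ∧ Pres A S (g S))
    (hL : ∀ x, TrFin A x → x = 0) : False := by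
  classical
  have hfi : ∀ S ⊆ W, FinInv A (g S) := fun S hS => finInv_of_pres (hg S hS).2.2
  by_cases h1 : ∃ (O l : ℂ) (θ : Equiv.Perm ℂ), ‖l‖ = 1 ∧ l ≠ 1 ∧ (∀ z, θ z = O + l * (z - O)) ∧
      FinInv A θ
  · by_cases h2 : ∃ (O l : ℂ) (θ : Equiv.Perm ℂ), ‖l‖ = 1 ∧ l ≠ 1 ∧ l ^ 2 ≠ 1 ∧
      (∀ z, θ z = O + l * (z - O)) ∧ FinInv A θ
    · obtain ⟨O, l, θ, hl, hl1, hl2, hθf, hθ⟩ := h2
      obtain ⟨k, hk, hkW, -⟩ := fixed_centre A W hW hA O l hl hl1 hl2 θ hθf hθ (by
        intro S hS
        obtain ⟨i1, i2, i3⟩ := hg S hS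
        exact ⟨g S, i3, fixC_of_iso i1 i2 (centre_of_rot hL hl hl1 hθf hθ i1 (hfi S hS))⟩)
      obtain ⟨w, hw, hwne⟩ := hnc k (O - k * conj O) hk
      apply hwne
      have := hkW w hw
      rw [map_sub] at this
      linear_combination this
    · push Not at h2
      obtain ⟨O, l, θ, hl, hl1, hθf, hθ⟩ := h1
      have hfix : ∀ S ⊆ W, FixC O (g S) := by
        intro S hS
        obtain ⟨i1, i2, i3⟩ := hg S hS
        exact fixC_of_iso i1 i2 (centre_of_rot hL hl hl1 hθf hθ i1 (hfi S hS))
      have hsq : ∀ (h : Equiv.Perm ℂ) (m : ℂ), ‖m‖ = 1 → (∀ z, h z = O + m * (z - O)) →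
          FinInv A h → m ^ 2 = 1 := by
        intro h m hm hh hhA
        by_cases hm1 : m = 1
        · rw [hm1]; norm_num
        · by_contra hne
          exact h2 O m h hm hm1 hne hh hhA
      -- all symmetries commute
      have hcomm : ∀ S ⊆ W, ∀ T ⊆ W, ∀ z, g S (g T z) = g T (g S z) := by
        intro S hS T hT z
        obtain ⟨k, hk, hkS⟩ := hfix S hS
        obtain ⟨m, hm, hmT⟩ := hfix T hT
        rcases hkS with ⟨hk1, hkS⟩ | hkS <;> rcases hmT with ⟨hm1, hmT⟩ | hmT
        · rw [hmT, hkS, hkS, hmT]; ring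
        · have hkk := hsq (g S) k hk hkS (hfi S hS)
          have : k = -1 := by
            have h3 : (k - 1) * (k + 1) = 0 := by linear_combination hkk
            rcases mul_eq_zero.1 h3 with h4 | h4
            · exact absurd (by linear_combination h4) hk1
            · linear_combination h4
          rw [hmT, hkS, hkS, hmT, this]
          simp only [add_sub_cancel_left, map_mul, map_neg, map_one]
          ring
        · have hmm := hsq (g T) m hm hmT (hfi T hT)
          have : m = -1 := by
            have h3 : (m - 1) * (m + 1) = 0 := by linear_combination hmm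
            rcases mul_eq_zero.1 h3 with h4 | h4
            · exact absurd (by linear_combination h4) hm1
            · linear_combination h4
          rw [hmT, hkS, hkS, hmT, this]
          simp only [add_sub_cancel_left, map_mul, map_neg, map_one]
          ring
        · have hnm : ‖k * conj m‖ = 1 := by rw [norm_mul, Complex.norm_conj, hk, hm, one_mul]
          have hcomp : ∀ z, (g S * g T) z = O + (k * conj m) * (z - O) := by
            intro z
            rw [Equiv.Perm.mul_apply, hmT, hkS]
            simp only [add_sub_cancel_left, map_mul, Complex.conj_conj]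
            ring
          have hs := hsq _ _ hnm hcomp (finInv_mul (hfi S hS) (hfi T hT))
          have hkk := unit_mul_conj hk
          have hmm := unit_mul_conj hm
          rw [hmT, hkS, hkS, hmT]
          simp only [add_sub_cancel_left, map_mul, Complex.conj_conj]
          have e : k * conj m = m * conj k := by
            linear_combination (m * conj k) * hs - (k * conj m) * (m * conj m) * hkk
              - (k * conj m) * hmm
          linear_combination (z - O) * e
      -- a point different from the centre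
      obtain ⟨w, hw⟩ := Finset.card_pos.1 (show 0 < (W.erase O).card by
        have := Finset.pred_card_le_card_erase (s := W) (a := O)
        omega)
      have hwO := Finset.ne_of_mem_erase hw
      have hwW := Finset.mem_of_mem_erase hw
      have hwne : w - O ≠ 0 := sub_ne_zero.2 hwO
      have hwc : conj (w - O) ≠ 0 := (map_ne_zero _).2 hwne
      set k : ℂ := (w - O) / conj (w - O) with hk
      have hform : ∀ S ⊆ W, g S w = w → ∀ z, g S z = O + k * conj (z - O) := by
        intro S hS hSw z
        obtain ⟨m, hm, hmS | hmS⟩ := hfix S hS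
        · exfalso
          obtain ⟨hm1, hmS⟩ := hmS
          rw [hmS] at hSw
          apply hm1
          apply mul_right_cancel₀ hwne
          linear_combination hSw
        · rw [hmS] at hSw ⊢
          have : m = k := by
            rw [hk]; field_simp; linear_combination hSw
          rw [this]
      have claim : ∀ S ⊆ W, w ∉ S → ∃ h : Equiv.Perm ℂ, Pres A S h ∧
          ∀ z, h z = O + k * conj (z - O) := by
        intro S hS hwS
        have hS' : insert w S ⊆ W := Finset.insert_subset hwW hS
        rcases not_comm (hA w hwW) hwS (hg S hS).2.2 (hg _ hS').2.2 (hcomm S hS _ hS') with h3 | h3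
        · exact ⟨g S, (hg S hS).2.2, hform S hS h3⟩
        · exact ⟨g (insert w S), pres_erase (hA w hwW) hwS (hg _ hS').2.2 h3, hform _ hS' h3⟩
      have hkn : ‖k‖ = 1 := by
        rw [hk, norm_div, Complex.norm_conj, div_self (norm_ne_zero_iff.2 hwne)]
      obtain ⟨w', hw', hw'ne⟩ := hnc k (O - k * conj O) hkn
      have hww' : w ≠ w' := by
        rintro rfl
        apply hw'ne
        rw [hk]
        rw [map_sub] at hwc ⊢
        field_simp
        ring
      obtain ⟨h, hh1, hh2⟩ := claim ∅ (by simp) (by simp)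
      obtain ⟨h', hh1', hh2'⟩ := claim {w'} (by simpa using hw') (by simpa using hww')
      have heq : h = h' := by
        ext z; rw [hh2, hh2']
      rw [← heq] at hh1'
      refine same_map (hA w' hw') hh1 hh1' ?_
      rw [hh2, map_sub]
      intro h0
      apply hw'ne
      linear_combination h0
  · -- no rotations
    push Not at h1
    have hrefl : ∀ S ⊆ W, ∃ u b : ℂ, ‖u‖ = 1 ∧ ∀ z, g S z = u * conj z + b := by
      intro S hS
      obtain ⟨i1, i2, i3⟩ := hg S hS
      obtain ⟨u, b, hu, h | h⟩ := i1
      · exfalso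
        by_cases hu1 : u = 1
        · apply i2
          have hb := hL b (trFin_of_perm (hfi S hS) (fun z => by rw [h, hu1, one_mul]))
          ext z
          rw [h, hu1, hb]; simp
        · refine h1 (b / (1 - u)) u (g S) hu hu1 (fun z => ?_) (hfi S hS)
          have : 1 - u ≠ 0 := sub_ne_zero.2 (Ne.symm hu1)
          rw [h]; field_simp; ring
      · exact ⟨u, b, hu, h⟩
    have hsame : ∀ S ⊆ W, ∀ T ⊆ W, g S = g T := by
      intro S hS T hT
      obtain ⟨u, b, hu, h⟩ := hrefl S hS
      obtain ⟨u', b', hu', h'⟩ := hrefl T hT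
      have huu := unit_mul_conj hu
      have huu' := unit_mul_conj hu'
      have comp : ∀ z, (g S * g T) z = (u * conj u') * z + (u * conj b' + b) := by
        intro z
        rw [Equiv.Perm.mul_apply, h', h, map_add, map_mul, Complex.conj_conj]; ring
      have compS : ∀ z, (g S * g S) z = z + (u * conj b + b) := by
        intro z
        rw [Equiv.Perm.mul_apply, h, h, map_add, map_mul, Complex.conj_conj]
        linear_combination z * huu
      have compT : ∀ z, (g T * g T) z = z + (u' * conj b' + b') := by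
        intro z
        rw [Equiv.Perm.mul_apply, h', h', map_add, map_mul, Complex.conj_conj]
        linear_combination z * huu'
      have hST := finInv_mul (hfi S hS) (hfi T hT)
      have e1 : u * conj u' = 1 := by
        by_contra hne
        refine h1 ((u * conj b' + b) / (1 - u * conj u')) (u * conj u') _
          (by rw [norm_mul, Complex.norm_conj, hu, hu', one_mul]) hne (fun z => ?_) hST
        have : 1 - u * conj u' ≠ 0 := sub_ne_zero.2 (Ne.symm hne)
        rw [comp]; field_simp; ring
      have e2 : u = u' := by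
        linear_combination u' * e1 - u * huu'
      have t1 := hL _ (trFin_of_perm hST (t := u * conj b' + b) (fun z => by
        rw [comp, e1, one_mul]))
      have t3 := hL _ (trFin_of_perm (finInv_mul (hfi T hT) (hfi T hT)) compT)
      have e3 : b = b' := by
        rw [← e2] at t3
        linear_combination t1 - t3
      ext z
      rw [h, h', e2, e3]
    obtain ⟨u, b, hu, h⟩ := hrefl ∅ (by simp)
    obtain ⟨w, hw, hwne⟩ := hnc u b hu
    have hwW : ({w} : Finset ℂ) ⊆ W := by simpa using hw
    have e := hsame ∅ (by simp) {w} hwW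
    have p2 := (hg {w} hwW).2.2
    rw [← e] at p2
    refine same_map (hA w hw) (hg ∅ (by simp)).2.2 p2 ?_
    rw [h]; exact hwne

/-- **Main theorem.** Any partial two-colouring of the plane leaving at least 17 points
uncoloured, not all on one line, extends to a two-colouring preserved by no nontrivial isometry. -/
theorem exists_extension (A : Set ℂ) (W : Finset ℂ) (hW : 17 ≤ W.card) (hnc : NonCol W)
    (hA : ∀ w ∈ W, w ∉ A) :
    ∃ S ⊆ W, ∀ g : Equiv.Perm ℂ, IsIso g → Pres A S g → g = 1 := by
  classical
  by_contra hcon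
  push Not at hcon
  have hex : ∀ S : Finset ℂ, ∃ g : Equiv.Perm ℂ, S ⊆ W → (IsIso g ∧ g ≠ 1 ∧ Pres A S g) := by
    intro S
    by_cases hS : S ⊆ W
    · obtain ⟨g, h1, h2, h3⟩ := hcon S hS
      exact ⟨g, fun _ => ⟨h1, h3, h2⟩⟩
    · exact ⟨1, fun h => absurd h hS⟩
  choose g hg using hex
  by_cases c1 : ∃ S0 ⊆ W, ∃ b0 : ℂ, b0 ≠ 0 ∧ ∀ z, (z + b0 ∈ A ∨ z + b0 ∈ S0) ↔ (z ∈ A ∨ z ∈ S0)
  · obtain ⟨S0, hS0, b0, hb0, hinv⟩ := c1
    exact case_translation A W (by omega) hnc hA g hg S0 hS0 b0 hb0 hinv
  push Not at c1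
  by_cases c2 : ∃ v v' : ℂ, TrFin A v ∧ TrFin A v' ∧ (v' * conj v).im ≠ 0
  · obtain ⟨v, v', h1, h2, h3⟩ := c2
    exact case_rank_two A W (by omega) hnc hA g hg v v' h3 h1 h2
  push Not at c2
  by_cases c3 : ∃ v : ℂ, v ≠ 0 ∧ TrFin A v
  · obtain ⟨v, hv, hvA⟩ := c3
    refine case_rank_one A W hW hnc hA g hg ?_ v hv hvA (fun x hx => c2 v x hvA hx)
    intro S hS b hb hall
    obtain ⟨z, hz⟩ := c1 S hS b hb
    have := hall z
    tauto
  · push Not at c3
    refine case_rank_zero A W (by omega) hnc hA g hg ?_
    intro x hx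
    by_contra hx0
    exact c3 x hx0 hx

end Pool.Agent.R174.Pl
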