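import Pool.Agent.R174.PlE

/-!
# Distinguishing extension number of the plane under all isometries, part K

Finite colour classes: balanced supports of the enclosing circle, and layer sums.
-/

namespace Pool.Agent.R174.Pl

open ComplexConjugate

/-- `O` is in the convex hull of `T`: no half plane strictly contains `T - O`. -/
def Bal (O : ℂ) (T : Finset ℂ) : Prop := ∀ v : ℂ, ∃ t ∈ T, ((t - O) * conj v).re ≤ 0

/-- smallest enclosing circle with support `T` -/
def Enc (B : Finset ℂ) (O : ℂ) (r : ℝ) (T : Finset ℂ) : Prop :=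
  (∀ z ∈ B, dist z O ≤ r) ∧ T ⊆ B ∧ T.card ≤ 3 ∧ (∀ t ∈ T, dist t O = r) ∧ Bal O T

lemma dist_sq (t O x : ℂ) :
    dist t x ^ 2 = dist t O ^ 2 - 2 * ((t - O) * conj (x - O)).re + dist x O ^ 2 := by
  rw [dist_eq_norm, dist_eq_norm, dist_eq_norm, Complex.sq_norm, Complex.sq_norm, Complex.sq_norm,
    Complex.normSq_apply, Complex.normSq_apply, Complex.normSq_apply]
  simp only [Complex.sub_re, Complex.sub_im, Complex.mul_re, map_sub, Complex.conj_re,
    Complex.conj_im]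
  ring

lemma exists_enc (B : Finset ℂ) (hB : B.Nonempty) : ∃ O r T, Enc B O r T := by
  classical
  obtain ⟨O, r, hOr, T0, hT0B, hT03, hT0⟩ := enclosing B hB
  refine ⟨O, r, T0.filter fun t => dist t O = r, hOr, (Finset.filter_subset _ _).trans hT0B,
    (Finset.card_le_card (Finset.filter_subset _ _)).trans hT03,
    fun t ht => (Finset.mem_filter.1 ht).2, ?_⟩
  intro v
  by_contra hcon
  push Not at hcon
  have hev : ∀ᶠ ε : ℝ in nhdsWithin 0 (Set.Ioi 0), ∀ t ∈ T0, dist t (O + ε * v) < r := by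
    rw [Finset.eventually_all]
    intro t ht
    by_cases htr : dist t O = r
    · have hpos := hcon t (Finset.mem_filter.2 ⟨ht, htr⟩)
      have hlim : Filter.Tendsto (fun ε : ℝ => ε * Complex.normSq v) (nhdsWithin 0 (Set.Ioi 0))
          (nhds 0) := by
        have : Filter.Tendsto (fun ε : ℝ => ε * Complex.normSq v) (nhds 0)
            (nhds (0 * Complex.normSq v)) := Filter.tendsto_id.mul_const _
        rw [zero_mul] at this
        exact this.mono_left nhdsWithin_le_nhds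
      have h1 := hlim.eventually (gt_mem_nhds (show (0 : ℝ) < 2 * ((t - O) * conj v).re by linarith))
      filter_upwards [h1, self_mem_nhdsWithin] with ε h2 h3
      have h3' : 0 < ε := h3
      have h4 := dist_sq t O (O + ε * v)
      have e1 : ((t - O) * conj (O + ε * v - O)).re = ε * ((t - O) * conj v).re := by
        rw [add_sub_cancel_left, map_mul, Complex.conj_ofReal]
        simp only [Complex.mul_re, Complex.mul_im, Complex.ofReal_re, Complex.ofReal_im]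
        ring
      have e2 : dist (O + ε * v) O ^ 2 = ε ^ 2 * Complex.normSq v := by
        rw [dist_eq_norm, add_sub_cancel_left, Complex.sq_norm, map_mul, Complex.normSq_ofReal]
        ring
      rw [e1, e2, htr] at h4
      have h5 : dist t (O + ε * v) ^ 2 < r ^ 2 := by nlinarith
      have hr : 0 ≤ r := by rw [← htr]; exact dist_nonneg
      exact lt_of_pow_lt_pow_left₀ 2 hr h5
    · have hlt : dist t O < r := lt_of_le_of_ne (hOr t (hT0B ht)) htr
      have hc : Filter.Tendsto (fun ε : ℝ => dist t (O + ε * v)) (nhds 0)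
          (nhds (dist t (O + (0 : ℝ) * v))) := by
        have : Continuous fun ε : ℝ => dist t (O + ε * v) := by fun_prop
        exact this.tendsto 0
      rw [Complex.ofReal_zero, zero_mul, add_zero] at hc
      exact (hc.mono_left nhdsWithin_le_nhds).eventually (gt_mem_nhds hlt)
  obtain ⟨ε, hε⟩ := hev.exists
  obtain ⟨t, ht, htr⟩ := hT0 (O + ε * v)
  exact absurd (hε t ht) (not_lt.2 htr)

lemma bal_dist {O : ℂ} {r : ℝ} {T : Finset ℂ} (hT : ∀ t ∈ T, dist t O = r) (hb : Bal O T) (x : ℂ) :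
    ∃ t ∈ T, r ^ 2 + dist x O ^ 2 ≤ dist t x ^ 2 := by
  obtain ⟨t, ht, h⟩ := hb (x - O)
  refine ⟨t, ht, ?_⟩
  have := dist_sq t O x
  rw [hT t ht] at this
  linarith

lemma enc_unique {B B' T T' : Finset ℂ} {O O' : ℂ} {r r' : ℝ} (h : Enc B O r T)
    (h' : Enc B' O' r' T') (h1 : ∀ t ∈ T, dist t O' ≤ r') (h2 : ∀ t ∈ T', dist t O ≤ r) :
    O' = O ∧ r' = r := by
  obtain ⟨a1, a2, a3, a4, a5⟩ := h
  obtain ⟨b1, b2, b3, b4, b5⟩ := h'
  obtain ⟨t, ht, htd⟩ := bal_dist a4 a5 O'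
  obtain ⟨s, hs, hsd⟩ := bal_dist b4 b5 O
  have c1 := h1 t ht
  have c2 := h2 s hs
  have c3 : dist t O' ^ 2 ≤ r' ^ 2 := pow_le_pow_left₀ dist_nonneg c1 2
  have c4 : dist s O ^ 2 ≤ r ^ 2 := pow_le_pow_left₀ dist_nonneg c2 2
  rw [dist_comm O O'] at hsd
  have h0 : dist O' O ^ 2 = 0 := le_antisymm (by linarith) (sq_nonneg _)
  have hO : O' = O := dist_eq_zero.1 (pow_eq_zero_iff (two_ne_zero) |>.1 h0)
  refine ⟨hO, ?_⟩
  have hr : 0 ≤ r := by rw [← a4 t ht]; exact dist_nonneg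
  have hr' : 0 ≤ r' := by rw [← b4 s hs]; exact dist_nonneg
  have : r' ^ 2 = r ^ 2 := by nlinarith
  exact (pow_left_inj₀ hr' hr two_ne_zero).1 this

/-- `K` has a nontrivial symmetry fixing `O` -/
def Sym (O : ℂ) (K : Finset ℂ) : Prop :=
  ∃ g : Equiv.Perm ℂ, FixC O g ∧ ∀ z, g z ∈ K ↔ z ∈ K

/-- all extensions are symmetric -/
def AllSym (F W : Finset ℂ) : Prop :=
  ∀ S ⊆ W, ∃ g : Equiv.Perm ℂ, IsIso g ∧ g ≠ 1 ∧ ∀ z, g z ∈ F ∪ S ↔ z ∈ F ∪ S

lemma AllSym.mono {F W W' : Finset ℂ} (h : AllSym F W) (hW : W' ⊆ W) : AllSym F W' :=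
  fun S hS => h S (hS.trans hW)

lemma sym_of' {F W T S : Finset ℂ} {O : ℂ} {r : ℝ} (h : AllSym F W)
    (a1 : ∀ z ∈ F ∪ W, dist z O ≤ r) (a4 : ∀ t ∈ T, dist t O = r) (a5 : Bal O T)
    (hS : S ⊆ W) (hT : T ⊆ F ∪ S) : Sym O (F ∪ S) := by
  obtain ⟨g, hg, hg1, hi⟩ := h S hS
  refine ⟨g, fixC_of_iso hg hg1 ?_, hi⟩
  refine centre_fixed (B := F ∪ S) (r := r) (T := T) ?_ hT ?_ hg hi
  · intro z hz
    exact a1 z (Finset.union_subset_union_right hS hz)
  · intro x
    obtain ⟨t, ht, htd⟩ := bal_dist a4 a5 x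
    refine ⟨t, ht, ?_⟩
    have hr : 0 ≤ r := by rw [← a4 t ht]; exact dist_nonneg
    have : r ^ 2 ≤ dist t x ^ 2 := by nlinarith [sq_nonneg (dist x O)]
    exact (pow_le_pow_iff_left₀ hr dist_nonneg two_ne_zero).1 this

lemma sym_of {F W T S : Finset ℂ} {O : ℂ} {r : ℝ} (h : AllSym F W) (he : Enc (F ∪ W) O r T)
    (hS : S ⊆ W) (hT : T ⊆ F ∪ S) : Sym O (F ∪ S) :=
  sym_of' h he.1 he.2.2.2.1 he.2.2.2.2 hS hT

lemma fixC_dist {O : ℂ} {g : Equiv.Perm ℂ} (hg : FixC O g) (z : ℂ) : dist (g z) O = dist z O := by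
  obtain ⟨k, hk, h | h⟩ := hg
  · rw [h.2, dist_eq_norm, dist_eq_norm, add_sub_cancel_left, norm_mul, hk, one_mul]
  · rw [h, dist_eq_norm, dist_eq_norm, add_sub_cancel_left, norm_mul, hk, one_mul,
      Complex.norm_conj]

/-- layer sum -/
noncomputable def PS (O : ℂ) (K : Finset ℂ) (ρ : ℝ) : ℂ :=
  ∑ z ∈ K.filter (fun z => dist z O = ρ), (z - O)

lemma sum_inv {K : Finset ℂ} {g : Equiv.Perm ℂ} (hg : ∀ z, g z ∈ K ↔ z ∈ K) (f : ℂ → ℂ) :
    ∑ z ∈ K, f (g z) = ∑ z ∈ K, f z := by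
  refine Finset.sum_equiv g (fun z => (hg z).symm) (fun z _ => rfl)

lemma ps_sum_inv {O : ℂ} {K : Finset ℂ} {g : Equiv.Perm ℂ} (hg : FixC O g)
    (hi : ∀ z, g z ∈ K ↔ z ∈ K) (ρ : ℝ) :
    ∑ z ∈ K.filter (fun z => dist z O = ρ), (g z - O) = PS O K ρ := by
  unfold PS
  refine sum_inv (g := g) (f := fun z => z - O) ?_
  intro z
  rw [Finset.mem_filter, Finset.mem_filter, hi, fixC_dist hg]

lemma ps_rot {O : ℂ} {K : Finset ℂ} {g : Equiv.Perm ℂ} {k : ℂ} (hk : ‖k‖ = 1) (hk1 : k ≠ 1)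
    (hg : ∀ z, g z = O + k * (z - O)) (hi : ∀ z, g z ∈ K ↔ z ∈ K) (ρ : ℝ) : PS O K ρ = 0 := by
  have h := ps_sum_inv (O := O) ⟨k, hk, Or.inl ⟨hk1, hg⟩⟩ hi ρ
  have h2 : ∑ z ∈ K.filter (fun z => dist z O = ρ), (g z - O) = k * PS O K ρ := by
    unfold PS
    rw [Finset.mul_sum]
    refine Finset.sum_congr rfl fun z _ => ?_
    rw [hg]; ring
  rw [h2] at h
  have h3 : (k - 1) * PS O K ρ = 0 := by linear_combination h
  exact (mul_eq_zero.1 h3).resolve_left (sub_ne_zero.2 hk1)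

lemma ps_refl {O : ℂ} {K : Finset ℂ} {g : Equiv.Perm ℂ} {k : ℂ} (hk : ‖k‖ = 1)
    (hg : ∀ z, g z = O + k * conj (z - O)) (hi : ∀ z, g z ∈ K ↔ z ∈ K) (ρ : ℝ) :
    PS O K ρ = k * conj (PS O K ρ) := by
  have h := ps_sum_inv (O := O) ⟨k, hk, Or.inr hg⟩ hi ρ
  rw [← h]
  conv_rhs => rw [h]
  unfold PS
  rw [map_sum, Finset.mul_sum]
  refine Finset.sum_congr rfl fun z _ => ?_
  rw [hg]; ring

/-- layer sums are parallel -/
lemma ps_par {O : ℂ} {K : Finset ℂ} (h : Sym O K) (ρ ρ' : ℝ) :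
    PS O K ρ * conj (PS O K ρ') = conj (PS O K ρ) * PS O K ρ' := by
  obtain ⟨g, ⟨k, hk, hg⟩, hi⟩ := h
  rcases hg with ⟨hk1, hg⟩ | hg
  · rw [ps_rot hk hk1 hg hi ρ]; simp
  · have h1 := ps_refl hk hg hi ρ
    have h2 := ps_refl hk hg hi ρ'
    have h3 := unit_mul_conj hk
    have h4 : conj (PS O K ρ') = conj k * PS O K ρ' := by
      have := congrArg conj h2
      rwa [map_mul, Complex.conj_conj] at this
    linear_combination conj (PS O K ρ') * h1 + k * conj (PS O K ρ) * h4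
      + conj (PS O K ρ) * PS O K ρ' * h3

lemma ps_insert {O x : ℂ} {K : Finset ℂ} (hx : x ∉ K) (ρ : ℝ) [DecidableEq ℂ] :
    PS O (insert x K) ρ = (if dist x O = ρ then x - O else 0) + PS O K ρ := by
  unfold PS
  rw [Finset.filter_insert]
  split_ifs with h
  · rw [Finset.sum_insert]
    intro h1
    exact hx (Finset.mem_filter.1 h1).1
  · rw [zero_add]

lemma top_par {O x : ℂ} {K : Finset ℂ} [DecidableEq ℂ] (hx : x ∉ K) (h : Sym O K)
    (h' : Sym O (insert x K)) {ρ : ℝ} (hρ : dist x O ≠ ρ) :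
    PS O K ρ * conj (x - O) = conj (PS O K ρ) * (x - O) := by
  have h1 := ps_par h ρ (dist x O)
  have h2 := ps_par h' ρ (dist x O)
  rw [ps_insert hx, ps_insert hx, if_neg hρ, if_pos rfl, zero_add, map_add] at h2
  linear_combination h2 - h1

lemma four_sets {O x y : ℂ} {K : Finset ℂ} [DecidableEq ℂ] (hx : x ∉ K) (hy : y ∉ K)
    (hd : dist x O ≠ dist y O) (h : Sym O K)
    (h1 : Sym O (insert x K)) (h2 : Sym O (insert y K)) (h3 : Sym O (insert x (insert y K))) :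
    (x - O) * conj (y - O) = conj (x - O) * (y - O) := by
  have hxy : x ≠ y := by rintro rfl; exact hd rfl
  have hx' : x ∉ insert y K := by
    rw [Finset.mem_insert, not_or]; exact ⟨hxy, hx⟩
  have e0 := ps_par h (dist x O) (dist y O)
  have e1 := ps_par h1 (dist x O) (dist y O)
  have e2 := ps_par h2 (dist x O) (dist y O)
  have e3 := ps_par h3 (dist x O) (dist y O)
  rw [ps_insert hx, ps_insert hx, if_pos rfl, if_neg hd, zero_add, map_add] at e1
  rw [ps_insert hy, ps_insert hy, if_pos rfl, if_neg (Ne.symm hd), zero_add, map_add] at e2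
  rw [ps_insert hx', ps_insert hx', ps_insert hy, ps_insert hy, if_pos rfl, if_pos rfl,
    if_neg hd, if_neg (Ne.symm hd), zero_add, zero_add, map_add, map_add] at e3
  linear_combination e3 - e1 - e2 + e0

lemma zero_of_par {c x y : ℂ} (h1 : c * conj x = conj c * x) (h2 : c * conj y = conj c * y)
    (h : x * conj y ≠ conj x * y) : c = 0 := by
  have : c * (x * conj y - conj x * y) = 0 := by linear_combination x * h2 - y * h1
  rcases mul_eq_zero.1 this with h3 | h3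
  · exact h3
  · exact absurd (by linear_combination h3) h

/-- isosceles lemma -/
lemma iso_three {O a b c : ℂ} {K : Finset ℂ} [DecidableEq ℂ] (ha : a ∉ K) (hb : b ∉ K)
    (hc : c ∉ K) (hab : a ≠ b) (hac : a ≠ c) (hbc : b ≠ c) {r : ℝ} (hr : r ≠ 0)
    (ra : dist a O = r) (rb : dist b O = r) (rc : dist c O = r)
    (h : ∀ S : Finset ℂ, (∀ z ∈ S, z = a ∨ z = b ∨ z = c) → Sym O (K ∪ S)) :
    (a - O) ^ 2 = (b - O) * (c - O) ∨ (b - O) ^ 2 = (c - O) * (a - O) ∨
      (c - O) ^ 2 = (a - O) * (b - O) := by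
  set q1 : ℂ := ∑ z ∈ K, (z - O) with hq1
  set q2 : ℂ := ∑ z ∈ K, (z - O) ^ 2 with hq2
  have E2 : ∀ S : Finset ℂ, (∀ z ∈ S, z = a ∨ z = b ∨ z = c) →
      (q2 + ∑ w ∈ S, (w - O) ^ 2) * conj (q1 + ∑ w ∈ S, (w - O)) ^ 2
      = conj (q2 + ∑ w ∈ S, (w - O) ^ 2) * (q1 + ∑ w ∈ S, (w - O)) ^ 2 := by
    intro S hS
    have hdis : Disjoint K S := by
      rw [Finset.disjoint_left]
      intro z hz hzS
      rcases hS z hzS with rfl | rfl | rfl
      · exact ha hz
      · exact hb hz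
      · exact hc hz
    have u1 : q1 + ∑ w ∈ S, (w - O) = ∑ w ∈ K ∪ S, (w - O) := (Finset.sum_union hdis).symm
    have u2 : q2 + ∑ w ∈ S, (w - O) ^ 2 = ∑ w ∈ K ∪ S, (w - O) ^ 2 :=
      (Finset.sum_union hdis).symm
    rw [u1, u2]
    obtain ⟨g, ⟨k, hk, hg⟩, hi⟩ := h S hS
    have s1 := sum_inv hi (fun z => z - O)
    have s2 := sum_inv hi (fun z => (z - O) ^ 2)
    rcases hg with ⟨hk1, hg⟩ | hg
    · have t1 : ∑ w ∈ K ∪ S, (g w - O) = k * ∑ w ∈ K ∪ S, (w - O) := by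
        rw [Finset.mul_sum]
        refine Finset.sum_congr rfl fun z _ => ?_
        rw [hg]; ring
      have t0 : (k - 1) * ∑ w ∈ K ∪ S, (w - O) = 0 := by linear_combination s1 - t1
      have t3 := (mul_eq_zero.1 t0).resolve_left (sub_ne_zero.2 hk1)
      rw [t3]; simp
    · have t1 : ∑ w ∈ K ∪ S, (g w - O) = k * conj (∑ w ∈ K ∪ S, (w - O)) := by
        rw [map_sum, Finset.mul_sum]
        refine Finset.sum_congr rfl fun z _ => ?_
        rw [hg]; ring
      have t2 : ∑ w ∈ K ∪ S, (g w - O) ^ 2 = k ^ 2 * conj (∑ w ∈ K ∪ S, (w - O) ^ 2) := by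
        rw [map_sum, Finset.mul_sum]
        refine Finset.sum_congr rfl fun z _ => ?_
        rw [hg, map_pow]; ring
      rw [s1] at t1
      rw [s2] at t2
      linear_combination conj (∑ w ∈ K ∪ S, (w - O)) ^ 2 * t2
        - conj (∑ w ∈ K ∪ S, (w - O) ^ 2) * ((∑ w ∈ K ∪ S, (w - O))
          + k * conj (∑ w ∈ K ∪ S, (w - O))) * t1
  have hna : a ∉ ({b, c} : Finset ℂ) := by
    simp only [Finset.mem_insert, Finset.mem_singleton, not_or]; exact ⟨hab, hac⟩
  have b0 := E2 ∅ (by simp)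
  have b1 := E2 {a} (by simp)
  have b2 := E2 {b} (by simp)
  have b3 := E2 {c} (by simp)
  have b12 := E2 {a, b} (by simp)
  have b13 := E2 {a, c} (by simp)
  have b23 := E2 {b, c} (by simp)
  have b123 := E2 (insert a {b, c}) (by simp)
  rw [Finset.sum_insert hna, Finset.sum_insert hna, Finset.sum_pair hbc,
    Finset.sum_pair hbc] at b123
  rw [Finset.sum_pair hab, Finset.sum_pair hab] at b12
  rw [Finset.sum_pair hac, Finset.sum_pair hac] at b13
  rw [Finset.sum_pair hbc, Finset.sum_pair hbc] at b23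
  simp only [Finset.sum_empty, Finset.sum_singleton, add_zero, map_add, map_pow]
    at b0 b1 b2 b3 b12 b13 b23 b123
  have nn : ∀ x : ℂ, dist x O = r → (x - O) * conj (x - O) = ((r ^ 2 : ℝ) : ℂ) := by
    intro x hx
    rw [Complex.mul_conj, Complex.normSq_eq_norm_sq, ← dist_eq_norm, hx]
  refine iso_of_im _ _ _ ((r ^ 2 : ℝ) : ℂ) (by exact_mod_cast pow_ne_zero 2 hr)
    (nn a ra) (nn b rb) (nn c rc) ?_
  linear_combination (1 / 2) * (b123 - b12 - b13 - b23 + b1 + b2 + b3 - b0)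

end Pool.Agent.R174.Pl
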