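import Pool.Agent.R174.PlK

/-!
# Distinguishing extension number of the plane under all isometries, part L

Layers with the symmetry of a triangle.
-/

namespace Pool.Agent.R174.Pl

open ComplexConjugate

def opx (m i : ZMod 3) (t : Bool) (j : ZMod 3) : ZMod 3 := if t then i - j + m else i + j

def upd (a1 a2 s : Bool) (j : ZMod 3) : Bool := if j = 0 then s else if j = 1 then a1 else a2

def invx (m i : ZMod 3) (t : Bool) (a1 a2 s : Bool) : Prop :=
  ∀ j, upd a1 a2 s (opx m i t j) = upd a1 a2 s j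

instance (m i : ZMod 3) (t : Bool) (a1 a2 s : Bool) : Decidable (invx m i t a1 a2 s) := by
  unfold invx; infer_instance

def okk (jx jy : ZMod 3) (a1 a2 b1 b2 sx sy : Bool) : Prop :=
  ∃ i : ZMod 3, ∃ t : Bool, (i ≠ 0 ∨ t = true) ∧ invx jx i t a1 a2 sx ∧ invx jy i t b1 b2 sy

instance (jx jy : ZMod 3) (a1 a2 b1 b2 sx sy : Bool) : Decidable (okk jx jy a1 a2 b1 b2 sx sy) := by
  unfold okk; infer_instance

def concl (jx jy : ZMod 3) (a1 a2 b1 b2 : Bool) : Prop :=
  jx = jy ∧ ∃ sx sy : Bool, ∀ i : ZMod 3, ∀ t : Bool, (i ≠ 0 ∨ t = true) →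
    invx jx i t a1 a2 sx → invx jy i t b1 b2 sy → i = - jx ∧ t = true

instance (jx jy : ZMod 3) (a1 a2 b1 b2 : Bool) : Decidable (concl jx jy a1 a2 b1 b2) := by
  unfold concl; infer_instance

set_option maxRecDepth 100000 in
theorem decB : ∀ jx jy : ZMod 3, ∀ a1 a2 b1 b2 : Bool,
    okk jx jy a1 a2 b1 b2 false false → okk jx jy a1 a2 b1 b2 true false →
    okk jx jy a1 a2 b1 b2 false true → okk jx jy a1 a2 b1 b2 true true →
    concl jx jy a1 a2 b1 b2 := by
  decide

def opA (i : ZMod 3) (t : Bool) (p : ZMod 3 × Bool) : ZMod 3 × Bool :=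
  (if t then i - p.1 else i + p.1, xor t p.2)

def okA (f : ZMod 3 × Bool → Bool) : Prop :=
  ∃ i : ZMod 3, ∃ t : Bool, (i ≠ 0 ∨ t = true) ∧ ∀ p, f (opA i t p) = f p

instance (f : ZMod 3 × Bool → Bool) : Decidable (okA f) := by unfold okA; infer_instance

set_option maxRecDepth 100000 in
theorem decA : ∀ f : ZMod 3 × Bool → Bool, f (0, false) = false → okA f →
    okA (fun p => f p || decide (p = (0, false))) → False := by
  decide

/-- a primitive cube root of unity -/
def Cube (m : ℂ) : Prop := m ^ 2 + m + 1 = 0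

lemma Cube.pow {m : ℂ} (h : Cube m) : m ^ 3 = 1 := by
  have : m ^ 2 + m + 1 = 0 := h
  linear_combination (m - 1) * this

lemma Cube.ne {m : ℂ} (h : Cube m) : m ≠ 1 := by
  rintro rfl
  have : (1 : ℂ) ^ 2 + 1 + 1 = 0 := h
  norm_num at this

lemma Cube.norm {m : ℂ} (h : Cube m) : ‖m‖ = 1 := by
  have h1 : ‖m ^ 3‖ = ‖(1 : ℂ)‖ := by rw [h.pow]
  rw [norm_pow, norm_one] at h1
  exact (pow_eq_one_iff_of_nonneg (norm_nonneg m) (by norm_num)).1 h1

noncomputable def Mp (m : ℂ) (j : ZMod 3) : ℂ := m ^ j.val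

lemma Mp_zero (m : ℂ) : Mp m 0 = 1 := by simp [Mp]

lemma pow_mod3 {z : ℂ} (h : z ^ 3 = 1) (n : ℕ) : z ^ n = z ^ (n % 3) := by
  conv_lhs => rw [← Nat.div_add_mod n 3, pow_add, pow_mul, h, one_pow, one_mul]

lemma Mp_add {m : ℂ} (h : Cube m) (i j : ZMod 3) : Mp m (i + j) = Mp m i * Mp m j := by
  unfold Mp
  rw [ZMod.val_add, ← pow_add]
  exact (pow_mod3 h.pow _).symm

lemma Mp_norm {m : ℂ} (h : Cube m) (j : ZMod 3) : ‖Mp m j‖ = 1 := by
  unfold Mp; rw [norm_pow, h.norm, one_pow]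

lemma Mp_ne {m : ℂ} (h : Cube m) (j : ZMod 3) : Mp m j ≠ 0 := unit_ne_zero (Mp_norm h j)

lemma Mp_conj {m : ℂ} (h : Cube m) (i j : ZMod 3) : Mp m i * conj (Mp m j) = Mp m (i - j) := by
  have h1 : Mp m (i - j) * Mp m j = Mp m i := by rw [← Mp_add h, sub_add_cancel]
  rw [← h1]
  have := unit_mul_conj (Mp_norm h j)
  linear_combination Mp m (i - j) * this

lemma Mp_neg {m : ℂ} (h : Cube m) (i : ZMod 3) : Mp m (-i) * Mp m i = 1 := by
  rw [← Mp_add h, neg_add_cancel, Mp_zero]

lemma Mp_inj {m : ℂ} (h : Cube m) {i j : ZMod 3} (hij : Mp m i = Mp m j) : i = j := by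
  have h1 : orderOf m = 3 := orderOf_eq_prime h.pow h.ne
  have h2 : IsPrimitiveRoot m 3 := by rw [← h1]; exact IsPrimitiveRoot.orderOf m
  have := h2.pow_inj (ZMod.val_lt i) (ZMod.val_lt j) hij
  exact ZMod.val_injective 3 this

/-- elements of the group of the triangle -/
noncomputable def act (O m κ : ℂ) (i : ZMod 3) (t : Bool) (z : ℂ) : ℂ :=
  O + Mp m i * (if t then κ * conj (z - O) else (z - O))

lemma act_act {O m κ : ℂ} (hm : Cube m) (hκ : ‖κ‖ = 1) (i : ZMod 3) (t : Bool) (j : ZMod 3)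
    (s : Bool) (z : ℂ) :
    act O m κ i t (act O m κ j s z) = act O m κ (opA i t (j, s)).1 (opA i t (j, s)).2 z := by
  have hk := unit_mul_conj hκ
  have h1 := Mp_add hm i j
  have h2 := Mp_conj hm i j
  cases t <;> cases s
  · simp only [act, opA, Bool.false_eq_true, if_false, Bool.xor_false]
    rw [h1]; ring
  · simp only [act, opA, Bool.false_eq_true, if_false, Bool.false_xor, if_true]
    rw [h1]; ring
  · simp only [act, opA, Bool.false_eq_true, if_false, Bool.xor_false, if_true]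
    rw [← h2]
    simp only [add_sub_cancel_left, map_mul]
    ring
  · simp only [act, opA, Bool.false_eq_true, if_false, Bool.xor_self, if_true]
    rw [← h2]
    simp only [add_sub_cancel_left, map_mul, Complex.conj_conj]
    linear_combination (Mp m i * conj (Mp m j) * (z - O)) * hk

def D3Sym (O m κ : ℂ) (K : Finset ℂ) : Prop :=
  ∃ i : ZMod 3, ∃ t : Bool, (i ≠ 0 ∨ t = true) ∧ ∀ z, act O m κ i t z ∈ K ↔ z ∈ K

lemma stepA {O m κ x : ℂ} {K : Finset ℂ} [DecidableEq ℂ] (hm : Cube m) (hκ : ‖κ‖ = 1)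
    (hx : x ∉ K) (hxO : x ≠ O) (h0 : D3Sym O m κ K) (h1 : D3Sym O m κ (insert x K)) :
    ∃ j, κ * conj (x - O) = Mp m j * (x - O) := by
  classical
  by_contra hcon
  push Not at hcon
  have hξ : x - O ≠ 0 := sub_ne_zero.2 hxO
  set X : ZMod 3 × Bool → ℂ := fun p => act O m κ p.1 p.2 x with hX
  have hX0 : X (0, false) = x := by
    simp only [hX, act, Mp_zero, Bool.false_eq_true, if_false]; ring
  have hXx : ∀ p, X p = x ↔ p = (0, false) := by
    intro p
    constructor
    · intro hp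
      obtain ⟨j, s⟩ := p
      cases s
      · simp only [hX, act, Bool.false_eq_true, if_false] at hp
        have h2 : Mp m j = Mp m 0 := by
          rw [Mp_zero]
          apply mul_right_cancel₀ hξ
          linear_combination hp
        rw [Mp_inj hm h2]
      · exfalso
        simp only [hX, act, if_true] at hp
        apply hcon (-j)
        have h2 := Mp_neg hm j
        linear_combination Mp m (-j) * hp - κ * conj (x - O) * h2
    · rintro rfl; exact hX0
  have hop : ∀ i t p, act O m κ i t (X p) = X (opA i t p) := by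
    intro i t p
    obtain ⟨j, s⟩ := p
    exact act_act hm hκ i t j s x
  refine decA (fun p => decide (X p ∈ K)) ?_ ?_ ?_
  · rw [decide_eq_false_iff_not, hX0]; exact hx
  · obtain ⟨i, t, hit, hinv⟩ := h0
    refine ⟨i, t, hit, fun p => ?_⟩
    rw [decide_eq_decide, ← hop]
    exact hinv _
  · obtain ⟨i, t, hit, hinv⟩ := h1
    refine ⟨i, t, hit, fun p => ?_⟩
    have h2 := hinv (X p)
    rw [hop, Finset.mem_insert, Finset.mem_insert, hXx, hXx] at h2
    show (decide (X (opA i t p) ∈ K) || decide (opA i t p = (0, false)))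
      = (decide (X p ∈ K) || decide (p = (0, false)))
    rw [← Bool.decide_or, ← Bool.decide_or, decide_eq_decide]
    tauto

lemma three (j : ZMod 3) : j = 0 ∨ j = 1 ∨ j = 2 := by revert j; decide

lemma upd_eq (a : ZMod 3 → Bool) (s : Bool) (j : ZMod 3) :
    upd (a 1) (a 2) s j = if j = 0 then s else a j := by
  unfold upd
  rcases three j with rfl | rfl | rfl
  · simp
  · have h1 : (1 : ZMod 3) ≠ 0 := by decide
    rw [if_neg h1, if_neg h1, if_pos rfl]
  · have h1 : (2 : ZMod 3) ≠ 0 := by decide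
    have h2 : (2 : ZMod 3) ≠ 1 := by decide
    rw [if_neg h1, if_neg h1, if_neg h2]

/-- a point on an axis and its orbit -/
lemma act_special {O m κ x : ℂ} (hm : Cube m) (hκ : ‖κ‖ = 1) {jx : ZMod 3}
    (hjx : κ * conj (x - O) = Mp m jx * (x - O)) (i : ZMod 3) (t : Bool) (j : ZMod 3) :
    act O m κ i t (O + Mp m j * (x - O)) = O + Mp m (opx jx i t j) * (x - O) := by
  cases t
  · simp only [act, opx, Bool.false_eq_true, if_false]
    rw [Mp_add hm]; ring
  · simp only [act, opx, if_true]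
    rw [Mp_add hm, ← Mp_conj hm i j]
    simp only [add_sub_cancel_left, map_mul]
    linear_combination (Mp m i * conj (Mp m j)) * hjx

lemma okk_of {O m κ x y : ℂ} {K' : Finset ℂ} (hm : Cube m) (hκ : ‖κ‖ = 1)
    {jx jy : ZMod 3} (hjx : κ * conj (x - O) = Mp m jx * (x - O))
    (hjy : κ * conj (y - O) = Mp m jy * (y - O)) {a1 a2 b1 b2 sx sy : Bool}
    (hmx : ∀ j, O + Mp m j * (x - O) ∈ K' ↔ upd a1 a2 sx j = true)
    (hmy : ∀ j, O + Mp m j * (y - O) ∈ K' ↔ upd b1 b2 sy j = true) {i : ZMod 3} {t : Bool}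
    (h : ∀ z, act O m κ i t z ∈ K' ↔ z ∈ K') :
    invx jx i t a1 a2 sx ∧ invx jy i t b1 b2 sy := by
  constructor
  · intro j
    have h1 := h (O + Mp m j * (x - O))
    rw [act_special hm hκ hjx, hmx, hmx] at h1
    cases h2 : upd a1 a2 sx j <;> cases h3 : upd a1 a2 sx (opx jx i t j) <;> simp_all
  · intro j
    have h1 := h (O + Mp m j * (y - O))
    rw [act_special hm hκ hjy, hmy, hmy] at h1
    cases h2 : upd b1 b2 sy j <;> cases h3 : upd b1 b2 sy (opx jy i t j) <;> simp_all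

/-- invariance is not affected by a fixed point -/
lemma inv_erase {x : ℂ} {K : Finset ℂ} [DecidableEq ℂ] (hx : x ∉ K) {g : ℂ → ℂ}
    (hg : ∀ z, g z = x ↔ z = x) (h : ∀ z, g z ∈ insert x K ↔ z ∈ insert x K) :
    ∀ z, g z ∈ K ↔ z ∈ K := by
  intro z
  have h1 := h z
  rw [Finset.mem_insert, Finset.mem_insert, hg] at h1
  by_cases hz : z = x
  · rw [hz, (hg x).2 rfl]
  · tauto

/-- two points on axes in different orbits -/
lemma stepB {O m κ x y : ℂ} {K : Finset ℂ} [DecidableEq ℂ] (hm : Cube m) (hκ : ‖κ‖ = 1)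
    (hx : x ∉ K) (hy : y ∉ K) (hxO : x ≠ O) (hyO : y ≠ O)
    (hne : ∀ j, O + Mp m j * (x - O) ≠ y)
    {jx jy : ZMod 3} (hjx : κ * conj (x - O) = Mp m jx * (x - O))
    (hjy : κ * conj (y - O) = Mp m jy * (y - O))
    (h00 : D3Sym O m κ K) (h10 : D3Sym O m κ (insert x K)) (h01 : D3Sym O m κ (insert y K))
    (h11 : D3Sym O m κ (insert x (insert y K))) :
    jx = jy ∧ ∀ z, act O m κ (-jx) true z ∈ K ↔ z ∈ K := by
  classical
  have hξ : x - O ≠ 0 := sub_ne_zero.2 hxO
  have hη : y - O ≠ 0 := sub_ne_zero.2 hyO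
  have hne' : ∀ j, O + Mp m j * (y - O) ≠ x := by
    intro j h
    apply hne (-j)
    have h2 := Mp_neg hm j
    rw [← h]
    linear_combination (y - O) * h2
  have hxx : ∀ j, O + Mp m j * (x - O) = x ↔ j = 0 := by
    intro j
    constructor
    · intro h
      apply Mp_inj hm
      rw [Mp_zero]
      apply mul_right_cancel₀ hξ
      linear_combination h
    · rintro rfl; rw [Mp_zero]; ring
  have hyy : ∀ j, O + Mp m j * (y - O) = y ↔ j = 0 := by
    intro j
    constructor
    · intro h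
      apply Mp_inj hm
      rw [Mp_zero]
      apply mul_right_cancel₀ hη
      linear_combination h
    · rintro rfl; rw [Mp_zero]; ring
  have hxy : x ≠ y := by
    rintro rfl
    exact hne 0 ((hxx 0).2 rfl)
  set a : ZMod 3 → Bool := fun j => decide (O + Mp m j * (x - O) ∈ K) with ha
  set b : ZMod 3 → Bool := fun j => decide (O + Mp m j * (y - O) ∈ K) with hb
  have ha0 : O + Mp m 0 * (x - O) ∉ K := by rw [(hxx 0).2 rfl]; exact hx
  have hb0 : O + Mp m 0 * (y - O) ∉ K := by rw [(hyy 0).2 rfl]; exact hy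
  have mx0 : ∀ j, O + Mp m j * (x - O) ∈ K ↔ upd (a 1) (a 2) false j = true := by
    intro j
    rw [upd_eq]
    by_cases h : j = 0
    · subst h; simp [ha0]
    · simp [h, ha]
  have my0 : ∀ j, O + Mp m j * (y - O) ∈ K ↔ upd (b 1) (b 2) false j = true := by
    intro j
    rw [upd_eq]
    by_cases h : j = 0
    · subst h; simp [hb0]
    · simp [h, hb]
  have mx1 : ∀ j, O + Mp m j * (x - O) ∈ insert x K ↔ upd (a 1) (a 2) true j = true := by
    intro j
    rw [upd_eq, Finset.mem_insert, hxx]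
    by_cases h : j = 0
    · subst h; simp
    · simp [h, ha]
  have my1 : ∀ j, O + Mp m j * (y - O) ∈ insert y K ↔ upd (b 1) (b 2) true j = true := by
    intro j
    rw [upd_eq, Finset.mem_insert, hyy]
    by_cases h : j = 0
    · subst h; simp
    · simp [h, hb]
  have mx0' : ∀ j, O + Mp m j * (x - O) ∈ insert y K ↔ upd (a 1) (a 2) false j = true := by
    intro j
    rw [Finset.mem_insert, ← mx0]
    exact ⟨fun h => h.resolve_left (hne j), Or.inr⟩
  have my0' : ∀ j, O + Mp m j * (y - O) ∈ insert x K ↔ upd (b 1) (b 2) false j = true := by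
    intro j
    rw [Finset.mem_insert, ← my0]
    exact ⟨fun h => h.resolve_left (hne' j), Or.inr⟩
  have mx1' : ∀ j, O + Mp m j * (x - O) ∈ insert x (insert y K)
      ↔ upd (a 1) (a 2) true j = true := by
    intro j
    rw [Finset.insert_comm, Finset.mem_insert, ← mx1]
    exact ⟨fun h => h.resolve_left (hne j), Or.inr⟩
  have my1' : ∀ j, O + Mp m j * (y - O) ∈ insert x (insert y K)
      ↔ upd (b 1) (b 2) true j = true := by
    intro j
    rw [Finset.mem_insert, ← my1]
    exact ⟨fun h => h.resolve_left (hne' j), Or.inr⟩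
  obtain ⟨i00, t00, n00, g00⟩ := h00
  obtain ⟨i10, t10, n10, g10⟩ := h10
  obtain ⟨i01, t01, n01, g01⟩ := h01
  obtain ⟨i11, t11, n11, g11⟩ := h11
  obtain ⟨c00, d00⟩ := okk_of hm hκ hjx hjy mx0 my0 g00
  obtain ⟨c10, d10⟩ := okk_of hm hκ hjx hjy mx1 my0' g10
  obtain ⟨c01, d01⟩ := okk_of hm hκ hjx hjy mx0' my1 g01
  obtain ⟨c11, d11⟩ := okk_of hm hκ hjx hjy mx1' my1' g11
  obtain ⟨hj, sx, sy, hcon⟩ := decB jx jy (a 1) (a 2) (b 1) (b 2) ⟨i00, t00, n00, c00, d00⟩
    ⟨i10, t10, n10, c10, d10⟩ ⟨i01, t01, n01, c01, d01⟩ ⟨i11, t11, n11, c11, d11⟩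
  refine ⟨hj, ?_⟩
  have hinvol : ∀ z, act O m κ (-jx) true (act O m κ (-jx) true z) = z := by
    intro z
    rw [act_act hm hκ]
    simp [opA, act, Mp_zero]
  have fixx : act O m κ (-jx) true x = x := by
    have := act_special hm hκ hjx (-jx) true 0
    rw [(hxx 0).2 rfl] at this
    rw [this]
    apply (hxx _).2
    simp [opx]
  have fixy : act O m κ (-jx) true y = y := by
    have := act_special hm hκ hjy (-jx) true 0
    rw [(hyy 0).2 rfl] at this
    rw [this]
    apply (hyy _).2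
    simp [opx, hj]
  have fx : ∀ z, act O m κ (-jx) true z = x ↔ z = x := by
    intro z
    constructor
    · intro h
      rw [← hinvol z, h, fixx]
    · rintro rfl; exact fixx
  have fy : ∀ z, act O m κ (-jx) true z = y ↔ z = y := by
    intro z
    constructor
    · intro h
      rw [← hinvol z, h, fixy]
    · rintro rfl; exact fixy
  have hx' : x ∉ insert y K := by
    rw [Finset.mem_insert, not_or]; exact ⟨hxy, hx⟩
  cases sx <;> cases sy
  · obtain ⟨e1, e2⟩ := hcon i00 t00 n00 c00 d00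
    rw [e1, e2] at g00
    exact g00
  · obtain ⟨e1, e2⟩ := hcon i01 t01 n01 c01 d01
    rw [e1, e2] at g01
    exact inv_erase hy fy g01
  · obtain ⟨e1, e2⟩ := hcon i10 t10 n10 c10 d10
    rw [e1, e2] at g10
    exact inv_erase hx fx g10
  · obtain ⟨e1, e2⟩ := hcon i11 t11 n11 c11 d11
    rw [e1, e2] at g11
    exact inv_erase hy fy (inv_erase hx' fx g11)

lemma d3_of_sym {O m κ w : ℂ} {K : Finset ℂ} {r : ℝ} (hm : Cube m)
    (hκ : κ * conj (w - O) = w - O) (hwO : w ≠ O) (hwK : w ∈ K) (hwr : dist w O = r)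
    (hZ : ∀ z ∈ K, dist z O = r → ∃ j, z = O + Mp m j * (w - O)) (h : Sym O K) :
    D3Sym O m κ K := by
  obtain ⟨g, hgf, hi⟩ := h
  have h1 := hZ (g w) ((hi w).2 hwK) (by rw [fixC_dist hgf, hwr])
  obtain ⟨j, hj⟩ := h1
  have hc0 : w - O ≠ 0 := sub_ne_zero.2 hwO
  have hc1 : conj (w - O) ≠ 0 := (map_ne_zero _).2 hc0
  obtain ⟨k, hk, hg⟩ := hgf
  rcases hg with ⟨hk1, hg⟩ | hg
  · rw [hg] at hj
    have hkj : k = Mp m j := by
      apply mul_right_cancel₀ hc0
      linear_combination hj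
    refine ⟨j, false, Or.inl ?_, fun z => ?_⟩
    · rintro rfl
      apply hk1; rw [hkj, Mp_zero]
    · rw [← hi z, hg]
      simp only [act, Bool.false_eq_true, if_false]
      rw [hkj]
  · rw [hg] at hj
    have hkj : k = Mp m j * κ := by
      apply mul_right_cancel₀ hc1
      linear_combination hj - Mp m j * hκ
    refine ⟨j, true, Or.inr rfl, fun z => ?_⟩
    rw [← hi z, hg]
    simp only [act, if_true]
    rw [hkj, mul_assoc]

end Pool.Agent.R174.Pl
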