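import Pool.Agent.R174.PlL

/-!
# Distinguishing extension number of the plane under all isometries, part M

Structure of the top layer.
-/

namespace Pool.Agent.R174.Pl

open ComplexConjugate

lemma comm_fix {x : ℂ} {K : Finset ℂ} [DecidableEq ℂ] (hx : x ∉ K) {g g' : ℂ → ℂ}
    (hg : ∀ z, g z ∈ K ↔ z ∈ K) (hg' : ∀ z, g' z ∈ insert x K ↔ z ∈ insert x K)
    (hc : ∀ z, g (g' z) = g' (g z)) : g x = x ∨ g' x = x := by
  by_contra hcon
  push Not at hcon
  obtain ⟨h1, h2⟩ := hcon
  have a1 : g' x ∈ K := by
    have := (hg' x).2 (Finset.mem_insert_self _ _)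
    rw [Finset.mem_insert] at this
    tauto
  have a2 := (hg _).2 a1
  rw [hc] at a2
  have a3 := (hg' (g x)).1 (Finset.mem_insert_of_mem a2)
  rw [Finset.mem_insert] at a3
  have a4 : g x ∈ K := by tauto
  exact hx ((hg x).1 a4)

lemma ref_const {O x k : ℂ} (hxO : x ≠ O) (h : O + k * conj (x - O) = x) :
    k = (x - O) / conj (x - O) := by
  have hc : conj (x - O) ≠ 0 := (map_ne_zero _).2 (sub_ne_zero.2 hxO)
  rw [eq_div_iff hc]
  linear_combination h

lemma rot_top {O x : ℂ} {K : Finset ℂ} [DecidableEq ℂ] {r : ℝ} (hx : x ∉ K) (hxO : x ≠ O)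
    (hxr : dist x O ≠ r) (h : Sym O K) (h' : Sym O (insert x K)) :
    (∀ z, O + ((x - O) / conj (x - O)) * conj (z - O) ∈ K ↔ z ∈ K) ∨
      ∃ l : ℂ, ‖l‖ = 1 ∧ l ≠ 1 ∧ ∀ z, dist z O = r → (O + l * (z - O) ∈ K ↔ z ∈ K) := by
  obtain ⟨g, hgf, hi⟩ := h
  obtain ⟨g', hgf', hi'⟩ := h'
  have layer : ∀ z, dist z O = r → (g' z ∈ K ↔ z ∈ K) := by
    intro z hz
    have h1 := hi' z
    rw [Finset.mem_insert, Finset.mem_insert] at h1
    have h2 : z ≠ x := by rintro rfl; exact hxr hz
    have h3 : g' z ≠ x := by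
      intro h3
      apply hxr
      rw [← h3, fixC_dist hgf', hz]
    tauto
  obtain ⟨k, hk, hg | hg⟩ := hgf
  · right
    refine ⟨k, hk, hg.1, fun z _ => ?_⟩
    rw [← hg.2]; exact hi z
  · have hgf'' := hgf'
    obtain ⟨k', hk', hg' | hg'⟩ := hgf'
    · right
      refine ⟨k', hk', hg'.1, fun z hz => ?_⟩
      rw [← hg'.2]; exact layer z hz
    · by_cases hkk : k = k'
      · left
        have hgx : g x = x := by
          have h1 := (hi' x).2 (Finset.mem_insert_self _ _)
          have h2 : g' x = g x := by rw [hg, hg', hkk]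
          rw [h2, Finset.mem_insert] at h1
          rcases h1 with h1 | h1
          · exact h1
          · exact absurd ((hi x).1 h1) hx
        rw [hg] at hgx
        have h3 := ref_const hxO hgx
        intro z
        rw [← h3, ← hg]; exact hi z
      · right
        refine ⟨k * conj k', by rw [norm_mul, Complex.norm_conj, hk, hk', one_mul], ?_,
          fun z hz => ?_⟩
        · intro h1
          apply hkk
          have := unit_mul_conj hk'
          linear_combination k' * h1 - k * this
        · have e : O + k * conj k' * (z - O) = g (g' z) := by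
            rw [hg, hg']
            simp only [add_sub_cancel_left, map_mul, Complex.conj_conj]
            ring
          rw [e, hi, layer z hz]

lemma rot_top2 {O x y : ℂ} {K : Finset ℂ} [DecidableEq ℂ] {r : ℝ} (hx : x ∉ K) (hxO : x ≠ O)
    (hxr : dist x O ≠ r) (hy : y ∉ K) (hyO : y ≠ O) (hyr : dist y O ≠ r)
    (hnp : (x - O) * conj (y - O) ≠ conj (x - O) * (y - O)) (h : Sym O K)
    (h' : Sym O (insert x K)) (h'' : Sym O (insert y K)) :
    ∃ l : ℂ, ‖l‖ = 1 ∧ l ≠ 1 ∧ ∀ z, dist z O = r → (O + l * (z - O) ∈ K ↔ z ∈ K) := by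
  rcases rot_top hx hxO hxr h h' with h1 | h1
  swap; · exact h1
  rcases rot_top hy hyO hyr h h'' with h2 | h2
  swap; · exact h2
  have hcx : conj (x - O) ≠ 0 := (map_ne_zero _).2 (sub_ne_zero.2 hxO)
  have hcy : conj (y - O) ≠ 0 := (map_ne_zero _).2 (sub_ne_zero.2 hyO)
  have hy0 : y - O ≠ 0 := sub_ne_zero.2 hyO
  set kx := (x - O) / conj (x - O) with hkx
  set ky := (y - O) / conj (y - O) with hky
  have nx : ‖kx‖ = 1 := by
    rw [hkx, norm_div, Complex.norm_conj, div_self (norm_ne_zero_iff.2 (sub_ne_zero.2 hxO))]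
  have ny : ‖ky‖ = 1 := by
    rw [hky, norm_div, Complex.norm_conj, div_self (norm_ne_zero_iff.2 hy0)]
  refine ⟨kx * conj ky, by rw [norm_mul, Complex.norm_conj, nx, ny, one_mul], ?_, fun z _ => ?_⟩
  · intro h3
    have h4 := unit_mul_conj ny
    have h5 : kx = ky := by linear_combination ky * h3 - kx * h4
    rw [hkx, hky, div_eq_div_iff hcx hcy] at h5
    apply hnp
    linear_combination h5
  · have e : O + kx * conj ky * (z - O)
        = O + kx * conj ((O + ky * conj (z - O)) - O) := by
      simp only [add_sub_cancel_left, map_mul, Complex.conj_conj]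
      ring
    rw [e, h1, h2]

lemma bal_pair [DecidableEq ℂ] (O z : ℂ) : Bal O {z, O - (z - O)} := by
  intro v
  rcases le_total ((z - O) * conj v).re 0 with h | h
  · exact ⟨z, by simp, h⟩
  · refine ⟨O - (z - O), by simp, ?_⟩
    have e : (O - (z - O) - O) * conj v = -((z - O) * conj v) := by ring
    rw [e, Complex.neg_re]; linarith

lemma bal_three [DecidableEq ℂ] {m : ℂ} (hm : Cube m) (O z : ℂ) :
    Bal O {z, O + m * (z - O), O + m ^ 2 * (z - O)} := by
  intro v
  by_contra hcon
  push Not at hcon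
  have h1 := hcon z (by simp)
  have h2 := hcon (O + m * (z - O)) (by simp)
  have h3 := hcon (O + m ^ 2 * (z - O)) (by simp)
  have e : (z - O) * conj v + (O + m * (z - O) - O) * conj v
      + (O + m ^ 2 * (z - O) - O) * conj v = 0 := by
    have : m ^ 2 + m + 1 = 0 := hm
    linear_combination ((z - O) * conj v) * this
  have := congrArg Complex.re e
  rw [Complex.add_re, Complex.add_re, Complex.zero_re] at this
  linarith

lemma ess_rot {O w l : ℂ} {Z T : Finset ℂ} (hwZ : w ∈ Z) (hwO : w ≠ O) (hTZ : T ⊆ Z)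
    (hT3 : T.card ≤ 3) (hTb : Bal O T) (hess : ∀ T' ⊆ Z, Bal O T' → w ∈ T') (hl : ‖l‖ = 1)
    (hl1 : l ≠ 1) (hinv : ∀ z, O + l * (z - O) ∈ Z ↔ z ∈ Z) :
    (∃ m, Cube m ∧ (∀ z ∈ Z, ∃ j, z = O + Mp m j * (w - O)) ∧ ∀ j, O + Mp m j * (w - O) ∈ Z) ∨
      ((∀ z ∈ Z, z = w ∨ z = O - (w - O)) ∧ O - (w - O) ∈ Z) := by
  classical
  have hll := unit_mul_conj hl
  set μ := conj l with hμ
  have hw0 : w - O ≠ 0 := sub_ne_zero.2 hwO
  have hμ1 : μ ≠ 1 := by
    intro h
    apply hl1
    rw [h] at hll
    linear_combination hll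
  have hinv' : ∀ z, O + μ * (z - O) ∈ Z ↔ z ∈ Z := by
    intro z
    rw [← hinv (O + μ * (z - O))]
    have e : O + l * (O + μ * (z - O) - O) = z := by linear_combination (z - O) * hll
    rw [e]
  have step : ∀ n : ℕ, ∀ T' ⊆ Z, Bal O T' → O + μ ^ n * (w - O) ∈ T' := by
    intro n
    induction n with
    | zero =>
      intro T' h1 h2
      have e : O + μ ^ 0 * (w - O) = w := by ring
      rw [e]; exact hess T' h1 h2
    | succ n ih =>
      intro T' h1 h2
      have h3 := ih (T'.image fun z => O + l * (z - O)) (by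
        intro z hz
        rw [Finset.mem_image] at hz
        obtain ⟨t, ht, rfl⟩ := hz
        exact (hinv t).2 (h1 ht)) (by
        intro v
        obtain ⟨t, ht, htv⟩ := h2 (μ * v)
        refine ⟨O + l * (t - O), Finset.mem_image_of_mem _ ht, ?_⟩
        have e : (O + l * (t - O) - O) * conj v = (t - O) * conj (μ * v) := by
          rw [map_mul, hμ, Complex.conj_conj]; ring
        rw [e]; exact htv)
      rw [Finset.mem_image] at h3
      obtain ⟨t, ht, hte⟩ := h3
      have e : O + μ ^ (n + 1) * (w - O) = t := by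
        linear_combination (-μ) * hte + (t - O) * hll
      rw [e]; exact ht
  have hpig := Finset.exists_ne_map_eq_of_card_lt_of_maps_to (s := Finset.range 4) (t := T)
    (by rw [Finset.card_range]; omega) (f := fun n => O + μ ^ n * (w - O))
    (fun n _ => step n T hTZ hTb)
  obtain ⟨a, ha, b, hb, hab, hfab⟩ := hpig
  rw [Finset.mem_range] at ha hb
  have hpow : μ ^ a = μ ^ b := by
    apply mul_right_cancel₀ hw0
    exact add_left_cancel hfab
  have hμ0 : μ ≠ 0 := by
    intro h
    rw [h, mul_zero] at hll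
    exact zero_ne_one hll
  have key : μ ^ 2 = 1 ∨ μ ^ 3 = 1 := by
    have hcancel : ∀ c d : ℕ, 0 < d → d ≤ 3 → μ ^ c = μ ^ (c + d) → μ ^ 2 = 1 ∨ μ ^ 3 = 1 := by
      intro c d hd0 hd3 he
      have h1 : μ ^ d = 1 := by
        apply mul_left_cancel₀ (pow_ne_zero c hμ0)
        rw [← pow_add, ← he, mul_one]
      interval_cases d
      · exact absurd (by simpa using h1) hμ1
      · exact Or.inl h1
      · exact Or.inr h1
    rcases lt_or_gt_of_ne hab with h | h
    · have := hcancel a (b - a) (by omega) (by omega)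
      rw [show a + (b - a) = b by omega] at this
      exact this hpow
    · have := hcancel b (a - b) (by omega) (by omega)
      rw [show b + (a - b) = a by omega] at this
      exact this hpow.symm
  by_cases h2 : μ ^ 2 = 1
  · right
    have hμm : μ = -1 := by
      have h3 : (μ - 1) * (μ + 1) = 0 := by linear_combination h2
      rcases mul_eq_zero.1 h3 with h4 | h4
      · exact absurd (by linear_combination h4) hμ1
      · linear_combination h4
    have hneg : ∀ z, O - (z - O) ∈ Z ↔ z ∈ Z := by
      intro z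
      have := hinv' z
      rw [hμm] at this
      have e : O + -1 * (z - O) = O - (z - O) := by ring
      rwa [e] at this
    refine ⟨fun z hz => ?_, (hneg w).2 hwZ⟩
    have h3 := hess {z, O - (z - O)} (by
      intro t ht
      rw [Finset.mem_insert, Finset.mem_singleton] at ht
      rcases ht with rfl | rfl
      · exact hz
      · exact (hneg z).2 hz) (bal_pair O z)
    rw [Finset.mem_insert, Finset.mem_singleton] at h3
    rcases h3 with h3 | h3
    · exact Or.inl h3.symm
    · right; rw [h3]; ring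
  · left
    have h3 := key.resolve_left h2
    have hm : Cube μ := by
      have h4 : (μ - 1) * (μ ^ 2 + μ + 1) = 0 := by linear_combination h3
      exact (mul_eq_zero.1 h4).resolve_left (sub_ne_zero.2 hμ1)
    have hinv2 : ∀ z, O + μ ^ 2 * (z - O) ∈ Z ↔ z ∈ Z := by
      intro z
      rw [← hinv' z, ← hinv' (O + μ * (z - O))]
      have e : O + μ * (O + μ * (z - O) - O) = O + μ ^ 2 * (z - O) := by ring
      rw [e]
    have hM : ∀ j : ZMod 3, Mp μ j = 1 ∨ Mp μ j = μ ∨ Mp μ j = μ ^ 2 := by
      intro j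
      rcases three j with rfl | rfl | rfl
      · left; exact Mp_zero μ
      · right; left
        show μ ^ (1 : ZMod 3).val = μ
        have : (1 : ZMod 3).val = 1 := by decide
        rw [this, pow_one]
      · right; right
        show μ ^ (2 : ZMod 3).val = μ ^ 2
        have : (2 : ZMod 3).val = 2 := by decide
        rw [this]
    have M0 : Mp μ 0 = 1 := Mp_zero μ
    have M1 : Mp μ 1 = μ := by
      show μ ^ (1 : ZMod 3).val = μ
      have : (1 : ZMod 3).val = 1 := by decide
      rw [this, pow_one]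
    have M2 : Mp μ 2 = μ ^ 2 := by
      show μ ^ (2 : ZMod 3).val = μ ^ 2
      have : (2 : ZMod 3).val = 2 := by decide
      rw [this]
    refine ⟨μ, hm, fun z hz => ?_, fun j => ?_⟩
    · have h5 := hess {z, O + μ * (z - O), O + μ ^ 2 * (z - O)} (by
        intro t ht
        rw [Finset.mem_insert, Finset.mem_insert, Finset.mem_singleton] at ht
        rcases ht with rfl | rfl | rfl
        · exact hz
        · exact (hinv' z).2 hz
        · exact (hinv2 z).2 hz) (bal_three hm O z)
      rw [Finset.mem_insert, Finset.mem_insert, Finset.mem_singleton] at h5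
      rcases h5 with h5 | h5 | h5
      · exact ⟨0, by rw [M0, h5]; ring⟩
      · refine ⟨2, ?_⟩
        rw [M2, h5]
        linear_combination (O - z) * h3
      · refine ⟨1, ?_⟩
        rw [M1, h5]
        linear_combination (O - z) * h3
    · rcases hM j with h5 | h5 | h5
      · rw [h5]
        have e : O + 1 * (w - O) = w := by ring
        rw [e]; exact hwZ
      · rw [h5]; exact (hinv' w).2 hwZ
      · rw [h5]; exact (hinv2 w).2 hwZ

/-- types of symmetries when the top layer is `{w, -w}` -/
lemma klein_type {O w : ℂ} {g : Equiv.Perm ℂ} (hgf : FixC O g) (hwO : w ≠ O)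
    (h : g w = w ∨ g w = O - (w - O)) :
    (∀ z, g z = O - (z - O)) ∨ ∃ k : ℂ, ‖k‖ = 1 ∧ (∀ z, g z = O + k * conj (z - O)) ∧
      (k * conj (w - O) = w - O ∨ k * conj (w - O) = -(w - O)) := by
  have hw0 : w - O ≠ 0 := sub_ne_zero.2 hwO
  obtain ⟨k, hk, hg | hg⟩ := hgf
  · left
    rw [hg.2] at h
    have hk' : k = -1 := by
      rcases h with h | h
      · exact absurd (mul_right_cancel₀ hw0 (by linear_combination h)) hg.1
      · apply mul_right_cancel₀ hw0
        linear_combination h
    intro z
    rw [hg.2, hk']; ring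
  · right
    refine ⟨k, hk, hg, ?_⟩
    rw [hg] at h
    rcases h with h | h
    · left; linear_combination h
    · right; linear_combination h

lemma klein {O w x : ℂ} {K : Finset ℂ} [DecidableEq ℂ] {r : ℝ}
    (hZ : ∀ z ∈ K, dist z O = r → z = w ∨ z = O - (w - O)) (hwK : w ∈ K) (hwr : dist w O = r)
    (hwO : w ≠ O) (hx : x ∉ K) (hxO : x ≠ O) (hxr : dist x O ≠ r) (h : Sym O K)
    (h' : Sym O (insert x K)) :
    ∀ z, O + ((x - O) / conj (x - O)) * conj (z - O) ∈ K ↔ z ∈ K := by
  obtain ⟨g, hgf, hi⟩ := h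
  obtain ⟨g', hgf', hi'⟩ := h'
  have hw0 : conj (w - O) ≠ 0 := (map_ne_zero _).2 (sub_ne_zero.2 hwO)
  have hx0 : x - O ≠ 0 := sub_ne_zero.2 hxO
  have t1 := klein_type hgf hwO (hZ _ ((hi w).2 hwK) (by rw [fixC_dist hgf, hwr]))
  have t2 := klein_type hgf' hwO (by
    have h1 := (hi' w).2 (Finset.mem_insert_of_mem hwK)
    rw [Finset.mem_insert] at h1
    rcases h1 with h1 | h1
    · exfalso; apply hxr; rw [← h1, fixC_dist hgf', hwr]
    · exact hZ _ h1 (by rw [fixC_dist hgf', hwr]))
  have hcomm : ∀ z, g (g' z) = g' (g z) := by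
    intro z
    rcases t1 with t1 | ⟨k, hk, t1, k1⟩ <;> rcases t2 with t2 | ⟨k', hk', t2, k2⟩
    · rw [t1, t2, t2, t1]
    · rw [t2, t1, t1, t2]
      simp only [sub_sub_cancel_left, map_neg, add_sub_cancel_left]
      ring
    · rw [t2, t1, t1, t2]
      simp only [sub_sub_cancel_left, map_neg, add_sub_cancel_left]
      ring
    · rw [t2, t1, t1, t2]
      simp only [add_sub_cancel_left, map_mul, Complex.conj_conj]
      have hkk := unit_mul_conj hk
      have hkk' : k' = k ∨ k' = -k := by
        rcases k1 with k1 | k1 <;> rcases k2 with k2 | k2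
        · left; apply mul_right_cancel₀ hw0; rw [k1, k2]
        · right; apply mul_right_cancel₀ hw0; rw [k2, neg_mul, k1]
        · right; apply mul_right_cancel₀ hw0; rw [k2, neg_mul, k1, neg_neg]
        · left; apply mul_right_cancel₀ hw0; rw [k1, k2]
      rcases hkk' with rfl | rfl
      · ring
      · rw [map_neg]; ring
  have hmove : ∀ f : Equiv.Perm ℂ, ((∀ z, f z = O - (z - O)) ∨ ∃ k : ℂ, ‖k‖ = 1 ∧
      (∀ z, f z = O + k * conj (z - O)) ∧
      (k * conj (w - O) = w - O ∨ k * conj (w - O) = -(w - O))) → f x = x →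
      ∀ z, f z = O + ((x - O) / conj (x - O)) * conj (z - O) := by
    intro f hf hfx
    rcases hf with hf | ⟨k, hk, hf, -⟩
    · exfalso
      rw [hf] at hfx
      apply hx0
      linear_combination (-1 / 2 : ℂ) * hfx
    · rw [hf] at hfx
      have := ref_const hxO hfx
      intro z
      rw [hf, this]
  rcases comm_fix hx hi hi' hcomm with h1 | h1
  · have h2 := hmove g t1 h1
    intro z
    rw [← h2]; exact hi z
  · have h2 := hmove g' t2 h1
    have h3 := inv_erase (g := g') hx (by
      intro z
      constructor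
      · intro h4
        apply g'.injective
        rw [h4, h1]
      · rintro rfl; exact h1) hi'
    intro z
    rw [← h2]; exact h3 z

end Pool.Agent.R174.Pl
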