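import Pool.Agent.R174.PlM

/-!
# Distinguishing extension number of the plane under all isometries, part N

Interior points in general position force a triangle; interior points on a line force an axis.
-/

namespace Pool.Agent.R174.Pl

open ComplexConjugate

open Classical in
/-- points of `W` on the circle -/
noncomputable def Wc (W : Finset ℂ) (O : ℂ) (r : ℝ) : Finset ℂ := W.filter fun z => dist z O = r

lemma mem_Wc {W : Finset ℂ} {O : ℂ} {r : ℝ} {z : ℂ} : z ∈ Wc W O r ↔ z ∈ W ∧ dist z O = r := by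
  unfold Wc; rw [Finset.mem_filter]

lemma Wc_sub (W : Finset ℂ) (O : ℂ) (r : ℝ) : Wc W O r ⊆ W := fun _ hz => (mem_Wc.1 hz).1

lemma sym_layer {F W T S : Finset ℂ} {O : ℂ} {r : ℝ} (h : AllSym F W) (he : Enc (F ∪ W) O r T)
    (hS : S ⊆ W) (hWS : Wc W O r ⊆ S) : Sym O (F ∪ S) := by
  refine sym_of h he hS ?_
  intro t ht
  have h1 := he.2.1 ht
  rw [Finset.mem_union] at h1 ⊢
  rcases h1 with h1 | h1
  · exact Or.inl h1
  · exact Or.inr (hWS (mem_Wc.2 ⟨h1, he.2.2.2.1 t ht⟩))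

lemma neg_self3 : ∀ j : ZMod 3, j = -j → j = 0 := by decide

lemma ne_of_np {x y O : ℂ} (h : (x - O) * conj (y - O) ≠ conj (x - O) * (y - O)) :
    x ≠ O ∧ y ≠ O := by
  constructor
  · rintro rfl; apply h; simp
  · rintro rfl; apply h; simp

theorem meta_tri {F W T : Finset ℂ} {O : ℂ} {r : ℝ} (hFW : ∀ w ∈ W, w ∉ F) (hall : AllSym F W)
    (he : Enc (F ∪ W) O r T) {x y w : ℂ} (hx : x ∈ W) (hy : y ∈ W) (hw : w ∈ W)
    (hxr : dist x O < r) (hyr : dist y O < r) (hwr : dist w O = r)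
    (hnp : (x - O) * conj (y - O) ≠ conj (x - O) * (y - O)) :
    ∃ m, Cube m ∧ (∀ z ∈ F ∪ W, dist z O = r → ∃ j, z = O + Mp m j * (w - O)) ∧
      (∀ j, O + Mp m j * (w - O) ∈ F ∪ W) ∧
      (∀ z ∈ W, dist z O < r → z ≠ O → ∃ j, z = O + Mp m j * (x - O)) ∧
      (∃ j, ((w - O) / conj (w - O)) * conj (x - O) = Mp m j * (x - O)) ∧
      (∀ S ⊆ W, Wc W O r ⊆ S → D3Sym O m ((w - O) / conj (w - O)) (F ∪ S)) := by
  classical
  obtain ⟨hxO, hyO⟩ := ne_of_np hnp
  have hr0 : 0 < r := lt_of_le_of_lt dist_nonneg hxr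
  have hwO : w ≠ O := by
    rintro rfl
    rw [dist_self] at hwr
    exact hr0.ne hwr
  set R := Wc W O r with hR
  set K := F ∪ R with hK
  have nR : ∀ z ∈ W, dist z O < r → z ∉ K := by
    intro z hz hzr hzK
    rw [hK, Finset.mem_union, hR, mem_Wc] at hzK
    rcases hzK with h | h
    · exact hFW z hz h
    · exact hzr.ne h.2
  have hxK := nR x hx hxr
  have hyK := nR y hy hyr
  have sK : Sym O K := sym_layer hall he (Wc_sub _ _ _) (Finset.Subset.refl _)
  have s1 : ∀ z ∈ W, Sym O (insert z K) := by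
    intro z hz
    rw [hK, ← Finset.union_insert]
    exact sym_layer hall he (Finset.insert_subset hz (Wc_sub _ _ _)) (Finset.subset_insert _ _)
  have s2 : ∀ z ∈ W, ∀ z' ∈ W, Sym O (insert z (insert z' K)) := by
    intro z hz z' hz'
    rw [hK, ← Finset.union_insert, ← Finset.union_insert]
    exact sym_layer hall he (Finset.insert_subset hz (Finset.insert_subset hz' (Wc_sub _ _ _)))
      ((Finset.subset_insert _ _).trans (Finset.subset_insert _ _))
  set Z := (F ∪ W).filter (fun z => dist z O = r) with hZ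
  have hZm : ∀ z, z ∈ Z ↔ z ∈ F ∪ W ∧ dist z O = r := by
    intro z; rw [hZ, Finset.mem_filter]
  have hZK : ∀ z, z ∈ Z ↔ z ∈ K ∧ dist z O = r := by
    intro z
    rw [hZm, hK, Finset.mem_union, Finset.mem_union, hR, mem_Wc]
    tauto
  have hTZ : T ⊆ Z := fun t ht => (hZm t).2 ⟨he.2.1 ht, he.2.2.2.1 t ht⟩
  have hwZ : w ∈ Z := (hZm w).2 ⟨Finset.mem_union_right _ hw, hwr⟩
  -- `w` is essential
  have hess : ∀ T' ⊆ Z, Bal O T' → w ∈ T' := by
    intro T' hT'Z hT'b
    by_contra hwT'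
    have hsub : ∀ S : Finset ℂ, R.erase w ⊆ S → T' ⊆ F ∪ S := by
      intro S hS t ht
      have h1 := (hZm t).1 (hT'Z ht)
      rw [Finset.mem_union] at h1 ⊢
      rcases h1.1 with h2 | h2
      · exact Or.inl h2
      · refine Or.inr (hS (Finset.mem_erase.2 ⟨?_, mem_Wc.2 ⟨h2, h1.2⟩⟩))
        rintro rfl; exact hwT' ht
    have hsy : ∀ S ⊆ W, R.erase w ⊆ S → Sym O (F ∪ S) := fun S hS hRS =>
      sym_of' hall he.1 (fun t ht => ((hZm t).1 (hT'Z ht)).2) hT'b hS (hsub S hRS)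
    have hRe : R.erase w ⊆ W := (Finset.erase_subset _ _).trans (Wc_sub _ _ _)
    set K1 := F ∪ R.erase w with hK1
    have hK1K : K1 ⊆ K := Finset.union_subset_union_right (Finset.erase_subset _ _)
    have t0 : Sym O K1 := hsy _ hRe (Finset.Subset.refl _)
    have t1 : ∀ z ∈ W, Sym O (insert z K1) := by
      intro z hz
      rw [hK1, ← Finset.union_insert]
      exact hsy _ (Finset.insert_subset hz hRe) (Finset.subset_insert _ _)
    have z1 : PS O K1 r = 0 := zero_of_par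
      (top_par (fun h => hxK (hK1K h)) t0 (t1 x hx) hxr.ne)
      (top_par (fun h => hyK (hK1K h)) t0 (t1 y hy) hyr.ne) hnp
    have z2 : PS O K r = 0 := zero_of_par (top_par hxK sK (s1 x hx) hxr.ne)
      (top_par hyK sK (s1 y hy) hyr.ne) hnp
    have hKi : K = insert w K1 := by
      rw [hK1, ← Finset.union_insert, Finset.insert_erase (mem_Wc.2 ⟨hw, hwr⟩)]
    have hwK1 : w ∉ K1 := by
      rw [hK1, Finset.mem_union, not_or]
      exact ⟨hFW w hw, Finset.notMem_erase _ _⟩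
    rw [hKi, ps_insert hwK1, if_pos hwr, z1, add_zero] at z2
    exact hwO (sub_eq_zero.1 z2)
  -- the top layer has a rotation
  obtain ⟨l, hl, hl1, hlK⟩ := rot_top2 (r := r) hxK hxO hxr.ne hyK hyO hyr.ne hnp sK
    (s1 x hx) (s1 y hy)
  have hlZ : ∀ z, O + l * (z - O) ∈ Z ↔ z ∈ Z := by
    intro z
    have hd : dist (O + l * (z - O)) O = dist z O := by
      rw [dist_eq_norm, dist_eq_norm, add_sub_cancel_left, norm_mul, hl, one_mul]
    rw [hZK, hZK, hd]
    constructor
    · rintro ⟨h1, h2⟩; exact ⟨(hlK z h2).1 h1, h2⟩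
    · rintro ⟨h1, h2⟩; exact ⟨(hlK z h2).2 h1, h2⟩
  rcases ess_rot hwZ hwO hTZ he.2.2.1 he.2.2.2.2 hess hl hl1 hlZ with ⟨m, hm, hm1, hm2⟩ | ⟨hk1, -⟩
  · -- triangle
    have hc0 : conj (w - O) ≠ 0 := (map_ne_zero _).2 (sub_ne_zero.2 hwO)
    set κ := (w - O) / conj (w - O) with hκd
    have hκ : κ * conj (w - O) = w - O := by rw [hκd, div_mul_cancel₀ _ hc0]
    have hκn : ‖κ‖ = 1 := by
      rw [hκd, norm_div, Complex.norm_conj, div_self (norm_ne_zero_iff.2 (sub_ne_zero.2 hwO))]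
    have hD : ∀ S ⊆ W, R ⊆ S → D3Sym O m κ (F ∪ S) := by
      intro S hS hRS
      refine d3_of_sym hm hκ hwO (Finset.mem_union_right _ (hRS (mem_Wc.2 ⟨hw, hwr⟩))) hwr ?_
        (sym_layer hall he hS hRS)
      intro z hz hzr
      exact hm1 z ((hZm z).2 ⟨Finset.union_subset_union_right hS hz, hzr⟩)
    have d0 : D3Sym O m κ K := hD _ (Wc_sub _ _ _) (Finset.Subset.refl _)
    have d1 : ∀ z ∈ W, D3Sym O m κ (insert z K) := by
      intro z hz
      rw [hK, ← Finset.union_insert]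
      exact hD _ (Finset.insert_subset hz (Wc_sub _ _ _)) (Finset.subset_insert _ _)
    have d2 : ∀ z ∈ W, ∀ z' ∈ W, D3Sym O m κ (insert z (insert z' K)) := by
      intro z hz z' hz'
      rw [hK, ← Finset.union_insert, ← Finset.union_insert]
      exact hD _ (Finset.insert_subset hz (Finset.insert_subset hz' (Wc_sub _ _ _)))
        ((Finset.subset_insert _ _).trans (Finset.subset_insert _ _))
    have hpair : ∀ a ∈ W, ∀ b ∈ W, dist a O < r → dist b O < r →
        (a - O) * conj (b - O) ≠ conj (a - O) * (b - O) → ∃ j, b = O + Mp m j * (a - O) := by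
      intro a ha b hb har hbr hab
      by_contra hne
      push Not at hne
      obtain ⟨haO, hbO⟩ := ne_of_np hab
      obtain ⟨ja, hja⟩ := stepA hm hκn (nR a ha har) haO d0 (d1 a ha)
      obtain ⟨jb, hjb⟩ := stepA hm hκn (nR b hb hbr) hbO d0 (d1 b hb)
      obtain ⟨hj, -⟩ := stepB hm hκn (nR a ha har) (nR b hb hbr) haO hbO
        (fun j h => hne j h.symm) hja hjb d0 (d1 a ha) (d1 b hb) (d2 a ha b hb)
      subst hj
      apply hab
      have hκ0 : κ ≠ 0 := unit_ne_zero hκn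
      have hM0 := Mp_ne hm ja
      apply mul_left_cancel₀ (mul_ne_zero hκ0 hM0)
      linear_combination Mp m ja * (a - O) * hjb - Mp m ja * (b - O) * hja
    refine ⟨m, hm, fun z hz hzr => hm1 z ((hZm z).2 ⟨hz, hzr⟩), fun j => ((hZm _).1 (hm2 j)).1,
      ?_, stepA hm hκn hxK hxO d0 (d1 x hx), hD⟩
    intro z hz hzr hzO
    by_cases hzx : (x - O) * conj (z - O) = conj (x - O) * (z - O)
    · have hzy : (y - O) * conj (z - O) ≠ conj (y - O) * (z - O) := by
        intro hzy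
        apply hnp
        have hz0 : z - O ≠ 0 := sub_ne_zero.2 hzO
        have hz1 : conj (z - O) ≠ 0 := (map_ne_zero _).2 hz0
        apply mul_right_cancel₀ (mul_ne_zero hz0 hz1)
        linear_combination (conj (y - O) * (z - O)) * hzx - (conj (x - O) * (z - O)) * hzy
      obtain ⟨j, hj⟩ := hpair y hy z hz hyr hzr hzy
      obtain ⟨i, hi⟩ := hpair x hx y hy hxr hyr hnp
      refine ⟨j + i, ?_⟩
      rw [Mp_add hm, hj]
      conv_lhs => rw [hi]
      ring
    · exact hpair x hx z hz hxr hzr hzx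
  · -- two antipodal points
    exfalso
    have k1 := klein (w := w) (r := r) (fun z hz hzr => hk1 z ((hZK z).2 ⟨hz, hzr⟩))
      ((hZK w).1 hwZ).1 hwr hwO hxK hxO hxr.ne sK (s1 x hx)
    have hxyne : x ≠ y := by
      rintro rfl; apply hnp; ring
    have hxK' : x ∉ insert y K := by
      rw [Finset.mem_insert, not_or]; exact ⟨hxyne, hxK⟩
    have k2 := klein (w := w) (r := r) (K := insert y K) (fun z hz hzr => by
        rw [Finset.mem_insert] at hz
        rcases hz with rfl | hz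
        · exact absurd hzr hyr.ne
        · exact hk1 z ((hZK z).2 ⟨hz, hzr⟩))
      (Finset.mem_insert_of_mem ((hZK w).1 hwZ).1) hwr hwO hxK' hxO hxr.ne (s1 y hy)
      (s2 x hx y hy)
    have h1 := (k2 y).2 (Finset.mem_insert_self _ _)
    rw [Finset.mem_insert] at h1
    rcases h1 with h1 | h1
    · apply hnp
      have hc : conj (x - O) ≠ 0 := (map_ne_zero _).2 (sub_ne_zero.2 hxO)
      have h2 : (x - O) / conj (x - O) * conj (y - O) = y - O := by linear_combination h1
      rw [div_mul_eq_mul_div, div_eq_iff hc] at h2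
      linear_combination h2
    · exact hyK ((k1 y).1 h1)

/-- Interior points on one line: the base is symmetric in this line. -/
theorem axis_sym {F W T : Finset ℂ} {O : ℂ} {r : ℝ} (hFW : ∀ w ∈ W, w ∉ F) (hall : AllSym F W)
    (he : Enc (F ∪ W) O r T) {x w : ℂ} (hx : x ∈ W) (hw : w ∈ W)
    (hxr : dist x O < r) (hxO : x ≠ O) (hwr : dist w O = r)
    (hess : ∀ T' ⊆ F ∪ W, (∀ t ∈ T', dist t O = r) → Bal O T' → w ∈ T')
    (hx' : (Wc W O r).card ≤ 3 → ∃ x' ∈ W, x' ≠ x ∧ dist x' O < r ∧ x' ≠ O ∧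
      (x - O) * conj (x' - O) = conj (x - O) * (x' - O)) :
    ∀ z, O + ((x - O) / conj (x - O)) * conj (z - O) ∈ F ∪ Wc W O r ↔ z ∈ F ∪ Wc W O r := by
  classical
  have hr0 : 0 < r := lt_of_le_of_lt dist_nonneg hxr
  have hwO : w ≠ O := by
    rintro rfl
    rw [dist_self] at hwr
    exact hr0.ne hwr
  set R := Wc W O r with hR
  set K := F ∪ R with hK
  have nR : ∀ z ∈ W, dist z O < r → z ∉ K := by
    intro z hz hzr hzK
    rw [hK, Finset.mem_union, hR, mem_Wc] at hzK
    rcases hzK with h | h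
    · exact hFW z hz h
    · exact hzr.ne h.2
  have hxK := nR x hx hxr
  have sK : Sym O K := sym_layer hall he (Wc_sub _ _ _) (Finset.Subset.refl _)
  have s1 : ∀ z ∈ W, Sym O (insert z K) := by
    intro z hz
    rw [hK, ← Finset.union_insert]
    exact sym_layer hall he (Finset.insert_subset hz (Wc_sub _ _ _)) (Finset.subset_insert _ _)
  set Z := (F ∪ W).filter (fun z => dist z O = r) with hZ
  have hZm : ∀ z, z ∈ Z ↔ z ∈ F ∪ W ∧ dist z O = r := by
    intro z; rw [hZ, Finset.mem_filter]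
  have hZK : ∀ z, z ∈ Z ↔ z ∈ K ∧ dist z O = r := by
    intro z
    rw [hZm, hK, Finset.mem_union, Finset.mem_union, hR, mem_Wc]
    tauto
  have hTZ : T ⊆ Z := fun t ht => (hZm t).2 ⟨he.2.1 ht, he.2.2.2.1 t ht⟩
  have hwZ : w ∈ Z := (hZm w).2 ⟨Finset.mem_union_right _ hw, hwr⟩
  have hessZ : ∀ T' ⊆ Z, Bal O T' → w ∈ T' := fun T' hT' hb =>
    hess T' (fun t ht => ((hZm t).1 (hT' ht)).1) (fun t ht => ((hZm t).1 (hT' ht)).2) hb
  rcases rot_top (r := r) hxK hxO hxr.ne sK (s1 x hx) with h1 | ⟨l, hl, hl1, hlK⟩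
  · exact h1
  have hlZ : ∀ z, O + l * (z - O) ∈ Z ↔ z ∈ Z := by
    intro z
    have hd : dist (O + l * (z - O)) O = dist z O := by
      rw [dist_eq_norm, dist_eq_norm, add_sub_cancel_left, norm_mul, hl, one_mul]
    rw [hZK, hZK, hd]
    constructor
    · rintro ⟨h1, h2⟩; exact ⟨(hlK z h2).1 h1, h2⟩
    · rintro ⟨h1, h2⟩; exact ⟨(hlK z h2).2 h1, h2⟩
  rcases ess_rot hwZ hwO hTZ he.2.2.1 he.2.2.2.2 hessZ hl hl1 hlZ with ⟨m, hm, hm1, hm2⟩ | ⟨hk1, -⟩
  · have hc0 : conj (w - O) ≠ 0 := (map_ne_zero _).2 (sub_ne_zero.2 hwO)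
    set κ := (w - O) / conj (w - O) with hκd
    have hκ : κ * conj (w - O) = w - O := by rw [hκd, div_mul_cancel₀ _ hc0]
    have hκn : ‖κ‖ = 1 := by
      rw [hκd, norm_div, Complex.norm_conj, div_self (norm_ne_zero_iff.2 (sub_ne_zero.2 hwO))]
    have hD : ∀ S ⊆ W, R ⊆ S → D3Sym O m κ (F ∪ S) := by
      intro S hS hRS
      refine d3_of_sym hm hκ hwO (Finset.mem_union_right _ (hRS (mem_Wc.2 ⟨hw, hwr⟩))) hwr ?_
        (sym_layer hall he hS hRS)
      intro z hz hzr
      exact hm1 z ((hZm z).2 ⟨Finset.union_subset_union_right hS hz, hzr⟩)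
    have d0 : D3Sym O m κ K := hD _ (Wc_sub _ _ _) (Finset.Subset.refl _)
    have d1 : ∀ z ∈ W, D3Sym O m κ (insert z K) := by
      intro z hz
      rw [hK, ← Finset.union_insert]
      exact hD _ (Finset.insert_subset hz (Wc_sub _ _ _)) (Finset.subset_insert _ _)
    have d2 : ∀ z ∈ W, ∀ z' ∈ W, D3Sym O m κ (insert z (insert z' K)) := by
      intro z hz z' hz'
      rw [hK, ← Finset.union_insert, ← Finset.union_insert]
      exact hD _ (Finset.insert_subset hz (Finset.insert_subset hz' (Wc_sub _ _ _)))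
        ((Finset.subset_insert _ _).trans (Finset.subset_insert _ _))
    have hRc : R.card ≤ 3 := by
      have hsub : R ⊆ Finset.univ.image (fun j : ZMod 3 => O + Mp m j * (w - O)) := by
        intro z hz
        obtain ⟨h1, h2⟩ := mem_Wc.1 hz
        obtain ⟨j, hj⟩ := hm1 z ((hZm z).2 ⟨Finset.mem_union_right _ h1, h2⟩)
        exact Finset.mem_image.2 ⟨j, Finset.mem_univ _, hj.symm⟩
      refine (Finset.card_le_card hsub).trans (Finset.card_image_le.trans ?_)
      rw [Finset.card_univ, ZMod.card]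
    obtain ⟨x', hx'W, hx'x, hx'r, hx'O, hpar⟩ := hx' hRc
    obtain ⟨ja, hja⟩ := stepA hm hκn hxK hxO d0 (d1 x hx)
    obtain ⟨jb, hjb⟩ := stepA hm hκn (nR x' hx'W hx'r) hx'O d0 (d1 x' hx'W)
    have hξ : x - O ≠ 0 := sub_ne_zero.2 hxO
    have hξc : conj (x - O) ≠ 0 := (map_ne_zero _).2 hξ
    have hne : ∀ j, O + Mp m j * (x - O) ≠ x' := by
      intro j hj
      rw [← hj] at hpar
      simp only [add_sub_cancel_left, map_mul] at hpar
      have h1 : conj (Mp m j) = Mp m j := by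
        apply mul_right_cancel₀ (mul_ne_zero hξ hξc)
        linear_combination hpar
      have h2 := Mp_conj hm 0 j
      rw [Mp_zero, one_mul, h1, zero_sub] at h2
      have h3 := Mp_inj hm h2
      have h4 : j = 0 := neg_self3 j h3
      rw [h4, Mp_zero] at hj
      apply hx'x
      rw [← hj]; ring
    obtain ⟨hj, hK2⟩ := stepB hm hκn hxK (nR x' hx'W hx'r) hxO hx'O hne hja hjb d0 (d1 x hx)
      (d1 x' hx'W) (d2 x hx x' hx'W)
    intro z
    rw [← hK2 z]
    have e : act O m κ (-ja) true z = O + (x - O) / conj (x - O) * conj (z - O) := by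
      simp only [act, if_true]
      have h1 : Mp m (-ja) * κ = (x - O) / conj (x - O) := by
        rw [eq_div_iff hξc]
        have := Mp_neg hm ja
        linear_combination Mp m (-ja) * hja + (x - O) * this
      rw [← h1]; ring
    rw [e]
  · exact klein (w := w) (r := r) (fun z hz hzr => hk1 z ((hZK z).2 ⟨hz, hzr⟩))
      ((hZK w).1 hwZ).1 hwr hwO hxK hxO hxr.ne sK (s1 x hx)

end Pool.Agent.R174.Pl
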