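import Pool.Agent.R174.PlN

/-!
# Distinguishing extension number of the plane under all isometries, part O

Seven points, the interior ones not on a line through the centre.
-/

namespace Pool.Agent.R174.Pl

open ComplexConjugate

lemma cube_re {m : ℂ} (h : Cube m) : m.re = -1 / 2 ∧ m.im ^ 2 = 3 / 4 := by
  have h0 : m ^ 2 + m + 1 = 0 := h
  have h1 := congrArg Complex.re h0
  have h2 := congrArg Complex.im h0
  simp only [pow_two, Complex.add_re, Complex.add_im, Complex.mul_re, Complex.mul_im,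
    Complex.one_re, Complex.one_im, Complex.zero_re, Complex.zero_im] at h1 h2
  have h3 : m.im * (2 * m.re + 1) = 0 := by linarith
  rcases mul_eq_zero.1 h3 with h4 | h4
  · rw [h4] at h1
    nlinarith [sq_nonneg (m.re + 1 / 2)]
  · have h5 : m.re = -1 / 2 := by linarith
    refine ⟨h5, ?_⟩
    rw [h5] at h1
    nlinarith

lemma Mp_cube {m : ℂ} (h : Cube m) {j : ZMod 3} (hj : j ≠ 0) : Cube (Mp m j) := by
  have h0 : m ^ 2 + m + 1 = 0 := h
  rcases three j with rfl | rfl | rfl
  · exact absurd rfl hj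
  · have : Mp m 1 = m := by
      show m ^ (1 : ZMod 3).val = m
      have : (1 : ZMod 3).val = 1 := by decide
      rw [this, pow_one]
    rw [this]; exact h
  · have : Mp m 2 = m ^ 2 := by
      show m ^ (2 : ZMod 3).val = m ^ 2
      have : (2 : ZMod 3).val = 2 := by decide
      rw [this]
    rw [this]
    show (m ^ 2) ^ 2 + m ^ 2 + 1 = 0
    linear_combination (m ^ 2 - m + 1) * h0

lemma ns_val {m : ℂ} (h : Cube m) {j : ZMod 3} (hj : j ≠ 0) (a b : ℝ) :
    Complex.normSq ((a : ℂ) * Mp m j - b) = a ^ 2 + a * b + b ^ 2 := by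
  obtain ⟨h1, h2⟩ := cube_re (Mp_cube h hj)
  rw [Complex.normSq_apply]
  simp only [Complex.sub_re, Complex.sub_im, Complex.mul_re, Complex.mul_im, Complex.ofReal_re,
    Complex.ofReal_im]
  rw [h1]
  linear_combination a ^ 2 * h2

lemma conj_Mp {m : ℂ} (h : Cube m) (j : ZMod 3) : conj (Mp m j) = Mp m (-j) := by
  have := Mp_conj h 0 j
  rw [Mp_zero, one_mul, zero_sub] at this
  exact this

lemma dist_P (O c α β : ℂ) :
    dist (O + c * α) (O + c * β) ^ 2 = ‖c‖ ^ 2 * Complex.normSq (α - β) := by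
  rw [dist_eq_norm]
  have : O + c * α - (O + c * β) = c * (α - β) := by ring
  rw [this, norm_mul, mul_pow, Complex.sq_norm (α - β)]

lemma act_true_P {O m c : ℂ} (hc : c ≠ 0) (i : ZMod 3) (α : ℂ) :
    act O m (c / conj c) i true (O + c * α) = O + c * (Mp m i * conj α) := by
  have hcc : conj c ≠ 0 := (map_ne_zero _).2 hc
  simp only [act, if_true, add_sub_cancel_left, map_mul]
  field_simp

lemma act_false_P {O m c κ : ℂ} (i : ZMod 3) (α : ℂ) :
    act O m κ i false (O + c * α) = O + c * (Mp m i * α) := by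
  simp only [act, Bool.false_eq_true, if_false, add_sub_cancel_left]
  ring

lemma act_dist {O m κ : ℂ} (hm : Cube m) (hκ : ‖κ‖ = 1) (i : ZMod 3) (t : Bool) (z : ℂ) :
    dist (act O m κ i t z) O = dist z O := by
  rw [dist_eq_norm, dist_eq_norm]
  unfold act
  rw [add_sub_cancel_left, norm_mul, Mp_norm hm, one_mul]
  cases t
  · simp
  · simp only [if_true]
    rw [norm_mul, hκ, one_mul, Complex.norm_conj]

/-- `act` as an isometry -/
lemma act_iso {O m κ : ℂ} (hm : Cube m) (hκ : ‖κ‖ = 1) (i : ZMod 3) (t : Bool) :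
    ∃ g : Equiv.Perm ℂ, IsIso g ∧ ∀ z, g z = act O m κ i t z := by
  have hinv : ∃ i', ∀ z, act O m κ i' t (act O m κ i t z) = z ∧
      act O m κ i t (act O m κ i' t z) = z := by
    cases t
    · refine ⟨-i, fun z => ?_⟩
      rw [act_act hm hκ, act_act hm hκ]
      simp [opA, act, Mp_zero]
    · refine ⟨i, fun z => ?_⟩
      rw [act_act hm hκ]
      simp [opA, act, Mp_zero]
  obtain ⟨i', hi'⟩ := hinv
  refine ⟨⟨act O m κ i t, act O m κ i' t, fun z => (hi' z).1, fun z => (hi' z).2⟩, ?_,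
    fun z => rfl⟩
  cases t
  · refine ⟨Mp m i, O - Mp m i * O, Mp_norm hm i, Or.inl fun z => ?_⟩
    show act O m κ i false z = _
    simp only [act, Bool.false_eq_true, if_false]; ring
  · refine ⟨Mp m i * κ, O - Mp m i * κ * conj O, by rw [norm_mul, Mp_norm hm, hκ, one_mul],
      Or.inr fun z => ?_⟩
    show act O m κ i true z = _
    simp only [act, if_true, map_sub]; ring

lemma two_neg3 : ∀ j : ZMod 3, j + j = -j := by decide

/-- description of the seven points -/
lemma alpha_shape {F W T : Finset ℂ} {O : ℂ} {r : ℝ} (hFW : ∀ w ∈ W, w ∉ F)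
    (hall : AllSym F W) (he : Enc (F ∪ W) O r T) (hW : 7 ≤ W.card) {x y w : ℂ} (hx : x ∈ W)
    (hy : y ∈ W) (hw : w ∈ W) (hxr : dist x O < r) (hyr : dist y O < r) (hwr : dist w O = r)
    (hnp : (x - O) * conj (y - O) ≠ conj (x - O) * (y - O)) :
    ∃ m c : ℂ, ∃ σ : ℝ, Cube m ∧ ‖c‖ = r ∧ 0 < r ∧ σ ≠ 0 ∧ σ ^ 2 < 1 ∧
      (∀ j, O + c * Mp m j ∈ W) ∧ (∀ j, O + c * ((σ : ℂ) * Mp m j) ∈ W) ∧ O ∈ W ∧
      (∀ z ∈ W, (∃ j, z = O + c * Mp m j) ∨ (∃ j, z = O + c * ((σ : ℂ) * Mp m j)) ∨ z = O) ∧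
      (∀ z ∈ F ∪ W, dist z O = r → ∃ j, z = O + c * Mp m j) ∧
      (∀ S ⊆ W, Wc W O r ⊆ S → D3Sym O m (c / conj c) (F ∪ S)) := by
  classical
  obtain ⟨hxO, hyO⟩ := ne_of_np hnp
  have hr0 : 0 < r := lt_of_le_of_lt dist_nonneg hxr
  have count : ∀ (m w : ℂ), (∀ z ∈ F ∪ W, dist z O = r → ∃ j, z = O + Mp m j * (w - O)) →
      (∀ z ∈ W, dist z O < r → z ≠ O → ∃ j, z = O + Mp m j * (x - O)) →
      (∀ j, O + Mp m j * (w - O) ∈ W) ∧ (∀ j, O + Mp m j * (x - O) ∈ W) ∧ O ∈ W := by
    intro m w h1 h2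
    set D : Finset ℂ := (Finset.univ.image (fun j : ZMod 3 => O + Mp m j * (w - O))) ∪
      ((Finset.univ.image (fun j : ZMod 3 => O + Mp m j * (x - O))) ∪ {O}) with hD
    have hsub : W ⊆ D := by
      intro z hz
      have hzr := he.1 z (Finset.mem_union_right _ hz)
      rw [hD, Finset.mem_union, Finset.mem_union, Finset.mem_singleton, Finset.mem_image,
        Finset.mem_image]
      rcases hzr.lt_or_eq with h3 | h3
      · by_cases h4 : z = O
        · exact Or.inr (Or.inr h4)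
        · obtain ⟨j, hj⟩ := h2 z hz h3 h4
          exact Or.inr (Or.inl ⟨j, Finset.mem_univ _, hj.symm⟩)
      · obtain ⟨j, hj⟩ := h1 z (Finset.mem_union_right _ hz) h3
        exact Or.inl ⟨j, Finset.mem_univ _, hj.symm⟩
    have hDc : D.card ≤ 7 := by
      have c1 := Finset.card_image_le (s := (Finset.univ : Finset (ZMod 3)))
        (f := fun j => O + Mp m j * (w - O))
      have c2 := Finset.card_image_le (s := (Finset.univ : Finset (ZMod 3)))
        (f := fun j => O + Mp m j * (x - O))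
      have c3 := Finset.card_union_le (Finset.univ.image (fun j : ZMod 3 => O + Mp m j * (w - O)))
        ((Finset.univ.image (fun j : ZMod 3 => O + Mp m j * (x - O))) ∪ {O})
      have c4 := Finset.card_union_le (Finset.univ.image (fun j : ZMod 3 => O + Mp m j * (x - O)))
        {O}
      rw [Finset.card_univ, ZMod.card] at c1 c2
      rw [Finset.card_singleton] at c4
      rw [hD]; omega
    have hWD : W = D := Finset.eq_of_subset_of_card_le hsub (by omega)
    refine ⟨fun j => ?_, fun j => ?_, ?_⟩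
    · rw [hWD, hD]
      exact Finset.mem_union_left _ (Finset.mem_image_of_mem _ (Finset.mem_univ j))
    · rw [hWD, hD]
      exact Finset.mem_union_right _ (Finset.mem_union_left _
        (Finset.mem_image_of_mem _ (Finset.mem_univ j)))
    · rw [hWD, hD]
      exact Finset.mem_union_right _ (Finset.mem_union_right _ (Finset.mem_singleton_self _))
  obtain ⟨m0, hm0, a1, a2, a3, ⟨j0, a4⟩, a5⟩ :=
    meta_tri hFW hall he hx hy hw hxr hyr hwr hnp
  obtain ⟨b1, b2, b3⟩ := count m0 w a1 a3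
  have hwO : w ≠ O := by
    rintro rfl
    rw [dist_self] at hwr
    exact hr0.ne hwr
  have hc0 : w - O ≠ 0 := sub_ne_zero.2 hwO
  have hcc0 : conj (w - O) ≠ 0 := (map_ne_zero _).2 hc0
  set w' := O + Mp m0 j0 * (w - O) with hw'
  have hw'W : w' ∈ W := b1 j0
  have hw'r : dist w' O = r := by
    rw [hw', dist_eq_norm, add_sub_cancel_left, norm_mul, Mp_norm hm0, one_mul, ← dist_eq_norm,
      hwr]
  have hM0 := Mp_ne hm0 j0
  have hw'0 : w' - O ≠ 0 := by
    rw [hw', add_sub_cancel_left]; exact mul_ne_zero hM0 hc0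
  obtain ⟨σ, hσ⟩ : ∃ σ : ℝ, x - O = (σ : ℂ) * (w' - O) := by
    set τ := (x - O) / (w' - O) with hτ
    have h1 : conj τ = τ := by
      rw [hτ, map_div₀, div_eq_div_iff ((map_ne_zero _).2 hw'0) hw'0]
      rw [hw', add_sub_cancel_left, map_mul, conj_Mp hm0, ← two_neg3, Mp_add hm0]
      have h2 : (w - O) * conj (x - O) = Mp m0 j0 * (x - O) * conj (w - O) := by
        rw [div_mul_eq_mul_div, div_eq_iff hcc0] at a4
        exact a4
      linear_combination Mp m0 j0 * h2
    obtain ⟨σ, hσ⟩ := Complex.conj_eq_iff_real.1 h1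
    refine ⟨σ, ?_⟩
    rw [← hσ, hτ, div_mul_cancel₀ _ hw'0]
  obtain ⟨m, hm, d1, d2, d3, -, d5⟩ := meta_tri hFW hall he hx hy hw'W hxr hyr hw'r hnp
  obtain ⟨e1, e2, e3⟩ := count m w' d1 d3
  have hform : ∀ j, O + Mp m j * (w' - O) = O + (w' - O) * Mp m j := fun j => by ring
  have hformx : ∀ j, O + Mp m j * (x - O) = O + (w' - O) * ((σ : ℂ) * Mp m j) := fun j => by
    rw [hσ]; ring
  have hcn : ‖w' - O‖ = r := by rw [← dist_eq_norm]; exact hw'r
  refine ⟨m, w' - O, σ, hm, hcn, hr0, ?_, ?_, ?_, ?_, e3, ?_, ?_, d5⟩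
  · rintro rfl
    apply hxO
    rw [Complex.ofReal_zero, zero_mul] at hσ
    exact sub_eq_zero.1 hσ
  · have h1 : dist x O = |σ| * r := by
      rw [dist_eq_norm, hσ, norm_mul, hcn, Complex.norm_real, Real.norm_eq_abs]
    rw [h1] at hxr
    have h2 : |σ| < 1 := by
      by_contra h3
      push Not at h3
      nlinarith
    rw [← sq_abs]
    nlinarith [abs_nonneg σ]
  · intro j; rw [← hform]; exact e1 j
  · intro j; rw [← hformx]; exact e2 j
  · intro z hz
    have hzr := he.1 z (Finset.mem_union_right _ hz)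
    rcases hzr.lt_or_eq with h3 | h3
    · by_cases h4 : z = O
      · exact Or.inr (Or.inr h4)
      · obtain ⟨j, hj⟩ := d3 z hz h3 h4
        exact Or.inr (Or.inl ⟨j, by rw [hj, hformx]⟩)
    · obtain ⟨j, hj⟩ := d1 z (Finset.mem_union_right _ hz) h3
      exact Or.inl ⟨j, by rw [hj, hform]⟩
  · intro z hz hzr
    obtain ⟨j, hj⟩ := d1 z hz hzr
    exact ⟨j, by rw [hj, hform]⟩

end Pool.Agent.R174.Pl
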