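import Pool.Agent.R174.PlO

/-!
# Distinguishing extension number of the plane under all isometries, part P

Seven points, the interior ones not on a line through the centre: contradiction.
-/

namespace Pool.Agent.R174.Pl

open ComplexConjugate

lemma enc_fix {B B' T : Finset ℂ} {O : ℂ} {r : ℝ} (he : Enc B O r T) (hB' : B' ⊆ B) (hT : T ⊆ B')
    {g : Equiv.Perm ℂ} (hg : IsIso g) (hi : ∀ z, g z ∈ B' ↔ z ∈ B') : g O = O := by
  obtain ⟨a1, a2, a3, a4, a5⟩ := he
  refine centre_fixed (B := B') (r := r) (T := T) (fun z hz => a1 z (hB' hz)) hT ?_ hg hi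
  intro x
  obtain ⟨t, ht, htd⟩ := bal_dist a4 a5 x
  refine ⟨t, ht, ?_⟩
  have hr : 0 ≤ r := by rw [← a4 t ht]; exact dist_nonneg
  have : r ^ 2 ≤ dist t x ^ 2 := by nlinarith [sq_nonneg (dist x O)]
  exact (pow_le_pow_iff_left₀ hr dist_nonneg two_ne_zero).1 this

lemma np_aux {c α : ℂ} {s : ℝ} (O : ℂ) (hc : c ≠ 0) (hs : s ≠ 0) (hα : α.im ≠ 0) :
    (O - (O + c * (s : ℂ))) * conj (O + c * α - (O + c * (s : ℂ)))
      ≠ conj (O - (O + c * (s : ℂ))) * (O + c * α - (O + c * (s : ℂ))) := by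
  intro h
  have hcc : conj c ≠ 0 := (map_ne_zero _).2 hc
  have hsc : (s : ℂ) ≠ 0 := by exact_mod_cast hs
  have e1 : O - (O + c * (s : ℂ)) = -(c * s) := by ring
  have e2 : O + c * α - (O + c * (s : ℂ)) = c * (α - s) := by ring
  rw [e1, e2, map_neg, map_mul, map_mul, map_sub, Complex.conj_ofReal] at h
  have h2 : (c * conj c * s) * (conj α - α) = 0 := by linear_combination -h
  rcases mul_eq_zero.1 h2 with h3 | h3
  · exact mul_ne_zero (mul_ne_zero hc hcc) hsc h3
  · apply hα
    have := congrArg Complex.im h3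
    rw [Complex.sub_im, Complex.conj_im, Complex.zero_im] at this
    linarith

theorem case_alpha {F W T : Finset ℂ} {O : ℂ} {r : ℝ} (hFW : ∀ w ∈ W, w ∉ F)
    (hall : AllSym F W) (he : Enc (F ∪ W) O r T) (hW : 7 ≤ W.card) {x y w : ℂ} (hx : x ∈ W)
    (hy : y ∈ W) (hw : w ∈ W) (hxr : dist x O < r) (hyr : dist y O < r) (hwr : dist w O = r)
    (hnp : (x - O) * conj (y - O) ≠ conj (x - O) * (y - O)) : False := by
  classical
  obtain ⟨m, c, σ, hm, hcn, hr0, hσ0, hσ1, ht, hxs, hO, hWall, htop, hD⟩ :=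
    alpha_shape hFW hall he hW hx hy hw hxr hyr hwr hnp
  have hc : c ≠ 0 := by
    intro h; rw [h, norm_zero] at hcn; exact hr0.ne hcn
  have hcc : conj c ≠ 0 := (map_ne_zero _).2 hc
  set κ := c / conj c with hκd
  have hκ : ‖κ‖ = 1 := by
    rw [hκd, norm_div, Complex.norm_conj, div_self (norm_ne_zero_iff.2 hc)]
  have hr2 : 0 < r ^ 2 := by positivity
  have hMim : ∀ j : ZMod 3, j ≠ 0 → (Mp m j).im ≠ 0 := by
    intro j hj h
    have := (cube_re (Mp_cube hm hj)).2
    rw [h] at this; norm_num at this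
  have hσim : ∀ j : ZMod 3, j ≠ 0 → ((σ : ℂ) * Mp m j).im ≠ 0 := by
    intro j hj
    rw [Complex.im_ofReal_mul]
    exact mul_ne_zero hσ0 (hMim j hj)
  have hdO : ∀ α : ℂ, dist (O + c * α) O ^ 2 = r ^ 2 * Complex.normSq α := by
    intro α
    have := dist_P O c α 0
    rw [mul_zero, add_zero, sub_zero, hcn] at this
    exact this
  have hdtr : ∀ j, dist (O + c * Mp m j) O = r := by
    intro j
    rw [dist_eq_norm, add_sub_cancel_left, norm_mul, Mp_norm hm, mul_one, hcn]
  have hdxr : ∀ j, dist (O + c * ((σ : ℂ) * Mp m j)) O < r := by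
    intro j
    have h1 : dist (O + c * ((σ : ℂ) * Mp m j)) O ^ 2 < r ^ 2 := by
      rw [hdO, map_mul, Complex.normSq_ofReal, Complex.normSq_eq_norm_sq, Mp_norm hm]
      nlinarith
    exact lt_of_pow_lt_pow_left₀ 2 hr0.le h1
  have hinv : ∀ i z, act O m κ i true (act O m κ i true z) = z := by
    intro i z
    rw [act_act hm hκ]
    simp [opA, act, Mp_zero]
  have at_t : ∀ i j, act O m κ i true (O + c * Mp m j) = O + c * Mp m (i - j) := by
    intro i j
    rw [hκd, act_true_P hc, Mp_conj hm]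
  have at_x : ∀ i j, act O m κ i true (O + c * ((σ : ℂ) * Mp m j))
      = O + c * ((σ : ℂ) * Mp m (i - j)) := by
    intro i j
    rw [hκd, act_true_P hc, map_mul, Complex.conj_ofReal, ← Mp_conj hm]; ring
  have af_x : ∀ i j, act O m κ i false (O + c * ((σ : ℂ) * Mp m j))
      = O + c * ((σ : ℂ) * Mp m (i + j)) := by
    intro i j
    rw [act_false_P, Mp_add hm]; ring
  have xinj : ∀ i j, O + c * ((σ : ℂ) * Mp m i) = O + c * ((σ : ℂ) * Mp m j) → i = j := by
    intro i j h
    apply Mp_inj hm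
    have hσc : (σ : ℂ) ≠ 0 := by exact_mod_cast hσ0
    exact mul_left_cancel₀ hσc (mul_left_cancel₀ hc (add_left_cancel h))
  have tinj : ∀ i j, O + c * Mp m i = O + c * Mp m j → i = j := by
    intro i j h
    apply Mp_inj hm
    exact mul_left_cancel₀ hc (add_left_cancel h)
  -- `F` is invariant under the group of the triangle
  have hFfw : ∀ i, ∀ z ∈ F, act O m κ i true z ∈ F := by
    intro i z hz
    set xj := O + c * ((σ : ℂ) * Mp m (-i)) with hxj
    have hSW : insert xj (Wc W O r) ⊆ W := Finset.insert_subset (hxs _) (Wc_sub _ _ _)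
    obtain ⟨i', t', hne, hi'⟩ := hD _ hSW (Finset.subset_insert _ _)
    have hxK : act O m κ i' t' xj ∈ F ∪ insert xj (Wc W O r) :=
      (hi' xj).2 (Finset.mem_union_right _ (Finset.mem_insert_self _ _))
    have hxd : dist (act O m κ i' t' xj) O < r := by
      rw [act_dist hm hκ]; exact hdxr _
    have hform : ∃ j', act O m κ i' t' xj = O + c * ((σ : ℂ) * Mp m j') ∧
        (t' = false → j' = i' + -i) ∧ (t' = true → j' = i' - -i) := by
      cases t'
      · exact ⟨_, af_x i' (-i), fun _ => rfl, fun h => by simp at h⟩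
      · exact ⟨_, at_x i' (-i), fun h => by simp at h, fun _ => rfl⟩
    obtain ⟨j', hj', hf, ht'⟩ := hform
    have hfix : act O m κ i' t' xj = xj := by
      rw [Finset.mem_union, Finset.mem_insert, mem_Wc] at hxK
      rcases hxK with h1 | h1 | h1
      · exfalso
        rw [hj'] at h1
        exact hFW _ (hxs j') h1
      · exact h1
      · exact absurd h1.2 hxd.ne
    have hjj : j' = -i := xinj _ _ (hj'.symm.trans hfix)
    have hti : t' = true ∧ i' = i := by
      cases t'
      · exfalso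
        have h1 := hf rfl
        rw [hjj] at h1
        have h2 : i' = 0 := by
          revert h1; generalize i' = a; generalize i = b; revert a b; decide
        rcases hne with h3 | h3
        · exact h3 h2
        · simp at h3
      · refine ⟨rfl, ?_⟩
        have h1 := ht' rfl
        rw [hjj] at h1
        revert h1; generalize i' = a; generalize i = b; revert a b; decide
    obtain ⟨rfl, rfl⟩ := hti
    have h1 : act O m κ i' true z ∈ F ∪ insert xj (Wc W O r) :=
      (hi' z).2 (Finset.mem_union_left _ hz)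
    rw [Finset.mem_union, Finset.mem_insert, mem_Wc] at h1
    rcases h1 with h1 | h1 | h1
    · exact h1
    · exfalso
      have h2 : z = xj := by rw [← hinv i' z, h1, hfix]
      rw [h2] at hz
      exact hFW _ (hxs _) hz
    · exfalso
      obtain ⟨l, hl⟩ := htop _ (Finset.mem_union_right _ h1.1) h1.2
      have h2 : z = O + c * Mp m (i' - l) := by rw [← hinv i' z, hl, at_t]
      rw [h2] at hz
      exact hFW _ (ht _) hz
  have hFi : ∀ i z, act O m κ i true z ∈ F ↔ z ∈ F := by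
    intro i z
    refine ⟨fun h => ?_, hFfw i z⟩
    have := hFfw i _ h
    rwa [hinv] at this
  have hFr : ∀ z ∈ F, act O m κ 1 false z ∈ F := by
    intro z hz
    have h1 := hFfw 1 _ (hFfw 0 z hz)
    rw [act_act hm hκ] at h1
    have e : (opA 1 true (0, true)) = (1, false) := by decide
    rw [e] at h1
    exact h1
  have hr3 : ∀ z, act O m κ 1 false (act O m κ 1 false (act O m κ 1 false z)) = z := by
    intro z
    have h1 := (Mp_cube hm (show (1 : ZMod 3) ≠ 0 by decide)).pow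
    simp only [act, Bool.false_eq_true, if_false]
    linear_combination (z - O) * h1
  have hM1 : Mp m 1 ≠ 1 := by
    intro h
    rw [← Mp_zero m] at h
    exact absurd (Mp_inj hm h) (by decide)
  -- centres of the smaller configurations
  have hcen : ∀ W1 ⊆ W, (∀ z ∈ W1, act O m κ 0 true z ∈ W1) →
      (∀ j, O + c * ((σ : ℂ) * Mp m j) ∈ W1) → O ∈ W1 → (∃ j, O + c * Mp m j ∈ W1) →
      ∀ (O1 : ℂ) (r1 : ℝ) (T1 : Finset ℂ), Enc (F ∪ W1) O1 r1 T1 →
      ∃ s : ℝ, O1 = O + c * (s : ℂ) ∧ r1 ^ 2 + r ^ 2 * s ^ 2 ≤ r ^ 2 ∧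
        ∃ j, O + c * Mp m j ∈ T1 := by
    intro W1 hW1 hinvW1 hX1 hO1 ht1 O1 r1 T1 he1
    have hsub : F ∪ W1 ⊆ F ∪ W := Finset.union_subset_union_right hW1
    -- on the axis
    have hax : act O m κ 0 true O1 = O1 := by
      obtain ⟨g, hg, hgf⟩ := act_iso (O := O) hm hκ 0 true
      rw [← hgf]
      refine enc_fix he1 (Finset.Subset.refl _) he1.2.1 hg ?_
      have hfw : ∀ z ∈ F ∪ W1, act O m κ 0 true z ∈ F ∪ W1 := by
        intro z hz
        rw [Finset.mem_union] at hz ⊢
        rcases hz with hz | hz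
        · exact Or.inl (hFfw 0 z hz)
        · exact Or.inr (hinvW1 z hz)
      intro z
      rw [hgf]
      refine ⟨fun h => ?_, hfw z⟩
      have := hfw _ h
      rwa [hinv] at this
    obtain ⟨s, hs⟩ : ∃ s : ℝ, O1 - O = c * (s : ℂ) := by
      have h1 : κ * conj (O1 - O) = O1 - O := by
        simp only [act, if_true, Mp_zero] at hax
        linear_combination hax
      have h2 : conj ((O1 - O) / c) = (O1 - O) / c := by
        rw [map_div₀, div_eq_div_iff hcc hc]
        rw [hκd, div_mul_eq_mul_div, div_eq_iff hcc] at h1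
        linear_combination h1
      obtain ⟨s, hs⟩ := Complex.conj_eq_iff_real.1 h2
      refine ⟨s, ?_⟩
      rw [← hs, mul_div_cancel₀ _ hc]
    have hO1s : O1 = O + c * (s : ℂ) := by linear_combination hs
    refine ⟨s, hO1s, ?_, ?_⟩
    · obtain ⟨t, htT, htd⟩ := bal_dist he1.2.2.2.1 he1.2.2.2.2 O
      have h1 : dist O O1 ^ 2 = r ^ 2 * s ^ 2 := by
        rw [dist_comm, hO1s, hdO, Complex.normSq_ofReal]; ring
      have h2 : dist t O ≤ r := he.1 t (hsub (he1.2.1 htT))
      have h3 : dist t O ^ 2 ≤ r ^ 2 := pow_le_pow_left₀ dist_nonneg h2 2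
      rw [h1] at htd
      linarith
    · by_contra hno
      push Not at hno
      set G : Finset ℂ := F ∪ ((Finset.univ.image fun j : ZMod 3 => O + c * ((σ : ℂ) * Mp m j))
        ∪ {O}) with hG
      have hGm : ∀ z, z ∈ G ↔ z ∈ F ∨ (∃ j, O + c * ((σ : ℂ) * Mp m j) = z) ∨ z = O := by
        intro z
        rw [hG, Finset.mem_union, Finset.mem_union, Finset.mem_image, Finset.mem_singleton]
        simp
      have hGsub : G ⊆ F ∪ W1 := by
        intro z hz
        rw [Finset.mem_union]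
        rcases (hGm z).1 hz with h | ⟨j, h⟩ | h
        · exact Or.inl h
        · right; rw [← h]; exact hX1 j
        · right; rw [h]; exact hO1
      have hTG : T1 ⊆ G := by
        intro t htT
        have h1 := he1.2.1 htT
        rw [hGm]
        rw [Finset.mem_union] at h1
        rcases h1 with h1 | h1
        · exact Or.inl h1
        · rcases hWall t (hW1 h1) with ⟨j, hj⟩ | ⟨j, hj⟩ | h2
          · exact absurd (hj ▸ htT) (hno j)
          · exact Or.inr (Or.inl ⟨j, hj.symm⟩)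
          · exact Or.inr (Or.inr h2)
      have hGfw : ∀ z ∈ G, act O m κ 1 false z ∈ G := by
        intro z hz
        rw [hGm] at hz ⊢
        rcases hz with h | ⟨j, h⟩ | h
        · exact Or.inl (hFr z h)
        · right; left
          exact ⟨1 + j, by rw [← h, af_x]⟩
        · right; right
          rw [h]; simp [act]
      have hrot : act O m κ 1 false O1 = O1 := by
        obtain ⟨g, hg, hgf⟩ := act_iso (O := O) hm hκ 1 false
        rw [← hgf]
        refine enc_fix he1 hGsub hTG hg ?_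
        intro z
        rw [hgf]
        refine ⟨fun h => ?_, hGfw z⟩
        have := hGfw _ (hGfw _ h)
        rwa [hr3] at this
      have hOO : O1 = O := by
        simp only [act, Bool.false_eq_true, if_false] at hrot
        have h1 : (Mp m 1 - 1) * (O1 - O) = 0 := by linear_combination hrot
        exact sub_eq_zero.1 ((mul_eq_zero.1 h1).resolve_left (sub_ne_zero.2 hM1))
      obtain ⟨t, htT, -⟩ := he1.2.2.2.2 0
      have h1 : dist t O < r := by
        have h2 := he.1 t (hsub (he1.2.1 htT))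
        rcases h2.lt_or_eq with h2 | h2
        · exact h2
        · exfalso
          obtain ⟨j, hj⟩ := htop t (hsub (he1.2.1 htT)) h2
          exact hno j (hj ▸ htT)
      obtain ⟨j, hj⟩ := ht1
      have h3 := he1.1 _ (Finset.mem_union_right _ hj)
      have h4 := he1.2.2.2.1 t htT
      rw [hOO] at h3 h4
      rw [hdtr] at h3
      linarith
  have hx0t : ∀ i j, O + c * ((σ : ℂ) * Mp m i) ≠ O + c * Mp m j := by
    intro i j h
    have h1 := hdxr i
    rw [h, hdtr] at h1
    exact lt_irrefl _ h1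
  have hOt : ∀ j, O ≠ O + c * Mp m j := by
    intro j h
    have h1 := hdtr j
    rw [← h, dist_self] at h1
    exact hr0.ne h1
  have n10 : (1 : ZMod 3) ≠ 0 := by decide
  have n20 : (2 : ZMod 3) ≠ 0 := by decide
  have hdd : ∀ (α : ℂ) (s : ℝ), dist (O + c * α) (O + c * (s : ℂ)) ^ 2
      = r ^ 2 * Complex.normSq (α - s) := by
    intro α s; rw [dist_P, hcn]
  have hn1 : ∀ j : ZMod 3, j ≠ 0 → ∀ s : ℝ, Complex.normSq (Mp m j - s) = 1 + s + s ^ 2 := by
    intro j hj s
    have := ns_val hm hj 1 s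
    rw [Complex.ofReal_one, one_mul] at this
    rw [this]; ring
  have hn0 : ∀ a s : ℝ, Complex.normSq ((a : ℂ) * Mp m 0 - s) = (a - s) ^ 2 := by
    intro a s
    rw [Mp_zero, mul_one, ← Complex.ofReal_sub, Complex.normSq_ofReal]; ring
  have hF_t : ∀ j, O + c * Mp m j ∉ F := fun j h => hFW _ (ht j) h
  -- first configuration
  set W1 := W.erase (O + c * Mp m 0) with hW1
  have hW1m : ∀ z, z ∈ W1 ↔ z ≠ O + c * Mp m 0 ∧ z ∈ W := by
    intro z; rw [hW1, Finset.mem_erase]
  have hW1s : W1 ⊆ W := Finset.erase_subset _ _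
  have hX1 : ∀ j, O + c * ((σ : ℂ) * Mp m j) ∈ W1 := fun j => (hW1m _).2 ⟨hx0t _ _, hxs j⟩
  have hO1 : O ∈ W1 := (hW1m _).2 ⟨hOt _, hO⟩
  have ht1 : ∀ j, j ≠ 0 → O + c * Mp m j ∈ W1 := fun j hj =>
    (hW1m _).2 ⟨fun h => hj (tinj _ _ h), ht j⟩
  have hinv1 : ∀ z ∈ W1, act O m κ 0 true z ∈ W1 := by
    intro z hz
    obtain ⟨h1, h2⟩ := (hW1m z).1 hz
    rcases hWall z h2 with ⟨j, hj⟩ | ⟨j, hj⟩ | h3
    · rw [hj, at_t, zero_sub]
      apply ht1
      intro h4
      apply h1
      rw [hj, neg_eq_zero.1 h4]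
    · rw [hj, at_x]; exact hX1 _
    · rw [h3]
      have : act O m κ 0 true O = O := by simp [act]
      rw [this]; exact hO1
  obtain ⟨O1, r1, T1, he1⟩ := exists_enc (F ∪ W1) ⟨O, Finset.mem_union_right _ hO1⟩
  obtain ⟨s, hO1s, hbal, j, hj⟩ := hcen W1 hW1s hinv1 hX1 hO1 ⟨1, ht1 1 n10⟩ O1 r1 T1 he1
  have hj0 : j ≠ 0 := by
    rintro rfl
    have h1 := he1.2.1 hj
    rw [Finset.mem_union] at h1
    rcases h1 with h1 | h1
    · exact hF_t _ h1
    · exact ((hW1m _).1 h1).1 rfl
  have hr1 : r1 ^ 2 = r ^ 2 * (1 + s + s ^ 2) := by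
    rw [← he1.2.2.2.1 _ hj, hO1s, hdd, hn1 j hj0]
  have hr1n : 0 ≤ r1 := by rw [← he1.2.2.2.1 _ hj]; exact dist_nonneg
  have hs1 : s * (1 + 2 * s) ≤ 0 := by
    rw [hr1] at hbal
    have : r ^ 2 * (s * (1 + 2 * s)) ≤ 0 := by nlinarith
    by_contra h
    push Not at h
    nlinarith
  have hs0 : s ≠ 0 := by
    intro hs0
    have hOO : O1 = O := by rw [hO1s, hs0]; simp
    have hrr : r1 = r := by
      rw [hs0] at hr1
      have : r1 ^ 2 = r ^ 2 := by linarith
      exact (pow_left_inj₀ hr1n hr0.le two_ne_zero).1 this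
    obtain ⟨t, htT, htv⟩ := he1.2.2.2.2 (-c)
    have h1 := he1.2.2.2.1 t htT
    rw [hOO, hrr] at h1
    have h2 := he1.2.1 htT
    obtain ⟨l, hl⟩ := htop t (Finset.union_subset_union_right hW1s h2) h1
    have hl0 : l ≠ 0 := by
      rintro rfl
      rw [hl, Finset.mem_union] at h2
      rcases h2 with h2 | h2
      · exact hF_t _ h2
      · exact ((hW1m _).1 h2).1 rfl
    rw [hOO, hl] at htv
    have e : (O + c * Mp m l - O) * conj (-c) = -((r ^ 2 : ℝ) : ℂ) * Mp m l := by
      have h3 : c * conj c = ((r ^ 2 : ℝ) : ℂ) := by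
        rw [Complex.mul_conj, Complex.normSq_eq_norm_sq, hcn]
      rw [← h3, map_neg]; ring
    rw [e, neg_mul, Complex.neg_re, Complex.re_ofReal_mul, (cube_re (Mp_cube hm hl0)).1] at htv
    nlinarith
  have hsneg : s < 0 := by
    rcases lt_or_gt_of_ne hs0 with h | h
    · exact h
    · nlinarith
  have hshalf : -1 / 2 ≤ s := by nlinarith
  have hσlt : σ < 1 := by nlinarith
  have hσgt : -1 < σ := by nlinarith
  by_cases hlt : -(1 + σ) < s
  · have hOr : dist O O1 < r1 := by
      have h1 : dist O O1 ^ 2 = r ^ 2 * s ^ 2 := by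
        rw [dist_comm, hO1s, hdO, Complex.normSq_ofReal]; ring
      refine lt_of_pow_lt_pow_left₀ 2 hr1n ?_
      rw [h1, hr1]; nlinarith
    have hxr1 : dist (O + c * ((σ : ℂ) * Mp m 1)) O1 < r1 := by
      refine lt_of_pow_lt_pow_left₀ 2 hr1n ?_
      rw [hr1, hO1s, hdd, ns_val hm n10]
      have h1 : 0 < (1 - σ) * (s + 1 + σ) := mul_pos (by linarith) (by linarith)
      nlinarith
    have hwr1 : ∀ j : ZMod 3, j ≠ 0 → dist (O + c * Mp m j) O1 = r1 := by
      intro j hj
      refine (pow_left_inj₀ dist_nonneg hr1n two_ne_zero).1 ?_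
      rw [hr1, hO1s, hdd, hn1 j hj]
    obtain ⟨m', hm', q1, -, -, -, -⟩ := meta_tri (F := F) (W := W1)
      (fun w hw => hFW w (hW1s hw)) (hall.mono hW1s) he1 hO1 (hX1 1) (ht1 1 n10) hOr hxr1
      (hwr1 1 n10) (by rw [hO1s]; exact np_aux O hc hs0 (hσim 1 n10))
    obtain ⟨l, hl⟩ := q1 _ (Finset.mem_union_right _ (ht1 2 n20)) (hwr1 2 n20)
    have hl0 : l ≠ 0 := by
      rintro rfl
      rw [Mp_zero] at hl
      have : O + c * Mp m 2 = O + c * Mp m 1 := by rw [hl]; ring
      exact absurd (tinj _ _ this) (by decide)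
    have e1 : ‖c * (Mp m 2 - Mp m 1)‖ ^ 2 = r ^ 2 * 3 := by
      have h1 : Mp m 2 = Mp m 1 * Mp m 1 := by
        rw [← Mp_add hm]
        have : (2 : ZMod 3) = 1 + 1 := by decide
        rw [this]
      have h2 := hn1 1 n10 1
      rw [Complex.ofReal_one] at h2
      rw [h1, show Mp m 1 * Mp m 1 - Mp m 1 = Mp m 1 * (Mp m 1 - 1) by ring, norm_mul, norm_mul,
        Mp_norm hm, one_mul, mul_pow, hcn, Complex.sq_norm (Mp m 1 - 1), h2]
      norm_num
    have e2 : ‖c * (Mp m 2 - Mp m 1)‖ ^ 2 = 3 * r1 ^ 2 := by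
      have h1 : c * (Mp m 2 - Mp m 1) = (Mp m' l - 1) * (O + c * Mp m 1 - O1) := by
        linear_combination hl
      have h2 := ns_val hm' hl0 1 1
      rw [Complex.ofReal_one, one_mul] at h2
      rw [h1, norm_mul, mul_pow, Complex.sq_norm (Mp m' l - 1), h2, ← dist_eq_norm,
        hwr1 1 n10]
      norm_num
    rw [e1, hr1] at e2
    nlinarith
  · push Not at hlt
    have hσhalf : σ ≤ -1 / 2 := by linarith
    -- second configuration
    set W2 := (W.erase (O + c * Mp m 1)).erase (O + c * Mp m 2) with hW2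
    have hW2m : ∀ z, z ∈ W2 ↔ z ≠ O + c * Mp m 2 ∧ z ≠ O + c * Mp m 1 ∧ z ∈ W := by
      intro z; rw [hW2, Finset.mem_erase, Finset.mem_erase]
    have hW2s : W2 ⊆ W := (Finset.erase_subset _ _).trans (Finset.erase_subset _ _)
    have hX2 : ∀ j, O + c * ((σ : ℂ) * Mp m j) ∈ W2 := fun j =>
      (hW2m _).2 ⟨hx0t _ _, hx0t _ _, hxs j⟩
    have hO2 : O ∈ W2 := (hW2m _).2 ⟨hOt _, hOt _, hO⟩
    have ht2 : O + c * Mp m 0 ∈ W2 := (hW2m _).2
      ⟨fun h => absurd (tinj _ _ h) (by decide), fun h => absurd (tinj _ _ h) (by decide), ht 0⟩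
    have hinv2 : ∀ z ∈ W2, act O m κ 0 true z ∈ W2 := by
      intro z hz
      obtain ⟨h1, h2, h3⟩ := (hW2m z).1 hz
      rcases hWall z h3 with ⟨j, hj⟩ | ⟨j, hj⟩ | h3
      · rcases three j with rfl | rfl | rfl
        · rw [hj, at_t, sub_zero]; exact ht2
        · exact absurd hj h2
        · exact absurd hj h1
      · rw [hj, at_x]; exact hX2 _
      · rw [h3]
        have : act O m κ 0 true O = O := by simp [act]
        rw [this]; exact hO2
    obtain ⟨O2, r2, T2, he2⟩ := exists_enc (F ∪ W2) ⟨O, Finset.mem_union_right _ hO2⟩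
    obtain ⟨s2, hO2s, hbal2, j2, hj2⟩ := hcen W2 hW2s hinv2 hX2 hO2 ⟨0, ht2⟩ O2 r2 T2 he2
    have onlyt : ∀ l, O + c * Mp m l ∈ F ∪ W2 → l = 0 := by
      intro l hl
      rw [Finset.mem_union] at hl
      rcases hl with hl | hl
      · exact absurd hl (hF_t _)
      · obtain ⟨h1, h2, h3⟩ := (hW2m _).1 hl
        rcases three l with rfl | rfl | rfl
        · rfl
        · exact absurd rfl h2
        · exact absurd rfl h1
    have hj20 : j2 = 0 := onlyt j2 (he2.2.1 hj2)
    subst hj20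
    have hn0' : ∀ s : ℝ, Complex.normSq (Mp m 0 - s) = (1 - s) ^ 2 := by
      intro s
      have := hn0 1 s
      rwa [Complex.ofReal_one, one_mul] at this
    have hr2' : r2 ^ 2 = r ^ 2 * (1 - s2) ^ 2 := by
      rw [← he2.2.2.2.1 _ hj2, hO2s, hdd, hn0']
    have hr2n : 0 ≤ r2 := by rw [← he2.2.2.2.1 _ hj2]; exact dist_nonneg
    have hs2 : s2 * (s2 - 1) ≤ 0 := by
      rw [hr2'] at hbal2
      by_contra h
      push Not at h
      nlinarith
    have hs20 : s2 ≠ 0 := by
      intro hs0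
      have hOO : O2 = O := by rw [hO2s, hs0]; simp
      have hrr : r2 = r := by
        rw [hs0] at hr2'
        have : r2 ^ 2 = r ^ 2 := by linarith
        exact (pow_left_inj₀ hr2n hr0.le two_ne_zero).1 this
      obtain ⟨t, htT, htv⟩ := he2.2.2.2.2 c
      have h1 := he2.2.2.2.1 t htT
      rw [hOO, hrr] at h1
      have h2 := he2.2.1 htT
      obtain ⟨l, hl⟩ := htop t (Finset.union_subset_union_right hW2s h2) h1
      have hl0 : l = 0 := onlyt l (hl ▸ h2)
      rw [hOO, hl, hl0, Mp_zero] at htv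
      have e : (O + c * 1 - O) * conj c = ((r ^ 2 : ℝ) : ℂ) := by
        have h3 : c * conj c = ((r ^ 2 : ℝ) : ℂ) := by
          rw [Complex.mul_conj, Complex.normSq_eq_norm_sq, hcn]
        rw [← h3]; ring
      rw [e, Complex.ofReal_re] at htv
      linarith
    have hs2pos : 0 < s2 := by
      rcases lt_or_gt_of_ne hs20 with h | h
      · nlinarith
      · exact h
    have hs2le : s2 ≤ 1 := by nlinarith
    have hx0d : (σ - s2) ^ 2 ≤ (1 - s2) ^ 2 := by
      have h1 := he2.1 _ (Finset.mem_union_right _ (hX2 0))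
      have h2 := pow_le_pow_left₀ dist_nonneg h1 2
      rw [hr2', hO2s, hdd, hn0] at h2
      exact le_of_mul_le_mul_left h2 hr2
    have hs2b : 2 * s2 ≤ 1 + σ := by nlinarith
    have hOr2 : dist O O2 < r2 := by
      have h1 : dist O O2 ^ 2 = r ^ 2 * s2 ^ 2 := by
        rw [dist_comm, hO2s, hdO, Complex.normSq_ofReal]; ring
      refine lt_of_pow_lt_pow_left₀ 2 hr2n ?_
      rw [h1, hr2']; nlinarith
    have hxr2 : dist (O + c * ((σ : ℂ) * Mp m 1)) O2 < r2 := by
      refine lt_of_pow_lt_pow_left₀ 2 hr2n ?_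
      rw [hr2', hO2s, hdd, ns_val hm n10]
      have h1 : 0 < (1 + σ) * (-σ) := mul_pos (by linarith) (by linarith)
      have h2 : s2 * (2 + σ) ≤ (1 + σ) / 2 * (2 + σ) :=
        mul_le_mul_of_nonneg_right (by linarith) (by linarith)
      have h3 : σ ^ 2 + σ * s2 + s2 ^ 2 < (1 - s2) ^ 2 := by nlinarith
      exact mul_lt_mul_of_pos_left h3 hr2
    have hwr2 : dist (O + c * Mp m 0) O2 = r2 := he2.2.2.2.1 _ hj2
    have hnp2 := np_aux O hc hs20 (hσim 1 n10)
    rw [← hO2s] at hnp2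
    obtain ⟨m', hm', -, -, q3, -, -⟩ := meta_tri (F := F) (W := W2)
      (fun w hw => hFW w (hW2s hw)) (hall.mono hW2s) he2 hO2 (hX2 1) ht2 hOr2 hxr2 hwr2 hnp2
    obtain ⟨l, hl⟩ := q3 _ (hX2 1) hxr2 (ne_of_np hnp2).2
    have h1 : dist (O + c * ((σ : ℂ) * Mp m 1)) O2 ^ 2 = dist O O2 ^ 2 := by
      conv_lhs => rw [hl]
      rw [dist_eq_norm, add_sub_cancel_left, norm_mul, Mp_norm hm', one_mul, ← dist_eq_norm]
    have h2 : dist O O2 ^ 2 = r ^ 2 * s2 ^ 2 := by
      rw [dist_comm, hO2s, hdO, Complex.normSq_ofReal]; ring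
    rw [h2, hO2s, hdd, ns_val hm n10] at h1
    have h3 : σ ^ 2 + σ * s2 + s2 ^ 2 = s2 ^ 2 := mul_left_cancel₀ hr2.ne' h1
    have h4 : σ * (σ + s2) = 0 := by linarith
    rcases mul_eq_zero.1 h4 with h5 | h5
    · exact hσ0 h5
    · linarith

end Pool.Agent.R174.Pl
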