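import Pool.Agent.R174.PlP

/-!
# Distinguishing extension number of the plane under all isometries, part Q

The interior points lie on a line through the centre.
-/

namespace Pool.Agent.R174.Pl

open ComplexConjugate

/-- reflection as a permutation -/
noncomputable def reflP (O k : ℂ) (hk : ‖k‖ = 1) : Equiv.Perm ℂ where
  toFun z := O + k * conj (z - O)
  invFun z := O + k * conj (z - O)
  left_inv z := by
    have := unit_mul_conj hk
    simp only [add_sub_cancel_left, map_mul, Complex.conj_conj]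
    linear_combination (z - O) * this
  right_inv z := by
    have := unit_mul_conj hk
    simp only [add_sub_cancel_left, map_mul, Complex.conj_conj]
    linear_combination (z - O) * this

lemma line_two {O ξ O1 : ℂ} {a b c : ℝ} (hξ : ξ ≠ 0) (hac : a ≠ c) (hbc : b ≠ c) (hab : a ≠ b)
    (h1 : dist (O + a * ξ) O1 = dist (O + b * ξ) O1)
    (h2 : dist (O + a * ξ) O1 = dist (O + c * ξ) O1) : False := by
  have key : ∀ t : ℝ, dist (O + t * ξ) O1 ^ 2
      = Complex.normSq ξ * t ^ 2 + 2 * t * (ξ * conj (O - O1)).re + Complex.normSq (O - O1) := by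
    intro t
    rw [dist_eq_norm, Complex.sq_norm, Complex.normSq_apply, Complex.normSq_apply,
      Complex.normSq_apply]
    simp only [Complex.sub_re, Complex.sub_im, Complex.add_re, Complex.add_im, Complex.mul_re,
      Complex.mul_im, Complex.ofReal_re, Complex.ofReal_im, map_sub, Complex.conj_re,
      Complex.conj_im]
    ring
  have k1 : dist (O + a * ξ) O1 ^ 2 = dist (O + b * ξ) O1 ^ 2 := by rw [h1]
  have k2 : dist (O + a * ξ) O1 ^ 2 = dist (O + c * ξ) O1 ^ 2 := by rw [h2]
  rw [key, key] at k1 k2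
  set N := Complex.normSq ξ with hN
  have hN0 : N ≠ 0 := Complex.normSq_eq_zero.not.2 hξ
  set R := (ξ * conj (O - O1)).re with hR
  have e1 : (a - b) * (N * (a + b) + 2 * R) = 0 := by linear_combination k1
  have e2 : (a - c) * (N * (a + c) + 2 * R) = 0 := by linear_combination k2
  have f1 := (mul_eq_zero.1 e1).resolve_left (sub_ne_zero.2 hab)
  have f2 := (mul_eq_zero.1 e2).resolve_left (sub_ne_zero.2 hac)
  have f3 : N * (b - c) = 0 := by linear_combination f1 - f2
  rcases mul_eq_zero.1 f3 with h | h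
  · exact hN0 h
  · exact hbc (sub_eq_zero.1 h)

theorem case_beta1 {F W T : Finset ℂ} {O : ℂ} {r : ℝ} (hFW : ∀ w ∈ W, w ∉ F)
    (hall : AllSym F W) (he : Enc (F ∪ W) O r T) (hW : 7 ≤ W.card) (hnc : NonCol W)
    {x : ℂ} (hx : x ∈ W) (hxr : dist x O < r) (hxO : x ≠ O)
    (hpar : ∀ y ∈ W, dist y O < r → (x - O) * conj (y - O) = conj (x - O) * (y - O)) :
    False := by
  classical
  have hr0 : 0 < r := lt_of_le_of_lt dist_nonneg hxr
  have hξ : x - O ≠ 0 := sub_ne_zero.2 hxO
  have hξc : conj (x - O) ≠ 0 := (map_ne_zero _).2 hξ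
  set ξ := x - O with hξd
  set k := ξ / conj ξ with hkd
  have hk : ‖k‖ = 1 := by
    rw [hkd, norm_div, Complex.norm_conj, div_self (norm_ne_zero_iff.2 hξ)]
  have hkk := unit_mul_conj hk
  set ρ : ℂ → ℂ := fun z => O + k * conj (z - O) with hρ
  have hρρ : ∀ z, ρ (ρ z) = z := by
    intro z
    simp only [hρ, add_sub_cancel_left, map_mul, Complex.conj_conj]
    linear_combination (z - O) * hkk
  have hLρ : ∀ z, ξ * conj (z - O) = conj ξ * (z - O) ↔ ρ z = z := by
    intro z
    simp only [hρ, hkd]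
    rw [div_mul_eq_mul_div]
    constructor
    · intro h; rw [h, mul_div_cancel_left₀ _ hξc]; ring
    · intro h
      have h2 : ξ * conj (z - O) / conj ξ = z - O := by linear_combination h
      rw [div_eq_iff hξc] at h2
      rw [h2]; ring
  have hLa : ∀ z, ρ z = z → ∃ a : ℝ, z = O + a * ξ := by
    intro z hz
    have h1 := (hLρ z).2 hz
    have h2 : conj ((z - O) / ξ) = (z - O) / ξ := by
      rw [map_div₀, div_eq_div_iff hξc hξ]
      linear_combination h1
    obtain ⟨a, ha⟩ := Complex.conj_eq_iff_real.1 h2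
    refine ⟨a, ?_⟩
    rw [← ha, div_mul_cancel₀ _ hξ]; ring
  have hint : ∀ y ∈ W, dist y O < r → ρ y = y := fun y hy hyr => (hLρ y).1 (hpar y hy hyr)
  have hoff : ∀ y ∈ W, ρ y ≠ y → dist y O = r := by
    intro y hy hyρ
    rcases (he.1 y (Finset.mem_union_right _ hy)).lt_or_eq with h | h
    · exact absurd (hint y hy h) hyρ
    · exact h
  have hess : ∀ w ∈ W, ρ w ≠ w → ∀ T' ⊆ F ∪ W, (∀ t ∈ T', dist t O = r) → Bal O T' → w ∈ T' := by
    intro w hw hwρ T' hT' hT'r hT'b
    by_contra hwT
    set K := F ∪ (Wc W O r).erase w with hK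
    have hsub : ∀ S : Finset ℂ, (Wc W O r).erase w ⊆ S → T' ⊆ F ∪ S := by
      intro S hS t ht
      have h1 := hT' ht
      rw [Finset.mem_union] at h1 ⊢
      rcases h1 with h1 | h1
      · exact Or.inl h1
      · refine Or.inr (hS (Finset.mem_erase.2 ⟨?_, mem_Wc.2 ⟨h1, hT'r t ht⟩⟩))
        rintro rfl; exact hwT ht
    have hRW : (Wc W O r).erase w ⊆ W := (Finset.erase_subset _ _).trans (Wc_sub _ _ _)
    have hs : ∀ S ⊆ W, (Wc W O r).erase w ⊆ S → Sym O (F ∪ S) := fun S hS hRS =>
      sym_of' hall he.1 hT'r hT'b hS (hsub S hRS)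
    have hxK : x ∉ K := by
      rw [hK, Finset.mem_union, Finset.mem_erase, mem_Wc]
      rintro (h | h)
      · exact hFW x hx h
      · exact hxr.ne h.2.2
    have hwK : w ∉ K := by
      rw [hK, Finset.mem_union, not_or]
      exact ⟨hFW w hw, Finset.notMem_erase _ _⟩
    apply hwρ
    rw [← hLρ]
    refine four_sets hxK hwK (by rw [hoff w hw hwρ]; exact hxr.ne)
      (hs _ hRW (Finset.Subset.refl _)) ?_ ?_ ?_
    · rw [hK, ← Finset.union_insert]
      exact hs _ (Finset.insert_subset hx hRW) (Finset.subset_insert _ _)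
    · rw [hK, ← Finset.union_insert]
      exact hs _ (Finset.insert_subset hw hRW) (Finset.subset_insert _ _)
    · rw [hK, ← Finset.union_insert, ← Finset.union_insert]
      exact hs _ (Finset.insert_subset hx (Finset.insert_subset hw hRW))
        ((Finset.subset_insert _ _).trans (Finset.subset_insert _ _))
  obtain ⟨p, hp, hpρ⟩ : ∃ p ∈ W, ρ p ≠ p := by
    obtain ⟨p, hp, hpne⟩ := hnc k (O - k * conj O) hk
    refine ⟨p, hp, fun h => hpne ?_⟩
    simp only [hρ, map_sub] at h
    linear_combination h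
  have hpr := hoff p hp hpρ
  -- the base is symmetric
  have hK := axis_sym hFW hall he hx hp hxr hxO hpr (hess p hp hpρ) (by
    intro hc3
    have h1 := Finset.le_card_sdiff (Wc W O r) W
    have h2 := Finset.pred_card_le_card_erase (s := W \ Wc W O r) (a := x)
    have h3 := Finset.pred_card_le_card_erase (s := (W \ Wc W O r).erase x) (a := O)
    obtain ⟨x', hx'⟩ := Finset.card_pos.1 (show 0 < (((W \ Wc W O r).erase x).erase O).card by
      omega)
    rw [Finset.mem_erase, Finset.mem_erase, Finset.mem_sdiff, mem_Wc] at hx'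
    obtain ⟨q1, q2, q3, q4⟩ := hx'
    have q5 : dist x' O < r := by
      rcases (he.1 x' (Finset.mem_union_right _ q3)).lt_or_eq with h | h
      · exact h
      · exact absurd ⟨q3, h⟩ q4
    exact ⟨x', q3, q2, q5, q1, hpar x' q3 q5⟩)
  have hKρ : ∀ z, ρ z ∈ F ∪ Wc W O r ↔ z ∈ F ∪ Wc W O r := hK
  have hFWρ : ∀ z ∈ F ∪ W, ρ z ∈ F ∪ W := by
    intro z hz
    by_cases h : z ∈ F ∪ Wc W O r
    · exact Finset.union_subset_union_right (Wc_sub _ _ _) ((hKρ z).2 h)
    · have hzW : z ∈ W := by
        rw [Finset.mem_union] at hz h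
        rcases hz with h1 | h1
        · exact absurd (Or.inl h1) h
        · exact h1
      have hzr : dist z O < r := by
        rcases (he.1 z hz).lt_or_eq with h1 | h1
        · exact h1
        · exact absurd (Finset.mem_union_right _ (mem_Wc.2 ⟨hzW, h1⟩)) h
      rw [hint z hzW hzr]; exact hz
  -- at most one pair off the line
  have hoffT : ∀ q ∈ W, ρ q ≠ q → q ∈ T ∧ ρ q ∈ T := by
    intro q hq hqρ
    refine ⟨hess q hq hqρ T he.2.1 he.2.2.2.1 he.2.2.2.2, ?_⟩
    have h1 := hess q hq hqρ (T.image ρ) (by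
      intro z hz
      rw [Finset.mem_image] at hz
      obtain ⟨t, ht, rfl⟩ := hz
      exact hFWρ t (he.2.1 ht)) (by
      intro z hz
      rw [Finset.mem_image] at hz
      obtain ⟨t, ht, rfl⟩ := hz
      have : dist (ρ t) O = dist t O := by
        simp only [hρ]
        rw [dist_eq_norm, add_sub_cancel_left, norm_mul, hk, one_mul, Complex.norm_conj,
          ← dist_eq_norm]
      rw [this]; exact he.2.2.2.1 t ht) (by
      intro v
      obtain ⟨t, ht, htv⟩ := he.2.2.2.2 (k * conj v)
      refine ⟨ρ t, Finset.mem_image_of_mem _ ht, ?_⟩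
      have e : (ρ t - O) * conj v = conj ((t - O) * conj (k * conj v)) := by
        simp only [hρ, add_sub_cancel_left, map_mul, Complex.conj_conj]
        ring
      rw [e, Complex.conj_re]; exact htv)
    rw [Finset.mem_image] at h1
    obtain ⟨t, ht, hte⟩ := h1
    rw [← hte, hρρ]; exact ht
  have hoffp : ∀ q ∈ W, ρ q ≠ q → q = p ∨ q = ρ p := by
    intro q hq hqρ
    by_contra hcon
    push Not at hcon
    obtain ⟨t1, t2⟩ := hoffT p hp hpρ
    obtain ⟨t3, t4⟩ := hoffT q hq hqρ
    have h1 : ρ q ≠ p := fun h => hcon.2 (by rw [← h, hρρ])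
    have h2 : ρ q ≠ ρ p := fun h => hcon.1 (by rw [← hρρ q, h, hρρ])
    have hsub : ({p, ρ p, q, ρ q} : Finset ℂ) ⊆ T := by
      intro z hz
      simp only [Finset.mem_insert, Finset.mem_singleton] at hz
      rcases hz with rfl | rfl | rfl | rfl
      · exact t1
      · exact t2
      · exact t3
      · exact t4
    have hcard : ({p, ρ p, q, ρ q} : Finset ℂ).card = 4 := by
      rw [Finset.card_insert_of_notMem, Finset.card_insert_of_notMem,
        Finset.card_pair (Ne.symm hqρ)]
      · simp only [Finset.mem_insert, Finset.mem_singleton, not_or]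
        exact ⟨Ne.symm hcon.2, Ne.symm h2⟩
      · simp only [Finset.mem_insert, Finset.mem_singleton, not_or]
        exact ⟨Ne.symm hpρ, Ne.symm hcon.1, Ne.symm h1⟩
    have := Finset.card_le_card hsub
    have := he.2.2.1
    omega
  set V := W.filter fun z => ρ z = z with hV
  have hVc : 5 ≤ V.card := by
    have h1 := Finset.card_filter_add_card_filter_not (s := W) (fun z => ρ z = z)
    have h2 : (W.filter fun z => ¬ ρ z = z) ⊆ {p, ρ p} := by
      intro z hz
      rw [Finset.mem_filter] at hz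
      rw [Finset.mem_insert, Finset.mem_singleton]
      exact hoffp z hz.1 hz.2
    have h3 := (Finset.card_le_card h2).trans Finset.card_le_two
    rw [← hV] at h1
    omega
  -- remove `p`
  set W1 := W.erase p with hW1
  have hW1s : W1 ⊆ W := Finset.erase_subset _ _
  have hVW1 : ∀ z ∈ V, z ∈ W1 ∧ ρ z = z := by
    intro z hz
    rw [hV, Finset.mem_filter] at hz
    refine ⟨Finset.mem_erase.2 ⟨?_, hz.1⟩, hz.2⟩
    rintro rfl; exact hpρ hz.2
  obtain ⟨v0, hv0⟩ := Finset.card_pos.1 (show 0 < V.card by omega)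
  obtain ⟨O1, r1, T1, he1⟩ := exists_enc (F ∪ W1) ⟨v0, Finset.mem_union_right _ (hVW1 v0 hv0).1⟩
  have hall1 := hall.mono hW1s
  have hfree : ∀ S ⊆ W1, (∀ z ∈ W1, dist z O1 = r1 → z ∈ S) → Sym O1 (F ∪ S) :=
    fun S hS h => sym_layer hall1 he1 hS fun z hz => h z (mem_Wc.1 hz).1 (mem_Wc.1 hz).2
  set U := V.filter fun z => dist z O1 ≠ r1 with hU
  have hUm : ∀ z ∈ U, z ∈ W1 ∧ ρ z = z ∧ dist z O1 ≠ r1 := by
    intro z hz
    rw [hU, Finset.mem_filter] at hz
    exact ⟨(hVW1 z hz.1).1, (hVW1 z hz.1).2, hz.2⟩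
  have three_line : ∀ a b c : ℂ, ρ a = a → ρ b = b → ρ c = c → a ≠ b → a ≠ c → b ≠ c →
      dist a O1 = dist b O1 → dist a O1 = dist c O1 → False := by
    intro a b c ha hb hc hab hac hbc h1 h2
    obtain ⟨a', rfl⟩ := hLa a ha
    obtain ⟨b', rfl⟩ := hLa b hb
    obtain ⟨c', rfl⟩ := hLa c hc
    exact line_two hξ (fun h => hac (by rw [h])) (fun h => hbc (by rw [h]))
      (fun h => hab (by rw [h])) h1 h2
  have hUc : 3 ≤ U.card := by
    have h1 := Finset.card_filter_add_card_filter_not (s := V) (fun z => dist z O1 ≠ r1)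
    have h2 : (V.filter fun z => ¬ dist z O1 ≠ r1).card ≤ 2 := by
      by_contra hcon
      push Not at hcon
      obtain ⟨a, ha, b, hb, c, hc, hab, hac, hbc⟩ := Finset.two_lt_card.1 hcon
      rw [Finset.mem_filter] at ha hb hc
      exact three_line a b c (hVW1 a ha.1).2 (hVW1 b hb.1).2 (hVW1 c hc.1).2 hab hac hbc
        (by rw [ha.2, hb.2]) (by rw [ha.2, hc.2])
    rw [← hU] at h1
    omega
  -- the new centre is on the line
  have hO1 : ρ O1 = O1 := by
    by_contra hO1
    obtain ⟨a, ha, b, hb, c, hc, hab, hac, hbc⟩ := Finset.two_lt_card.1 (show 2 < U.card by omega)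
    have heq : ∀ a ∈ U, ∀ b ∈ U, a ≠ b → dist a O1 = dist b O1 := by
      intro a ha b hb hab
      obtain ⟨a1, a2, a3⟩ := hUm a ha
      obtain ⟨b1, b2, b3⟩ := hUm b hb
      by_contra hd
      set K := F ∪ (W1.erase a).erase b with hK'
      have haK : a ∉ K := by
        rw [hK', Finset.mem_union, Finset.mem_erase, Finset.mem_erase]
        rintro (h | h)
        · exact hFW a (hW1s a1) h
        · exact h.2.1 rfl
      have hbK : b ∉ K := by
        rw [hK', Finset.mem_union, Finset.mem_erase]
        rintro (h | h)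
        · exact hFW b (hW1s b1) h
        · exact h.1 rfl
      have hs : ∀ S ⊆ W1, (W1.erase a).erase b ⊆ S → Sym O1 (F ∪ S) := by
        intro S hS hSs
        refine hfree S hS ?_
        intro z hz hzr
        refine hSs (Finset.mem_erase.2 ⟨?_, Finset.mem_erase.2 ⟨?_, hz⟩⟩)
        · rintro rfl; exact b3 hzr
        · rintro rfl; exact a3 hzr
      have hbase : (W1.erase a).erase b ⊆ W1 :=
        (Finset.erase_subset _ _).trans (Finset.erase_subset _ _)
      have h4 := four_sets haK hbK hd (hs _ hbase (Finset.Subset.refl _))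
        (by
          rw [hK', ← Finset.union_insert]
          exact hs _ (Finset.insert_subset a1 hbase) (Finset.subset_insert _ _))
        (by
          rw [hK', ← Finset.union_insert]
          exact hs _ (Finset.insert_subset b1 hbase) (Finset.subset_insert _ _))
        (by
          rw [hK', ← Finset.union_insert, ← Finset.union_insert]
          exact hs _ (Finset.insert_subset a1 (Finset.insert_subset b1 hbase))
            ((Finset.subset_insert _ _).trans (Finset.subset_insert _ _)))
      obtain ⟨a', ha'⟩ := hLa a a2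
      obtain ⟨b', hb'⟩ := hLa b b2
      have hne : (b' : ℂ) - a' ≠ 0 := by
        intro h
        apply hab
        rw [ha', hb']
        have : (b' : ℂ) = a' := sub_eq_zero.1 h
        rw [this]
      apply hO1
      rw [← hLρ]
      rw [ha', hb'] at h4
      simp only [map_sub, map_add, map_mul, Complex.conj_ofReal] at h4 ⊢
      apply mul_left_cancel₀ hne
      linear_combination h4
    exact three_line a b c (hUm a ha).2.1 (hUm b hb).2.1 (hUm c hc).2.1 hab hac hbc
      (heq a ha b hb hab) (heq a ha c hc hac)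
  -- a free point different from the centre
  obtain ⟨u, hu⟩ := Finset.card_pos.1 (show 0 < (U.erase O1).card by
    have := Finset.pred_card_le_card_erase (s := U) (a := O1)
    omega)
  rw [Finset.mem_erase] at hu
  obtain ⟨huO, huU⟩ := hu
  obtain ⟨u1, u2, u3⟩ := hUm u huU
  have hρO1 : ∀ z, ρ z = O1 + k * conj (z - O1) := by
    intro z
    have h1 : O + k * conj (O1 - O) = O1 := hO1
    simp only [hρ, map_sub] at h1 ⊢
    linear_combination h1
  have hdρ : ∀ z, dist (ρ z) O1 = dist z O1 := by
    intro z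
    rw [hρO1, dist_eq_norm, add_sub_cancel_left, norm_mul, hk, one_mul, Complex.norm_conj,
      ← dist_eq_norm]
  have hp'FW : ρ p ∈ F ∪ W := hFWρ p (Finset.mem_union_right _ hp)
  have hup' : u ≠ ρ p := by
    intro h
    apply hpρ
    rw [← h, ← u2, h, hρρ]
  have hup : u ≠ p := by rintro rfl; exact hpρ u2
  have hτ : dist u O1 = dist p O1 := by
    by_contra hd
    set K := F ∪ W1.erase u with hKd
    have huK : u ∉ K := by
      rw [hKd, Finset.mem_union, not_or]
      exact ⟨hFW u (hW1s u1), Finset.notMem_erase _ _⟩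
    have s0 : Sym O1 K := hfree _ (Finset.erase_subset _ _) (fun z hz hzr =>
      Finset.mem_erase.2 ⟨fun h => u3 (h ▸ hzr), hz⟩)
    have s1 : Sym O1 (insert u K) := by
      rw [hKd, ← Finset.union_insert, Finset.insert_erase u1]
      exact hfree _ (Finset.Subset.refl _) (fun z hz _ => hz)
    have h1 := top_par huK s0 s1 hd
    have hp'K : ρ p ∈ K := by
      rw [hKd, Finset.mem_union, Finset.mem_erase, hW1, Finset.mem_erase]
      rcases Finset.mem_union.1 hp'FW with h | h
      · exact Or.inl h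
      · exact Or.inr ⟨Ne.symm hup', hpρ, h⟩
    have hKm : ∀ z, z ∈ K.erase (ρ p) ↔ z ≠ ρ p ∧ z ≠ p ∧ z ≠ u ∧ z ∈ F ∪ W := by
      intro z
      rw [Finset.mem_erase, hKd, Finset.mem_union, Finset.mem_erase, hW1, Finset.mem_erase,
        Finset.mem_union]
      constructor
      · rintro ⟨h1, h2 | ⟨h2, h3, h4⟩⟩
        · refine ⟨h1, ?_, ?_, Or.inl h2⟩
          · rintro rfl; exact hFW _ hp h2
          · rintro rfl; exact hFW _ (hW1s u1) h2
        · exact ⟨h1, h3, h2, Or.inr h4⟩
      · rintro ⟨h1, h2, h3, h4 | h4⟩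
        · exact ⟨h1, Or.inl h4⟩
        · exact ⟨h1, Or.inr ⟨h3, h2, h4⟩⟩
    have hfw : ∀ z ∈ K.erase (ρ p), ρ z ∈ K.erase (ρ p) := by
      intro z hz
      obtain ⟨q1, q2, q3, q4⟩ := (hKm z).1 hz
      refine (hKm _).2 ⟨?_, ?_, ?_, hFWρ z q4⟩
      · intro h; apply q2; rw [← hρρ z, h, hρρ]
      · intro h; apply q1; rw [← h, hρρ]
      · intro h; apply q3; rw [← hρρ z, h, u2]
    have h2 := ps_refl (K := K.erase (ρ p)) (g := reflP O1 k hk) hk (fun z => rfl) (by
      intro z
      have e : reflP O1 k hk z = ρ z := (hρO1 z).symm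
      rw [e]
      refine ⟨fun h => ?_, hfw z⟩
      have := hfw _ h
      rwa [hρρ] at this) (dist p O1)
    have h3 : PS O1 K (dist p O1) = (ρ p - O1) + PS O1 (K.erase (ρ p)) (dist p O1) := by
      conv_lhs => rw [← Finset.insert_erase hp'K]
      rw [ps_insert (Finset.notMem_erase _ _), if_pos (hdρ p)]
    -- the first moment is parallel to the line
    have hu0 : u - O1 ≠ 0 := sub_ne_zero.2 huO
    have huc : conj (u - O1) ≠ 0 := (map_ne_zero _).2 hu0
    have h4 : k * conj (u - O1) = u - O1 := by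
      have := hρO1 u
      rw [u2] at this
      linear_combination -this
    have h5 : PS O1 K (dist p O1) = k * conj (PS O1 K (dist p O1)) := by
      apply mul_right_cancel₀ huc
      linear_combination h1 - conj (PS O1 K (dist p O1)) * h4
    rw [h3, map_add] at h5
    have h6 : k * conj (ρ p - O1) = ρ p - O1 := by linear_combination h2 - h5
    have h7 : ρ (ρ p) = ρ p := by rw [hρO1 (ρ p), h6]; ring
    rw [hρρ] at h7
    exact hpρ h7.symm
  have hτlt : dist p O1 < r1 := by
    have h1 := he1.1 u (Finset.mem_union_right _ u1)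
    rw [← hτ]
    exact lt_of_le_of_ne h1 u3
  obtain ⟨e1, e2⟩ := enc_unique he he1 (by
    intro t ht
    have h1 := he.2.1 ht
    by_cases h2 : t = p
    · rw [h2]; exact hτlt.le
    · apply he1.1
      rw [Finset.mem_union] at h1 ⊢
      rcases h1 with h1 | h1
      · exact Or.inl h1
      · exact Or.inr (Finset.mem_erase.2 ⟨h2, h1⟩)) (by
    intro t ht
    exact he.1 t (Finset.union_subset_union_right hW1s (he1.2.1 ht)))
  rw [e1, e2, hpr] at hτlt
  exact lt_irrefl _ hτlt

end Pool.Agent.R174.Pl
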