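import Pool.Agent.R174.PlQ

/-!
# Distinguishing extension number of the plane under all isometries, part R

All points on one circle: subconfigurations with a different centre.
-/

namespace Pool.Agent.R174.Pl

open ComplexConjugate

lemma real_mult {O m x w : ℂ} {j0 : ZMod 3} (hm : Cube m) (hwO : w ≠ O)
    (h : ((w - O) / conj (w - O)) * conj (x - O) = Mp m j0 * (x - O)) :
    ∃ τ : ℝ, x - O = (τ : ℂ) * (Mp m j0 * (w - O)) := by
  have hc0 : w - O ≠ 0 := sub_ne_zero.2 hwO
  have hcc0 : conj (w - O) ≠ 0 := (map_ne_zero _).2 hc0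
  have hM0 := Mp_ne hm j0
  set c := Mp m j0 * (w - O) with hc
  have hcne : c ≠ 0 := mul_ne_zero hM0 hc0
  have h1 : conj ((x - O) / c) = (x - O) / c := by
    rw [map_div₀, div_eq_div_iff ((map_ne_zero _).2 hcne) hcne]
    rw [hc, map_mul, conj_Mp hm, ← two_neg3, Mp_add hm]
    have h2 : (w - O) * conj (x - O) = Mp m j0 * (x - O) * conj (w - O) := by
      rw [div_mul_eq_mul_div, div_eq_iff hcc0] at h
      exact h
    linear_combination Mp m j0 * h2
  obtain ⟨σ, hσ⟩ := Complex.conj_eq_iff_real.1 h1
  refine ⟨σ, ?_⟩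
  rw [← hσ, div_mul_cancel₀ _ hcne]

lemma circle_line {O v : ℂ} {r : ℝ} (hv : v ≠ 0) {a b c : ℂ} (ha : dist a O = r)
    (hb : dist b O = r) (hc : dist c O = r) (hab : a ≠ b) (hac : a ≠ c) (hbc : b ≠ c)
    (h1 : ((a - O) * conj v).re = ((b - O) * conj v).re)
    (h2 : ((a - O) * conj v).re = ((c - O) * conj v).re) : False := by
  have hvc : conj v ≠ 0 := (map_ne_zero _).2 hv
  have key : ∀ z, dist z O = r → ((z - O) * conj v).re ^ 2 + ((z - O) * conj v).im ^ 2
      = r ^ 2 * Complex.normSq v := by
    intro z hz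
    have h3 : Complex.normSq ((z - O) * conj v) = r ^ 2 * Complex.normSq v := by
      rw [map_mul, Complex.normSq_conj, Complex.normSq_eq_norm_sq (z - O), ← dist_eq_norm, hz]
    rw [← h3, Complex.normSq_apply]; ring
  have inj : ∀ z w, ((z - O) * conj v).re = ((w - O) * conj v).re →
      ((z - O) * conj v).im = ((w - O) * conj v).im → z = w := by
    intro z w e1 e2
    have := mul_right_cancel₀ hvc (Complex.ext e1 e2)
    exact sub_left_injective this
  have ka := key a ha
  have kb := key b hb
  have kc := key c hc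
  rw [← h1] at kb
  rw [← h2] at kc
  have e1 : ((a - O) * conj v).im ^ 2 = ((b - O) * conj v).im ^ 2 := by linarith
  have e2 : ((a - O) * conj v).im ^ 2 = ((c - O) * conj v).im ^ 2 := by linarith
  rcases sq_eq_sq_iff_eq_or_eq_neg.1 e1 with f1 | f1
  · exact hab (inj a b h1 f1)
  · rcases sq_eq_sq_iff_eq_or_eq_neg.1 e2 with f2 | f2
    · exact hac (inj a c h2 f2)
    · exact hbc (inj b c (h1.symm.trans h2) (by linarith))

lemma bad_aux {F W T W' T' : Finset ℂ} {O O' : ℂ} {r r' : ℝ} (hFW : ∀ w ∈ W, w ∉ F)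
    (hall : AllSym F W) (he : Enc (F ∪ W) O r T) (hW' : W' ⊆ Wc W O r) (hc3 : 3 ≤ W'.card)
    (he' : Enc (F ∪ W') O' r' T') (hne : O' ≠ O) :
    ∃ e u e', W' = {e, u, e'} ∧ e ≠ u ∧ e ≠ e' ∧ u ≠ e' ∧ W'.card = 3 ∧
      ∃ h : ℝ, 0 < h ∧ ((e - O) * conj (O' - O)).re = h ∧ ((e' - O) * conj (O' - O)).re = h ∧
        h < ((u - O) * conj (O' - O)).re ∧
        ∀ z, dist z O = r → h ≤ ((z - O) * conj (O' - O)).re → dist z O' ≤ r' := by
  classical
  set v := O' - O with hv
  have hv0 : v ≠ 0 := sub_ne_zero.2 hne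
  have hW'W : W' ⊆ W := hW'.trans (Wc_sub _ _ _)
  have hW'r : ∀ z ∈ W', dist z O = r := fun z hz => (mem_Wc.1 (hW' hz)).2
  set N := dist O' O ^ 2 with hN
  have hN0 : 0 < N := by
    have : 0 < dist O' O := dist_pos.2 hne
    positivity
  have hr'0 : 0 ≤ r' := by
    obtain ⟨t, ht, -⟩ := he'.2.2.2.2 0
    rw [← he'.2.2.2.1 t ht]; exact dist_nonneg
  set h := (r ^ 2 - r' ^ 2 + N) / 2 with hh
  have hbal : N ≤ r ^ 2 - r' ^ 2 := by
    obtain ⟨t, ht, htd⟩ := bal_dist he'.2.2.2.1 he'.2.2.2.2 O
    have h1 := he.1 t (Finset.union_subset_union_right hW'W (he'.2.1 ht))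
    have h2 := pow_le_pow_left₀ dist_nonneg h1 2
    rw [dist_comm O O', ← hN] at htd
    linarith
  have hhN : N ≤ h := by rw [hh]; linarith
  have hh0 : 0 < h := lt_of_lt_of_le hN0 hhN
  have hipO : ∀ z, dist z O = r → r' ^ 2 - dist z O' ^ 2 = 2 * (((z - O) * conj v).re - h) := by
    intro z hz
    have := dist_sq z O O'
    rw [hz] at this
    rw [this, hh, hv]; ring
  have hle : ∀ z, dist z O = r → h ≤ ((z - O) * conj v).re → dist z O' ≤ r' := by
    intro z hz h1
    have h2 := hipO z hz
    refine (pow_le_pow_iff_left₀ dist_nonneg hr'0 two_ne_zero).1 ?_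
    linarith
  have hipge : ∀ z ∈ W', h ≤ ((z - O) * conj v).re := by
    intro z hz
    have h1 := he'.1 z (Finset.mem_union_right _ hz)
    have h2 := pow_le_pow_left₀ dist_nonneg h1 2
    have h3 := hipO z (hW'r z hz)
    linarith
  have hlt : ∀ z ∈ W', h < ((z - O) * conj v).re → dist z O' < r' := by
    intro z hz h1
    have h2 := hipO z (hW'r z hz)
    refine lt_of_pow_lt_pow_left₀ 2 hr'0 ?_
    linarith
  have heq : ∀ z ∈ W', ((z - O) * conj v).re = h → dist z O' = r' := by
    intro z hz h1
    have h2 := hipO z (hW'r z hz)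
    refine (pow_left_inj₀ dist_nonneg hr'0 two_ne_zero).1 ?_
    rw [h1] at h2
    linarith
  have hvv : (v * conj v).re = N := by
    rw [Complex.mul_conj, Complex.ofReal_re, Complex.normSq_eq_norm_sq, hN, dist_eq_norm]
  -- distinct interior points are not collinear with the centre
  have G1 : ∀ x ∈ W', ∀ y ∈ W', x ≠ y → h < ((x - O) * conj v).re → h < ((y - O) * conj v).re →
      (x - O') * conj (y - O') ≠ conj (x - O') * (y - O') := by
    intro x hx y hy hxy hx1 hy1 hp
    have hxO' : x ≠ O' := by
      rintro rfl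
      rw [← hv, hvv] at hx1
      linarith
    set d := x - O' with hd
    have hd0 : d ≠ 0 := sub_ne_zero.2 hxO'
    have hdc : conj d ≠ 0 := (map_ne_zero _).2 hd0
    obtain ⟨a, ha⟩ : ∃ a : ℝ, y - O' = (a : ℂ) * d := by
      have h2 : conj ((y - O') / d) = (y - O') / d := by
        rw [map_div₀, div_eq_div_iff hdc hd0]
        linear_combination hp
      obtain ⟨a, ha⟩ := Complex.conj_eq_iff_real.1 h2
      refine ⟨a, ?_⟩
      rw [← ha, div_mul_cancel₀ _ hd0]
    have ex : x - O = v + d := by rw [hv, hd]; ring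
    have ey : y - O = v + a * d := by rw [hv, ← ha]; ring
    rw [ex, add_mul, Complex.add_re, hvv] at hx1
    rw [ey, add_mul, Complex.add_re, hvv, mul_assoc, Complex.re_ofReal_mul] at hy1
    have ha0 : 0 < a := by
      by_contra hcon
      push Not at hcon
      have h3 : 0 < (d * conj v).re := by linarith
      have h4 : a * (d * conj v).re ≤ 0 := mul_nonpos_of_nonpos_of_nonneg hcon h3.le
      linarith
    have ha1 : a ≠ 1 := by
      rintro rfl
      apply hxy
      rw [Complex.ofReal_one, one_mul] at ha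
      have : x - O' = y - O' := by rw [ha]
      exact sub_left_injective this
    have n1 : Complex.normSq (v + d) = r ^ 2 := by
      rw [← ex, Complex.normSq_eq_norm_sq, ← dist_eq_norm, hW'r x hx]
    have n2 : Complex.normSq (v + a * d) = r ^ 2 := by
      rw [← ey, Complex.normSq_eq_norm_sq, ← dist_eq_norm, hW'r y hy]
    rw [Complex.normSq_apply] at n1 n2
    rw [Complex.mul_re, Complex.conj_re, Complex.conj_im] at hvv
    simp only [Complex.add_re, Complex.add_im, Complex.re_ofReal_mul, Complex.im_ofReal_mul]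
      at n1 n2
    have hD : 0 < d.re * d.re + d.im * d.im := by
      rw [← Complex.normSq_apply]; exact Complex.normSq_pos.2 hd0
    have e1 : (a - 1) * (2 * (v.re * d.re + v.im * d.im)
        + (a + 1) * (d.re * d.re + d.im * d.im)) = 0 := by linear_combination n2 - n1
    have e2 := (mul_eq_zero.1 e1).resolve_left (sub_ne_zero.2 ha1)
    have e3 : r ^ 2 = N - a * (d.re * d.re + d.im * d.im) := by
      linear_combination hvv - n1 + e2
    have e4 := mul_pos ha0 hD
    nlinarith [sq_nonneg r']
  -- two interior points and one on the circle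
  have G2 : ∀ x ∈ W', ∀ y ∈ W', ∀ w ∈ W', x ≠ y → h < ((x - O) * conj v).re →
      h < ((y - O) * conj v).re → ((w - O) * conj v).re = h → False := by
    intro x hx y hy w hw hxy hx1 hy1 hw1
    obtain ⟨m, hm, q1, q2, q3, ⟨j0, q4⟩, -⟩ := meta_tri (F := F) (W := W')
      (fun w hw => hFW w (hW'W hw)) (hall.mono hW'W) he' hx hy hw (hlt x hx hx1) (hlt y hy hy1)
      (heq w hw hw1) (G1 x hx y hy hxy hx1 hy1)
    have hyO' : y ≠ O' := (ne_of_np (G1 x hx y hy hxy hx1 hy1)).2
    obtain ⟨j', hj'⟩ := q3 y hy (hlt y hy hy1) hyO'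
    have hj0 : j' ≠ 0 := by
      rintro rfl
      apply hxy
      rw [hj', Mp_zero]; ring
    have hwr' := heq w hw hw1
    have hr'pos : 0 < r' := lt_of_le_of_lt dist_nonneg (hlt x hx hx1)
    have hwO' : w ≠ O' := by
      rintro rfl
      rw [dist_self] at hwr'
      exact hr'pos.ne hwr'
    obtain ⟨τ, hτ⟩ := real_mult hm hwO' q4
    set c := Mp m j0 * (w - O') with hc
    have hcn : ‖c‖ = r' := by
      rw [hc, norm_mul, Mp_norm hm, one_mul, ← dist_eq_norm, hwr']
    have hτ1 : |τ| < 1 := by
      have h1 := hlt x hx hx1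
      rw [dist_eq_norm, hτ, norm_mul, hcn, Complex.norm_real, Real.norm_eq_abs] at h1
      by_contra h2
      push Not at h2
      nlinarith
    set U : ZMod 3 → ℝ := fun j => (Mp m j * c * conj v).re with hU
    have hUle : ∀ j, U j ≤ h - N := by
      intro j
      have ht : O' + Mp m j * c ∈ F ∪ W' := by
        have := q2 (j + j0)
        rw [Mp_add hm, mul_assoc] at this
        exact this
      have h1 := he.1 _ (Finset.union_subset_union_right hW'W ht)
      have h2 := pow_le_pow_left₀ dist_nonneg h1 2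
      have h3 : dist (O' + Mp m j * c) O' = r' := by
        rw [dist_eq_norm, add_sub_cancel_left, norm_mul, Mp_norm hm, one_mul, hcn]
      have h4 := dist_sq (O' + Mp m j * c) O O'
      rw [h3, ← hv, ← hN] at h4
      have e1 : (O' + Mp m j * c - O) * conj v = v * conj v + Mp m j * c * conj v := by
        rw [hv]; ring
      rw [e1, Complex.add_re, hvv] at h4
      have e2 : U j = (Mp m j * c * conj v).re := rfl
      rw [e2, hh]
      linarith
    have hUx : ((x - O) * conj v).re = N + τ * U 0 := by
      have e1 : (x - O) * conj v = v * conj v + τ * (Mp m 0 * c * conj v) := by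
        rw [Mp_zero]
        have : x - O = v + τ * c := by rw [← hτ, hv]; ring
        rw [this]; ring
      rw [e1, Complex.add_re, hvv, Complex.re_ofReal_mul]
    have hUy : ((y - O) * conj v).re = N + τ * U j' := by
      have e1 : (y - O) * conj v = v * conj v + τ * (Mp m j' * c * conj v) := by
        have : y - O = v + τ * (Mp m j' * c) := by
          rw [hj', hτ, hv]; ring
        rw [this]; ring
      rw [e1, Complex.add_re, hvv, Complex.re_ofReal_mul]
    have hUsum : U 0 + U j' + U (-j') = 0 := by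
      have h1 : (Mp m j') ^ 2 + Mp m j' + 1 = 0 := Mp_cube hm hj0
      have h2 : Mp m (-j') = (Mp m j') ^ 2 := by
        rw [← two_neg3, Mp_add hm]; ring
      have h3 : Mp m 0 * c * conj v + Mp m j' * c * conj v + Mp m (-j') * c * conj v = 0 := by
        rw [Mp_zero, h2]
        linear_combination (c * conj v) * h1
      have h4 := congrArg Complex.re h3
      rw [Complex.add_re, Complex.add_re, Complex.zero_re] at h4
      exact h4
    rw [hUx] at hx1
    rw [hUy] at hy1
    have u0 := hUle 0
    have u1 := hUle j'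
    have u2 := hUle (-j')
    have hg : 0 ≤ h - N := by linarith
    rw [abs_lt] at hτ1
    rcases le_or_gt τ 0 with ht | ht
    · have a0 : h - N < - U 0 := by
        have : 0 < -U 0 := by
          by_contra hcon
          push Not at hcon
          have := mul_nonpos_of_nonpos_of_nonneg ht (show 0 ≤ U 0 by linarith)
          linarith
        nlinarith
      have a1 : h - N < - U j' := by
        have : 0 < -U j' := by
          by_contra hcon
          push Not at hcon
          have := mul_nonpos_of_nonpos_of_nonneg ht (show 0 ≤ U j' by linarith)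
          linarith
        nlinarith
      linarith
    · have a0 : τ * U 0 ≤ τ * (h - N) := mul_le_mul_of_nonneg_left u0 ht.le
      nlinarith
  -- three interior points
  have G3 : (∀ z ∈ W', h < ((z - O) * conj v).re) → False := by
    intro hin
    obtain ⟨a, ha, b, hb, c, hc, hab, hac, hbc⟩ := Finset.two_lt_card.1 (show 2 < W'.card by omega)
    have hdist : ∀ a ∈ W', ∀ b ∈ W', a ≠ b → dist a O' = dist b O' := by
      intro a ha b hb hab
      by_contra hd
      set K := F ∪ (W'.erase a).erase b with hK'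
      have haK : a ∉ K := by
        rw [hK', Finset.mem_union, Finset.mem_erase, Finset.mem_erase]
        rintro (h | h)
        · exact hFW a (hW'W ha) h
        · exact h.2.1 rfl
      have hbK : b ∉ K := by
        rw [hK', Finset.mem_union, Finset.mem_erase]
        rintro (h | h)
        · exact hFW b (hW'W hb) h
        · exact h.1 rfl
      have hs : ∀ S ⊆ W', Sym O' (F ∪ S) := by
        intro S hS
        refine sym_layer (hall.mono hW'W) he' hS ?_
        intro z hz
        exact absurd (mem_Wc.1 hz).2 (hlt z (mem_Wc.1 hz).1 (hin z (mem_Wc.1 hz).1)).ne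
      have hbase : (W'.erase a).erase b ⊆ W' :=
        (Finset.erase_subset _ _).trans (Finset.erase_subset _ _)
      exact G1 a ha b hb hab (hin a ha) (hin b hb) (four_sets haK hbK hd (hs _ hbase)
        (by
          rw [hK', ← Finset.union_insert]
          exact hs _ (Finset.insert_subset ha hbase))
        (by
          rw [hK', ← Finset.union_insert]
          exact hs _ (Finset.insert_subset hb hbase))
        (by
          rw [hK', ← Finset.union_insert, ← Finset.union_insert]
          exact hs _ (Finset.insert_subset ha (Finset.insert_subset hb hbase))))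
    have hip : ∀ a ∈ W', ∀ b ∈ W', a ≠ b → ((a - O) * conj v).re = ((b - O) * conj v).re := by
      intro a ha b hb hab
      have h1 := hipO a (hW'r a ha)
      have h2 := hipO b (hW'r b hb)
      rw [hdist a ha b hb hab] at h1
      linarith
    exact circle_line hv0 (hW'r a ha) (hW'r b hb) (hW'r c hc) hab hac hbc (hip a ha b hb hab)
      (hip a ha c hc hac)
  -- counting
  set On := W'.filter fun z => ((z - O) * conj v).re = h with hOn
  set In := W'.filter fun z => ¬ ((z - O) * conj v).re = h with hIn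
  have hsum : On.card + In.card = W'.card :=
    Finset.card_filter_add_card_filter_not (s := W') (fun z => ((z - O) * conj v).re = h)
  have hInlt : ∀ z ∈ In, z ∈ W' ∧ h < ((z - O) * conj v).re := by
    intro z hz
    rw [hIn, Finset.mem_filter] at hz
    exact ⟨hz.1, lt_of_le_of_ne (hipge z hz.1) (Ne.symm hz.2)⟩
  have hOn2 : On.card ≤ 2 := by
    by_contra hcon
    push Not at hcon
    obtain ⟨a, ha, b, hb, c, hc, hab, hac, hbc⟩ := Finset.two_lt_card.1 hcon
    rw [hOn, Finset.mem_filter] at ha hb hc
    exact circle_line hv0 (hW'r a ha.1) (hW'r b hb.1) (hW'r c hc.1) hab hac hbc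
      (by rw [ha.2, hb.2]) (by rw [ha.2, hc.2])
  have hOn0 : On.Nonempty := by
    by_contra hcon
    rw [Finset.not_nonempty_iff_eq_empty] at hcon
    apply G3
    intro z hz
    refine lt_of_le_of_ne (hipge z hz) ?_
    intro h1
    have : z ∈ On := by rw [hOn, Finset.mem_filter]; exact ⟨hz, h1.symm⟩
    rw [hcon] at this
    exact Finset.notMem_empty _ this
  obtain ⟨w, hw⟩ := hOn0
  have hw' := hw
  rw [hOn, Finset.mem_filter] at hw'
  have hIn1 : In.card ≤ 1 := by
    by_contra hcon
    push Not at hcon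
    obtain ⟨x, hx, y, hy, hxy⟩ := Finset.one_lt_card.1 hcon
    exact G2 x (hInlt x hx).1 y (hInlt y hy).1 w hw'.1 hxy (hInlt x hx).2 (hInlt y hy).2 hw'.2
  obtain ⟨e, e', hee', hOne⟩ := Finset.card_eq_two.1 (show On.card = 2 by omega)
  obtain ⟨u, hInu⟩ := Finset.card_eq_one.1 (show In.card = 1 by omega)
  have he_ : e ∈ On := by rw [hOne]; simp
  have he'_ : e' ∈ On := by rw [hOne]; simp
  have hu_ : u ∈ In := by rw [hInu]; simp
  have hu2 := (hInlt u hu_).2
  rw [hOn, Finset.mem_filter] at he_ he'_
  refine ⟨e, u, e', ?_, ?_, hee', ?_, by omega, h, hh0, he_.2, he'_.2, hu2, hle⟩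
  · ext z
    simp only [Finset.mem_insert, Finset.mem_singleton]
    constructor
    · intro hz
      by_cases h1 : ((z - O) * conj v).re = h
      · have : z ∈ On := by rw [hOn, Finset.mem_filter]; exact ⟨hz, h1⟩
        rw [hOne, Finset.mem_insert, Finset.mem_singleton] at this
        tauto
      · have : z ∈ In := by rw [hIn, Finset.mem_filter]; exact ⟨hz, h1⟩
        rw [hInu, Finset.mem_singleton] at this
        tauto
    · rintro (rfl | rfl | rfl)
      · exact he_.1
      · exact (hInlt _ hu_).1
      · exact he'_.1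
  · rintro rfl
    rw [he_.2] at hu2
    exact lt_irrefl _ hu2
  · rintro rfl
    rw [he'_.2] at hu2
    exact lt_irrefl _ hu2

lemma bad {F W T W' T' : Finset ℂ} {O O' : ℂ} {r r' : ℝ} (hFW : ∀ w ∈ W, w ∉ F)
    (hall : AllSym F W) (he : Enc (F ∪ W) O r T) (hW' : W' ⊆ Wc W O r) (hc3 : 3 ≤ W'.card)
    (he' : Enc (F ∪ W') O' r' T') (hne : O' ≠ O) :
    ∃ (e u e' v : ℂ) (h : ℝ), W' = {e, u, e'} ∧ e ≠ u ∧ e ≠ e' ∧ u ≠ e' ∧ 0 < h ∧
      ((e - O) * conj v).re = h ∧ ((e' - O) * conj v).re = h ∧ h < ((u - O) * conj v).re ∧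
      ∀ z ∈ Wc W O r, z ∉ W' → ((z - O) * conj v).re < h := by
  classical
  obtain ⟨e, u, e', h1, h2, h3, h4, h5, h, h6, h7, h8, h9, h10⟩ :=
    bad_aux hFW hall he hW' hc3 he' hne
  refine ⟨e, u, e', O' - O, h, h1, h2, h3, h4, h6, h7, h8, h9, ?_⟩
  intro z hz hzW'
  by_contra hcon
  push Not at hcon
  have hzd := h10 z (mem_Wc.1 hz).2 hcon
  have he'' : Enc (F ∪ insert z W') O' r' T' := by
    obtain ⟨a1, a2, a3, a4, a5⟩ := he'
    refine ⟨?_, ?_, a3, a4, a5⟩
    · intro y hy
      rw [Finset.union_insert, Finset.mem_insert] at hy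
      rcases hy with rfl | hy
      · exact hzd
      · exact a1 y hy
    · refine a2.trans ?_
      rw [Finset.union_insert]
      exact Finset.subset_insert _ _
  obtain ⟨_, _, _, _, _, _, _, hc, _⟩ := bad_aux hFW hall he (W' := insert z W')
    (Finset.insert_subset hz hW') (by rw [Finset.card_insert_of_notMem hzW']; omega) he'' hne
  rw [Finset.card_insert_of_notMem hzW'] at hc
  omega

end Pool.Agent.R174.Pl
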