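import Pool.Agent.R174.PlR

/-!
# Distinguishing extension number of the plane under all isometries, part S

All points on one circle: at most six points, and the heptagon exclusion.
-/

namespace Pool.Agent.R174.Pl

open ComplexConjugate

lemma ip_sq {R : ℝ} {e v : ℂ} (he : Complex.normSq e = R) :
    (e * conj v).re ^ 2 + (e * conj v).im ^ 2 = R * Complex.normSq v := by
  rw [← he, ← Complex.normSq_conj v, ← map_mul, Complex.normSq_apply]; ring

lemma conj_pair {R h : ℝ} {e e' v : ℂ} (he : Complex.normSq e = R) (he' : Complex.normSq e' = R)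
    (hne : e ≠ e') (hv : v ≠ 0) (h1 : (e * conj v).re = h) (h2 : (e' * conj v).re = h) :
    e' * conj v = conj (e * conj v) := by
  have hvc : conj v ≠ 0 := (map_ne_zero _).2 hv
  have k1 := ip_sq (v := v) he
  have k2 := ip_sq (v := v) he'
  rw [h1] at k1
  rw [h2] at k2
  have h3 : (e * conj v).im ^ 2 = (e' * conj v).im ^ 2 := by linarith
  rcases sq_eq_sq_iff_eq_or_eq_neg.1 h3 with h4 | h4
  · exact absurd (mul_right_cancel₀ hvc (Complex.ext (h1.trans h2.symm) h4)) hne
  · apply Complex.ext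
    · rw [Complex.conj_re, h1, h2]
    · rw [Complex.conj_im, h4, neg_neg]

lemma arc {R h : ℝ} {e u e' v : ℂ} (he : Complex.normSq e = R) (hu : Complex.normSq u = R)
    (he' : Complex.normSq e' = R) (hne : e ≠ e') (h0 : 0 < h) (h1 : (e * conj v).re = h)
    (h2 : (e' * conj v).re = h) (h3 : h < (u * conj v).re) :
    ∃ α β : ℝ, 0 ≤ α ∧ 0 ≤ β ∧ 1 ≤ α + β ∧ u = α * e + β * e' := by
  have hv : v ≠ 0 := by
    rintro rfl
    simp at h1
    linarith
  have hvc : conj v ≠ 0 := (map_ne_zero _).2 hv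
  have hc := conj_pair he he' hne hv h1 h2
  have k1 := ip_sq (v := v) he
  have k2 := ip_sq (v := v) hu
  rw [h1] at k1
  set s := (e * conj v).im with hs
  set p := (u * conj v).re with hp
  set q := (u * conj v).im with hq
  have hs0 : s ≠ 0 := by
    intro h4
    apply hne
    apply mul_right_cancel₀ hvc
    rw [hc]
    apply Complex.ext
    · rw [Complex.conj_re]
    · rw [Complex.conj_im, ← hs, h4, neg_zero]
  have hqs : q ^ 2 < s ^ 2 := by nlinarith
  have hp1 : 1 < p / h := (one_lt_div h0).2 h3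
  have hs2 : 0 < s ^ 2 := by positivity
  have hq1 : (q / s) ^ 2 < 1 := by rw [div_pow, div_lt_one hs2]; exact hqs
  have hq2 : |q / s| < 1 := (sq_lt_one_iff_abs_lt_one _).1 hq1
  rw [abs_lt] at hq2
  have hre : (e' * conj v).im = -s := by rw [hc, Complex.conj_im]
  refine ⟨(p / h + q / s) / 2, (p / h - q / s) / 2, by linarith, by linarith, by linarith, ?_⟩
  apply mul_right_cancel₀ hvc
  rw [add_mul, mul_assoc, mul_assoc]
  apply Complex.ext
  · rw [Complex.add_re, Complex.re_ofReal_mul, Complex.re_ofReal_mul, h1, h2, ← hp]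
    field_simp
    ring
  · rw [Complex.add_im, Complex.im_ofReal_mul, Complex.im_ofReal_mul, hre, ← hs, ← hq]
    field_simp
    ring

lemma alg7 {A B C : ℂ} (hA0 : A ≠ 0) (hB0 : B ≠ 0) (hC0 : C ≠ 0) (hA1 : A ≠ 1) (hB1 : B ≠ 1)
    (hC1 : C ≠ 1) (hAB : A ≠ B) (hAC : A ≠ C) (hBC : B ≠ C)
    (r1 : A ^ 2 = B ∨ B ^ 2 = A ∨ A * B = 1) (r2 : A ^ 2 = C ∨ C ^ 2 = A ∨ A * C = 1)
    (r3 : B ^ 2 = C ∨ C ^ 2 = B ∨ B * C = 1)
    (n1 : A ^ 2 ≠ B * C) (n2 : B ^ 2 ≠ C * A) (n3 : C ^ 2 ≠ A * B) :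
    A ^ 7 = 1 ∧ ((B = A ^ 2 ∧ C = A ^ 4) ∨ (B = A ^ 4 ∧ C = A ^ 2)) := by
  rcases r1 with r1 | r1 | r1
  · subst r1
    rcases r2 with r2 | r2 | r2
    · exact absurd r2 hBC
    · subst r2
      rcases r3 with r3 | r3 | r3
      · have h7 : C ^ 7 = 1 := by
          apply mul_left_cancel₀ hC0
          linear_combination r3
        refine ⟨by linear_combination (C ^ 7 + 1) * h7, Or.inl ⟨rfl, ?_⟩⟩
        linear_combination -r3
      · exact absurd r3 hAB
      · exact absurd (by linear_combination C ^ 3 * r3) n2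
    · rcases r3 with r3 | r3 | r3
      · subst r3
        exact absurd (by linear_combination A ^ 3 * r2) n3
      · exact absurd (by linear_combination -A ^ 2 * r3 + A * C * r2) n2
      · exact absurd (by linear_combination r3 - A * r2) hA1
  · subst r1
    rcases r2 with r2 | r2 | r2
    · subst r2
      rcases r3 with r3 | r3 | r3
      · exact absurd r3 hAC
      · have h7 : B ^ 7 = 1 := by
          apply mul_left_cancel₀ hB0
          linear_combination r3
        refine ⟨by linear_combination (B ^ 7 + 1) * h7, Or.inr ⟨?_, rfl⟩⟩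
        linear_combination -r3
      · exact absurd (by linear_combination B ^ 3 * r3) n3
    · rcases r3 with r3 | r3 | r3
      · exact absurd r3 hAC
      · exact absurd (r2.symm.trans r3) hAB
      · exact absurd (by linear_combination -B ^ 2 * r2 + B * C * r3) n1
    · rcases r3 with r3 | r3 | r3
      · exact absurd r3 hAC
      · subst r3
        exact absurd (by linear_combination C ^ 3 * r2) n1
      · exact absurd (by linear_combination r2 - B * r3) hB1
  · rcases r2 with r2 | r2 | r2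
    · subst r2
      rcases r3 with r3 | r3 | r3
      · exact absurd (by linear_combination -A ^ 2 * r3 + A * B * r1) n3
      · subst r3
        exact absurd (by linear_combination A ^ 3 * r1) n2
      · exact absurd (by linear_combination r3 - A * r1) hA1
    · subst r2
      rcases r3 with r3 | r3 | r3
      · subst r3
        exact absurd (by linear_combination B ^ 3 * r1) n1
      · exact absurd r3 hAB
      · exact absurd (by linear_combination r1 - C * r3) hC1
    · exact absurd (mul_left_cancel₀ hA0 (r1.trans r2.symm)) hBC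

/-- one of the three is the middle of the others -/
def IsoT (a b c : ℂ) : Prop := a ^ 2 = b * c ∨ b ^ 2 = c * a ∨ c ^ 2 = a * b

/-- the complement of `{a,b,c}` is a short arc -/
def BadT (Y : Finset ℂ) (a b c : ℂ) : Prop :=
  ∃ (v : ℂ) (h : ℝ), 0 < h ∧ (a * conj v).re < h ∧ (b * conj v).re < h ∧ (c * conj v).re < h ∧
    (∀ z ∈ Y, z ≠ a → z ≠ b → z ≠ c → h ≤ (z * conj v).re) ∧
    ∃ e ∈ Y, ∃ u ∈ Y, ∃ e' ∈ Y, e ≠ e' ∧ (e * conj v).re = h ∧ (e' * conj v).re = h ∧
      h < (u * conj v).re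

lemma seven {Y : Finset ℂ} {R : ℝ} (hR : 0 < R) (hn : ∀ y ∈ Y, Complex.normSq y = R)
    (H : ∀ a ∈ Y, ∀ b ∈ Y, ∀ c ∈ Y, a ≠ b → a ≠ c → b ≠ c → IsoT a b c ∨ BadT Y a b c)
    {a b c : ℂ} (ha : a ∈ Y) (hb : b ∈ Y) (hc : c ∈ Y) (hab : a ≠ b) (hac : a ≠ c) (hbc : b ≠ c)
    (hni : ¬ IsoT a b c) :
    ∃ (v : ℂ) (h : ℝ) (ζ u e e' : ℂ), 0 < h ∧ (a * conj v).re < h ∧ (b * conj v).re < h ∧
      (c * conj v).re < h ∧ e ∈ Y ∧ u ∈ Y ∧ e' ∈ Y ∧ e ≠ e' ∧ (e * conj v).re = h ∧
      (e' * conj v).re = h ∧ h < (u * conj v).re ∧ ζ ^ 7 = 1 ∧ ζ ≠ 1 ∧ a = u * ζ ∧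
      ((b = u * ζ ^ 2 ∧ c = u * ζ ^ 4) ∨ (b = u * ζ ^ 4 ∧ c = u * ζ ^ 2)) := by
  obtain ⟨v, h, h0, va, vb, vc, hY, e, he, u, hu, e', he', hee, ve, ve', vu⟩ :=
    (H a ha b hb c hc hab hac hbc).resolve_left hni
  have h0' : ∀ y ∈ Y, y ≠ 0 := by
    rintro y hy rfl
    have := hn 0 hy
    rw [map_zero] at this
    linarith
  have hau : a ≠ u := by rintro rfl; linarith
  have hbu : b ≠ u := by rintro rfl; linarith
  have hcu : c ≠ u := by rintro rfl; linarith
  obtain ⟨α, β, hα, hβ, hαβ, hue⟩ := arc (hn e he) (hn u hu) (hn e' he') hee h0 ve ve' vu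
  have key : ∀ x ∈ Y, ∀ y ∈ Y, x ≠ y → x ≠ u → y ≠ u → (x * conj v).re < h →
      (y * conj v).re < h → IsoT x y u := by
    intro x hx y hy hxy hxu hyu vx vy
    rcases H x hx y hy u hu hxy hxu hyu with h1 | ⟨v2, h2, g0, ga, gb, gu, gY, -⟩
    · exact h1
    · exfalso
      have g1 := gY e he (by rintro rfl; linarith) (by rintro rfl; linarith)
        (by rintro rfl; linarith)
      have g2 := gY e' he' (by rintro rfl; linarith) (by rintro rfl; linarith)
        (by rintro rfl; linarith)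
      rw [hue, add_mul, mul_assoc, mul_assoc, Complex.add_re, Complex.re_ofReal_mul,
        Complex.re_ofReal_mul] at gu
      have g3 := mul_le_mul_of_nonneg_left g1 hα
      have g4 := mul_le_mul_of_nonneg_left g2 hβ
      nlinarith
  have iab := key a ha b hb hab hau hbu va vb
  have iac := key a ha c hc hac hau hcu va vc
  have ibc := key b hb c hc hbc hbu hcu vb vc
  have hu0 := h0' u hu
  have hdiv : ∀ x y : ℂ, x ≠ y → x / u ≠ y / u := fun x y hxy h => hxy ((div_left_inj' hu0).1 h)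
  have huu : u / u = 1 := div_self hu0
  have conv : ∀ x y : ℂ, IsoT x y u →
      (x / u) ^ 2 = y / u ∨ (y / u) ^ 2 = x / u ∨ x / u * (y / u) = 1 := by
    intro x y hxy
    rcases hxy with h1 | h1 | h1
    · left; field_simp; linear_combination h1
    · right; left; field_simp; linear_combination h1
    · right; right; field_simp; linear_combination -h1
  obtain ⟨h7, h8⟩ := alg7 (A := a / u) (B := b / u) (C := c / u) (div_ne_zero (h0' a ha) hu0)
    (div_ne_zero (h0' b hb) hu0) (div_ne_zero (h0' c hc) hu0)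
    (by rw [← huu]; exact hdiv _ _ hau) (by rw [← huu]; exact hdiv _ _ hbu)
    (by rw [← huu]; exact hdiv _ _ hcu) (hdiv _ _ hab) (hdiv _ _ hac) (hdiv _ _ hbc)
    (conv _ _ iab) (conv _ _ iac) (conv _ _ ibc)
    (by
      intro h1
      apply hni
      left
      field_simp at h1
      linear_combination h1)
    (by
      intro h1
      apply hni
      right; left
      field_simp at h1
      linear_combination h1)
    (by
      intro h1
      apply hni
      right; right
      field_simp at h1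
      linear_combination h1)
  refine ⟨v, h, a / u, u, e, e', h0, va, vb, vc, he, hu, he', hee, ve, ve', vu, h7, ?_, ?_, ?_⟩
  · rw [← huu]; exact hdiv _ _ hau
  · rw [mul_div_cancel₀ _ hu0]
  · rcases h8 with ⟨h9, h10⟩ | ⟨h9, h10⟩
    · left
      rw [← h9, ← h10, mul_div_cancel₀ _ hu0, mul_div_cancel₀ _ hu0]
      exact ⟨rfl, rfl⟩
    · right
      rw [← h9, ← h10, mul_div_cancel₀ _ hu0, mul_div_cancel₀ _ hu0]
      exact ⟨rfl, rfl⟩

lemma ratio7 {Y : Finset ℂ} {R : ℝ} (hR : 0 < R) (hn : ∀ y ∈ Y, Complex.normSq y = R)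
    (H : ∀ a ∈ Y, ∀ b ∈ Y, ∀ c ∈ Y, a ≠ b → a ≠ c → b ≠ c → IsoT a b c ∨ BadT Y a b c)
    {a b c : ℂ} (ha : a ∈ Y) (hb : b ∈ Y) (hc : c ∈ Y) (hab : a ≠ b) (hac : a ≠ c) (hbc : b ≠ c) :
    IsoT a b c ∨ a ^ 7 = b ^ 7 := by
  by_cases hi : IsoT a b c
  · exact Or.inl hi
  · right
    obtain ⟨v, h, ζ, u, e, e', -, -, -, -, -, -, -, -, -, -, -, h7, -, e1, e2⟩ :=
      seven hR hn H ha hb hc hab hac hbc hi
    have h14 : (ζ ^ 2) ^ 7 = 1 := by rw [← pow_mul, mul_comm, pow_mul, h7, one_pow]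
    have h28 : (ζ ^ 4) ^ 7 = 1 := by rw [← pow_mul, mul_comm, pow_mul, h7, one_pow]
    rcases e2 with ⟨e2, -⟩ | ⟨e2, -⟩
    · rw [e1, e2, mul_pow, mul_pow, h7, h14]
    · rw [e1, e2, mul_pow, mul_pow, h7, h28]

lemma e7 {ζ u e : ℂ} (h7 : ζ ^ 7 = 1) (h1 : ζ ≠ 1) (hu : u ≠ 0)
    (p1 : IsoT e u (u * ζ ^ 2) ∨ e ^ 7 = u ^ 7) (p2 : IsoT e u (u * ζ) ∨ e ^ 7 = u ^ 7) :
    e ^ 7 = u ^ 7 := by
  have hζ0 : ζ ≠ 0 := by
    rintro rfl
    simp at h7
  have h14 : (ζ ^ 2) ^ 7 = 1 := by rw [← pow_mul, mul_comm, pow_mul, h7, one_pow]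
  have h28 : (ζ ^ 4) ^ 7 = 1 := by rw [← pow_mul, mul_comm, pow_mul, h7, one_pow]
  rcases p1 with p1 | p1
  · rcases p1 with q1 | q1 | q1
    · rcases p2 with p2 | p2
      · rcases p2 with q2 | q2 | q2
        · exfalso
          apply h1
          have h3 : u ^ 2 * ζ * ζ = u ^ 2 * ζ * 1 := by linear_combination q2 - q1
          exact mul_left_cancel₀ (mul_ne_zero (pow_ne_zero _ hu) hζ0) h3
        · have h3 : u = ζ * e := by
            apply mul_left_cancel₀ hu
            linear_combination q2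
          rw [h3, mul_pow, h7, one_mul]
        · have h3 : e = u * ζ ^ 2 := by
            apply mul_left_cancel₀ hu
            linear_combination -q2
          rw [h3, mul_pow, h14, mul_one]
      · exact p2
    · have h3 : u = ζ ^ 2 * e := by
        apply mul_left_cancel₀ hu
        linear_combination q1
      rw [h3, mul_pow, h14, one_mul]
    · have h3 : e = u * ζ ^ 4 := by
        apply mul_left_cancel₀ hu
        linear_combination -q1
      rw [h3, mul_pow, h28, mul_one]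
  · exact p1

lemma root_cases {ζ E : ℂ} (hp : IsPrimitiveRoot ζ 7) (hE : E ^ 7 = 1) (n0 : E ≠ 1) (n1 : E ≠ ζ)
    (n2 : E ≠ ζ ^ 2) (n4 : E ≠ ζ ^ 4) : E = ζ ^ 3 ∨ E = ζ ^ 5 ∨ E = ζ ^ 6 := by
  obtain ⟨i, hi, hE'⟩ := hp.eq_pow_of_pow_eq_one hE
  interval_cases i
  · exact absurd (by rw [← hE', pow_zero]) n0
  · exact absurd (by rw [← hE', pow_one]) n1
  · exact absurd hE'.symm n2
  · left; exact hE'.symm
  · exact absurd hE'.symm n4
  · right; left; exact hE'.symm
  · right; right; exact hE'.symm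

lemma no_six_bad {Y : Finset ℂ} {R : ℝ} (hR : 0 < R) (hn : ∀ y ∈ Y, Complex.normSq y = R)
    (hY : 6 ≤ Y.card)
    (H : ∀ a ∈ Y, ∀ b ∈ Y, ∀ c ∈ Y, a ≠ b → a ≠ c → b ≠ c → IsoT a b c ∨ BadT Y a b c) :
    False := by
  have h0' : ∀ y ∈ Y, y ≠ 0 := by
    rintro y hy rfl
    have := hn 0 hy
    rw [map_zero] at this
    linarith
  have hex : ∃ a ∈ Y, ∃ b ∈ Y, ∃ c ∈ Y, a ≠ b ∧ a ≠ c ∧ b ≠ c ∧ ¬ IsoT a b c := by
    by_contra hcon
    push Not at hcon
    exact no_six Y hY h0' hcon
  obtain ⟨a, ha, b0, hb0, c0, hc0, hab0, hac0, hbc0, hni⟩ := hex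
  obtain ⟨v, h, ζ, u, e, e', h0, va, vb0, vc0, he, hu, he', hee, ve, ve', vu, h7, hζ1, ea, ebc⟩ :=
    seven hR hn H ha hb0 hc0 hab0 hac0 hbc0 hni
  have hbc : ∃ b ∈ Y, ∃ c ∈ Y, b = u * ζ ^ 2 ∧ c = u * ζ ^ 4 ∧ (b * conj v).re < h ∧
      (c * conj v).re < h := by
    rcases ebc with ⟨e1, e2⟩ | ⟨e1, e2⟩
    · exact ⟨b0, hb0, c0, hc0, e1, e2, vb0, vc0⟩
    · exact ⟨c0, hc0, b0, hb0, e2, e1, vc0, vb0⟩
  obtain ⟨b, hb, c, hc, eb, ec, vb, vc⟩ := hbc
  have hu0 := h0' u hu
  have hζ0 : ζ ≠ 0 := by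
    rintro rfl
    simp at h7
  have hprim : IsPrimitiveRoot ζ 7 := by
    rw [IsPrimitiveRoot.iff_orderOf]
    exact orderOf_eq_prime h7 hζ1 (hp := ⟨by norm_num⟩)
  have main : ∀ x ∈ Y, (x * conj v).re = h → x / u = ζ ^ 3 ∨ x / u = ζ ^ 5 ∨ x / u = ζ ^ 6 := by
    intro x hx vx
    have hxu : x ≠ u := by rintro rfl; linarith
    have hxa : x ≠ a := by rintro rfl; linarith
    have hxb : x ≠ b := by rintro rfl; linarith
    have hxc : x ≠ c := by rintro rfl; linarith
    have hua : u ≠ a := by rintro rfl; linarith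
    have hub : u ≠ b := by rintro rfl; linarith
    have q1 := ratio7 hR hn H hx hu hb hxu hxb hub
    have q2 := ratio7 hR hn H hx hu ha hxu hxa hua
    rw [eb] at q1
    rw [ea] at q2
    have q3 := e7 h7 hζ1 hu0 q1 q2
    refine root_cases hprim ?_ ?_ ?_ ?_ ?_
    · rw [div_pow, q3, div_self (pow_ne_zero _ hu0)]
    · intro h1
      exact hxu ((div_eq_one_iff_eq hu0).1 h1)
    · intro h1
      rw [div_eq_iff hu0] at h1
      exact hxa (by rw [h1, ea]; ring)
    · intro h1
      rw [div_eq_iff hu0] at h1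
      exact hxb (by rw [h1, eb]; ring)
    · intro h1
      rw [div_eq_iff hu0] at h1
      exact hxc (by rw [h1, ec]; ring)
  have hv : v ≠ 0 := by
    rintro rfl
    simp at ve
    linarith
  have hpair := conj_pair (hn e he) (hn e' he') hee hv ve ve'
  have hRe : e * conj e = (R : ℂ) := by rw [Complex.mul_conj, hn e he]
  have hRu : u * conj u = (R : ℂ) := by rw [Complex.mul_conj, hn u hu]
  have fin : ∀ x, e * e' = u * x → (x * conj v).re < h → False := by
    intro x hx vx
    have h1 : u * (x * conj v) = u * (conj u * v) := by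
      have h2 : e * e' * conj v = (R : ℂ) * v := by
        rw [map_mul, Complex.conj_conj] at hpair
        linear_combination e * hpair + v * hRe
      rw [hx] at h2
      linear_combination h2 - v * hRu
    have h2 := mul_left_cancel₀ hu0 h1
    have h3 : (x * conj v).re = (u * conj v).re := by
      rw [h2]
      simp only [Complex.mul_re, Complex.conj_re, Complex.conj_im]
      ring
    linarith
  have hdd : e / u ≠ e' / u := fun h => hee ((div_left_inj' hu0).1 h)
  have hee' : e * e' = u * (u * ((e / u) * (e' / u))) := by field_simp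
  have p8 : ζ ^ 8 = ζ := by linear_combination ζ * h7
  have p9 : ζ ^ 9 = ζ ^ 2 := by linear_combination ζ ^ 2 * h7
  have p11 : ζ ^ 11 = ζ ^ 4 := by linear_combination ζ ^ 4 * h7
  rcases main e he ve with h1 | h1 | h1 <;> rcases main e' he' ve' with h2 | h2 | h2
  · exact hdd (h1.trans h2.symm)
  · refine fin a ?_ va
    rw [hee', h1, h2, ea, ← pow_add, p8]
  · refine fin b ?_ vb
    rw [hee', h1, h2, eb, ← pow_add, p9]
  · refine fin a ?_ va
    rw [hee', h1, h2, ea, ← pow_add, p8]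
  · exact hdd (h1.trans h2.symm)
  · refine fin c ?_ vc
    rw [hee', h1, h2, ec, ← pow_add, p11]
  · refine fin b ?_ vb
    rw [hee', h1, h2, eb, ← pow_add, p9]
  · refine fin c ?_ vc
    rw [hee', h1, h2, ec, ← pow_add, p11]
  · exact hdd (h1.trans h2.symm)

theorem case_beta0 {F W T : Finset ℂ} {O : ℂ} {r : ℝ} (hFW : ∀ w ∈ W, w ∉ F)
    (hall : AllSym F W) (he : Enc (F ∪ W) O r T) (hW : 7 ≤ W.card) (hr0 : 0 < r)
    (hint : ∀ y ∈ W, dist y O < r → y = O) : False := by
  classical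
  set X := Wc W O r with hX
  have hXW : X ⊆ W := Wc_sub _ _ _
  have hXr : ∀ z ∈ X, dist z O = r := fun z hz => (mem_Wc.1 hz).2
  have hXc : 6 ≤ X.card := by
    have h1 : W ⊆ insert O X := by
      intro z hz
      rw [Finset.mem_insert]
      rcases (he.1 z (Finset.mem_union_right _ hz)).lt_or_eq with h2 | h2
      · exact Or.inl (hint z hz h2)
      · exact Or.inr (mem_Wc.2 ⟨hz, h2⟩)
    have h2 := Finset.card_le_card h1
    have h3 := Finset.card_insert_le O X
    omega
  set Y := X.image fun z => z - O with hY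
  have hYc : 6 ≤ Y.card := by
    rw [hY, Finset.card_image_of_injective _ sub_left_injective]; exact hXc
  have hYm : ∀ y ∈ Y, ∃ z ∈ X, z - O = y := by
    intro y hy
    rw [hY, Finset.mem_image] at hy
    exact hy
  refine no_six_bad (R := r ^ 2) (by positivity) ?_ hYc ?_
  · intro y hy
    obtain ⟨z, hz, rfl⟩ := hYm y hy
    rw [Complex.normSq_eq_norm_sq, ← dist_eq_norm, hXr z hz]
  · intro a' ha' b' hb' c' hc' hab' hac' hbc'
    obtain ⟨a, ha, rfl⟩ := hYm a' ha'
    obtain ⟨b, hb, rfl⟩ := hYm b' hb'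
    obtain ⟨c, hc, rfl⟩ := hYm c' hc'
    have hab : a ≠ b := fun h => hab' (by rw [h])
    have hac : a ≠ c := fun h => hac' (by rw [h])
    have hbc : b ≠ c := fun h => hbc' (by rw [h])
    set V := X \ {a, b, c} with hV
    have hVm : ∀ z, z ∈ V ↔ z ∈ X ∧ z ≠ a ∧ z ≠ b ∧ z ≠ c := by
      intro z
      rw [hV, Finset.mem_sdiff]
      simp only [Finset.mem_insert, Finset.mem_singleton, not_or]
    have hVX : V ⊆ X := Finset.sdiff_subset
    have hVc : 3 ≤ V.card := by
      have h1 := Finset.le_card_sdiff {a, b, c} X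
      have h2 : ({a, b, c} : Finset ℂ).card ≤ 3 := Finset.card_le_three
      rw [hV]; omega
    obtain ⟨z0, hz0⟩ := Finset.card_pos.1 (show 0 < V.card by omega)
    obtain ⟨O', r', T', he'⟩ := exists_enc (F ∪ V) ⟨z0, Finset.mem_union_right _ hz0⟩
    by_cases hO : O' = O
    · left
      subst hO
      have hFV : F ∪ V ⊆ F ∪ W := Finset.union_subset_union_right (hVX.trans hXW)
      have hrr : r' = r := by
        apply le_antisymm
        · obtain ⟨t, ht, -⟩ := he'.2.2.2.2 0
          rw [← he'.2.2.2.1 t ht]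
          exact he.1 t (hFV (he'.2.1 ht))
        · rw [← hXr z0 (hVX hz0)]
          exact he'.1 z0 (Finset.mem_union_right _ hz0)
      refine iso_three (K := F ∪ V) ?_ ?_ ?_ hab hac hbc hr0.ne' (hXr a ha) (hXr b hb)
        (hXr c hc) ?_
      · rw [Finset.mem_union, hVm, not_or]
        exact ⟨hFW a (hXW ha), fun h => h.2.1 rfl⟩
      · rw [Finset.mem_union, hVm, not_or]
        exact ⟨hFW b (hXW hb), fun h => h.2.2.1 rfl⟩
      · rw [Finset.mem_union, hVm, not_or]
        exact ⟨hFW c (hXW hc), fun h => h.2.2.2 rfl⟩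
      · intro S hS
        rw [Finset.union_assoc]
        refine sym_of' (T := T') (r := r) hall he.1 ?_ he'.2.2.2.2 ?_ ?_
        · intro t ht
          rw [he'.2.2.2.1 t ht, hrr]
        · refine Finset.union_subset (hVX.trans hXW) ?_
          intro z hz
          rcases hS z hz with rfl | rfl | rfl
          · exact hXW ha
          · exact hXW hb
          · exact hXW hc
        · refine he'.2.1.trans (Finset.union_subset_union_right Finset.subset_union_left)
    · right
      obtain ⟨e, u, e', v, h, hVe, h1, h2, h3, h4, h5, h6, h7, h8⟩ :=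
        bad hFW hall he hVX hVc he' hO
      have meV : e ∈ V := by rw [hVe]; simp
      have muV : u ∈ V := by rw [hVe]; simp
      have me'V : e' ∈ V := by rw [hVe]; simp
      have nV : ∀ z ∈ X, z ∉ V → ((z - O) * conj v).re < h := h8
      have hYX : ∀ z ∈ X, z - O ∈ Y := fun z hz => Finset.mem_image.2 ⟨z, hz, rfl⟩
      refine ⟨v, h, h4, nV a ha (fun h => ((hVm _).1 h).2.1 rfl),
        nV b hb (fun h => ((hVm _).1 h).2.2.1 rfl), nV c hc (fun h => ((hVm _).1 h).2.2.2 rfl),
        ?_, e - O, hYX e (hVX meV), u - O, hYX u (hVX muV), e' - O, hYX e' (hVX me'V),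
        ?_, h5, h6, h7⟩
      · intro z' hz' nza nzb nzc
        obtain ⟨z, hz, rfl⟩ := hYm z' hz'
        have hzV : z ∈ V := (hVm z).2 ⟨hz, fun h => nza (by rw [h]), fun h => nzb (by rw [h]),
          fun h => nzc (by rw [h])⟩
        rw [hVe] at hzV
        simp only [Finset.mem_insert, Finset.mem_singleton] at hzV
        rcases hzV with rfl | rfl | rfl
        · exact h5.ge
        · exact h7.le
        · exact h6.ge
      · intro h
        exact h2 (sub_left_injective h)

end Pool.Agent.R174.Pl
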