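import Pool.Agent.R174.PlS

/-!
# Distinguishing extension number of the plane under all isometries, part T

The finite lemma with seven points, and the translation and rank two cases.
-/

namespace Pool.Agent.R174.Pl

open Filter ComplexConjugate

/-- Seven free points which are not collinear: some finite extension is rigid. -/
theorem fin7 {F W : Finset ℂ} (hFW : ∀ w ∈ W, w ∉ F) (hW : 7 ≤ W.card) (hnc : NonCol W)
    (hall : AllSym F W) : False := by
  classical
  obtain ⟨w0, hw0, w1, hw1, hw01⟩ := Finset.one_lt_card.1 (show 1 < W.card by omega)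
  obtain ⟨O, r, T, he⟩ := exists_enc (F ∪ W) ⟨w0, Finset.mem_union_right _ hw0⟩
  have hr0 : 0 < r := by
    by_contra hr
    push Not at hr
    have h0 := he.1 w0 (Finset.mem_union_right _ hw0)
    have h1 := he.1 w1 (Finset.mem_union_right _ hw1)
    have e0 : dist w0 O = 0 := le_antisymm (h0.trans hr) dist_nonneg
    have e1 : dist w1 O = 0 := le_antisymm (h1.trans hr) dist_nonneg
    exact hw01 ((dist_eq_zero.1 e0).trans (dist_eq_zero.1 e1).symm)
  by_cases hc : ∃ w ∈ W, dist w O = r
  · obtain ⟨w, hw, hwr⟩ := hc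
    by_cases hnp : ∃ x ∈ W, ∃ y ∈ W, dist x O < r ∧ dist y O < r ∧
        (x - O) * conj (y - O) ≠ conj (x - O) * (y - O)
    · obtain ⟨x, hx, y, hy, hxr, hyr, h⟩ := hnp
      exact case_alpha hFW hall he hW hx hy hw hxr hyr hwr h
    · push Not at hnp
      by_cases hx : ∃ x ∈ W, dist x O < r ∧ x ≠ O
      · obtain ⟨x, hx, hxr, hxO⟩ := hx
        exact case_beta1 hFW hall he hW hnc hx hxr hxO (fun y hy hyr => hnp x hx y hy hxr hyr)
      · push Not at hx
        exact case_beta0 hFW hall he hW hr0 hx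
  · push Not at hc
    have hTF : T ⊆ F := by
      intro t ht
      have h1 := he.2.1 ht
      rw [Finset.mem_union] at h1
      rcases h1 with h1 | h1
      · exact h1
      · exact absurd (he.2.2.2.1 t ht) (hc t h1)
    set A : Set ℂ := ↑F with hA
    have hAm : ∀ z, z ∈ A ↔ z ∈ F := fun z => Iff.rfl
    have hAfin : A.Finite := Finset.finite_toSet _
    have hθ : FinInv A (rotI O) := by
      refine (hAfin.union (hAfin.preimage (f := rotI O) (rotI O).injective.injOn)).subset ?_
      intro z hz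
      by_contra hc
      apply hz
      have h1 : z ∉ A := fun h => hc (Or.inl h)
      have h2 : rotI O z ∉ A := fun h => hc (Or.inr h)
      exact ⟨fun h => absurd h h2, fun h => absurd h h1⟩
    obtain ⟨k, hk, hkU, hkA⟩ := fixed_centre A W hW hFW O Complex.I (by simp)
      (by
        intro h
        have := congrArg Complex.re h
        simp at this)
      (by
        rw [Complex.I_sq]
        intro h
        have := congrArg Complex.re h
        norm_num at this)
      (rotI O) (fun z => rfl) hθ (by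
        intro S hS
        obtain ⟨g, hg, hgi⟩ := sym_of hall he hS (hTF.trans Finset.subset_union_left)
        refine ⟨g, ?_, hg⟩
        intro z
        have h1 := hgi z
        rw [Finset.mem_union, Finset.mem_union] at h1
        exact h1)
    obtain ⟨p, hpW, hp⟩ := hnc k (O - k * conj O) hk
    apply hp
    have h1 := hkU p hpW
    rw [map_sub] at h1
    linear_combination h1

/-- Reference form of the finite lemma. -/
lemma no_ref7 (A R : Set ℂ) (W : Finset ℂ) (hW : 7 ≤ W.card) (hnc : NonCol W)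
    (hA : ∀ w ∈ W, w ∉ A) (hfin : {z | ¬ (z ∈ A ↔ z ∈ R)}.Finite)
    (h : ∀ S ⊆ W, ∃ g : Equiv.Perm ℂ, IsIso g ∧ g ≠ 1 ∧
      ∀ z, (¬ ((g z ∈ A ∨ g z ∈ S) ↔ g z ∈ R)) ↔ (¬ ((z ∈ A ∨ z ∈ S) ↔ z ∈ R))) : False := by
  classical
  set F : Finset ℂ := hfin.toFinset \ W with hF
  have hmF : ∀ z, z ∈ F ↔ (¬ (z ∈ A ↔ z ∈ R)) ∧ z ∉ W := by
    intro z
    rw [hF, Finset.mem_sdiff, Set.Finite.mem_toFinset]
    rfl
  refine fin7 (F := F) (W := W) (fun w hw hwF => ((hmF w).1 hwF).2 hw) hW hnc ?_
  intro S hS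
  obtain ⟨g, hg, hg1, hi⟩ := h (W.filter fun w => ¬ (w ∈ S ↔ w ∈ R)) (Finset.filter_subset _ _)
  refine ⟨g, hg, hg1, ?_⟩
  have e : ∀ z, z ∈ F ∪ S ↔
      (¬ ((z ∈ A ∨ z ∈ (W.filter fun w => ¬ (w ∈ S ↔ w ∈ R))) ↔ z ∈ R)) := by
    intro z
    rw [Finset.mem_union, hmF, Finset.mem_filter]
    have h1 := hA z
    have h2 := @hS z
    by_cases a1 : z ∈ W <;> by_cases a2 : z ∈ S <;> by_cases a3 : z ∈ R <;>
      by_cases a4 : z ∈ A <;> simp_all
  intro z
  rw [e, e]
  exact hi z

/-- Case 1: one of the extensions is invariant under a nontrivial translation. -/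
lemma case_translation7 (A : Set ℂ) (W : Finset ℂ) (hW : 7 ≤ W.card) (hnc : NonCol W)
    (hA : ∀ w ∈ W, w ∉ A)
    (g : Finset ℂ → Equiv.Perm ℂ) (hg : ∀ S ⊆ W, IsIso (g S) ∧ g S ≠ 1 ∧ Pres A S (g S))
    (S0 : Finset ℂ) (hS0 : S0 ⊆ W) (b0 : ℂ) (hb0ne : b0 ≠ 0)
    (hb0 : ∀ z, (z + b0 ∈ A ∨ z + b0 ∈ S0) ↔ (z ∈ A ∨ z ∈ S0)) : False := by
  classical
  set R : Set ℂ := {z | z ∈ A ∨ z ∈ S0} with hR
  have hRm : ∀ z, z ∈ R ↔ (z ∈ A ∨ z ∈ S0) := fun z => Iff.rfl
  have hRt : ∀ z, z + b0 ∈ R ↔ z ∈ R := hb0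
  refine no_ref7 A R W hW hnc hA ?_ ?_
  · refine S0.finite_toSet.subset fun z hz => ?_
    by_contra h
    apply hz
    rw [hRm]
    constructor
    · intro h1; exact Or.inl h1
    · rintro (h1 | h1)
      · exact h1
      · exact absurd h1 h
  · intro T hT
    by_cases hTS : T = S0
    · subst hTS
      obtain ⟨i1, i2, i3⟩ := hg T hT
      refine ⟨g T, i1, i2, ?_⟩
      intro z
      rw [hRm, hRm]
      tauto
    · obtain ⟨i1, i2, i3⟩ := hg T hT
      have hinj := (g T).injective
      set K : Set ℂ := {z | ¬ (g T z ∈ R ↔ z ∈ R)} with hK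
      have hKfin : K.Finite := by
        refine (W.finite_toSet.union
          (W.finite_toSet.preimage (f := g T) hinj.injOn)).subset ?_
        intro z hz
        by_contra hc
        apply hz
        have hc1 : z ∉ W := fun h => hc (Or.inl h)
        have hc2 : g T z ∉ W := fun h => hc (Or.inr h)
        have h1 := i3 z
        have t1 : z ∉ T := fun h => hc1 (hT h)
        have t2 : z ∉ S0 := fun h => hc1 (hS0 h)
        have t3 : g T z ∉ T := fun h => hc2 (hT h)
        have t4 : g T z ∉ S0 := fun h => hc2 (hS0 h)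
        rw [hRm, hRm]
        tauto
      obtain ⟨x, hx0, hux⟩ := iso_pull i1 hb0ne
      set K' : Set ℂ := {z | ¬ (z + b0 ∈ K ↔ z ∈ K)} with hK'
      have hK'fin : K'.Finite := by
        refine ((hKfin.preimage (f := fun z => z + b0)
          (fun a _ c _ h => add_left_injective b0 h)).union hKfin).subset ?_
        intro z hz
        by_contra hc
        apply hz
        have hc1 : z ∉ K := fun h => hc (Or.inr h)
        have hc2 : z + b0 ∉ K := fun h => hc (Or.inl h)
        exact ⟨fun h => absurd h hc2, fun h => absurd h hc1⟩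
      have hK'mem : ∀ z, z ∈ K' ↔ ¬ (g T (z + b0) ∈ R ↔ g T z ∈ R) := by
        intro z
        have h1 := hRt z
        show (¬ ((¬ (g T (z + b0) ∈ R ↔ z + b0 ∈ R))
          ↔ (¬ (g T z ∈ R ↔ z ∈ R)))) ↔ _
        tauto
      have hK'emp : K' = ∅ := by
        refine finite_shift K' hK'fin x hx0 ?_
        intro z hz
        rw [hK'mem] at hz ⊢
        have e1 : z + x + b0 = z + b0 + x := by ring
        rw [e1, hux, hux, hRt, hRt]
        exact hz
      have hKemp : K = ∅ := by
        refine finite_shift K hKfin b0 hb0ne ?_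
        intro z hz
        by_contra h
        have : z ∈ K' := fun hiff => h (hiff.2 hz)
        rw [hK'emp] at this
        exact this
      have hRT : ∀ z, g T z ∈ R ↔ z ∈ R := by
        intro z
        by_contra h
        have : z ∈ K := h
        rw [hKemp] at this
        exact this
      refine ⟨g T, i1, i2, ?_⟩
      intro z
      rw [i3 z, hRT z]

/-- Case 2: two independent almost periods. -/
lemma case_rank_two7 (A : Set ℂ) (W : Finset ℂ) (hW : 7 ≤ W.card) (hnc : NonCol W)
    (hA : ∀ w ∈ W, w ∉ A)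
    (g : Finset ℂ → Equiv.Perm ℂ) (hg : ∀ S ⊆ W, IsIso (g S) ∧ g S ≠ 1 ∧ Pres A S (g S))
    (v v' : ℂ) (hind : (v' * conj v).im ≠ 0) (hv1 : TrFin A v) (hv2 : TrFin A v') : False := by
  obtain ⟨R, hRfin, hper⟩ := reg A v v' hind hv1 hv2
  have hv : v ≠ 0 := by rintro rfl; simp at hind
  refine no_ref7 A R W hW hnc hA hRfin ?_
  intro S hS
  obtain ⟨i1, i2, i3⟩ := hg S hS
  refine ⟨g S, i1, i2, ?_⟩
  have hfi := finInv_of_pres i3
  set K : Set ℂ := {z | ¬ (g S z ∈ R ↔ z ∈ R)} with hK
  have hKfin : K.Finite := by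
    refine ((hfi.union hRfin).union
      (hRfin.preimage (f := g S) (g S).injective.injOn)).subset ?_
    intro z hz
    by_contra hc
    apply hz
    have h1 : g S z ∈ A ↔ z ∈ A := by
      by_contra h; exact hc (Or.inl (Or.inl h))
    have h2 : z ∈ A ↔ z ∈ R := by
      by_contra h; exact hc (Or.inl (Or.inr h))
    have h3 : g S z ∈ A ↔ g S z ∈ R := by
      by_contra h; exact hc (Or.inr h)
    rw [← h3, h1, h2]
  obtain ⟨x, hx0, hux⟩ := iso_pull i1 hv
  have hxT : TrFin A x := trFin_pull hux hfi hv1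
  have hKemp : K = ∅ := by
    refine finite_shift K hKfin x hx0 ?_
    intro z hz hiff
    apply hz
    rw [hux, hper v hv1, hper x hxT] at hiff
    exact hiff
  intro z
  have hRT : g S z ∈ R ↔ z ∈ R := by
    by_contra h
    have : z ∈ K := h
    rw [hKemp] at this
    exact this
  rw [i3 z, hRT]

end Pool.Agent.R174.Pl
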