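import Pool.Agent.R174.PlT
import Pool.Agent.R174.PlI

/-!
# Distinguishing extension number of the plane under all isometries, part U

One direction of almost periods, with seven points.
-/

namespace Pool.Agent.R174.Pl

open ComplexConjugate

lemma dbl_alg (c a1 a2 N p P2 P3 x : ℂ) (h0 : 2 * c * N = 2 * p)
    (k0 : 2 * P3 = 3 * (2 * c) * P2 - (2 * c) ^ 2 * p)
    (h1 : a1 * (N + 1) = 2 * (p + x))
    (k1 : 2 * (P3 + x ^ 3) = 3 * a1 * (P2 + x ^ 2) - a1 ^ 2 * (p + x))
    (h2 : a2 * (N + 2) = 2 * (p + 2 * x))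
    (k2 : 2 * (P3 + 2 * x ^ 3) = 3 * a2 * (P2 + 2 * x ^ 2) - a2 ^ 2 * (p + 2 * x))
    (hx : x ≠ c) : N = 0 := by
  have hp : p = c * N := by linear_combination -h0 / 2
  subst hp
  have hP3 : P3 = 3 * c * P2 - 2 * c ^ 2 * (c * N) := by linear_combination k0 / 2
  subst hP3
  obtain ⟨y, rfl⟩ : ∃ y, x = y + c := ⟨x - c, by ring⟩
  have hy : y ≠ 0 := by
    rintro rfl
    apply hx; ring
  obtain ⟨b1, rfl⟩ : ∃ b, a1 = b + 2 * c := ⟨a1 - 2 * c, by ring⟩
  obtain ⟨b2, rfl⟩ : ∃ b, a2 = b + 2 * c := ⟨a2 - 2 * c, by ring⟩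
  obtain ⟨q, rfl⟩ : ∃ q, P2 = q + c ^ 2 * N := ⟨P2 - c ^ 2 * N, by ring⟩
  have e1 : b1 * (N + 1) = 2 * y := by linear_combination h1
  have e2 : 2 * y ^ 3 = 3 * b1 * (q + y ^ 2) - b1 ^ 2 * y := by
    linear_combination k1 - (c ^ 2 + b1 * c) * e1
  have f1 : b2 * (N + 2) = 4 * y := by linear_combination h2
  have f2 : 4 * y ^ 3 = 3 * b2 * (q + 2 * y ^ 2) - 2 * b2 ^ 2 * y := by
    linear_combination k2 - (c ^ 2 + b2 * c) * f1
  have g1 : y * (N * (N - 1) * y ^ 2 - 3 * (N + 1) * q) = 0 := by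
    linear_combination ((N + 1) ^ 2 * e2
      + (3 * (N + 1) * (q + y ^ 2) - y * (b1 * (N + 1) + 2 * y)) * e1) / 2
  have g2 : y * (N * (N - 2) * y ^ 2 - 3 * (N + 2) * q) = 0 := by
    linear_combination ((N + 2) ^ 2 * f2
      + (3 * (N + 2) * (q + 2 * y ^ 2) - 2 * y * (b2 * (N + 2) + 4 * y)) * f1) / 4
  have g1' := (mul_eq_zero.1 g1).resolve_left hy
  have g2' := (mul_eq_zero.1 g2).resolve_left hy
  have g3 : y ^ 2 * N ^ 2 = 0 := by
    linear_combination ((N + 2) * g1' - (N + 1) * g2') / 2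
  have g4 := (mul_eq_zero.1 g3).resolve_left (pow_ne_zero _ hy)
  exact pow_eq_zero_iff (two_ne_zero) |>.1 g4

/-- Two points in one column and a third point outside it cannot all be toggled. -/
lemma abs_dbl (u1 u2 w1 : ℂ) (X : ℂ → ℂ) (h12 : u1 ≠ u2) (hX : X u1 = X u2)
    (hXw : X w1 ≠ X u1) (N p1 p2 p3 : ℂ) (a : Finset ℂ → ℂ)
    (hr : ∀ S ⊆ ({u1, u2, w1} : Finset ℂ), a S * (N + S.card) = 2 * (p1 + ∑ w ∈ S, X w) ∧
       2 * (p3 + ∑ w ∈ S, X w ^ 3)
        = 3 * a S * (p2 + ∑ w ∈ S, X w ^ 2) - a S ^ 2 * (p1 + ∑ w ∈ S, X w)) : False := by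
  have n1w : u1 ≠ w1 := by rintro rfl; exact hXw rfl
  have n2w : u2 ≠ w1 := by rintro rfl; exact hXw hX.symm
  set x := X u1 with hx
  have n3 : u1 ∉ ({u2, w1} : Finset ℂ) := by
    rw [Finset.mem_insert, Finset.mem_singleton, not_or]; exact ⟨h12, n1w⟩
  obtain ⟨a1, a2⟩ := hr ∅ (by simp)
  obtain ⟨b1, b2⟩ := hr {u1} (by simp)
  obtain ⟨c1, c2⟩ := hr {u1, u2} (by
    intro z hz; simp only [Finset.mem_insert, Finset.mem_singleton] at hz ⊢; tauto)
  obtain ⟨d1, d2⟩ := hr {w1} (by
    intro z hz; simp only [Finset.mem_singleton] at hz; subst hz; simp)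
  obtain ⟨e1, e2⟩ := hr {u1, w1} (by
    intro z hz; simp only [Finset.mem_insert, Finset.mem_singleton] at hz ⊢; tauto)
  obtain ⟨f1, f2⟩ := hr {u1, u2, w1} (Finset.Subset.refl _)
  rw [Finset.card_insert_of_notMem n3, Finset.card_pair n2w, Finset.sum_insert n3,
    Finset.sum_pair n2w] at f1
  rw [Finset.sum_insert n3, Finset.sum_insert n3, Finset.sum_insert n3, Finset.sum_pair n2w,
    Finset.sum_pair n2w, Finset.sum_pair n2w] at f2
  simp only [Finset.card_empty, Finset.card_singleton, Finset.card_pair n1w,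
    Finset.card_pair h12, Finset.sum_empty,
    Finset.sum_singleton, Finset.sum_pair n1w, Finset.sum_pair h12, Nat.cast_zero, Nat.cast_one,
    Nat.cast_ofNat, add_zero, ← hX, ← hx] at a1 a2 b1 b2 c1 c2 d1 d2 e1 e2 f1 f2
  push_cast at f1
  have r0 : x ≠ a ∅ / 2 → N = 0 := by
    intro h
    refine dbl_alg (a ∅ / 2) (a {u1}) (a {u1, u2}) N p1 p2 p3 x (by linear_combination a1)
      (by linear_combination a2) (by linear_combination b1) (by linear_combination b2)
      (by linear_combination c1) (by linear_combination c2) h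
  have r1 : x ≠ a {w1} / 2 → N + 1 = 0 := by
    intro h
    refine dbl_alg (a {w1} / 2) (a {u1, w1}) (a {u1, u2, w1}) (N + 1) (p1 + X w1)
      (p2 + X w1 ^ 2) (p3 + X w1 ^ 3) x (by linear_combination d1)
      (by linear_combination d2) (by linear_combination e1) (by linear_combination e2)
      (by linear_combination f1) (by linear_combination f2) h
  by_cases h0 : x = a ∅ / 2
  · by_cases h1 : x = a {w1} / 2
    · apply hXw
      have q1 : a ∅ = 2 * x := by rw [h0]; ring
      have q2 : a {w1} = 2 * x := by rw [h1]; ring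
      rw [q1] at a1
      rw [q2] at d1
      linear_combination (a1 - d1) / 2
    · have hN := r1 h1
      apply hXw
      have q1 : a ∅ = 2 * x := by rw [h0]; ring
      rw [q1] at a1
      linear_combination (a1 - d1) / 2 + (a {w1} / 2 - x) * hN
  · have hN := r0 h0
    have hp1 : p1 = 0 := by linear_combination -a1 / 2 + (a ∅ / 2) * hN
    have h1 : x ≠ a {w1} / 2 := by
      intro h1
      apply hXw
      rw [h1]
      linear_combination -d1 / 2 - hp1 + (a {w1} / 2) * hN
    have hN1 := r1 h1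
    rw [hN, zero_add] at hN1
    exact one_ne_zero hN1

lemma case_rank_one7 (A : Set ℂ) (W : Finset ℂ) (hW : 7 ≤ W.card) (hnc : NonCol W)
    (hA : ∀ w ∈ W, w ∉ A)
    (g : Finset ℂ → Equiv.Perm ℂ) (hg : ∀ S ⊆ W, IsIso (g S) ∧ g S ≠ 1 ∧ Pres A S (g S))
    (hnt : ∀ S ⊆ W, ∀ b : ℂ, b ≠ 0 → ¬ ∀ z, (z + b ∈ A ∨ z + b ∈ S) ↔ (z ∈ A ∨ z ∈ S))
    (v : ℂ) (hv : v ≠ 0) (hvA : TrFin A v) (hpar : ∀ x, TrFin A x → (x * conj v).im = 0) :
    False := by
  classical
  have hvc : conj v ≠ 0 := (map_ne_zero _).2 hv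
  -- a common axis
  obtain ⟨β, hβ⟩ : ∃ β0 : ℝ, ∀ S ⊆ W, ∀ β, Flip v (g S) β → β = β0 := by
    by_cases hex : ∃ S ⊆ W, ∃ β, Flip v (g S) β
    · obtain ⟨S, hS, β, h⟩ := hex
      exact ⟨β, fun T hT β' h' => flips_eq (finInv_of_pres (hg T hT).2.2)
        (finInv_of_pres (hg S hS).2.2) hv hpar h' h⟩
    · push Not at hex
      exact ⟨0, fun S hS β h => absurd h (hex S hS β)⟩
  have htypes : ∀ S ⊆ W, (∃ c : ℂ, c.im = β ∧ ∀ z, g S z * conj v = c - z * conj v) ∨
      (∃ a : ℝ, ∀ z, g S z * conj v = a - conj (z * conj v)) ∨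
      (∀ z, g S z * conj v = conj (z * conj v) + β * Complex.I) := by
    intro S hS
    obtain ⟨i1, i2, i3⟩ := hg S hS
    rcases types i1 i2 i3 (hnt S hS) hv hvA hpar with ⟨c, hc⟩ | h | ⟨β', h⟩
    · left
      refine ⟨c, ?_, hc⟩
      apply hβ S hS
      refine ⟨-1, c.re, Or.inr rfl, fun z => ?_⟩
      rw [hc, Complex.sub_re, Complex.sub_im]
      constructor
      · ring
      · rfl
    · right; left; exact h
    · right; right
      have : β' = β := by
        apply hβ S hS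
        refine ⟨1, 0, Or.inl rfl, fun z => ?_⟩
        rw [h, Complex.add_re, Complex.add_im, Complex.conj_re, Complex.conj_im,
          Complex.re_ofReal_mul, Complex.im_ofReal_mul, Complex.I_re, Complex.I_im]
        constructor <;> ring
      rw [← this]; exact h
  set X : ℂ → ℂ := fun z => ((z * conj v).re : ℂ) with hX
  set Yr : ℂ → ℝ := fun z => (z * conj v).im - β / 2 with hYr
  set Y : ℂ → ℂ := fun z => ((Yr z ^ 2 : ℝ) : ℂ) with hY
  set rho : ℂ → ℂ := fun z => (conj (z * conj v) + β * Complex.I) / conj v with hrho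
  have hrhov : ∀ z, rho z * conj v = conj (z * conj v) + β * Complex.I := by
    intro z; simp only [hrho]; rw [div_mul_cancel₀ _ hvc]
  have hrhoX : ∀ z, (rho z * conj v).re = (z * conj v).re := by
    intro z
    rw [hrhov, Complex.add_re, Complex.conj_re, Complex.re_ofReal_mul, Complex.I_re]; ring
  have hrhoY : ∀ z, Yr (rho z) = - Yr z := by
    intro z
    simp only [hYr]
    rw [hrhov, Complex.add_im, Complex.conj_im, Complex.im_ofReal_mul, Complex.I_im]; ring
  have hvv : v * conj v = (Complex.normSq v : ℂ) := Complex.mul_conj v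
  have hnv : (Complex.normSq v : ℂ) ≠ 0 := by
    exact_mod_cast (Complex.normSq_eq_zero.not.2 hv)
  have hXv : ∀ z, X (z + v) = X z + (Complex.normSq v : ℂ) := by
    intro z
    simp only [hX]
    rw [add_mul, hvv, Complex.add_re, Complex.ofReal_re]; push_cast; ring
  have hYv : ∀ z, Y (z + v) = Y z := by
    intro z
    simp only [hY, hYr]
    rw [add_mul, hvv, Complex.add_im, Complex.ofReal_im, add_zero]
  have core : ∀ w0 ∈ W, Yr w0 ≠ 0 → ∃ (N p1 p2 p3 M m1 : ℂ) (a : Finset ℂ → ℂ),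
      ∀ S ⊆ (W.erase w0).erase (rho w0),
      (a S * (N + S.card) = 2 * (p1 + ∑ w ∈ S, X w) ∧
       2 * (p3 + ∑ w ∈ S, X w ^ 3)
        = 3 * a S * (p2 + ∑ w ∈ S, X w ^ 2) - a S ^ 2 * (p1 + ∑ w ∈ S, X w) ∧
       a S * (M + ∑ w ∈ S, Y w) = 2 * (m1 + ∑ w ∈ S, Y w * X w)) := by
    intro w0 hw0 hY0
    set r0 := rho w0 with hr0
    have hr0ne : r0 ≠ w0 := by
      intro h
      have := hrhoY w0
      rw [← hr0, h] at this
      apply hY0; linarith
    set s : Finset ℂ := if r0 ∈ A then ∅ else {w0} with hs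
    have hs0 : ∀ z ∈ s, z = w0 := by
      intro z hz
      rw [hs] at hz
      split_ifs at hz with h
      · simp at hz
      · simpa using hz
    have hs1 : w0 ∈ s ↔ r0 ∉ A := by
      rw [hs]
      split_ifs with h
      · simp [h]
      · simp [h]
    obtain ⟨N, p1, p2, p3, M, m1, hrel⟩ := tr_rel {z | z ∈ A ∨ z ∈ s} v
      (Complex.normSq v : ℂ) hnv (trFin_add hvA s) X Y hXv hYv
    have hex : ∀ S : Finset ℂ, ∃ a : ℂ, S ⊆ (W.erase w0).erase r0 →
      (a * (N + S.card) = 2 * (p1 + ∑ w ∈ S, X w) ∧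
       2 * (p3 + ∑ w ∈ S, X w ^ 3)
        = 3 * a * (p2 + ∑ w ∈ S, X w ^ 2) - a ^ 2 * (p1 + ∑ w ∈ S, X w) ∧
       a * (M + ∑ w ∈ S, Y w) = 2 * (m1 + ∑ w ∈ S, Y w * X w)) := by
      intro S
      by_cases hS : S ⊆ (W.erase w0).erase r0
      swap
      · exact ⟨0, fun h => absurd h hS⟩
      have hSm : ∀ z ∈ S, z ≠ r0 ∧ z ≠ w0 ∧ z ∈ W := by
        intro z hz
        have := hS hz
        rw [Finset.mem_erase, Finset.mem_erase] at this
        exact this
      have hsS : s ∪ S ⊆ W := by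
        intro z hz
        rw [Finset.mem_union] at hz
        rcases hz with hz | hz
        · rw [hs0 z hz]; exact hw0
        · exact (hSm z hz).2.2
      obtain ⟨i1, i2, i3⟩ := hg _ hsS
      have hSA : ∀ w ∈ S, w ∉ {z | z ∈ A ∨ z ∈ s} := by
        rintro w hw (h | h)
        · exact hA w (hSm w hw).2.2 h
        · exact (hSm w hw).2.1 (hs0 w h)
      have hP : Pres {z | z ∈ A ∨ z ∈ s} S (g (s ∪ S)) := by
        intro z
        have := i3 z
        rw [Finset.mem_union, Finset.mem_union] at this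
        show ((g (s ∪ S) z ∈ A ∨ g (s ∪ S) z ∈ s) ∨ g (s ∪ S) z ∈ S) ↔ ((z ∈ A ∨ z ∈ s) ∨ z ∈ S)
        tauto
      have hcv : conj (v * conj v) = v * conj v := by rw [hvv, Complex.conj_ofReal]
      rcases htypes _ hsS with ⟨c, hc, hgc⟩ | ⟨a, hga⟩ | hgr
      · refine ⟨(c.re : ℂ), fun _ => hrel S hSA _ hP ?_ _ ?_ ?_⟩
        · intro z
          apply zeta_inj hv
          rw [hgc, sub_mul, hgc]; ring
        · intro z
          simp only [hX]
          rw [hgc, Complex.sub_re]; push_cast; ring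
        · intro z
          simp only [hY, hYr]
          rw [hgc, Complex.sub_im, hc]
          congr 1; ring
      · refine ⟨(a : ℂ), fun _ => hrel S hSA _ hP ?_ _ ?_ ?_⟩
        · intro z
          apply zeta_inj hv
          rw [hga, sub_mul, hga, add_mul, map_add, hcv]; ring
        · intro z
          simp only [hX]
          rw [hga, Complex.sub_re, Complex.ofReal_re, Complex.conj_re]; push_cast; ring
        · intro z
          simp only [hY, hYr]
          rw [hga, Complex.sub_im, Complex.ofReal_im, Complex.conj_im]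
          congr 1; ring
      · exfalso
        have hgw : g (s ∪ S) w0 = r0 := by
          apply zeta_inj hv
          rw [hgr, hr0, hrhov]
        have := i3 w0
        rw [hgw, Finset.mem_union, Finset.mem_union] at this
        have n1 : r0 ∉ s := fun h => hr0ne (hs0 r0 h)
        have n2 : r0 ∉ S := fun h => (hSm r0 h).1 rfl
        have n3 : w0 ∉ S := fun h => (hSm w0 h).2.1 rfl
        have n4 := hA w0 hw0
        tauto
    choose a ha using hex
    exact ⟨N, p1, p2, p3, M, m1, a, fun S hS => ha S hS⟩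
  -- the reflections in the axis and in vertical lines
  have hkn : ‖v / conj v‖ = 1 := by
    rw [norm_div, Complex.norm_conj, div_self (norm_ne_zero_iff.2 hv)]
  have hinjXY : ∀ z w, (z * conj v).re = (w * conj v).re → Yr z = Yr w → z = w := by
    intro z w h1 h2
    apply zeta_inj hv
    apply Complex.ext h1
    simp only [hYr] at h2
    linarith
  set Xr : ℂ → ℝ := fun z => (z * conj v).re with hXr
  have main : ∀ w0 ∈ W, Yr w0 ≠ 0 → ∀ u1 ∈ (W.erase w0).erase (rho w0),
      ∀ u2 ∈ (W.erase w0).erase (rho w0), ∀ w1 ∈ (W.erase w0).erase (rho w0), u1 ≠ u2 →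
      Xr u1 = Xr u2 → Xr w1 ≠ Xr u1 → False := by
    intro w0 hw0 hY0 u1 hu1 u2 hu2 w1 hw1 h12 hx12 hx1
    obtain ⟨N, p1, p2, p3, M, m1, a, hrel⟩ := core w0 hw0 hY0
    have hsub : ∀ S ⊆ ({u1, u2, w1} : Finset ℂ), S ⊆ (W.erase w0).erase (rho w0) := by
      intro S hS z hz
      have := hS hz
      simp only [Finset.mem_insert, Finset.mem_singleton] at this
      rcases this with rfl | rfl | rfl
      · exact hu1
      · exact hu2
      · exact hw1
    have hX12 : X u1 = X u2 := by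
      simp only [hX]
      exact_mod_cast hx12
    have hX1 : X w1 ≠ X u1 := by
      simp only [hX]
      exact_mod_cast hx1
    by_cases hYY : Y u1 = Y u2
    · refine abs_dbl u1 u2 w1 X h12 hX12 hX1 N p1 p2 p3 a fun S hS => ?_
      obtain ⟨r1, r2, r3⟩ := hrel S (hsub S hS)
      exact ⟨r1, r2⟩
    · refine abs_col u1 u2 w1 X Y hX12 hYY hX1 N p1 M m1 a fun S hS => ?_
      obtain ⟨r1, r2, r3⟩ := hrel S (hsub S hS)
      exact ⟨r1, r3⟩
  have many : ∀ w0 ∈ W, Yr w0 ≠ 0 →
      4 ≤ (((W.erase w0).erase (rho w0)).image Xr).card → False := by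
    intro w0 hw0 hY0 hc4
    obtain ⟨N, p1, p2, p3, M, m1, a, hrel⟩ := core w0 hw0 hY0
    set W' := (W.erase w0).erase (rho w0) with hW'
    obtain ⟨V, hVsub, hVc⟩ := Finset.exists_subset_card_eq hc4
    have hsurj : Set.SurjOn Xr (W' : Set ℂ) (V : Set ℝ) := by
      intro x hx
      have := hVsub hx
      rw [Finset.mem_image] at this
      obtain ⟨w, hw, rfl⟩ := this
      exact ⟨w, hw, rfl⟩
    obtain ⟨T, hTW, hTinj, hTV⟩ := Finset.exists_subset_injOn_image_eq_of_surjOn _ _ hsurj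
    have hTc : T.card = 4 := by
      have hh := Finset.card_image_of_injOn hTinj
      have : T.image Xr = V := by
        apply Finset.coe_injective
        rw [Finset.coe_image]
        first
          | exact hTV
          | exact_mod_cast hTV
      rw [this, hVc] at hh
      exact hh.symm
    have hTW' : T ⊆ W' := by exact_mod_cast hTW
    refine abs_four T hTc X ?_ N p1 p2 p3 a fun S hS => ?_
    · intro x hx y hy hxy
      apply hTinj hx hy
      simp only [hX] at hxy
      exact_mod_cast hxy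
    · obtain ⟨r1, r2, r3⟩ := hrel S (hS.trans hTW')
      exact ⟨r1, r2⟩
  -- a point off the axis
  obtain ⟨w0, hw0, hw0ne⟩ := hnc (v / conj v) (β * Complex.I / conj v) hkn
  have hY0 : Yr w0 ≠ 0 := by
    intro h0
    apply hw0ne
    apply hinjXY
    · have e : v / conj v * conj w0 + β * Complex.I / conj v = rho w0 := by
        simp only [hrho, map_mul, Complex.conj_conj]; ring
      rw [e]; exact hrhoX w0
    · have e : v / conj v * conj w0 + β * Complex.I / conj v = rho w0 := by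
        simp only [hrho, map_mul, Complex.conj_conj]; ring
      rw [e, hrhoY, h0]; simp
  have hWm : ∀ w0 z, z ∈ (W.erase w0).erase (rho w0) ↔ z ≠ rho w0 ∧ z ≠ w0 ∧ z ∈ W := by
    intro w0 z
    rw [Finset.mem_erase, Finset.mem_erase]
  set W' := (W.erase w0).erase (rho w0) with hW'
  have hW'c : 5 ≤ W'.card := by
    have h1 := Finset.pred_card_le_card_erase (s := W) (a := w0)
    have h2 := Finset.pred_card_le_card_erase (s := W.erase w0) (a := rho w0)
    rw [hW']; omega
  have hc3 : (W'.image Xr).card ≤ 3 := by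
    by_contra hcon
    push Not at hcon
    exact many w0 hw0 hY0 hcon
  obtain ⟨u1, hu1, u2, hu2, h12, hx12⟩ := Finset.exists_ne_map_eq_of_card_lt_of_maps_to
    (s := W') (t := W'.image Xr) (f := Xr) (by omega) (fun w hw => Finset.mem_image_of_mem _ hw)
  have hcol : ∀ w ∈ W', Xr w = Xr u1 := by
    intro w hw
    by_contra h
    exact main w0 hw0 hY0 u1 hu1 u2 hu2 w hw h12 hx12 h
  set x : ℝ := Xr u1 with hx
  -- a point outside the column
  obtain ⟨w1, hw1, hw1ne⟩ := hnc (-(v / conj v)) (2 * x / conj v) (by rw [norm_neg]; exact hkn)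
  have hw1x : Xr w1 ≠ x := by
    intro h0
    apply hw1ne
    apply zeta_inj hv
    have e : (-(v / conj v) * conj w1 + 2 * x / conj v) * conj v
        = 2 * x - conj (w1 * conj v) := by
      rw [map_mul, Complex.conj_conj]; field_simp; ring
    rw [e]
    apply Complex.ext
    · simp only [hXr] at h0
      rw [Complex.sub_re, Complex.conj_re, h0]; simp; ring
    · rw [Complex.sub_im, Complex.conj_im]; simp
  obtain ⟨w0', hw0'W, hY0'⟩ : ∃ w0' ∈ W', Yr w0' ≠ 0 := by
    by_cases h1 : Yr u1 = 0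
    · refine ⟨u2, hu2, fun h2 => h12 (hinjXY u1 u2 hx12 (h1.trans h2.symm))⟩
    · exact ⟨u1, hu1, h1⟩
  have hw0'W2 : w0' ∈ W := ((hWm _ _).1 hw0'W).2.2
  have hx0' : Xr w0' = x := hcol _ hw0'W
  have hrx0' : Xr (rho w0') = x := by
    rw [← hx0']; exact hrhoX w0'
  set W2 := (W'.erase w0').erase (rho w0') with hW2
  have hW2c : 3 ≤ W2.card := by
    have h1 := Finset.pred_card_le_card_erase (s := W') (a := w0')
    have h2 := Finset.pred_card_le_card_erase (s := W'.erase w0') (a := rho w0')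
    rw [hW2]; omega
  have hW2m : ∀ z ∈ W2, z ∈ (W.erase w0').erase (rho w0') ∧ z ∈ W' := by
    intro z hz
    rw [hW2, Finset.mem_erase, Finset.mem_erase] at hz
    refine ⟨(hWm _ _).2 ⟨hz.1, hz.2.1, ((hWm _ _).1 hz.2.2).2.2⟩, hz.2.2⟩
  obtain ⟨z1, hz1, z2, hz2, hz12⟩ := Finset.one_lt_card.1 (show 1 < W2.card by omega)
  refine main w0' hw0'W2 hY0' z1 (hW2m z1 hz1).1 z2 (hW2m z2 hz2).1 w1 ?_ hz12 ?_ ?_
  · rw [hWm]
    refine ⟨?_, ?_, hw1⟩
    · rintro rfl; exact hw1x hrx0'
    · rintro rfl; exact hw1x hx0'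
  · rw [hcol z1 (hW2m z1 hz1).2, hcol z2 (hW2m z2 hz2).2]
  · rw [hcol z1 (hW2m z1 hz1).2]; exact hw1x

end Pool.Agent.R174.Pl
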