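import Pool.Agent.R174.PlU
import Pool.Agent.R174.PlJ

/-!
# Distinguishing extension number of the plane under all isometries, part V

The main combinatorial theorem with seven points.
-/

namespace Pool.Agent.R174.Pl

open ComplexConjugate

/-- **Main theorem.** Any partial two-colouring of the plane leaving at least 7 points
uncoloured, not all on one line, extends to a two-colouring preserved by no nontrivial isometry. -/
theorem exists_extension7 (A : Set ℂ) (W : Finset ℂ) (hW : 7 ≤ W.card) (hnc : NonCol W)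
    (hA : ∀ w ∈ W, w ∉ A) :
    ∃ S ⊆ W, ∀ g : Equiv.Perm ℂ, IsIso g → Pres A S g → g = 1 := by
  classical
  by_contra hcon
  push Not at hcon
  have hex : ∀ S : Finset ℂ, ∃ g : Equiv.Perm ℂ, S ⊆ W → (IsIso g ∧ g ≠ 1 ∧ Pres A S g) := by
    intro S
    by_cases hS : S ⊆ W
    · obtain ⟨g, h1, h2, h3⟩ := hcon S hS
      exact ⟨g, fun _ => ⟨h1, h3, h2⟩⟩
    · exact ⟨1, fun h => absurd h hS⟩
  choose g hg using hex
  by_cases c1 : ∃ S0 ⊆ W, ∃ b0 : ℂ, b0 ≠ 0 ∧ ∀ z, (z + b0 ∈ A ∨ z + b0 ∈ S0) ↔ (z ∈ A ∨ z ∈ S0)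
  · obtain ⟨S0, hS0, b0, hb0, hinv⟩ := c1
    exact case_translation7 A W hW hnc hA g hg S0 hS0 b0 hb0 hinv
  push Not at c1
  by_cases c2 : ∃ v v' : ℂ, TrFin A v ∧ TrFin A v' ∧ (v' * conj v).im ≠ 0
  · obtain ⟨v, v', h1, h2, h3⟩ := c2
    exact case_rank_two7 A W hW hnc hA g hg v v' h3 h1 h2
  push Not at c2
  by_cases c3 : ∃ v : ℂ, v ≠ 0 ∧ TrFin A v
  · obtain ⟨v, hv, hvA⟩ := c3
    refine case_rank_one7 A W hW hnc hA g hg ?_ v hv hvA (fun x hx => c2 v x hvA hx)
    intro S hS b hb hall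
    obtain ⟨z, hz⟩ := c1 S hS b hb
    have := hall z
    tauto
  · push Not at c3
    refine case_rank_zero A W hW hnc hA g hg ?_
    intro x hx
    by_contra hx0
    exact c3 x hx0 hx

end Pool.Agent.R174.Pl
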