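import Mathlib

/-!
# Primitive partitions of an elementary abelian 2-group into cosets: adding two tiles
-/

set_option autoImplicit false

namespace Pool.Agent.R174.Prim

/-- `A` is a coset of a subgroup of `G`. -/
def IsCoset {G : Type*} [AddCommGroup G] (A : Set G) : Prop :=
  ∃ (v : G) (L : AddSubgroup G), A = {x | x - v ∈ L}

theorem IsCoset.nonempty {G : Type*} [AddCommGroup G] {A : Set G} (h : IsCoset A) : A.Nonempty := by
  obtain ⟨v, L, rfl⟩ := h
  exact ⟨v, by simp [L.zero_mem]⟩

theorem IsCoset.tri {G : Type*} [AddCommGroup G] {A : Set G} (h : IsCoset A) {x y z : G}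
    (hx : x ∈ A) (hy : y ∈ A) (hz : z ∈ A) : x - y + z ∈ A := by
  obtain ⟨v, L, rfl⟩ := h
  have h1 : x - v ∈ L := hx
  have h2 : y - v ∈ L := hy
  have h3 : z - v ∈ L := hz
  show x - y + z - v ∈ L
  have : x - y + z - v = (x - v) - (y - v) + (z - v) := by abel
  rw [this]
  exact L.add_mem (L.sub_mem h1 h2) h3

/-- conversely a nonempty set closed under `x - y + z` is a coset -/
theorem isCoset_of_tri {G : Type*} [AddCommGroup G] {A : Set G} (hne : A.Nonempty)
    (h : ∀ x ∈ A, ∀ y ∈ A, ∀ z ∈ A, x - y + z ∈ A) : IsCoset A := by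
  obtain ⟨v, hv⟩ := hne
  refine ⟨v, { carrier := {g | g + v ∈ A}, add_mem' := ?_, zero_mem' := ?_, neg_mem' := ?_ }, ?_⟩
  · intro a b ha hb
    have := h _ ha _ hv _ hb
    have e : a + v - v + (b + v) = a + b + v := by abel
    rwa [e] at this
  · simpa using hv
  · intro a ha
    have := h _ hv _ ha _ hv
    have e : v - (a + v) + v = -a + v := by abel
    rwa [e] at this
  · ext x
    show x ∈ A ↔ x - v + v ∈ A
    rw [sub_add_cancel]

/-- the merging map: the four special classes are merged in two pairs -/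
def mrg {ι : Type} : ι ⊕ Fin 4 → ι ⊕ Fin 2
  | .inl i => .inl i
  | .inr 0 => .inr 0
  | .inr 1 => .inr 0
  | .inr 2 => .inr 1
  | .inr 3 => .inr 1

/-- A primitive partition of a group `G` of exponent two into cosets indexed by `ι ⊕ Fin 2`, where
each of the last two tiles is the union of two cosets of one subgroup `K`. -/
structure St (G : Type) [AddCommGroup G] (ι : Type) where
  two : ∀ x : G, x + x = 0
  d : G → ι ⊕ Fin 4
  K : AddSubgroup G
  a : Fin 4 → G
  hr : ∀ j x, d x = .inr j ↔ x - a j ∈ K
  hl : ∀ i, IsCoset {x | d x = .inl i}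
  hs : a 0 + a 1 + a 2 + a 3 ∉ K
  prim : ∀ S : Set (ι ⊕ Fin 2), IsCoset {x | mrg (d x) ∈ S} → S = Set.univ ∨ S.Subsingleton

variable {G : Type} [AddCommGroup G] {ι : Type}

theorem St.neg (s : St G ι) (x : G) : -x = x := by
  rw [neg_eq_iff_add_eq_zero]; exact s.two x

theorem St.sub (s : St G ι) (x y : G) : x - y = x + y := by
  rw [sub_eq_add_neg, s.neg]

theorem St.da (s : St G ι) (j : Fin 4) : s.d (s.a j) = .inr j := by
  rw [s.hr, sub_self]; exact s.K.zero_mem

theorem St.nK (s : St G ι) {i j : Fin 4} (h : i ≠ j) : s.a i + s.a j ∉ s.K := by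
  intro hk
  rw [← s.sub] at hk
  have := (s.hr j (s.a i)).2 hk
  rw [s.da] at this
  exact h (Sum.inr.inj this)

/-- all cosets of the partition of `G` -/
theorem St.coset (s : St G ι) (i : ι ⊕ Fin 2) : IsCoset {x | mrg (s.d x) = i} := by
  rcases i with i | i
  · have : {x | mrg (s.d x) = Sum.inl i} = {x | s.d x = .inl i} := by
      ext x
      show mrg (s.d x) = Sum.inl i ↔ s.d x = .inl i
      rcases h : s.d x with j | j
      · simp [mrg]
      · fin_cases j <;> simp [mrg]
    rw [this]
    exact s.hl i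
  · -- two cosets of K
    have key : ∀ j k : Fin 4, IsCoset {x | s.d x = .inr j ∨ s.d x = .inr k} := by
      intro j k
      refine isCoset_of_tri ⟨s.a j, Or.inl (s.da j)⟩ ?_
      intro x hx y hy z hz
      have two : ∀ g : G, g + g ∈ s.K := fun g => by rw [s.two]; exact s.K.zero_mem
      simp only [Set.mem_ofPred_eq, s.hr, s.sub] at hx hy hz ⊢
      have e : ∀ p q r t : G, x + p ∈ s.K → y + q ∈ s.K → z + r ∈ s.K → p + q + r + t ∈ s.K →
          x + y + z + t ∈ s.K := by
        intro p q r t h1 h2 h3 h4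
        have h5 := s.K.add_mem (s.K.add_mem (s.K.add_mem h1 h2) h3) h4
        have h6 : x + p + (y + q) + (z + r) + (p + q + r + t) =
            (x + y + z + t) + (p + p) + (q + q) + (r + r) := by abel
        rw [h6, s.two, s.two, s.two, add_zero, add_zero, add_zero] at h5
        exact h5
      have z0 : ∀ p q : G, p + p + q + q ∈ s.K := fun p q => by
        rw [s.two, zero_add, s.two]; exact s.K.zero_mem
      rcases hx with hx | hx <;> rcases hy with hy | hy <;> rcases hz with hz | hz
      · exact Or.inl (e _ _ _ _ hx hy hz (z0 _ _))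
      · exact Or.inr (e _ _ _ _ hx hy hz (z0 _ _))
      · refine Or.inr (e _ _ _ _ hx hy hz ?_)
        have : s.a j + s.a k + s.a j + s.a k = s.a j + s.a j + s.a k + s.a k := by abel
        rw [this]; exact z0 _ _
      · refine Or.inl (e _ _ _ _ hx hy hz ?_)
        have : s.a j + s.a k + s.a k + s.a j = s.a j + s.a j + s.a k + s.a k := by abel
        rw [this]; exact z0 _ _
      · refine Or.inr (e _ _ _ _ hx hy hz ?_)
        have : s.a k + s.a j + s.a j + s.a k = s.a j + s.a j + s.a k + s.a k := by abel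
        rw [this]; exact z0 _ _
      · refine Or.inl (e _ _ _ _ hx hy hz ?_)
        have : s.a k + s.a j + s.a k + s.a j = s.a j + s.a j + s.a k + s.a k := by abel
        rw [this]; exact z0 _ _
      · exact Or.inl (e _ _ _ _ hx hy hz (z0 _ _))
      · exact Or.inr (e _ _ _ _ hx hy hz (z0 _ _))
    fin_cases i
    · convert key 0 1 using 3 with x
      rcases h : s.d x with j | j
      · simp [mrg]
      · fin_cases j <;> simp [mrg]
    · convert key 2 3 using 3 with x
      rcases h : s.d x with j | j
      · simp [mrg]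
      · fin_cases j <;> simp [mrg]

end Pool.Agent.R174.Prim
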