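import Pool.Agent.R174.PrimA

/-!
# The step: from `St G ι` to `St (G × ZMod 2) (ι ⊕ Fin 2)`
-/

set_option autoImplicit false

namespace Pool.Agent.R174.Prim

variable {G : Type} [AddCommGroup G] {ι : Type}

/-- the table of the new partition over the four special cosets -/
def tab : Fin 4 → ZMod 2 → (Fin 2) ⊕ Fin 4
  | 0, 0 => .inr 0
  | 2, 1 => .inr 1
  | 3, 0 => .inr 2
  | 0, 1 => .inr 3
  | 1, 0 => .inl 0
  | 3, 1 => .inl 0
  | 2, 0 => .inl 1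
  | 1, 1 => .inl 1

/-- the new colouring -/
def nd (s : St G ι) (p : G × ZMod 2) : (ι ⊕ Fin 2) ⊕ Fin 4 :=
  match s.d p.1 with
  | .inl i => .inl (.inl i)
  | .inr j => match tab j p.2 with
    | .inl k => .inl (.inr k)
    | .inr k => .inr k

theorem coset_two (s : St G ι) (u v : G) :
    IsCoset {p : G × ZMod 2 | (p.2 = 0 ∧ p.1 - u ∈ s.K) ∨ (p.2 = 1 ∧ p.1 - v ∈ s.K)} := by
  refine isCoset_of_tri ⟨(u, 0), Or.inl ⟨rfl, by simp [s.K.zero_mem]⟩⟩ ?_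
  rintro ⟨x, p⟩ hx ⟨y, q⟩ hy ⟨z, r⟩ hz
  simp only [Set.mem_ofPred_eq, s.sub] at hx hy hz
  show ((p - q + r = 0 ∧ x - y + z - u ∈ s.K) ∨ (p - q + r = 1 ∧ x - y + z - v ∈ s.K))
  rw [s.sub, s.sub, s.sub]
  have e : ∀ α β γ δ : G, x + α ∈ s.K → y + β ∈ s.K → z + γ ∈ s.K → α + β + γ + δ = 0 →
      x + y + z + δ ∈ s.K := by
    intro α β γ δ h1 h2 h3 h4
    have h5 := s.K.add_mem (s.K.add_mem h1 h2) h3
    have h6 : x + α + (y + β) + (z + γ) = (x + y + z + δ) + (α + β + γ + δ) - δ - δ := by abel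
    rw [h6, h4, add_zero, s.sub, s.sub, add_assoc, s.two, add_zero] at h5
    exact h5
  rcases hx with ⟨rfl, hx⟩ | ⟨rfl, hx⟩ <;> rcases hy with ⟨rfl, hy⟩ | ⟨rfl, hy⟩ <;>
    rcases hz with ⟨rfl, hz⟩ | ⟨rfl, hz⟩
  · refine Or.inl ⟨by decide, e _ _ _ _ hx hy hz ?_⟩
    rw [s.two, zero_add, s.two]
  · refine Or.inr ⟨by decide, e _ _ _ _ hx hy hz ?_⟩
    rw [s.two, zero_add, s.two]
  · refine Or.inr ⟨by decide, e _ _ _ _ hx hy hz ?_⟩
    have : u + v + u + v = u + u + (v + v) := by abel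
    rw [this, s.two, s.two, add_zero]
  · refine Or.inl ⟨by decide, e _ _ _ _ hx hy hz ?_⟩
    have : u + v + v + u = u + u + (v + v) := by abel
    rw [this, s.two, s.two, add_zero]
  · refine Or.inr ⟨by decide, e _ _ _ _ hx hy hz ?_⟩
    have : v + u + u + v = u + u + (v + v) := by abel
    rw [this, s.two, s.two, add_zero]
  · refine Or.inl ⟨by decide, e _ _ _ _ hx hy hz ?_⟩
    have : v + u + v + u = u + u + (v + v) := by abel
    rw [this, s.two, s.two, add_zero]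
  · refine Or.inl ⟨by decide, e _ _ _ _ hx hy hz ?_⟩
    have : v + v + u + u = u + u + (v + v) := by abel
    rw [this, s.two, s.two, add_zero]
  · refine Or.inr ⟨by decide, e _ _ _ _ hx hy hz ?_⟩
    rw [s.two, zero_add, s.two]

/-- evaluation of the new colouring at a point over the special coset `j` -/
theorem nd_of_inr (s : St G ι) {x : G} {t : ZMod 2} {j : Fin 4} (h : s.d x = .inr j) :
    nd s (x, t) = match tab j t with
      | .inl k => .inl (.inr k)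
      | .inr k => .inr k := by
  unfold nd
  simp [h]

theorem nd_of_inl (s : St G ι) {x : G} {t : ZMod 2} {i : ι} (h : s.d x = .inl i) :
    nd s (x, t) = .inl (.inl i) := by
  unfold nd
  simp [h]

theorem nd_inr_iff (s : St G ι) (k : Fin 4) (x : G) (t : ZMod 2) :
    nd s (x, t) = .inr k ↔ ∃ j, s.d x = .inr j ∧ tab j t = .inr k := by
  rcases h : s.d x with i | j
  · rw [nd_of_inl s h]; simp
  · rw [nd_of_inr s h]
    rcases h' : tab j t with l | l <;> simp [h']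

theorem nd_inl_inr_iff (s : St G ι) (k : Fin 2) (x : G) (t : ZMod 2) :
    nd s (x, t) = .inl (.inr k) ↔ ∃ j, s.d x = .inr j ∧ tab j t = .inl k := by
  rcases h : s.d x with i | j
  · rw [nd_of_inl s h]; simp
  · rw [nd_of_inr s h]
    rcases h' : tab j t with l | l <;> simp [h']

theorem nd_inl_inl_iff (s : St G ι) (i : ι) (x : G) (t : ZMod 2) :
    nd s (x, t) = .inl (.inl i) ↔ s.d x = .inl i := by
  rcases h : s.d x with i' | j
  · rw [nd_of_inl s h]; simp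
  · rw [nd_of_inr s h]
    rcases h' : tab j t with l | l <;> simp

theorem tab_r0 (j : Fin 4) (t : ZMod 2) : tab j t = .inr 0 ↔ j = 0 ∧ t = 0 := by
  revert j t; decide
theorem tab_r1 (j : Fin 4) (t : ZMod 2) : tab j t = .inr 1 ↔ j = 2 ∧ t = 1 := by
  revert j t; decide
theorem tab_r2 (j : Fin 4) (t : ZMod 2) : tab j t = .inr 2 ↔ j = 3 ∧ t = 0 := by
  revert j t; decide
theorem tab_r3 (j : Fin 4) (t : ZMod 2) : tab j t = .inr 3 ↔ j = 0 ∧ t = 1 := by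
  revert j t; decide
theorem tab_l0 (j : Fin 4) (t : ZMod 2) : tab j t = .inl 0 ↔ (t = 0 ∧ j = 1) ∨ (t = 1 ∧ j = 3) := by
  revert j t; decide
theorem tab_l1 (j : Fin 4) (t : ZMod 2) : tab j t = .inl 1 ↔ (t = 0 ∧ j = 2) ∨ (t = 1 ∧ j = 1) := by
  revert j t; decide

theorem step_hr (s : St G ι) (j : Fin 4) (p : G × ZMod 2) : nd s p = .inr j ↔
    p - (![(s.a 0, (0 : ZMod 2)), (s.a 2, 1), (s.a 3, 0), (s.a 0, 1)] : Fin 4 → G × ZMod 2) j ∈
      s.K.prod (⊥ : AddSubgroup (ZMod 2)) := by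
  obtain ⟨x, t⟩ := p
  rw [nd_inr_iff]
  have key : ∀ (k : Fin 4) (u : ZMod 2), (∃ j', s.d x = .inr j' ∧ (j' = k ∧ t = u)) ↔
      (x, t) - (s.a k, u) ∈ s.K.prod (⊥ : AddSubgroup (ZMod 2)) := by
    intro k u
    rw [AddSubgroup.mem_prod]
    constructor
    · rintro ⟨j', h1, rfl, rfl⟩
      exact ⟨(s.hr _ _).1 h1, by simp⟩
    · rintro ⟨h1, h2⟩
      refine ⟨k, (s.hr _ _).2 h1, rfl, ?_⟩
      have : t - u = 0 := h2
      exact sub_eq_zero.1 this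
  fin_cases j
  · simp only [Fin.zero_eta, tab_r0]; exact key 0 0
  · simp only [Fin.mk_one, tab_r1]; exact key 2 1
  · simp only [Fin.reduceFinMk, tab_r2]; exact key 3 0
  · simp only [Fin.reduceFinMk, tab_r3]; exact key 0 1

theorem step_hl (s : St G ι) (i : ι ⊕ Fin 2) : IsCoset {p | nd s p = .inl i} := by
  rcases i with i | i
  · have h : {p | nd s p = .inl (.inl i)} = {p : G × ZMod 2 | p.1 ∈ {x | s.d x = .inl i}} := by
      ext ⟨x, t⟩
      exact nd_inl_inl_iff s i x t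
    rw [h]
    have hc := s.hl i
    obtain ⟨v, hv⟩ := hc.nonempty
    refine isCoset_of_tri ⟨(v, 0), hv⟩ ?_
    intro x hx y hy z hz
    exact hc.tri hx hy hz
  · fin_cases i
    · convert coset_two s (s.a 1) (s.a 3) using 3 with p
      obtain ⟨x, t⟩ := p
      simp only [Fin.zero_eta]
      rw [nd_inl_inr_iff, ← s.hr, ← s.hr]
      simp only [tab_l0]
      constructor
      · rintro ⟨j, h, ⟨rfl, rfl⟩ | ⟨rfl, rfl⟩⟩
        · exact Or.inl ⟨rfl, h⟩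
        · exact Or.inr ⟨rfl, h⟩
      · rintro (⟨h1, h2⟩ | ⟨h1, h2⟩)
        · exact ⟨1, h2, Or.inl ⟨h1, rfl⟩⟩
        · exact ⟨3, h2, Or.inr ⟨h1, rfl⟩⟩
    · convert coset_two s (s.a 2) (s.a 1) using 3 with p
      obtain ⟨x, t⟩ := p
      simp only [Fin.mk_one]
      rw [nd_inl_inr_iff, ← s.hr, ← s.hr]
      simp only [tab_l1]
      constructor
      · rintro ⟨j, h, ⟨rfl, rfl⟩ | ⟨rfl, rfl⟩⟩
        · exact Or.inl ⟨rfl, h⟩
        · exact Or.inr ⟨rfl, h⟩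
      · rintro (⟨h1, h2⟩ | ⟨h1, h2⟩)
        · exact ⟨2, h2, Or.inl ⟨h1, rfl⟩⟩
        · exact ⟨1, h2, Or.inr ⟨h1, rfl⟩⟩

/-- index of the new tile containing a point over the special coset `j` -/
def ntile (ι : Type) (j : Fin 4) (t : ZMod 2) : (ι ⊕ Fin 2) ⊕ Fin 2 :=
  match tab j t with
    | .inl k => .inl (.inr k)
    | .inr 0 => .inr 0
    | .inr 1 => .inr 0
    | .inr 2 => .inr 1
    | .inr 3 => .inr 1

theorem mrg_nd_inr (s : St G ι) {x : G} {t : ZMod 2} {j : Fin 4} (h : s.d x = .inr j) :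
    mrg (nd s (x, t)) = ntile ι j t := by
  rw [nd_of_inr s h]
  unfold ntile
  rcases h' : tab j t with l | l
  · simp [mrg]
  · fin_cases l <;> simp [mrg]

theorem mrg_nd_inl (s : St G ι) {x : G} {t : ZMod 2} {i : ι} (h : s.d x = .inl i) :
    mrg (nd s (x, t)) = .inl (.inl i) := by
  rw [nd_of_inl s h]
  simp [mrg]

theorem step_prim (s : St G ι) (S : Set ((ι ⊕ Fin 2) ⊕ Fin 2))
    (hS : IsCoset {p | mrg (nd s p) ∈ S}) : S = Set.univ ∨ S.Subsingleton := by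
  classical
  set Y : Set (G × ZMod 2) := {p | mrg (nd s p) ∈ S} with hY
  -- membership of the special points
  have hpt : ∀ (j : Fin 4) (t : ZMod 2), (s.a j, t) ∈ Y ↔ ntile ι j t ∈ S := by
    intro j t
    show mrg (nd s (s.a j, t)) ∈ S ↔ _
    rw [mrg_nd_inr s (s.da j)]
  have e00 : ntile ι 0 0 = .inr 0 := rfl
  have e21 : ntile ι 2 1 = .inr 0 := rfl
  have e30 : ntile ι 3 0 = .inr 1 := rfl
  have e01 : ntile ι 0 1 = .inr 1 := rfl
  have e10 : ntile ι 1 0 = .inl (.inr 0) := rfl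
  have e31 : ntile ι 3 1 = .inl (.inr 0) := rfl
  have e20 : ntile ι 2 0 = .inl (.inr 1) := rfl
  have e11 : ntile ι 1 1 = .inl (.inr 1) := rfl
  have p00 := hpt 0 0; rw [e00] at p00
  have p21 := hpt 2 1; rw [e21] at p21
  have p30 := hpt 3 0; rw [e30] at p30
  have p01 := hpt 0 1; rw [e01] at p01
  have p10 := hpt 1 0; rw [e10] at p10
  have p31 := hpt 3 1; rw [e31] at p31
  have p20 := hpt 2 0; rw [e20] at p20
  have p11 := hpt 1 1; rw [e11] at p11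
  have hold : ∀ (i : ι) (x : G) (t : ZMod 2), s.d x = .inl i →
      ((x, t) ∈ Y ↔ .inl (.inl i) ∈ S) := by
    intro i x t h
    show mrg (nd s (x, t)) ∈ S ↔ _
    rw [mrg_nd_inl s h]
  by_cases hv : ∃ x : G, (x, (0 : ZMod 2)) ∈ Y ∧ (x, (1 : ZMod 2)) ∈ Y
  · -- the vertical direction belongs to the coset
    obtain ⟨x0, h0, h1⟩ := hv
    have up : ∀ y : G, (y, (0 : ZMod 2)) ∈ Y → (y, (1 : ZMod 2)) ∈ Y := by
      intro y hy
      have := hS.tri hy h0 h1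
      simpa using this
    have dn : ∀ y : G, (y, (1 : ZMod 2)) ∈ Y → (y, (0 : ZMod 2)) ∈ Y := by
      intro y hy
      have := hS.tri hy h1 h0
      simpa using this
    set X : Set G := {x | (x, (0 : ZMod 2)) ∈ Y} with hX
    have hXc : IsCoset X := by
      refine isCoset_of_tri ⟨x0, h0⟩ ?_
      intro x hx y hy z hz
      have h2 := hS.tri hx hy hz
      show (x - y + z, (0 : ZMod 2)) ∈ Y
      simpa using h2
    -- all or none of the new tiles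
    have q1 : (.inr 0 : (ι ⊕ Fin 2) ⊕ Fin 2) ∈ S → (.inr 1 : (ι ⊕ Fin 2) ⊕ Fin 2) ∈ S := fun h =>
      p01.1 (up _ (p00.2 h))
    have q2 : (.inr 1 : (ι ⊕ Fin 2) ⊕ Fin 2) ∈ S → (.inr 0 : (ι ⊕ Fin 2) ⊕ Fin 2) ∈ S := fun h =>
      p00.1 (dn _ (p01.2 h))
    have q3 : (.inr 1 : (ι ⊕ Fin 2) ⊕ Fin 2) ∈ S → (.inl (.inr 0) : (ι ⊕ Fin 2) ⊕ Fin 2) ∈ S :=
      fun h => p31.1 (up _ (p30.2 h))
    have q4 : (.inl (.inr 0) : (ι ⊕ Fin 2) ⊕ Fin 2) ∈ S → (.inr 1 : (ι ⊕ Fin 2) ⊕ Fin 2) ∈ S :=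
      fun h => p30.1 (dn _ (p31.2 h))
    have q5 : (.inl (.inr 0) : (ι ⊕ Fin 2) ⊕ Fin 2) ∈ S →
        (.inl (.inr 1) : (ι ⊕ Fin 2) ⊕ Fin 2) ∈ S := fun h => p11.1 (up _ (p10.2 h))
    have q6 : (.inl (.inr 1) : (ι ⊕ Fin 2) ⊕ Fin 2) ∈ S →
        (.inl (.inr 0) : (ι ⊕ Fin 2) ⊕ Fin 2) ∈ S := fun h => p10.1 (dn _ (p11.2 h))
    let S0 : Set (ι ⊕ Fin 2) := {k | match k with
      | .inl i => (.inl (.inl i) : (ι ⊕ Fin 2) ⊕ Fin 2) ∈ S
      | .inr _ => (.inr 0 : (ι ⊕ Fin 2) ⊕ Fin 2) ∈ S}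
    have hX' : {x | mrg (s.d x) ∈ S0} = X := by
      ext x
      show mrg (s.d x) ∈ S0 ↔ (x, (0 : ZMod 2)) ∈ Y
      rcases h : s.d x with i | j
      · rw [hold i x 0 h]
        rfl
      · have : (x, (0 : ZMod 2)) ∈ Y ↔ ntile ι j 0 ∈ S := by
          show mrg (nd s (x, 0)) ∈ S ↔ _
          rw [mrg_nd_inr s h]
        rw [this]
        fin_cases j
        · show (.inr 0 : (ι ⊕ Fin 2) ⊕ Fin 2) ∈ S ↔ (.inr 0 : (ι ⊕ Fin 2) ⊕ Fin 2) ∈ S
          exact Iff.rfl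
        · show (.inr 0 : (ι ⊕ Fin 2) ⊕ Fin 2) ∈ S ↔ (.inl (.inr 0) : (ι ⊕ Fin 2) ⊕ Fin 2) ∈ S
          exact ⟨fun h => q3 (q1 h), fun h => q2 (q4 h)⟩
        · show (.inr 0 : (ι ⊕ Fin 2) ⊕ Fin 2) ∈ S ↔ (.inl (.inr 1) : (ι ⊕ Fin 2) ⊕ Fin 2) ∈ S
          exact ⟨fun h => q5 (q3 (q1 h)), fun h => q2 (q4 (q6 h))⟩
        · show (.inr 0 : (ι ⊕ Fin 2) ⊕ Fin 2) ∈ S ↔ (.inr 1 : (ι ⊕ Fin 2) ⊕ Fin 2) ∈ S
          exact ⟨q1, q2⟩
    rcases s.prim S0 (by rw [hX']; exact hXc) with h | h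
    · left
      have hall : ∀ k : ι ⊕ Fin 2, k ∈ S0 := fun k => by rw [h]; exact Set.mem_univ k
      have hr0 : (.inr 0 : (ι ⊕ Fin 2) ⊕ Fin 2) ∈ S := hall (.inr 0)
      rw [Set.eq_univ_iff_forall]
      intro k
      rcases k with (i | k) | k
      · exact hall (.inl i)
      · fin_cases k
        · exact q3 (q1 hr0)
        · exact q5 (q3 (q1 hr0))
      · fin_cases k
        · exact hr0
        · exact q1 hr0
    · right
      have hn : (.inr 0 : (ι ⊕ Fin 2) ⊕ Fin 2) ∉ S := by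
        intro h0
        have h1 : (.inr 0 : ι ⊕ Fin 2) ∈ S0 := h0
        have h2 : (.inr 1 : ι ⊕ Fin 2) ∈ S0 := h0
        have := h h1 h2
        simp at this
      have hn1 : (.inr 1 : (ι ⊕ Fin 2) ⊕ Fin 2) ∉ S := fun h => hn (q2 h)
      have hn2 : (.inl (.inr 0) : (ι ⊕ Fin 2) ⊕ Fin 2) ∉ S := fun h => hn1 (q4 h)
      have hn3 : (.inl (.inr 1) : (ι ⊕ Fin 2) ⊕ Fin 2) ∉ S := fun h => hn2 (q6 h)
      have only : ∀ k ∈ S, ∃ i, k = .inl (.inl i) := by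
        intro k hk
        rcases k with (i | k) | k
        · exact ⟨i, rfl⟩
        · fin_cases k
          · exact (hn2 hk).elim
          · exact (hn3 hk).elim
        · fin_cases k
          · exact (hn hk).elim
          · exact (hn1 hk).elim
      intro k hk l hl
      obtain ⟨i, rfl⟩ := only k hk
      obtain ⟨i', rfl⟩ := only l hl
      have h1 : (.inl i : ι ⊕ Fin 2) ∈ S0 := hk
      have h2 : (.inl i' : ι ⊕ Fin 2) ∈ S0 := hl
      have := h h1 h2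
      rw [Sum.inl.inj this]
  · right
    push Not at hv
    have hno : ∀ i : ι, (.inl (.inl i) : (ι ⊕ Fin 2) ⊕ Fin 2) ∉ S := by
      intro i hi
      obtain ⟨x, hx⟩ := (s.hl i).nonempty
      exact hv x ((hold i x 0 hx).2 hi) ((hold i x 1 hx).2 hi)
    -- no two of the new tiles
    have r12 : ¬ ((.inr 0 : (ι ⊕ Fin 2) ⊕ Fin 2) ∈ S ∧ (.inr 1 : (ι ⊕ Fin 2) ⊕ Fin 2) ∈ S) :=
      fun h => hv _ (p00.2 h.1) (p01.2 h.2)
    have r14 : ¬ ((.inr 0 : (ι ⊕ Fin 2) ⊕ Fin 2) ∈ S ∧ (.inl (.inr 1) : (ι ⊕ Fin 2) ⊕ Fin 2) ∈ S) :=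
      fun h => hv _ (p20.2 h.2) (p21.2 h.1)
    have r23 : ¬ ((.inr 1 : (ι ⊕ Fin 2) ⊕ Fin 2) ∈ S ∧ (.inl (.inr 0) : (ι ⊕ Fin 2) ⊕ Fin 2) ∈ S) :=
      fun h => hv _ (p30.2 h.1) (p31.2 h.2)
    have r34 : ¬ ((.inl (.inr 0) : (ι ⊕ Fin 2) ⊕ Fin 2) ∈ S ∧
        (.inl (.inr 1) : (ι ⊕ Fin 2) ⊕ Fin 2) ∈ S) :=
      fun h => hv _ (p10.2 h.1) (p11.2 h.2)
    -- classification of a point of Y
    have cls : ∀ (x : G) (t : ZMod 2), (x, t) ∈ Y → ∃ j, s.d x = .inr j ∧ ntile ι j t ∈ S := by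
      intro x t h
      rcases h' : s.d x with i | j
      · exact (hno i ((hold i x t h').1 h)).elim
      · refine ⟨j, rfl, ?_⟩
        have h2 : mrg (nd s (x, t)) ∈ S := h
        rwa [mrg_nd_inr s h'] at h2
    have r13 : ¬ ((.inr 0 : (ι ⊕ Fin 2) ⊕ Fin 2) ∈ S ∧ (.inl (.inr 0) : (ι ⊕ Fin 2) ⊕ Fin 2) ∈ S) := by
      rintro ⟨h1, h3⟩
      have h := hS.tri (p00.2 h1) (p21.2 h1) (p10.2 h3)
      have h' : (s.a 0 - s.a 2 + s.a 1, (1 : ZMod 2)) ∈ Y := by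
        have e : (s.a 0, (0 : ZMod 2)) - (s.a 2, 1) + (s.a 1, 0) = (s.a 0 - s.a 2 + s.a 1, 1) := by
          simp only [Prod.mk_sub_mk, Prod.mk_add_mk]
          congr 1
        rw [e] at h
        exact h
      obtain ⟨j, hj, hjS⟩ := cls _ _ h'
      have hK := (s.hr _ _).1 hj
      rw [s.sub, s.sub] at hK
      fin_cases j
      · exact r12 ⟨h1, hjS⟩
      · exact r14 ⟨h1, hjS⟩
      · apply s.nK (show (0 : Fin 4) ≠ 1 by decide)
        have e : s.a 0 + s.a 2 + s.a 1 + s.a 2 = s.a 0 + s.a 1 + (s.a 2 + s.a 2) := by abel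
        have hK' : s.a 0 + s.a 2 + s.a 1 + s.a 2 ∈ s.K := hK
        rwa [e, s.two, add_zero] at hK'
      · apply s.hs
        have e : s.a 0 + s.a 2 + s.a 1 + s.a 3 = s.a 0 + s.a 1 + s.a 2 + s.a 3 := by abel
        have hK' : s.a 0 + s.a 2 + s.a 1 + s.a 3 ∈ s.K := hK
        rwa [e] at hK'
    have r24 : ¬ ((.inr 1 : (ι ⊕ Fin 2) ⊕ Fin 2) ∈ S ∧ (.inl (.inr 1) : (ι ⊕ Fin 2) ⊕ Fin 2) ∈ S) := by
      rintro ⟨h2, h4⟩
      have h := hS.tri (p30.2 h2) (p01.2 h2) (p20.2 h4)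
      have h' : (s.a 3 - s.a 0 + s.a 2, (1 : ZMod 2)) ∈ Y := by
        have e : (s.a 3, (0 : ZMod 2)) - (s.a 0, 1) + (s.a 2, 0) = (s.a 3 - s.a 0 + s.a 2, 1) := by
          simp only [Prod.mk_sub_mk, Prod.mk_add_mk]
          congr 1
        rw [e] at h
        exact h
      obtain ⟨j, hj, hjS⟩ := cls _ _ h'
      have hK := (s.hr _ _).1 hj
      rw [s.sub, s.sub] at hK
      fin_cases j
      · apply s.nK (show (2 : Fin 4) ≠ 3 by decide)
        have e : s.a 3 + s.a 0 + s.a 2 + s.a 0 = s.a 2 + s.a 3 + (s.a 0 + s.a 0) := by abel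
        have hK' : s.a 3 + s.a 0 + s.a 2 + s.a 0 ∈ s.K := hK
        rwa [e, s.two, add_zero] at hK'
      · apply s.hs
        have e : s.a 3 + s.a 0 + s.a 2 + s.a 1 = s.a 0 + s.a 1 + s.a 2 + s.a 3 := by abel
        have hK' : s.a 3 + s.a 0 + s.a 2 + s.a 1 ∈ s.K := hK
        rwa [e] at hK'
      · exact r12 ⟨hjS, h2⟩
      · exact r23 ⟨h2, hjS⟩
    intro k hk l hl
    rcases k with (i | k) | k
    · exact (hno i hk).elim
    · rcases l with (i | l) | l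
      · exact (hno i hl).elim
      · fin_cases k <;> fin_cases l <;> first | rfl | exact (r34 ⟨hk, hl⟩).elim | exact (r34 ⟨hl, hk⟩).elim
      · fin_cases k <;> fin_cases l <;>
          first | exact (r13 ⟨hl, hk⟩).elim | exact (r14 ⟨hl, hk⟩).elim | exact (r23 ⟨hl, hk⟩).elim | exact (r24 ⟨hl, hk⟩).elim
    · rcases l with (i | l) | l
      · exact (hno i hl).elim
      · fin_cases k <;> fin_cases l <;>
          first | exact (r13 ⟨hk, hl⟩).elim | exact (r14 ⟨hk, hl⟩).elim | exact (r23 ⟨hk, hl⟩).elim | exact (r24 ⟨hk, hl⟩).elim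
      · fin_cases k <;> fin_cases l <;> first | rfl | exact (r12 ⟨hk, hl⟩).elim | exact (r12 ⟨hl, hk⟩).elim

/-- **The step.** -/
def St.step (s : St G ι) : St (G × ZMod 2) (ι ⊕ Fin 2) where
  two := by
    rintro ⟨x, t⟩
    have : t + t = 0 := by revert t; decide
    show (x + x, t + t) = 0
    rw [s.two, this]; rfl
  d := nd s
  K := s.K.prod ⊥
  a := ![(s.a 0, 0), (s.a 2, 1), (s.a 3, 0), (s.a 0, 1)]
  hr := step_hr s
  hl := step_hl s
  hs := by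
    intro h
    have h1 : s.a 0 + s.a 2 + s.a 3 + s.a 0 ∈ s.K := ((AddSubgroup.mem_prod).1 h).1
    apply s.nK (show (2 : Fin 4) ≠ 3 by decide)
    have e : s.a 0 + s.a 2 + s.a 3 + s.a 0 = s.a 2 + s.a 3 + (s.a 0 + s.a 0) := by abel
    rwa [e, s.two, add_zero] at h1
  prim := step_prim s

end Pool.Agent.R174.Prim
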