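import Pool.Agent.R174.PrimB

/-!
# Base cases and the transfer to `ℤ^d`
-/

set_option autoImplicit false

namespace Pool.Agent.R174.Prim

/-- checking primitivity on a finite list of points -/
def chk {G κ : Type} (sub3 : G → G → G → G) (pts : List G) (c : G → κ) (b : κ → Bool) : Bool :=
  pts.any fun x => b (c x) && pts.any fun y => b (c y) && pts.any fun z =>
    b (c z) && !b (c (sub3 x y z))

theorem chk_sound {G κ : Type} [AddCommGroup G] (pts : List G) (c : G → κ) (S : Set κ)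
    (b : κ → Bool) (hb : ∀ k, b k = true ↔ k ∈ S) (hS : IsCoset {x | c x ∈ S}) :
    chk (fun x y z => x - y + z) pts c b = false := by
  unfold chk
  rw [Bool.eq_false_iff]
  intro h
  simp only [List.any_eq_true, Bool.and_eq_true, Bool.not_eq_true'] at h
  obtain ⟨x, -, hx, y, -, hy, z, -, hz, hw⟩ := h
  have := hS.tri ((hb _).1 hx) ((hb _).1 hy) ((hb _).1 hz)
  have h2 := (hb _).2 this
  rw [hw] at h2
  exact Bool.false_ne_true h2

abbrev G3 := ZMod 2 × ZMod 2 × ZMod 2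

/-- the colouring for four tiles -/
def d4 : G3 → Fin 2 ⊕ Fin 4
  | (0, 0, 0) => .inl 0
  | (0, 0, 1) => .inl 0
  | (0, 1, 0) => .inl 1
  | (1, 1, 0) => .inl 1
  | (0, 1, 1) => .inr 0
  | (1, 0, 1) => .inr 1
  | (1, 0, 0) => .inr 2
  | (1, 1, 1) => .inr 3

def p3 : List G3 := [(0,0,0),(0,0,1),(0,1,0),(0,1,1),(1,0,0),(1,0,1),(1,1,0),(1,1,1)]

abbrev b4 (x y z w : Bool) : Fin 2 ⊕ Fin 2 → Bool
  | .inl 0 => x
  | .inl 1 => y
  | .inr 0 => z
  | .inr 1 => w

theorem chk4 : ∀ x y z w : Bool, chk (fun x y z : G3 => x - y + z) p3 (fun g => mrg (d4 g))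
    (b4 x y z w) = false → (x && y && z && w) = true ∨
      ((x.toNat + y.toNat + z.toNat + w.toNat) ≤ 1) := by
  decide +kernel

theorem G3_cases (P : G3 → Prop) (h : ∀ x : G3, P x) : ∀ x, P x := h

def base4 : St G3 (Fin 2) where
  two := by decide
  d := d4
  K := ⊥
  a := ![(0,1,1),(1,0,1),(1,0,0),(1,1,1)]
  hr := by
    simp only [AddSubgroup.mem_bot, sub_eq_zero]
    decide
  hl := by
    intro i
    refine isCoset_of_tri ?_ ?_
    · fin_cases i
      · exact ⟨(0,0,0), rfl⟩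
      · exact ⟨(0,1,0), rfl⟩
    · have : ∀ (i : Fin 2) (x y z : G3), d4 x = .inl i → d4 y = .inl i → d4 z = .inl i →
        d4 (x - y + z) = .inl i := by decide +kernel
      intro x hx y hy z hz
      exact this i x y z hx hy hz
  hs := by
    simp only [AddSubgroup.mem_bot]
    decide
  prim := by
    classical
    intro S hS
    have hb : ∀ k : Fin 2 ⊕ Fin 2, b4 (decide (.inl 0 ∈ S)) (decide (.inl 1 ∈ S))
        (decide (.inr 0 ∈ S)) (decide (.inr 1 ∈ S)) k = true ↔ k ∈ S := by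
      intro k
      rcases k with k | k <;> fin_cases k <;> simp [b4]
    have h1 := chk4 _ _ _ _ (chk_sound p3 _ S _ hb hS)
    rcases h1 with h1 | h1
    · left
      simp only [Bool.and_eq_true, decide_eq_true_eq] at h1
      rw [Set.eq_univ_iff_forall]
      intro k
      rcases k with k | k <;> fin_cases k <;> tauto
    · right
      intro k hk l hl
      have key : ∀ (x y z w : Bool) (k l : Fin 2 ⊕ Fin 2), x.toNat + y.toNat + z.toNat + w.toNat ≤ 1 →
        b4 x y z w k = true → b4 x y z w l = true → k = l := by decide +kernel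
      exact key _ _ _ _ k l h1 ((hb k).2 hk) ((hb l).2 hl)

abbrev G4 := ZMod 2 × ZMod 2 × ZMod 2 × ZMod 2

/-- the colouring for seven tiles -/
def d7 : G4 → Fin 5 ⊕ Fin 4
  | (0,0,0,0) => .inl 0
  | (0,0,0,1) => .inl 0
  | (1,0,1,0) => .inl 0
  | (1,0,1,1) => .inl 0
  | (0,0,1,0) => .inl 1
  | (0,0,1,1) => .inl 1
  | (0,1,0,0) => .inl 2
  | (0,1,1,0) => .inl 2
  | (0,1,0,1) => .inl 3
  | (1,1,0,1) => .inl 3
  | (0,1,1,1) => .inl 4
  | (1,1,1,0) => .inl 4
  | (1,0,0,0) => .inr 0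
  | (1,1,0,0) => .inr 1
  | (1,0,0,1) => .inr 2
  | (1,1,1,1) => .inr 3

def p4 : List G4 := [(0,0,0,0),(0,0,0,1),(0,0,1,0),(0,0,1,1),(0,1,0,0),(0,1,0,1),(0,1,1,0),(0,1,1,1),
  (1,0,0,0),(1,0,0,1),(1,0,1,0),(1,0,1,1),(1,1,0,0),(1,1,0,1),(1,1,1,0),(1,1,1,1)]

abbrev b7 (x0 x1 x2 x3 x4 x5 x6 : Bool) : Fin 5 ⊕ Fin 2 → Bool
  | .inl 0 => x0
  | .inl 1 => x1
  | .inl 2 => x2
  | .inl 3 => x3
  | .inl 4 => x4
  | .inr 0 => x5
  | .inr 1 => x6

theorem chk7 : ∀ x0 x1 x2 x3 x4 x5 x6 : Bool, chk (fun x y z : G4 => x - y + z) p4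
    (fun g => mrg (d7 g)) (b7 x0 x1 x2 x3 x4 x5 x6) = false →
    (x0 && x1 && x2 && x3 && x4 && x5 && x6) = true ∨
      ((x0.toNat + x1.toNat + x2.toNat + x3.toNat + x4.toNat + x5.toNat + x6.toNat) ≤ 1) := by
  decide +kernel

def base7 : St G4 (Fin 5) where
  two := by decide
  d := d7
  K := ⊥
  a := ![(1,0,0,0),(1,1,0,0),(1,0,0,1),(1,1,1,1)]
  hr := by
    simp only [AddSubgroup.mem_bot, sub_eq_zero]
    decide
  hl := by
    intro i
    refine isCoset_of_tri ?_ ?_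
    · fin_cases i
      · exact ⟨(0,0,0,0), rfl⟩
      · exact ⟨(0,0,1,0), rfl⟩
      · exact ⟨(0,1,0,0), rfl⟩
      · exact ⟨(0,1,0,1), rfl⟩
      · exact ⟨(0,1,1,1), rfl⟩
    · have : ∀ (i : Fin 5) (x y z : G4), d7 x = .inl i → d7 y = .inl i → d7 z = .inl i →
        d7 (x - y + z) = .inl i := by decide +kernel
      intro x hx y hy z hz
      exact this i x y z hx hy hz
  hs := by
    simp only [AddSubgroup.mem_bot]
    decide
  prim := by
    classical
    intro S hS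
    have hb : ∀ k : Fin 5 ⊕ Fin 2, b7 (decide (.inl 0 ∈ S)) (decide (.inl 1 ∈ S))
        (decide (.inl 2 ∈ S)) (decide (.inl 3 ∈ S)) (decide (.inl 4 ∈ S))
        (decide (.inr 0 ∈ S)) (decide (.inr 1 ∈ S)) k = true ↔ k ∈ S := by
      intro k
      rcases k with k | k <;> fin_cases k <;> simp [b7]
    have h1 := chk7 _ _ _ _ _ _ _ (chk_sound p4 _ S _ hb hS)
    rcases h1 with h1 | h1
    · left
      simp only [Bool.and_eq_true, decide_eq_true_eq] at h1
      rw [Set.eq_univ_iff_forall]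
      intro k
      rcases k with k | k <;> fin_cases k <;> tauto
    · right
      intro k hk l hl
      have key : ∀ (x0 x1 x2 x3 x4 x5 x6 : Bool) (k l : Fin 5 ⊕ Fin 2),
        x0.toNat + x1.toNat + x2.toNat + x3.toNat + x4.toNat + x5.toNat + x6.toNat ≤ 1 →
        b7 x0 x1 x2 x3 x4 x5 x6 k = true → b7 x0 x1 x2 x3 x4 x5 x6 l = true → k = l := by
        decide +kernel
      exact key _ _ _ _ _ _ _ k l h1 ((hb k).2 hk) ((hb l).2 hl)

end Pool.Agent.R174.Prim
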