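import Mathlib
import Pool.Agent.R174.TilB

open Set Metric Topology

namespace Pool.Agent.R174.Til

noncomputable def xA (t : ℝ) : ℝ := max (min (min (1/2+t/2) 1) (3-t)) (max 0 ((t-4)/2))
noncomputable def yA (t : ℝ) : ℝ := max 0 (min (min (t-1) 1) (4-t))

lemma xA_cont : Continuous xA := by unfold xA; fun_prop
lemma yA_cont : Continuous yA := by unfold yA; fun_prop

lemma p1 {t : ℝ} (h0 : 0 ≤ t) (h1 : t ≤ 1) : xA t = 1/2+t/2 ∧ yA t = 0 := by
  unfold xA yA
  constructor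
  · rw [min_eq_left (by linarith : 1/2+t/2 ≤ 1), min_eq_left (by linarith : 1/2+t/2 ≤ 3-t),
      max_eq_left (by linarith : (t-4)/2 ≤ 0), max_eq_left (by linarith)]
  · rw [min_eq_left (by linarith : t-1 ≤ 1), min_eq_left (by linarith : t-1 ≤ 4-t),
      max_eq_left (by linarith)]

lemma p2 {t : ℝ} (h0 : 1 ≤ t) (h1 : t ≤ 2) : xA t = 1 ∧ yA t = t-1 := by
  unfold xA yA
  constructor
  · rw [min_eq_right (by linarith : 1 ≤ 1/2+t/2), min_eq_left (by linarith : 1 ≤ 3-t),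
      max_eq_left (by linarith : (t-4)/2 ≤ 0), max_eq_left (by linarith)]
  · rw [min_eq_left (by linarith : t-1 ≤ 1), min_eq_left (by linarith : t-1 ≤ 4-t),
      max_eq_right (by linarith)]

lemma p3 {t : ℝ} (h0 : 2 ≤ t) (h1 : t ≤ 3) : xA t = 3-t ∧ yA t = 1 := by
  unfold xA yA
  constructor
  · rw [min_eq_right (by linarith : 1 ≤ 1/2+t/2), min_eq_right (by linarith : 3-t ≤ 1),
      max_eq_left (by linarith : (t-4)/2 ≤ 0), max_eq_left (by linarith)]
  · rw [min_eq_right (by linarith : 1 ≤ t-1), min_eq_left (by linarith : 1 ≤ 4-t),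
      max_eq_right (by linarith)]

lemma p4 {t : ℝ} (h0 : 3 ≤ t) (h1 : t ≤ 4) : xA t = 0 ∧ yA t = 4-t := by
  unfold xA yA
  constructor
  · rw [min_eq_right (by linarith : 1 ≤ 1/2+t/2), min_eq_right (by linarith : 3-t ≤ 1),
      max_eq_left (by linarith : (t-4)/2 ≤ 0), max_eq_right (by linarith)]
  · rw [min_eq_right (by linarith : 1 ≤ t-1), min_eq_right (by linarith : 4-t ≤ 1),
      max_eq_right (by linarith)]

lemma p5 {t : ℝ} (h0 : 4 ≤ t) (h1 : t ≤ 5) : xA t = (t-4)/2 ∧ yA t = 0 := by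
  unfold xA yA
  constructor
  · rw [min_eq_right (by linarith : 1 ≤ 1/2+t/2), min_eq_right (by linarith : 3-t ≤ 1),
      max_eq_right (by linarith : 0 ≤ (t-4)/2), max_eq_right (by linarith)]
  · rw [min_eq_right (by linarith : 1 ≤ t-1), min_eq_right (by linarith : 4-t ≤ 1),
      max_eq_left (by linarith)]

lemma pieces {t : ℝ} (h0 : 0 ≤ t) (h5 : t ≤ 5) :
    (t ≤ 1 ∧ xA t = 1/2+t/2 ∧ yA t = 0) ∨ (1 ≤ t ∧ t ≤ 2 ∧ xA t = 1 ∧ yA t = t-1) ∨
    (2 ≤ t ∧ t ≤ 3 ∧ xA t = 3-t ∧ yA t = 1) ∨ (3 ≤ t ∧ t ≤ 4 ∧ xA t = 0 ∧ yA t = 4-t) ∨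
    (4 ≤ t ∧ xA t = (t-4)/2 ∧ yA t = 0) := by
  rcases le_total t 1 with h | h
  · exact Or.inl ⟨h, p1 h0 h⟩
  rcases le_total t 2 with h' | h'
  · exact Or.inr (Or.inl ⟨h, h', p2 h h'⟩)
  rcases le_total t 3 with h'' | h''
  · exact Or.inr (Or.inr (Or.inl ⟨h', h'', p3 h' h''⟩))
  rcases le_total t 4 with h3 | h3
  · exact Or.inr (Or.inr (Or.inr (Or.inl ⟨h'', h3, p4 h'' h3⟩)))
  · exact Or.inr (Or.inr (Or.inr (Or.inr ⟨h3, p5 h3 h5⟩)))

lemma inj_xy {t u : ℝ} (ht0 : 0 ≤ t) (ht5 : t < 5) (hu0 : 0 ≤ u) (hu5 : u < 5)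
    (hx : xA t = xA u) (hy : yA t = yA u) : t = u := by
  rcases pieces ht0 ht5.le with ⟨a, b, c⟩ | ⟨a, a', b, c⟩ | ⟨a, a', b, c⟩ | ⟨a, a', b, c⟩ | ⟨a, b, c⟩ <;>
  rcases pieces hu0 hu5.le with ⟨d, e, f⟩ | ⟨d, d', e, f⟩ | ⟨d, d', e, f⟩ | ⟨d, d', e, f⟩ | ⟨d, e, f⟩ <;>
  linarith

lemma xy_mem {t : ℝ} (h0 : 0 ≤ t) (h5 : t ≤ 5) : 0 ≤ xA t ∧ xA t ≤ 1 ∧ 0 ≤ yA t ∧ yA t ≤ 1 ∧
    (xA t = 0 ∨ xA t = 1 ∨ yA t = 0 ∨ yA t = 1) := by
  rcases pieces h0 h5 with ⟨a, b, c⟩ | ⟨a, a', b, c⟩ | ⟨a, a', b, c⟩ | ⟨a, a', b, c⟩ | ⟨a, b, c⟩ <;>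
  refine ⟨by linarith, by linarith, by linarith, by linarith, ?_⟩ <;> simp [b, c]

lemma xy_surj {u v : ℝ} (hu0 : 0 ≤ u) (hu1 : u ≤ 1) (hv0 : 0 ≤ v) (hv1 : v ≤ 1)
    (h : u = 0 ∨ u = 1 ∨ v = 0 ∨ v = 1) : ∃ t, 0 ≤ t ∧ t ≤ 5 ∧ xA t = u ∧ yA t = v := by
  rcases h with h | h | h | h
  · obtain ⟨a, b⟩ := p4 (t := 4 - v) (by linarith) (by linarith)
    exact ⟨4-v, by linarith, by linarith, by linarith, by linarith⟩
  · obtain ⟨a, b⟩ := p2 (t := 1 + v) (by linarith) (by linarith)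
    exact ⟨1+v, by linarith, by linarith, by linarith, by linarith⟩
  · rcases le_total (1/2) u with h' | h'
    · obtain ⟨a, b⟩ := p1 (t := 2*u-1) (by linarith) (by linarith)
      exact ⟨2*u-1, by linarith, by linarith, by linarith, by linarith⟩
    · obtain ⟨a, b⟩ := p5 (t := 4+2*u) (by linarith) (by linarith)
      exact ⟨4+2*u, by linarith, by linarith, by linarith, by linarith⟩
  · obtain ⟨a, b⟩ := p3 (t := 3-u) (by linarith) (by linarith)
    exact ⟨3-u, by linarith, by linarith, by linarith, by linarith⟩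

/-- the boundary path -/
noncomputable def gam (a w c : ℝ) (t : ℝ) : ℂ := ⟨a + w * xA t, c + yA t⟩

lemma gam_cont (a w c : ℝ) : Continuous (gam a w c) := by
  have : gam a w c = fun t => ((a + w * xA t : ℝ) : ℂ) + ((c + yA t : ℝ) : ℂ) * Complex.I := by
    ext t
    apply Complex.ext <;> simp [gam]
  rw [this]
  have := xA_cont
  have := yA_cont
  fun_prop

lemma gam_inj {a w c : ℝ} (hw : w ≠ 0) : InjOn (gam a w c) (Ico 0 5) := by
  rintro t ⟨ht0, ht5⟩ u ⟨hu0, hu5⟩ h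
  have h1 := congrArg Complex.re h
  have h2 := congrArg Complex.im h
  simp only [gam] at h1 h2
  apply inj_xy ht0 ht5 hu0 hu5
  · have : w * xA t = w * xA u := by linarith
    exact mul_left_cancel₀ hw this
  · linarith

lemma gam_vals (a w c : ℝ) : gam a w c 0 = ⟨a + w/2, c⟩ ∧ gam a w c 1 = ⟨a+w, c⟩ ∧
    gam a w c 2 = ⟨a+w, c+1⟩ ∧ gam a w c 3 = ⟨a, c+1⟩ ∧ gam a w c 4 = ⟨a, c⟩ ∧
    gam a w c 5 = ⟨a+w/2, c⟩ := by
  obtain ⟨a0, b0⟩ := p1 (t := 0) (by norm_num) (by norm_num)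
  obtain ⟨a1, b1⟩ := p2 (t := 1) (by norm_num) (by norm_num)
  obtain ⟨a2, b2⟩ := p3 (t := 2) (by norm_num) (by norm_num)
  obtain ⟨a3, b3⟩ := p4 (t := 3) (by norm_num) (by norm_num)
  obtain ⟨a4, b4⟩ := p5 (t := 4) (by norm_num) (by norm_num)
  obtain ⟨a5, b5⟩ := p5 (t := 5) (by norm_num) (by norm_num)
  refine ⟨?_, ?_, ?_, ?_, ?_, ?_⟩ <;> apply Complex.ext <;>
    simp only [gam, a0, b0, a1, b1, a2, b2, a3, b3, a4, b4, a5, b5] <;> ring

lemma frontier_R (s : ℕ → Bool) (k m : ℤ) (z : ℂ) : z ∈ frontier (R s k m) ↔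
    z ∈ R s k m ∧ (z.re = L s k m ∨ z.re = L s k (m+1) ∨ z.im = k ∨ z.im = k+1) := by
  rw [(R_closed s k m).frontier_eq, Set.mem_sdiff, R_interior]
  constructor
  · rintro ⟨h, h'⟩
    refine ⟨h, ?_⟩
    obtain ⟨h1, h2, h3, h4⟩ := h
    by_contra hcon
    push Not at hcon
    obtain ⟨g1, g2, g3, g4⟩ := hcon
    exact h' ⟨lt_of_le_of_ne h1 (Ne.symm g1), lt_of_le_of_ne h2 g2, lt_of_le_of_ne h3 (Ne.symm g3),
      lt_of_le_of_ne h4 g4⟩
  · rintro ⟨h, h'⟩
    refine ⟨h, ?_⟩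
    rintro ⟨g1, g2, g3, g4⟩
    rcases h' with h' | h' | h' | h' <;> linarith

lemma gam_image_pos {s : ℕ → Bool} {k m : ℤ} :
    gam (L s k m) ((2:ℝ)^k) k '' Icc 0 5 = frontier (R s k m) := by
  have h2 : (0:ℝ) < (2:ℝ)^k := by positivity
  ext z
  rw [frontier_R]
  constructor
  · rintro ⟨t, ⟨h0, h5⟩, rfl⟩
    obtain ⟨x0, x1, y0, y1, h⟩ := xy_mem h0 h5
    simp only [gam, R, Set.mem_ofPred_eq, L_add_one]
    refine ⟨⟨?_, ?_, ?_, ?_⟩, ?_⟩
    · nlinarith
    · nlinarith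
    · linarith
    · linarith
    · rcases h with h | h | h | h
      · left; rw [h]; ring
      · right; left; rw [h]; ring
      · right; right; left; rw [h]; ring
      · right; right; right; rw [h]
  · rintro ⟨⟨h1, h2', h3, h4⟩, h⟩
    rw [L_add_one] at h2' h
    obtain ⟨t, t0, t5, hx, hy⟩ := xy_surj (u := (z.re - L s k m)/(2:ℝ)^k) (v := z.im - k)
      (div_nonneg (by linarith) h2.le) ((div_le_one h2).2 (by linarith)) (by linarith) (by linarith)
      (by
        rcases h with h | h | h | h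
        · left; rw [h]; simp
        · right; left; rw [h]; field_simp; ring
        · right; right; left; rw [h]; ring
        · right; right; right; rw [h]; ring)
    refine ⟨t, ⟨t0, t5⟩, ?_⟩
    apply Complex.ext
    · simp only [gam, hx]; field_simp; ring
    · simp only [gam, hy]; ring

lemma gam_image_neg {s : ℕ → Bool} {k m : ℤ} :
    gam (L s k (m+1)) (-(2:ℝ)^k) k '' Icc 0 5 = frontier (R s k m) := by
  have h2 : (0:ℝ) < (2:ℝ)^k := by positivity
  ext z
  rw [frontier_R]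
  constructor
  · rintro ⟨t, ⟨h0, h5⟩, rfl⟩
    obtain ⟨x0, x1, y0, y1, h⟩ := xy_mem h0 h5
    simp only [gam, R, Set.mem_ofPred_eq, L_add_one]
    refine ⟨⟨?_, ?_, ?_, ?_⟩, ?_⟩
    · nlinarith
    · nlinarith
    · linarith
    · linarith
    · rcases h with h | h | h | h
      · right; left; rw [h]; ring
      · left; rw [h]; ring
      · right; right; left; rw [h]; ring
      · right; right; right; rw [h]
  · rintro ⟨⟨h1, h2', h3, h4⟩, h⟩
    rw [L_add_one] at h2' h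
    obtain ⟨t, t0, t5, hx, hy⟩ := xy_surj (u := (L s k m + 2^k - z.re)/(2:ℝ)^k) (v := z.im - k)
      (div_nonneg (by linarith) h2.le) ((div_le_one h2).2 (by linarith)) (by linarith) (by linarith)
      (by
        rcases h with h | h | h | h
        · right; left; rw [h]; field_simp; ring
        · left; rw [h]; simp
        · right; right; left; rw [h]; ring
        · right; right; right; rw [h]; ring)
    refine ⟨t, ⟨t0, t5⟩, ?_⟩
    apply Complex.ext
    · simp only [gam, hx, L_add_one]; field_simp; ring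
    · simp only [gam, hy]; ring

lemma V3_eq (s : ℕ → Bool) (k m : ℤ) : V3 s k m = ⟨L s k m + (2:ℝ)^k/2, k⟩ := by
  unfold V3
  rw [show 2*m+1-dig s (k-1) = (2*m - dig s (k-1)) + 1 by ring, L_add_one, ← L_down,
    zpow_sub_one₀ (by norm_num)]
  rfl

lemma V3_eq' (s : ℕ → Bool) (k m : ℤ) : V3 s (k+1) m = ⟨L s k (2*m+1-dig s k), (k:ℝ)+1⟩ := by
  unfold V3
  rw [add_sub_cancel_right]
  push_cast
  rfl

lemma V4_eq' (s : ℕ → Bool) (k m : ℤ) : V4 s (k+1) m = ⟨L s k (2*m-dig s k), (k:ℝ)+1⟩ := by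
  unfold V4
  rw [L_up]
  push_cast
  rfl

lemma T_hasType (s : ℕ → Bool) (k m : ℤ) : HasType34344 (T s) (R s k m) := by
  have h2 : (0:ℝ) < (2:ℝ)^k := by positivity
  rcases Int.even_or_odd (m + dig s k) with ⟨c, hc⟩ | ⟨c, hc⟩
  · -- left child
    obtain ⟨g0, g1, g2, g3, g4, g5⟩ := gam_vals (L s k m) ((2:ℝ)^k) k
    have e0 : gam (L s k m) ((2:ℝ)^k) k 0 = V3 s k m := by rw [g0, V3_eq]
    have e1 : gam (L s k m) ((2:ℝ)^k) k 1 = V4 s k (m+1) := by rw [g1, V4, L_add_one]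
    have e2 : gam (L s k m) ((2:ℝ)^k) k 2 = V3 s (k+1) c := by
      rw [g2, V3_eq', show 2*c+1-dig s k = m+1 by omega, L_add_one]
    have e3 : gam (L s k m) ((2:ℝ)^k) k 3 = V4 s (k+1) c := by
      rw [g3, V4_eq', show 2*c-dig s k = m by omega]
    have e4 : gam (L s k m) ((2:ℝ)^k) k 4 = V4 s k m := by rw [g4, V4]
    refine ⟨gam (L s k m) ((2:ℝ)^k) k, gam_cont _ _ _, by rw [g0, g5], gam_inj h2.ne', gam_image_pos,
      ?_, ?_, ?_, ?_, ?_, ?_⟩
    · rw [e0, e1, e2, e3, e4]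
      ext v
      simp only [Set.mem_ofPred_eq, Set.mem_insert_iff, Set.mem_singleton_iff]
      constructor
      · rintro ⟨hv, hv'⟩
        rcases vertex_class s v hv' with ⟨p, q, rfl⟩ | ⟨p, q, rfl⟩
        · rw [V3_mem] at hv
          rcases hv with ⟨rfl, rfl⟩ | ⟨hk, hq⟩
          · left; rfl
          · right; right; left
            have : p = k+1 := by omega
            subst this
            rw [add_sub_cancel_right] at hq
            rw [show q = c by omega]
        · rw [V4_mem] at hv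
          rcases hv with ⟨rfl, hq⟩ | ⟨hk, hq⟩
          · rcases hq with rfl | rfl
            · right; right; right; right; rfl
            · right; left; rw [sub_add_cancel]
          · right; right; right; left
            have : p = k+1 := by omega
            subst this
            rw [add_sub_cancel_right] at hq
            rw [show q = c by omega]
      · rintro (rfl | rfl | rfl | rfl | rfl)
        · exact ⟨(V3_mem ..).2 (by unfold inc3; omega), by unfold IsVertex; rw [valence_V3]⟩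
        · exact ⟨(V4_mem ..).2 (by unfold inc4; omega), by unfold IsVertex; rw [valence_V4]; norm_num⟩
        · refine ⟨(V3_mem ..).2 ?_, by unfold IsVertex; rw [valence_V3]⟩
          unfold inc3; rw [add_sub_cancel_right k 1]; omega
        · refine ⟨(V4_mem ..).2 ?_, by unfold IsVertex; rw [valence_V4]; norm_num⟩
          unfold inc4; rw [add_sub_cancel_right k 1]; omega
        · exact ⟨(V4_mem ..).2 (by unfold inc4; omega), by unfold IsVertex; rw [valence_V4]; norm_num⟩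
    · rw [e0, valence_V3]
    · rw [e1, valence_V4]
    · rw [e2, valence_V3]
    · rw [e3, valence_V4]
    · rw [e4, valence_V4]
  · -- right child
    obtain ⟨g0, g1, g2, g3, g4, g5⟩ := gam_vals (L s k (m+1)) (-(2:ℝ)^k) k
    have e0 : gam (L s k (m+1)) (-(2:ℝ)^k) k 0 = V3 s k m := by
      rw [g0, V3_eq, L_add_one]; congr 1; ring
    have e1 : gam (L s k (m+1)) (-(2:ℝ)^k) k 1 = V4 s k m := by
      rw [g1, V4, L_add_one]; congr 1; ring
    have e2 : gam (L s k (m+1)) (-(2:ℝ)^k) k 2 = V3 s (k+1) c := by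
      rw [g2, V3_eq', show 2*c+1-dig s k = m by omega, L_add_one]; congr 1; ring
    have e3 : gam (L s k (m+1)) (-(2:ℝ)^k) k 3 = V4 s (k+1) (c+1) := by
      rw [g3, V4_eq', show 2*(c+1)-dig s k = m+1 by omega]
    have e4 : gam (L s k (m+1)) (-(2:ℝ)^k) k 4 = V4 s k (m+1) := by rw [g4, V4]
    refine ⟨gam (L s k (m+1)) (-(2:ℝ)^k) k, gam_cont _ _ _, by rw [g0, g5],
      gam_inj (neg_ne_zero.2 h2.ne'), gam_image_neg, ?_, ?_, ?_, ?_, ?_, ?_⟩
    · rw [e0, e1, e2, e3, e4]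
      ext v
      simp only [Set.mem_ofPred_eq, Set.mem_insert_iff, Set.mem_singleton_iff]
      constructor
      · rintro ⟨hv, hv'⟩
        rcases vertex_class s v hv' with ⟨p, q, rfl⟩ | ⟨p, q, rfl⟩
        · rw [V3_mem] at hv
          rcases hv with ⟨rfl, rfl⟩ | ⟨hk, hq⟩
          · left; rfl
          · right; right; left
            have : p = k+1 := by omega
            subst this
            rw [add_sub_cancel_right] at hq
            rw [show q = c by omega]
        · rw [V4_mem] at hv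
          rcases hv with ⟨rfl, hq⟩ | ⟨hk, hq⟩
          · rcases hq with rfl | rfl
            · right; left; rfl
            · right; right; right; right; rw [sub_add_cancel]
          · right; right; right; left
            have : p = k+1 := by omega
            subst this
            rw [add_sub_cancel_right] at hq
            rw [show q = c+1 by omega]
      · rintro (rfl | rfl | rfl | rfl | rfl)
        · exact ⟨(V3_mem ..).2 (by unfold inc3; omega), by unfold IsVertex; rw [valence_V3]⟩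
        · exact ⟨(V4_mem ..).2 (by unfold inc4; omega), by unfold IsVertex; rw [valence_V4]; norm_num⟩
        · refine ⟨(V3_mem ..).2 ?_, by unfold IsVertex; rw [valence_V3]⟩
          unfold inc3; rw [add_sub_cancel_right k 1]; omega
        · refine ⟨(V4_mem ..).2 ?_, by unfold IsVertex; rw [valence_V4]; norm_num⟩
          unfold inc4; rw [add_sub_cancel_right k 1]; omega
        · exact ⟨(V4_mem ..).2 (by unfold inc4; omega), by unfold IsVertex; rw [valence_V4]; norm_num⟩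
    · rw [e0, valence_V3]
    · rw [e1, valence_V4]
    · rw [e2, valence_V3]
    · rw [e3, valence_V4]
    · rw [e4, valence_V4]

lemma T_homogeneous (s : ℕ → Bool) : IsHomogeneous34344 (T s) := by
  refine ⟨T_isNormal s, ?_⟩
  rintro X ⟨k, m, rfl⟩
  exact T_hasType s k m

end Pool.Agent.R174.Til
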