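import Mathlib
import Pool.Agent.R174.TilC

open Set Metric Topology

namespace Pool.Agent.R174.Til

/-- at its vertex `v` of valence three, the tile `X` prefers its neighbour `Y` -/
def Sel (T : Set (Set ℂ)) (X : Set ℂ) (v : ℂ) (Y : Set ℂ) : Prop :=
  ∃ (w u : ℂ) (Z : Set ℂ), w ∈ X ∧ w ∈ Y ∧ valence T w = 4 ∧ u ∈ X ∧ valence T u = 3 ∧ u ≠ v ∧
    Z ∈ T ∧ Z ≠ X ∧ w ∈ Z ∧ u ∈ Z

/-- `Y` is the parent of `X` (with common vertex `v` and sibling `Z`) -/
def ParAt (T : Set (Set ℂ)) (X Y : Set ℂ) (v : ℂ) (Z : Set ℂ) : Prop :=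
  valence T v = 3 ∧ X ∈ T ∧ Y ∈ T ∧ Z ∈ T ∧ v ∈ X ∧ v ∈ Y ∧ v ∈ Z ∧ X ≠ Y ∧ X ≠ Z ∧ Y ≠ Z ∧
    Sel T X v Z ∧ Sel T Z v X

def Par (T : Set (Set ℂ)) (X Y : Set ℂ) : Prop := ∃ v Z, ParAt T X Y v Z

def Turn (T : Set (Set ℂ)) (X Y : Set ℂ) : Prop := ∃ v Z, ParAt T X Y v Z ∧ Sel T Y v X

lemma symm_img (h : ℂ ≃ₜ ℂ) (X : Set ℂ) : h.symm '' (h '' X) = X :=
  h.toEquiv.symm_image_image X

section invariance

variable {T T' : Set (Set ℂ)} (h : ℂ ≃ₜ ℂ) (hT : BijOn (fun X : Set ℂ => h '' X) T T')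

include hT

lemma mapsTo_iff (X : Set ℂ) : h '' X ∈ T' ↔ X ∈ T := by
  constructor
  · intro hX
    obtain ⟨Y, hY, hYX⟩ := hT.surjOn hX
    have : Y = X := h.injective.image_injective hYX
    rwa [← this]
  · intro hX; exact hT.mapsTo hX

lemma valence_map (x : ℂ) : valence T' (h x) = valence T x := by
  unfold valence
  have : {X | X ∈ T' ∧ h x ∈ X} = (fun X : Set ℂ => h '' X) '' {X | X ∈ T ∧ x ∈ X} := by
    ext X
    constructor
    · rintro ⟨hX, hx⟩
      obtain ⟨Y, hY, rfl⟩ := hT.surjOn hX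
      refine ⟨Y, ⟨hY, ?_⟩, rfl⟩
      exact (h.injective.mem_set_image).1 hx
    · rintro ⟨Y, ⟨hY, hx⟩, rfl⟩
      exact ⟨hT.mapsTo hY, Set.mem_image_of_mem _ hx⟩
  rw [this]
  exact h.injective.image_injective.encard_image _

lemma sel_map {X Y : Set ℂ} {v : ℂ} (hs : Sel T X v Y) : Sel T' (h '' X) (h v) (h '' Y) := by
  obtain ⟨w, u, Z, h1, h2, h3, h4, h5, h6, h7, h8, h9, h10⟩ := hs
  refine ⟨h w, h u, h '' Z, Set.mem_image_of_mem _ h1, Set.mem_image_of_mem _ h2, ?_,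
    Set.mem_image_of_mem _ h4, ?_, ?_, ?_, ?_, Set.mem_image_of_mem _ h9, Set.mem_image_of_mem _ h10⟩
  · rw [valence_map h hT, h3]
  · rw [valence_map h hT, h5]
  · intro hh; exact h6 (h.injective hh)
  · exact hT.mapsTo h7
  · intro hh; exact h8 (h.injective.image_injective hh)

lemma parAt_map {X Y Z : Set ℂ} {v : ℂ} (hp : ParAt T X Y v Z) :
    ParAt T' (h '' X) (h '' Y) (h v) (h '' Z) := by
  obtain ⟨h1, h2, h3, h4, h5, h6, h7, h8, h9, h10, h11, h12⟩ := hp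
  refine ⟨?_, hT.mapsTo h2, hT.mapsTo h3, hT.mapsTo h4, Set.mem_image_of_mem _ h5,
    Set.mem_image_of_mem _ h6, Set.mem_image_of_mem _ h7, ?_, ?_, ?_, sel_map h hT h11,
    sel_map h hT h12⟩
  · rw [valence_map h hT, h1]
  · intro hh; exact h8 (h.injective.image_injective hh)
  · intro hh; exact h9 (h.injective.image_injective hh)
  · intro hh; exact h10 (h.injective.image_injective hh)

lemma par_map {X Y : Set ℂ} (hp : Par T X Y) : Par T' (h '' X) (h '' Y) := by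
  obtain ⟨v, Z, hp⟩ := hp
  exact ⟨_, _, parAt_map h hT hp⟩

lemma turn_map {X Y : Set ℂ} (hp : Turn T X Y) : Turn T' (h '' X) (h '' Y) := by
  obtain ⟨v, Z, hp, hs⟩ := hp
  exact ⟨_, _, parAt_map h hT hp, sel_map h hT hs⟩

lemma symm_bij : BijOn (fun X : Set ℂ => h.symm '' X) T' T := by
  refine ⟨?_, ?_, ?_⟩
  · intro X hX
    obtain ⟨Y, hY, rfl⟩ := hT.surjOn hX
    simp only [symm_img]
    exact hY
  · exact h.symm.injective.image_injective.injOn
  · intro X hX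
    exact ⟨h '' X, hT.mapsTo hX, by simp only [symm_img]⟩

lemma turn_map_iff {X Y : Set ℂ} : Turn T' (h '' X) (h '' Y) ↔ Turn T X Y := by
  constructor
  · intro ht
    have := turn_map h.symm (symm_bij h hT) ht
    rwa [symm_img, symm_img] at this
  · exact turn_map h hT

end invariance

/-! ### computation in `T s` -/

lemma V3_mem' (s : ℕ → Bool) (k m j n : ℤ) : V3 s k m ∈ R s j n ↔
    (k = j ∧ m = n) ∨ (k = j+1 ∧ (n = 2*m - dig s j ∨ n = 2*m+1-dig s j)) := by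
  rw [V3_mem]
  unfold inc3
  constructor
  · rintro (⟨rfl, rfl⟩ | ⟨rfl, h⟩)
    · simp
    · right; exact ⟨by omega, h⟩
  · rintro (⟨rfl, rfl⟩ | ⟨rfl, h⟩)
    · simp
    · right; rw [add_sub_cancel_right]; exact ⟨rfl, h⟩

lemma V4_mem' (s : ℕ → Bool) (k m j n : ℤ) : V4 s k m ∈ R s j n ↔
    (k = j ∧ (n = m ∨ n = m-1)) ∨ (k = j+1 ∧ (n = 2*m - dig s j ∨ n = 2*m-1-dig s j)) := by
  rw [V4_mem]
  unfold inc4
  constructor
  · rintro (⟨rfl, h⟩ | ⟨rfl, h⟩)
    · left; exact ⟨rfl, h⟩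
    · right; exact ⟨by omega, h⟩
  · rintro (⟨rfl, h⟩ | ⟨rfl, h⟩)
    · left; exact ⟨rfl, h⟩
    · right; rw [add_sub_cancel_right j 1]; exact ⟨rfl, h⟩

lemma V3_inj {s : ℕ → Bool} {k m k' m' : ℤ} (h : V3 s k m = V3 s k' m') : k = k' ∧ m = m' := by
  have h2 : (k:ℝ) = k' := congrArg Complex.im h
  have h3 : k = k' := by exact_mod_cast h2
  subst h3
  have h1 : L s (k-1) (2*m+1-dig s (k-1)) = L s (k-1) (2*m'+1-dig s (k-1)) := congrArg Complex.re h
  rw [L_inj] at h1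
  exact ⟨rfl, by omega⟩

lemma val3_class {s : ℕ → Bool} {v : ℂ} (h : valence (T s) v = 3) : ∃ k m, v = V3 s k m := by
  rcases vertex_class s v (by unfold IsVertex; rw [h]) with h1 | ⟨k, m, rfl⟩
  · exact h1
  · rw [valence_V4] at h; norm_num at h

lemma val4_class {s : ℕ → Bool} {v : ℂ} (h : valence (T s) v = 4) : ∃ k m, v = V4 s k m := by
  rcases vertex_class s v (by unfold IsVertex; rw [h]; norm_num) with ⟨k, m, rfl⟩ | h1
  · rw [valence_V3] at h; norm_num at h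
  · exact h1

lemma sel_iff (s : ℕ → Bool) (k m p q k' m' : ℤ) : Sel (T s) (R s k m) (V3 s p q) (R s k' m') ↔
    ∃ a b a' b' j n : ℤ, V4 s a b ∈ R s k m ∧ V4 s a b ∈ R s k' m' ∧ V3 s a' b' ∈ R s k m ∧
      ¬ (a' = p ∧ b' = q) ∧ ¬ (j = k ∧ n = m) ∧ V4 s a b ∈ R s j n ∧ V3 s a' b' ∈ R s j n := by
  constructor
  · rintro ⟨w, u, Z, h1, h2, h3, h4, h5, h6, ⟨j, n, rfl⟩, h8, h9, h10⟩
    obtain ⟨a, b, rfl⟩ := val4_class h3
    obtain ⟨a', b', rfl⟩ := val3_class h5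
    refine ⟨a, b, a', b', j, n, h1, h2, h4, ?_, ?_, h9, h10⟩
    · rintro ⟨rfl, rfl⟩; exact h6 rfl
    · rintro ⟨rfl, rfl⟩; exact h8 rfl
  · rintro ⟨a, b, a', b', j, n, h1, h2, h3, h4, h5, h6, h7⟩
    refine ⟨V4 s a b, V3 s a' b', R s j n, h1, h2, valence_V4 _ _ _, h3, valence_V3 _ _ _, ?_,
      ⟨j, n, rfl⟩, ?_, h6, h7⟩
    · intro h; exact h4 (V3_inj h)
    · intro h; exact h5 (R_inj h)

lemma selA (s : ℕ → Bool) (k m c : ℤ) (hm : m = 2*c - dig s k ∨ m = 2*c+1-dig s k) :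
    ¬ Sel (T s) (R s k m) (V3 s (k+1) c) (R s (k+1) c) := by
  rw [sel_iff]
  rintro ⟨a, b, a', b', j, n, h1, h2, h3, h4, h5, h6, h7⟩
  rw [V4_mem'] at h1 h2 h6
  rw [V3_mem'] at h3 h7
  have hd : j = k → dig s j = dig s k := by rintro rfl; rfl
  have hd' : j = k+1 → dig s j = dig s (k+1) := by rintro rfl; rfl
  omega

lemma selB (s : ℕ → Bool) (k m c : ℤ) (hm : m = 2*c - dig s k) :
    Sel (T s) (R s k m) (V3 s (k+1) c) (R s k (m+1)) := by
  rw [sel_iff]
  refine ⟨k, m+1, k, m, k-1, 2*m+1-dig s (k-1), ?_, ?_, ?_, by omega, by omega, ?_, ?_⟩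
  · rw [V4_mem']; omega
  · rw [V4_mem']; omega
  · rw [V3_mem']; omega
  · rw [V4_mem']; omega
  · rw [V3_mem']; omega

lemma selB' (s : ℕ → Bool) (k m c : ℤ) (hm : m = 2*c - dig s k) :
    Sel (T s) (R s k (m+1)) (V3 s (k+1) c) (R s k m) := by
  rw [sel_iff]
  refine ⟨k, m+1, k, m+1, k-1, 2*(m+1)-dig s (k-1), ?_, ?_, ?_, by omega, by omega, ?_, ?_⟩
  · rw [V4_mem']; omega
  · rw [V4_mem']; omega
  · rw [V3_mem']; omega
  · rw [V4_mem']; omega
  · rw [V3_mem']; omega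

/-- the side on which the tile `(k,m)` lies in its parent -/
def side (s : ℕ → Bool) (k m : ℤ) : ℤ := (m + dig s k) % 2

/-- index of the parent -/
def par (s : ℕ → Bool) (k m : ℤ) : ℤ := (m + dig s k) / 2

lemma par_side (s : ℕ → Bool) (k m : ℤ) : m = 2 * par s k m + side s k m - dig s k := by
  unfold par side; omega

lemma side_bd (s : ℕ → Bool) (k m : ℤ) : side s k m = 0 ∨ side s k m = 1 := by
  unfold side; omega

/-- a tile selects its right child iff it is a left child -/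
lemma selC_right (s : ℕ → Bool) (k m : ℤ) (j : ℤ) (hj : k = j+1) :
    Sel (T s) (R s k m) (V3 s k m) (R s j (2*m+1-dig s j)) ↔ side s k m = 0 := by
  have hp := par_side s k m
  have hs := side_bd s k m
  rw [sel_iff]
  constructor
  · rintro ⟨a, b, a', b', l, n, h1, h2, h3, h4, h5, h6, h7⟩
    rw [V4_mem'] at h1 h2 h6
    rw [V3_mem'] at h3 h7
    have hd : l = k → dig s l = dig s k := by rintro rfl; rfl
    have hd' : l = j → dig s l = dig s j := by rintro rfl; rfl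
    omega
  · intro h
    refine ⟨k, m+1, k+1, par s k m, k, m+1, ?_, ?_, ?_, by omega, by omega, ?_, ?_⟩
    · rw [V4_mem']; omega
    · rw [V4_mem']; omega
    · rw [V3_mem']; omega
    · rw [V4_mem']; omega
    · rw [V3_mem']; omega

lemma selC_left (s : ℕ → Bool) (k m : ℤ) (j : ℤ) (hj : k = j+1) :
    Sel (T s) (R s k m) (V3 s k m) (R s j (2*m-dig s j)) ↔ side s k m = 1 := by
  have hp := par_side s k m
  have hs := side_bd s k m
  rw [sel_iff]
  constructor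
  · rintro ⟨a, b, a', b', l, n, h1, h2, h3, h4, h5, h6, h7⟩
    rw [V4_mem'] at h1 h2 h6
    rw [V3_mem'] at h3 h7
    have hd : l = k → dig s l = dig s k := by rintro rfl; rfl
    have hd' : l = j → dig s l = dig s j := by rintro rfl; rfl
    omega
  · intro h
    refine ⟨k, m, k+1, par s k m, k, m-1, ?_, ?_, ?_, by omega, by omega, ?_, ?_⟩
    · rw [V4_mem']; omega
    · rw [V4_mem']; omega
    · rw [V3_mem']; omega
    · rw [V4_mem']; omega
    · rw [V3_mem']; omega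

lemma parAt_exists (s : ℕ → Bool) (k m : ℤ) :
    ∃ Z, ParAt (T s) (R s k m) (R s (k+1) (par s k m)) (V3 s (k+1) (par s k m)) Z := by
  have hp := par_side s k m
  have hs := side_bd s k m
  set c := par s k m with hc
  rcases hs with hs | hs
  · refine ⟨R s k (m+1), valence_V3 _ _ _, ⟨_, _, rfl⟩, ⟨_, _, rfl⟩, ⟨_, _, rfl⟩, ?_, ?_, ?_, ?_, ?_,
      ?_, ?_, ?_⟩
    · rw [V3_mem']; omega
    · rw [V3_mem']; omega
    · rw [V3_mem']; omega
    · rw [Ne, R_inj_iff]; omega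
    · rw [Ne, R_inj_iff]; omega
    · rw [Ne, R_inj_iff]; omega
    · exact selB s k m c (by omega)
    · exact selB' s k m c (by omega)
  · refine ⟨R s k (m-1), valence_V3 _ _ _, ⟨_, _, rfl⟩, ⟨_, _, rfl⟩, ⟨_, _, rfl⟩, ?_, ?_, ?_, ?_, ?_,
      ?_, ?_, ?_⟩
    · rw [V3_mem']; omega
    · rw [V3_mem']; omega
    · rw [V3_mem']; omega
    · rw [Ne, R_inj_iff]; omega
    · rw [Ne, R_inj_iff]; omega
    · rw [Ne, R_inj_iff]; omega
    · have := selB' s k (m-1) c (by omega)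
      rwa [sub_add_cancel] at this
    · have := selB s k (m-1) c (by omega)
      rwa [sub_add_cancel] at this

lemma parAt_unique {s : ℕ → Bool} {k m : ℤ} {Y Z : Set ℂ} {v : ℂ}
    (h : ParAt (T s) (R s k m) Y v Z) :
    Y = R s (k+1) (par s k m) ∧ v = V3 s (k+1) (par s k m) := by
  obtain ⟨h1, -, ⟨k', m', rfl⟩, ⟨k'', m'', rfl⟩, h5, h6, h7, h8, h9, h10, h11, h12⟩ := h
  obtain ⟨p, q, rfl⟩ := val3_class h1
  rw [Ne, R_inj_iff] at h8 h9 h10
  rw [V3_mem'] at h5 h6 h7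
  rcases h5 with ⟨rfl, rfl⟩ | ⟨hp5, h5⟩
  · exfalso
    rcases h7 with ⟨rfl, rfl⟩ | ⟨hp7, h7⟩
    · exact h9 ⟨rfl, rfl⟩
    · subst hp7
      exact selA s k'' m'' q h7 h12
  · subst hp5
    rcases h6 with ⟨rfl, rfl⟩ | ⟨hp6, h6⟩
    · have hp := par_side s k m
      have hs := side_bd s k m
      have hq : q = par s k m := by
        clear h11 h12 h7
        omega
      rw [hq]
      exact ⟨rfl, rfl⟩
    · exfalso
      rcases h7 with ⟨rfl, rfl⟩ | ⟨hp7, h7⟩
      · exact selA s k m q h5 h11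
      · have e1 : k' = k := by omega
        have e2 : k'' = k := by omega
        subst e1 
        subst e2
        clear h11 h12
        omega

lemma par_T {s : ℕ → Bool} {k m : ℤ} {Y : Set ℂ} : Par (T s) (R s k m) Y ↔
    Y = R s (k+1) (par s k m) := by
  constructor
  · rintro ⟨v, Z, h⟩
    exact (parAt_unique h).1
  · rintro rfl
    obtain ⟨Z, h⟩ := parAt_exists s k m
    exact ⟨_, _, h⟩

lemma turn_T {s : ℕ → Bool} {k m : ℤ} : Turn (T s) (R s k m) (R s (k+1) (par s k m)) ↔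
    side s k m ≠ side s (k+1) (par s k m) := by
  have hp := par_side s k m
  have hs := side_bd s k m
  have hs' := side_bd s (k+1) (par s k m)
  have key : Sel (T s) (R s (k+1) (par s k m)) (V3 s (k+1) (par s k m)) (R s k m) ↔
      side s k m ≠ side s (k+1) (par s k m) := by
    rcases hs with hs | hs
    · have := selC_left s (k+1) (par s k m) k rfl
      rw [show 2 * par s k m - dig s k = m by omega] at this
      rw [this]
      omega
    · have := selC_right s (k+1) (par s k m) k rfl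
      rw [show 2 * par s k m + 1 - dig s k = m by omega] at this
      rw [this]
      omega
  rw [← key]
  constructor
  · rintro ⟨v, Z, h, hsel⟩
    rw [(parAt_unique h).2] at hsel
    exact hsel
  · intro hsel
    obtain ⟨Z, h⟩ := parAt_exists s k m
    exact ⟨_, _, h, hsel⟩

/-- index of the `i`-th ancestor -/
def anc (s : ℕ → Bool) (k m : ℤ) : ℕ → ℤ
  | 0 => m
  | i+1 => par s (k+i) (anc s k m i)

/-- the sequence of sides seen from a tile -/
def sides (s : ℕ → Bool) (k m : ℤ) (i : ℕ) : ℤ := side s (k+i) (anc s k m i)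

lemma anc_zero (s : ℕ → Bool) (i : ℕ) : anc s 0 0 i = 0 := by
  induction i with
  | zero => rfl
  | succ i ih =>
    simp only [anc, ih, par]
    have := dig_bd s (0 + i)
    omega

lemma sides_zero (s : ℕ → Bool) (i : ℕ) : sides s 0 0 i = if s i = true then 1 else 0 := by
  unfold sides
  rw [anc_zero]
  unfold side dig
  simp
  split_ifs <;> simp

lemma transport {s t : ℕ → Bool} (h : ℂ ≃ₜ ℂ) (hT : BijOn (fun X : Set ℂ => h '' X) (T s) (T t)) :
    ∃ k m : ℤ, ∀ i : ℕ, h '' (R s i 0) = R t (k+i) (anc t k m i) := by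
  obtain ⟨k, m, hkm⟩ := hT.mapsTo (show R s 0 0 ∈ T s from ⟨_, _, rfl⟩)
  refine ⟨k, m, ?_⟩
  intro i
  induction i with
  | zero => simpa [anc] using hkm
  | succ i ih =>
    have h1 : Par (T s) (R s i 0) (R s (i+1) 0) := by
      rw [par_T]
      congr 1
      unfold par
      have := dig_bd s i
      omega
    have h2 := par_map h hT h1
    rw [ih, par_T] at h2
    push_cast
    rw [h2]
    rw [add_assoc]
    rfl

lemma sides_rel {s t : ℕ → Bool} (h : ℂ ≃ₜ ℂ) (hT : BijOn (fun X : Set ℂ => h '' X) (T s) (T t)) :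
    ∃ k m : ℤ, ∀ i : ℕ, (sides s 0 0 i ≠ sides s 0 0 (i+1)) ↔ (sides t k m i ≠ sides t k m (i+1)) := by
  obtain ⟨k, m, hkm⟩ := transport h hT
  refine ⟨k, m, ?_⟩
  intro i
  have h1 : Turn (T s) (R s i 0) (R s (i+1) 0) ↔ sides s 0 0 i ≠ sides s 0 0 (i+1) := by
    have := turn_T (s := s) (k := i) (m := 0)
    have hp : par s i 0 = 0 := by
      unfold par
      have := dig_bd s i
      omega
    rw [hp] at this
    rw [this]
    unfold sides
    rw [anc_zero, anc_zero, zero_add, zero_add]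
    push_cast
    rfl
  have h2 : Turn (T t) (R t (k+i) (anc t k m i)) (R t (k+(i+1:ℕ)) (anc t k m (i+1))) ↔
      sides t k m i ≠ sides t k m (i+1) := by
    have := turn_T (s := t) (k := k+i) (m := anc t k m i)
    unfold sides
    rw [show (k + ((i+1:ℕ):ℤ)) = k + i + 1 by push_cast; ring]
    exact this
  rw [← h1, ← h2, ← hkm i, ← hkm (i+1)]
  push_cast
  exact (turn_map_iff h hT).symm

end Pool.Agent.R174.Til
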